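import Pool.Agent.Lib.BSR.Defs

/-!
# Module BSR.AEF: elementary facts on `AE`

* `cl_mono`, `cl_bot`, `cl_sup`, `cl_disj`: from `cl_top`, `cl_inf`, `cl_compl` (`a ≤ b ↔ a ⊓ b = a`; `a ⊔ b = (aᶜ ⊓ bᶜ)ᶜ`; `⊥ = ⊤ᶜ`).
* `AE.mono_left`: `cl_mono`. `AE.all`: `CountableInterFilter` (`eventually_countable_forall`, `eventually_countable_ball`).
* `AE.iSup`: `loc`: let `a' ≤ ⨆ i, a i`, `a' ≠ ⊥`; some `a' ⊓ a i ≠ ⊥` (`inf_iSup_eq`), take `a'' = a' ⊓ a i`. `AE.sup` from `cl_sup`.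
* `AE.false`: `pos`. `AE.exists_pos`: `dec` (the set `S = {x | φ x}`).
* `AE.exists_nat`: if `¬ AE a (¬ φ n)` for no `n`, then `AE a (∀ n, ¬ φ n)` (`AE.all`), so `AE a False`, `a = ⊥`.
* `AE.le_iff`: `AE a (x ∈ cl b)` iff `a ⊓ bᶜ = ⊥` (`pos`).
* `measurable_ae`: `{x | x ∈ cl a ∧ φ x}` is measurable if `AE a φ` (`cl a` minus a null set, `null`).
-/

set_option autoImplicit false

open Set MeasureTheory Filter
open scoped ENNReal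

namespace Pool.Agent.Lib.BSR

universe u

variable {B X : Type u} [CompleteBooleanAlgebra B] [MeasurableSpace X] (𝔅 : Base B X)

theorem Base.cl_mono {a b : B} (h : a ≤ b) : 𝔅.cl a ⊆ 𝔅.cl b := by
  intro x hx
  have h1 : 𝔅.cl a = 𝔅.cl a ∩ 𝔅.cl b := by rw [← 𝔅.cl_inf, inf_eq_left.2 h]
  rw [h1] at hx
  exact hx.2

theorem Base.cl_bot : 𝔅.cl ⊥ = ∅ := by
  rw [← compl_top, 𝔅.cl_compl, 𝔅.cl_top, Set.compl_univ]

theorem Base.cl_sup (a b : B) : 𝔅.cl (a ⊔ b) = 𝔅.cl a ∪ 𝔅.cl b := by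
  have h1 : a ⊔ b = (aᶜ ⊓ bᶜ)ᶜ := by rw [compl_inf, compl_compl, compl_compl]
  rw [h1, 𝔅.cl_compl, 𝔅.cl_inf, 𝔅.cl_compl, 𝔅.cl_compl, Set.compl_inter, compl_compl, compl_compl]

theorem Base.cl_disj {a b : B} (h : a ⊓ b = ⊥) : Disjoint (𝔅.cl a) (𝔅.cl b) := by
  rw [Set.disjoint_iff_inter_eq_empty, ← 𝔅.cl_inf, h, 𝔅.cl_bot]

variable {𝔅}

theorem AE.mono_left {a a' : B} {φ : X → Prop} (h : 𝔅.AE a φ) (ha : a' ≤ a) : 𝔅.AE a' φ := by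
  exact Filter.Eventually.mono h (fun x hx hxa => hx (𝔅.cl_mono ha hxa))

theorem AE.mono {a : B} {φ ψ : X → Prop} (h : 𝔅.AE a φ) (hi : ∀ x, φ x → ψ x) : 𝔅.AE a ψ := by
  exact Filter.Eventually.mono h (fun x hx hxa => hi x (hx hxa))

theorem AE.and {a : B} {φ ψ : X → Prop} (h : 𝔅.AE a φ) (h' : 𝔅.AE a ψ) : 𝔅.AE a (fun x => φ x ∧ ψ x) := by
  exact (Filter.Eventually.and h h').mono (fun x hx hxa => ⟨hx.1 hxa, hx.2 hxa⟩)

theorem AE.mp {a : B} {φ ψ : X → Prop} (h : 𝔅.AE a φ) (h' : 𝔅.AE a (fun x => φ x → ψ x)) : 𝔅.AE a ψ := by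
  exact (Filter.Eventually.and h h').mono (fun x hx hxa => hx.2 hxa (hx.1 hxa))

theorem AE.of_all {a : B} {φ : X → Prop} (h : ∀ x, φ x) : 𝔅.AE a φ := by
  exact Filter.Eventually.of_forall (fun x _ => h x)

/-- `x ∈ cl a` may be used -/
theorem AE.of_mem {a : B} {φ : X → Prop} (h : ∀ x ∈ 𝔅.cl a, φ x) : 𝔅.AE a φ := by
  exact Filter.Eventually.of_forall (fun x hx => h x hx)

theorem AE.mem (a : B) : 𝔅.AE a (fun x => x ∈ 𝔅.cl a) := by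
  exact Filter.Eventually.of_forall (fun x hx => hx)

theorem AE.all {ι : Type u} [Countable ι] {a : B} {φ : ι → X → Prop} (h : ∀ i, 𝔅.AE a (φ i)) :
    𝔅.AE a (fun x => ∀ i, φ i x) := by
  have := 𝔅.cnt
  exact (eventually_countable_forall.2 h).mono (fun x hx hxa i => hx i hxa)

theorem AE.all_nat {a : B} {φ : ℕ → X → Prop} (h : ∀ i, 𝔅.AE a (φ i)) : 𝔅.AE a (fun x => ∀ i, φ i x) := by
  have := 𝔅.cnt
  exact (eventually_countable_forall.2 h).mono (fun x hx hxa i => hx i hxa)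

theorem AE.all_fin {ι : Type} [Finite ι] {a : B} {φ : ι → X → Prop} (h : ∀ i, 𝔅.AE a (φ i)) :
    𝔅.AE a (fun x => ∀ i, φ i x) := by
  have := 𝔅.cnt
  exact (eventually_countable_forall.2 h).mono (fun x hx hxa i => hx i hxa)

theorem AE.ball {T : Type u} {S : Set T} (hS : S.Countable) {a : B} {φ : T → X → Prop}
    (h : ∀ t ∈ S, 𝔅.AE a (φ t)) : 𝔅.AE a (fun x => ∀ t ∈ S, φ t x) := by
  have := 𝔅.cnt
  exact ((eventually_countable_ball hS).2 h).mono (fun x hx hxa t ht => hx t ht hxa)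

theorem AE.sup {a b : B} {φ : X → Prop} (h : 𝔅.AE a φ) (h' : 𝔅.AE b φ) : 𝔅.AE (a ⊔ b) φ := by
  filter_upwards [h, h'] with x h1 h2 hx
  rw [𝔅.cl_sup] at hx
  exact hx.elim h1 h2

private theorem AE.iSup_aux {ι : Type*} {a : ι → B} {φ : X → Prop} (h : ∀ i, 𝔅.AE (a i) φ) :
    𝔅.AE (⨆ i, a i) φ := by
  apply 𝔅.loc
  intro a' ha' hne
  by_cases hex : ∃ i, a' ⊓ a i ≠ ⊥
  · obtain ⟨i, hi⟩ := hex
    exact ⟨a' ⊓ a i, inf_le_left, hi, AE.mono_left (h i) inf_le_right⟩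
  · exfalso
    apply hne
    have h1 : a' = a' ⊓ ⨆ i, a i := (inf_eq_left.2 ha').symm
    rw [h1, inf_iSup_eq]
    refine le_bot_iff.1 (iSup_le (fun i => ?_))
    by_contra hc
    exact hex ⟨i, fun h2 => hc h2.le⟩

theorem AE.iSup {ι : Type u} {a : ι → B} {φ : X → Prop} (h : ∀ i, 𝔅.AE (a i) φ) : 𝔅.AE (⨆ i, a i) φ := by
  exact AE.iSup_aux h

theorem AE.iSup_fin {ι : Type} {a : ι → B} {φ : X → Prop} (h : ∀ i, 𝔅.AE (a i) φ) : 𝔅.AE (⨆ i, a i) φ := by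
  exact AE.iSup_aux h

theorem AE.false {a : B} (h : 𝔅.AE a (fun _ => False)) : a = ⊥ := by
  exact 𝔅.pos a (Filter.Eventually.mono h (fun x hx hxa => hx hxa))

theorem AE.exists_pos {a : B} {φ : X → Prop} (hm : MeasurableSet {x | φ x})
    (h : ¬ 𝔅.AE a (fun x => ¬ φ x)) : ∃ a' ≤ a, a' ≠ ⊥ ∧ 𝔅.AE a' φ := by
  exact 𝔅.dec a {x | φ x} hm h

theorem AE.exists_nat {a : B} (ha : a ≠ ⊥) {φ : ℕ → X → Prop} (hm : ∀ n, MeasurableSet {x | φ n x})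
    (h : 𝔅.AE a (fun x => ∃ n, φ n x)) : ∃ n, ∃ a' ≤ a, a' ≠ ⊥ ∧ 𝔅.AE a' (φ n) := by
  by_contra hcon
  apply ha
  have h1 : ∀ n, 𝔅.AE a (fun x => ¬ φ n x) := by
    intro n
    by_contra hn
    obtain ⟨a', h1, h2, h3⟩ := AE.exists_pos (hm n) hn
    exact hcon ⟨n, a', h1, h2, h3⟩
  refine AE.false (𝔅 := 𝔅) (AE.mono (AE.and h (AE.all_nat h1)) (fun x hx => ?_))
  obtain ⟨⟨n, hn⟩, h3⟩ := hx
  exact h3 n hn

theorem AE.le_iff {a b : B} : 𝔅.AE a (fun x => x ∈ 𝔅.cl b) ↔ a ≤ b := by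
  constructor
  · intro h
    have h1 : a ⊓ bᶜ = ⊥ := by
      apply 𝔅.pos
      refine Filter.Eventually.mono h (fun x hx hxa => ?_)
      rw [𝔅.cl_inf, 𝔅.cl_compl] at hxa
      exact hxa.2 (hx hxa.1)
    have h2 : a \ b = ⊥ := by rw [_root_.sdiff_eq]; exact h1
    exact _root_.sdiff_eq_bot_iff.1 h2
  · intro h
    exact AE.of_mem (fun x hx => 𝔅.cl_mono h hx)

theorem measurable_ae {a : B} {φ : X → Prop} (h : 𝔅.AE a φ) : MeasurableSet {x | x ∈ 𝔅.cl a ∧ φ x} := by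
  have h1 : MeasurableSet {x | x ∈ 𝔅.cl a ∧ ¬ φ x} := by
    apply 𝔅.null
    exact Filter.Eventually.mono h (fun x hx hxa => hxa.2 (hx hxa.1))
  have h2 : {x | x ∈ 𝔅.cl a ∧ φ x} = 𝔅.cl a \ {x | x ∈ 𝔅.cl a ∧ ¬ φ x} := by
    ext x
    constructor
    · intro hx
      exact ⟨hx.1, fun h3 => h3.2 hx.2⟩
    · intro hx
      exact ⟨hx.1, by_contra (fun h3 => hx.2 ⟨hx.1, h3⟩)⟩
  rw [h2]
  exact (𝔅.meas a).diff h1

end Pool.Agent.Lib.BSR
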