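import Pool.Agent.Lib.BSR.Defs
import Pool.Agent.Lib.BSM.Nice

/-!
# Module BSR.BigT: the union of all nice trees, with uncountably many isolated nodes

Nodes: `Sum.inl (N, v)` with `N` a nice tree and `v : V`, and the isolated nodes `Sum.inr w`, `w : W`.
* `cnt`: `BSM.countable_pre` (image). `pre_trans`: `BSM.pre_subset`. `trans`, `comp`: cases; for nodes of the same tree from the fields of `NTree` (for `comp` note that `Sum.inl (N, u) ≠ Sum.inl (N, v)` gives `u ≠ v`), otherwise one of the values is `⊥`.
* `nochain`: let `b ≠ ⊥`. If `c s ⊓ b = ⊥` for all `s`, take `b' = b`, `C = ∅`. Otherwise let `c s₀ ⊓ b ≠ ⊥`. If `s₀ = Sum.inr w`: `b' = c s₀ ⊓ b`, `C = {s₀}` (for `s ≠ s₀`: `c s ⊓ c s₀ ≤ lt s s₀ ⊔ lt s₀ s = ⊥`). If `s₀ = Sum.inl (N, v)`: all `s` which are not of the form `Sum.inl (N, u)` have `c s ⊓ (c s₀ ⊓ b) = ⊥` for the same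
  reason; for the function `u ↦ c (Sum.inl (N, u))` use `N.noch` with `c s₀ ⊓ b`; `C` the image of the countable set.
* `iso`: contains the range of `Sum.inr`; `BSM.not_countable_W` (`Set.Countable.preimage_of_injOn` or similar).
-/

set_option autoImplicit false

open Set

namespace Pool.Agent.Lib.BSR

open Pool.Agent.Lib.BSM (NTree V W)

/-- the nodes of the big tree -/
abbrev BNode (B : Type) [CompleteBooleanAlgebra B] : Type := (NTree B × V) ⊕ W

open Classical in
/-- the Boolean value of `s < t` for the nodes of the nice trees -/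
noncomputable def ltN {B : Type} [CompleteBooleanAlgebra B] (s t : NTree B × V) : B :=
  if s.1 = t.1 then t.1.lt s.2 t.2 else ⊥

theorem ltN_self {B : Type} [CompleteBooleanAlgebra B] (N : NTree B) (u v : V) : ltN (N, u) (N, v) = N.lt u v :=
  if_pos rfl

theorem ltN_ne {B : Type} [CompleteBooleanAlgebra B] {N N' : NTree B} (h : N ≠ N') (u v : V) :
    ltN (N, u) (N', v) = ⊥ := if_neg h

/-- the Boolean value of `s < t` in the big tree -/
noncomputable def ltB {B : Type} [CompleteBooleanAlgebra B] : BNode B → BNode B → B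
  | Sum.inl s, Sum.inl t => ltN s t
  | _, _ => ⊥

/-- the possible predecessors -/
def preB {B : Type} [CompleteBooleanAlgebra B] : BNode B → Set (BNode B)
  | Sum.inl t => {s | ∃ v ∈ BSM.pre t.2, s = Sum.inl (t.1, v)}
  | Sum.inr _ => ∅

namespace BigTAux

variable {B : Type} [CompleteBooleanAlgebra B]

theorem ltB_inr_left (w : W) (t : BNode B) : ltB (Sum.inr w : BNode B) t = ⊥ := by
  cases t <;> rfl

theorem ltB_inr_right (w : W) (t : BNode B) : ltB t (Sum.inr w : BNode B) = ⊥ := by
  cases t <;> rfl

theorem ltB_inl (s t : NTree B × V) : ltB (Sum.inl s : BNode B) (Sum.inl t) = ltN s t := rfl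

end BigTAux

open BigTAux

/-- the big tree -/
noncomputable def bigTree (B : Type) [CompleteBooleanAlgebra B] : Tree B (BNode B) where
  pre := preB
  cnt := by
    rintro (t | w)
    · refine ((BSM.countable_pre t.2).image (fun v => (Sum.inl (t.1, v) : BNode B))).mono ?_
      rintro s ⟨v, hv, rfl⟩
      exact ⟨v, hv, rfl⟩
    · exact countable_empty
  pre_trans := by
    rintro (t | w) s hs
    · obtain ⟨v, hv, rfl⟩ := hs
      rintro r ⟨u, hu, rfl⟩
      exact ⟨u, BSM.pre_subset hv hu, rfl⟩
    · exact absurd hs (notMem_empty s)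
  lt := ltB
  irr := by
    rintro (⟨N, v⟩ | w)
    · rw [ltB_inl, ltN_self, N.irrefl]
    · rfl
  supp := by
    rintro (⟨N, u⟩ | w) t h
    · rcases t with ⟨N', v⟩ | w'
      · rw [ltB_inl]
        by_cases hN : N = N'
        · subst hN
          rw [ltN_self]
          exact N.zero u v fun hu => h ⟨u, hu, rfl⟩
        · exact ltN_ne hN u v
      · exact ltB_inr_right _ _
    · exact ltB_inr_left _ _
  trans := by
    rintro r s t
    rcases r with ⟨N, r⟩ | w
    · rcases s with ⟨N', s⟩ | w
      · rcases t with ⟨N'', t⟩ | w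
        · rw [ltB_inl, ltB_inl, ltB_inl]
          by_cases h1 : N = N'
          · subst h1
            by_cases h2 : N = N''
            · subst h2
              rw [ltN_self, ltN_self, ltN_self]
              exact N.trans r s t
            · rw [ltN_ne h2 s t, inf_bot_eq]
              exact bot_le
          · rw [ltN_ne h1 r s, bot_inf_eq]
            exact bot_le
        · rw [ltB_inr_right w (Sum.inl (N', s)), inf_bot_eq]
          exact bot_le
      · rw [ltB_inr_right w (Sum.inl (N, r)), bot_inf_eq]
        exact bot_le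
    · rw [ltB_inr_left w s, bot_inf_eq]
      exact bot_le
  comp := by
    rintro r s t hrs
    rcases r with ⟨N, r⟩ | w
    · rcases s with ⟨N', s⟩ | w
      · rcases t with ⟨N'', t⟩ | w
        · rw [ltB_inl, ltB_inl, ltB_inl, ltB_inl]
          by_cases h1 : N = N''
          · subst h1
            by_cases h2 : N' = N
            · subst h2
              rw [ltN_self, ltN_self, ltN_self, ltN_self]
              refine N'.comp r s t ?_
              rintro rfl
              exact hrs rfl
            · rw [ltN_ne h2 s t, inf_bot_eq]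
              exact bot_le
          · rw [ltN_ne h1 r t, bot_inf_eq]
            exact bot_le
        · rw [ltB_inr_right w (Sum.inl (N', s)), inf_bot_eq]
          exact bot_le
      · rw [ltB_inr_left w t, inf_bot_eq]
        exact bot_le
    · rw [ltB_inr_left w t, bot_inf_eq]
      exact bot_le
  nochain := by
    intro c hc b hb
    by_cases h : ∀ s, c s ⊓ b = ⊥
    · exact ⟨b, le_rfl, hb, ∅, countable_empty, fun s _ => h s⟩
    · push Not at h
      obtain ⟨s₀, hs₀⟩ := h
      rcases s₀ with ⟨N, v⟩ | w
      · have key : ∀ s, (∀ u, s ≠ Sum.inl (N, u)) → c s ⊓ (c (Sum.inl (N, v)) ⊓ b) = ⊥ := by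
          intro s hs
          have h1 := hc s (Sum.inl (N, v)) (hs v)
          have h2 : ltB s (Sum.inl (N, v)) = ⊥ ∧ ltB (Sum.inl (N, v)) s = ⊥ := by
            rcases s with ⟨N', u⟩ | w
            · have h3 : N' ≠ N := by
                rintro rfl
                exact hs u rfl
              exact ⟨ltN_ne h3 u v, ltN_ne h3.symm v u⟩
            · exact ⟨ltB_inr_left _ _, ltB_inr_right _ _⟩
          rw [h2.1, h2.2, sup_bot_eq, le_bot_iff] at h1
          rw [← inf_assoc, h1, bot_inf_eq]
        obtain ⟨b', hb', hb'0, C, hC, hCs⟩ := N.noch (fun u => c (Sum.inl (N, u))) (by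
          intro s t hst
          have h1 := hc (Sum.inl (N, s)) (Sum.inl (N, t)) (by
            intro h2
            apply hst
            simpa using h2)
          rwa [ltB_inl, ltB_inl, ltN_self, ltN_self] at h1) (c (Sum.inl (N, v)) ⊓ b) hs₀
        refine ⟨b', hb'.trans inf_le_right, hb'0, (fun u => (Sum.inl (N, u) : BNode B)) '' C,
          hC.image _, ?_⟩
        intro s hs
        by_cases h3 : ∃ u, s = Sum.inl (N, u)
        · obtain ⟨u, rfl⟩ := h3
          exact hCs u (fun hu => hs ⟨u, hu, rfl⟩)
        · push Not at h3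
          rw [← le_bot_iff, ← key s h3]
          exact inf_le_inf_left _ hb'
      · refine ⟨c (Sum.inr w) ⊓ b, inf_le_right, hs₀, {Sum.inr w}, countable_singleton _, ?_⟩
        intro s hs
        have h1 := hc s (Sum.inr w) hs
        rw [ltB_inr_left, ltB_inr_right, sup_bot_eq, le_bot_iff] at h1
        rw [← inf_assoc, h1, bot_inf_eq]
  iso := by
    intro h
    apply BSM.not_countable_W
    refine (h.preimage_of_injOn (f := (Sum.inr : W → BNode B)) (Sum.inr_injective.injOn)).mono ?_
    intro w _
    refine ⟨rfl, ?_⟩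
    rintro (t | w') ht
    · obtain ⟨v, _, hv⟩ := ht
      cases hv
    · exact ht

end Pool.Agent.Lib.BSR
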