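import Pool.Agent.Lib.BSR.EvSum

/-!
# Module BSR.LabelX: labelling the pieces (the sum lemma over a base)

`exists_predense`. Proof. Let `q i`, `i : ι`, be the pieces of `r` in `h : Fine D z r ε` (`ι` is nonempty by `r.pos` and `r.ne`), `e : ι → ℕ` injective. `𝒯.iso` and the countability of `r.A` give `s ∉ r.A` with `pre s = ∅`, `∀ t, s ∉ pre t`. `exists_label` (value `e i`) gives `q' i ≤ q i`, `(q' i).b = r.b`, `(q' i).A = r.A ∪ {s}`,
`(q' i).l x = ((q i).l x).map (fun f => Function.update f s (e i))`. They are in `D`. `exists_sum` gives `r'`: `r'.b = r.b`, `r'.A = r.A ∪ {s}`, `AE (r'.l x = ∑ i, (q' i).l x)`, `r' ≤ z` (masses: `(q' i).l x univ = (q i).l x univ`, sum `= r.l x univ ≤ 1`).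
* `Ctrl z r' K η ε`: `rho z.A (update f s k) = rho z.A f` (`s ∉ z.A`), so `(r'.l x).map (rho z.A) = (r.l x).map (rho z.A) ≤ z.l x`; the mass is the same; for `t ∉ r'.A`: `R x s t` is false (`R_pre`), so for all `f`: `update f s k ∈ hitB (r'.A \ z.A) t K x ↔ f ∈ hitB (r.A \ z.A) t K x`, and
  `r'.l x (hitB (r'.A \ z.A) t K x) = r.l x (hitB (r.A \ z.A) t K x) ≤ η`.
* predense: let `x ≤ r'`. `(x.l y).map (rho r'.A) ≤ c • r'.l y = c • ∑ (q' i).l y` for almost all `y` in `x.b`. The event `{f | f s ∉ range e}` has `r'.l y`-measure `0`, so `x.l y`-measure `0`. So for some `i`: `¬ AE x.b (x.l y {f | f s = e i} = 0)` (otherwise the mass of `x.l y` is `0` almost everywhere, contradicting `x.pos`, `x.ne`).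
  `exists_event` (for `x`, `b = x.b`, the set `{p | p.2 s = e i}`) gives `x' ≤ x`, `x'.b ≤ x.b`, `x'.A = x.A`, `x'.l y = (x.l y).restrict {f | f s = e i}`. `x' ≤ q' i`: for almost all `y` in `x'.b` and measurable `E`: `((x'.l y).map (rho r'.A)) E = x.l y (rho r'.A ⁻¹' (E ∩ {f | f s = e i})) ≤ c * ∑ j, (q' j).l y (E ∩ {f | f s = e i}) = c * (q' i).l y E`
  (`(q' j).l y {f | f s = e i} = 0` for `j ≠ i`). `Thin x' (q' i)`: `(q' i).A = r'.A`, from `Thin x r'` and `x'.l y ≤ x.l y`.
-/

set_option autoImplicit false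

open Set MeasureTheory Filter
open scoped ENNReal

namespace Pool.Agent.Lib.BSR

universe u

open Pool.Agent.Lib.BSP (rho measurable_rho rho_mem rho_not rho_rho map_rho map_rho_map map_rho_sup map_rho_univ meas_le_of_map)

open ProbabilityTheory (Kernel)

variable {B X T : Type u} [CompleteBooleanAlgebra B] [MeasurableSpace X] {𝔅 : Base B X} {𝒯 : Tree B T}

namespace LabelXAux

open Classical in
theorem measurable_upd (s : T) (k : ℕ) : Measurable (fun f : T → ℕ => Function.update f s k) := by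
  refine measurable_pi_iff.2 fun t => ?_
  by_cases h : t = s
  · subst h
    simp only [Function.update_self]
    exact measurable_const
  · simp only [Function.update_of_ne h]
    exact measurable_pi_apply t

theorem measurable_val (s : T) (S : Set ℕ) : MeasurableSet {f : T → ℕ | f s ∈ S} :=
  (measurable_pi_apply s : Measurable fun f : T → ℕ => f s) (MeasurableSet.of_discrete (s := S))

open Classical in
theorem rho_upd {A : Set T} {s : T} (hs : s ∉ A) (f : T → ℕ) (k : ℕ) :
    rho A (Function.update f s k) = rho A f := by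
  funext t
  by_cases ht : t ∈ A
  · have hne : t ≠ s := by
      rintro rfl
      exact hs ht
    rw [rho_mem ht, rho_mem ht, Function.update_of_ne hne]
  · rw [rho_not ht, rho_not ht]

end LabelXAux

open LabelXAux EvSumAux

theorem exists_predense {D : Set (LCond 𝔅 𝒯)} (hD : ∀ q ∈ D, ∀ q', q' ≤ q → q' ∈ D) {z r : LCond 𝔅 𝒯} {K : ℕ}
    {η ε : ℝ≥0∞} (h : Fine D z r ε)
    (hh : ∀ t ∉ r.A, 𝔅.AE r.b (fun x => r.l x (hitB 𝔅 𝒯 (r.A \ z.A) t K x) ≤ η)) :
    ∃ r' : LCond 𝔅 𝒯, r'.b = r.b ∧ Ctrl z r' K η ε ∧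
      ∃ (ι : Type) (_ : Fintype ι) (q : ι → LCond 𝔅 𝒯),
        (∀ i, q i ∈ D ∧ (q i).b = r'.b ∧ (q i).A = r'.A ∧ q i ≤ z) ∧
        ∀ x, x ≤ r' → ∃ x', x' ≤ x ∧ ∃ i, x' ≤ q i := by
  classical
  obtain ⟨hrz, ⟨ι, hι, q, hq, hsum⟩, hmarg, hmass⟩ := h
  have hne : Nonempty ι := by
    by_contra hcon
    have hemp : IsEmpty ι := not_nonempty_iff.1 hcon
    obtain ⟨c, hc, hpos⟩ := r.pos
    refine r.ne (AE.false (𝔅 := 𝔅) (AE.mono (AE.and hpos hsum) fun x hx => ?_))
    have h1 := hx.1
    rw [hx.2] at h1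
    simp at h1
    exact hc h1
  obtain ⟨e, he⟩ : ∃ e : ι → ℕ, Function.Injective e :=
    ⟨fun i => (Fintype.equivFin ι i : ℕ), fun i j hij => (Fintype.equivFin ι).injective (Fin.ext hij)⟩
  obtain ⟨s, hs1, hs⟩ : ∃ s, s ∈ {s | 𝒯.pre s = ∅ ∧ ∀ t, s ∉ 𝒯.pre t} ∧ s ∉ r.A := by
    by_contra hcon
    push Not at hcon
    exact 𝒯.iso (r.cnt.mono hcon)
  obtain ⟨hs2, hs3⟩ := hs1
  have hR : ∀ x t, ¬ R 𝔅 𝒯 x s t := fun x t h => hs3 t (R_pre 𝔅 𝒯 h)
  have hzA : z.A ⊆ r.A := (le_def.1 hrz).2.1
  have hsz : s ∉ z.A := fun h => hs (hzA h)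
  have hlab := fun i => exists_label (q i) (s := s) (by rw [(hq i).2.2.1]; exact hs) hs2 hs3 (e i)
  choose q' hq1 hq2 hq3 hq4 using hlab
  have hu : ∀ k, Measurable (fun f : T → ℕ => Function.update f s k) := fun k => measurable_upd s k
  have hqE : ∀ i x E, MeasurableSet E → (q' i).l x E = (q i).l x {f | Function.update f s (e i) ∈ E} := by
    intro i x E hE
    rw [hq4 i x, Measure.map_apply (hu _) hE]
    rfl
  have hquniv : ∀ i x, (q' i).l x univ = (q i).l x univ := fun i x => by
    rw [hqE i x _ MeasurableSet.univ]; rfl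
  have hb' : ∀ i, (q' i).b = r.b := fun i => (hq2 i).trans (hq i).2.1
  have hA' : ∀ i, (q' i).A = r.A ∪ {s} := fun i => by rw [hq3 i, (hq i).2.2.1]
  obtain ⟨r', hr1, hr2, hr3, hr4⟩ := exists_sum q' hb' hA' (AE.mono hsum fun x hx => by
    have h1 : ∑ i, (q' i).l x univ = r.l x univ := by
      rw [hx, msum_apply]
      exact Finset.sum_congr rfl fun i _ => hquniv i x
    rw [h1]
    exact r.le_one x)
  have hr'z : r' ≤ z := hr4 z fun i => (hq1 i).trans (hq i).2.2.2
  -- measures of events which do not depend on the label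
  have hE : ∀ x, r.l x = ∑ i, (q i).l x → r'.l x = ∑ i, (q' i).l x → ∀ E E' : Set (T → ℕ), MeasurableSet E →
      (∀ f k, Function.update f s k ∈ E → f ∈ E') → r'.l x E ≤ r.l x E' := by
    intro x h1 h2 E E' hE h3
    rw [h1, h2, msum_apply, msum_apply]
    refine Finset.sum_le_sum fun i _ => ?_
    rw [hqE i x E hE]
    exact measure_mono fun f hf => h3 f _ hf
  have hE2 : ∀ x, r.l x = ∑ i, (q i).l x → r'.l x = ∑ i, (q' i).l x → r'.l x univ = r.l x univ := by
    intro x h1 h2
    rw [h1, h2, msum_apply, msum_apply]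
    exact Finset.sum_congr rfl fun i _ => hquniv i x
  have hr3' : 𝔅.AE r'.b (fun x => r'.l x = ∑ i, (q' i).l x) := by rw [hr1]; exact hr3
  refine ⟨r', hr1, ⟨hr'z, ?_, ?_, ?_⟩, ι, hι, q', fun i => ⟨hD _ (hq i).1 _ (hq1 i), by rw [hb' i, hr1],
    by rw [hA' i, hr2], (hq1 i).trans (hq i).2.2.2⟩, ?_⟩
  · rw [hr1]
    refine AE.mono (AE.and hmarg (AE.and hsum hr3)) fun x hx => ?_
    refine Measure.le_iff.2 fun E hEm => ?_
    rw [Measure.map_apply (measurable_rho _) hEm]
    refine (hE x hx.2.1 hx.2.2 _ (rho z.A ⁻¹' E) ((measurable_rho _) hEm) ?_).trans ?_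
    · intro f k hf
      have h1 : rho z.A (Function.update f s k) ∈ E := hf
      rw [rho_upd hsz] at h1
      exact h1
    · rw [← Measure.map_apply (measurable_rho _) hEm]
      exact hx.1 E
  · rw [hr1]
    refine AE.mono (AE.and hmass (AE.and hsum hr3)) fun x hx => ?_
    rw [hE2 x hx.2.1 hx.2.2]
    exact hx.1
  · intro t ht
    have htr : t ∉ r.A := fun h => ht (by rw [hr2]; exact Or.inl h)
    rw [hr1]
    refine AE.mono (AE.and (hh t htr) (AE.and hsum hr3)) fun x hx => ?_
    have hcnt : (r'.A \ z.A).Countable := r'.cnt.mono sdiff_subset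
    refine (hE x hx.2.1 hx.2.2 _ (hitB 𝔅 𝒯 (r.A \ z.A) t K x) (hitB_meas' 𝔅 𝒯 hcnt t K x) ?_).trans hx.1
    rintro f k ⟨s', hs', hR', hlt⟩
    have hne' : s' ≠ s := fun h => hR x t (h ▸ hR')
    rw [Function.update_of_ne hne'] at hlt
    refine ⟨s', ⟨?_, hs'.2⟩, hR', hlt⟩
    have h1 := hs'.1
    rw [hr2] at h1
    rcases h1 with h1 | h1
    · exact h1
    · exact absurd (mem_singleton_iff.1 h1) hne'
  · intro x hx
    obtain ⟨hxb, hxA, ⟨c, hc, hdom⟩, hthin⟩ := le_def.1 hx
    have hsA : s ∈ r'.A := by rw [hr2]; exact Or.inr rfl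
    have hr3x : 𝔅.AE x.b (fun y => r'.l y = ∑ i, (q' i).l y) := AE.mono_left hr3' hxb
    -- some label has positive measure
    have hex : ∃ i, ¬ 𝔅.AE x.b (fun y => x.l y {f | (y, f) ∈ {p : X × (T → ℕ) | p.2 s = e i}} = 0) := by
      by_contra hcon
      push Not at hcon
      obtain ⟨c', hc', hpos⟩ := x.pos
      refine x.ne (AE.false (𝔅 := 𝔅) (AE.mono (AE.and (AE.and hpos (AE.all_fin hcon)) (AE.and hdom hr3x))
        fun y hy => ?_))
      obtain ⟨⟨h1, h2⟩, h3, h4⟩ := hy
      have hN : MeasurableSet {f : T → ℕ | f s ∉ range e} := measurable_val s (range e)ᶜ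
      have h5 : x.l y {f | f s ∉ range e} = 0 := by
        have h6 := le_mul_of_dom h3 hN (fun f => by
          show rho r'.A f s ∉ range e ↔ f s ∉ range e
          rw [rho_mem hsA])
        have h7 : r'.l y {f | f s ∉ range e} = 0 := by
          rw [h4, msum_apply]
          refine Finset.sum_eq_zero fun i _ => ?_
          rw [hqE i y _ hN]
          have h8 : {f : T → ℕ | Function.update f s (e i) ∈ {f : T → ℕ | f s ∉ range e}} = ∅ := by
            ext f
            simp
          rw [h8, measure_empty]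
        rw [h7, mul_zero] at h6
        exact le_antisymm h6 bot_le
      have h9 : x.l y univ = 0 := by
        have h10 : (univ : Set (T → ℕ)) ⊆ {f | f s ∉ range e} ∪ ⋃ i, {f | f s = e i} := by
          intro f _
          by_cases hf : f s ∈ range e
          · obtain ⟨i, hi⟩ := hf
            exact Or.inr (mem_iUnion.2 ⟨i, hi.symm⟩)
          · exact Or.inl hf
        refine le_antisymm ((measure_mono h10).trans ((measure_union_le _ _).trans ?_)) bot_le
        rw [h5, zero_add]
        refine (measure_iUnion_null fun i => ?_).le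
        exact h2 i
      rw [h9] at h1
      exact hc' (le_antisymm h1 bot_le)
    obtain ⟨i, hi⟩ := hex
    have hSm : MeasurableSet {p : X × (T → ℕ) | p.2 s = e i} := by
      have h1 : Measurable fun p : X × (T → ℕ) => p.2 s := (measurable_pi_apply s).comp measurable_snd
      exact h1 (MeasurableSet.of_discrete (s := {n : ℕ | n = e i}))
    obtain ⟨x', hx1, hx2, hx3, hx4⟩ := exists_event x le_rfl hSm hi
    have hx4' : ∀ y, x'.l y = (x.l y).restrict {f | f s = e i} := hx4
    have hSf : MeasurableSet {f : T → ℕ | f s = e i} := measurable_val s {n | n = e i}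
    refine ⟨x', hx1, i, le_def.2 ⟨?_, ?_, ⟨c, hc, ?_⟩, ?_⟩⟩
    · rw [hb' i, ← hr1]
      exact hx2.trans hxb
    · rw [hA' i, ← hr2, hx3]
      exact hxA
    · refine AE.mono (AE.mono_left (AE.and hdom hr3x) hx2) fun y hy => ?_
      refine Measure.le_iff.2 fun E hEm => ?_
      have hiA : (q' i).A = r'.A := by rw [hA' i, hr2]
      rw [hiA, Measure.map_apply (measurable_rho _) hEm, hx4' y,
        Measure.restrict_apply ((measurable_rho _) hEm)]
      have h1 : rho r'.A ⁻¹' E ∩ {f | f s = e i} = rho r'.A ⁻¹' (E ∩ {f | f s = e i}) := by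
        ext f
        show (rho r'.A f ∈ E ∧ f s = e i) ↔ (rho r'.A f ∈ E ∧ rho r'.A f s = e i)
        rw [rho_mem hsA]
      rw [h1, ← Measure.map_apply (measurable_rho _) (hEm.inter hSf)]
      refine (hy.1 _).trans ?_
      rw [Measure.smul_apply, Measure.smul_apply, smul_eq_mul, smul_eq_mul]
      refine mul_le_mul_right ?_ c
      rw [hy.2, msum_apply]
      rw [Finset.sum_eq_single i]
      · exact measure_mono inter_subset_left
      · intro j _ hj
        rw [hqE j y _ (hEm.inter hSf)]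
        have h2 : {f : T → ℕ | Function.update f s (e j) ∈ E ∩ {f : T → ℕ | f s = e i}} = ∅ := by
          ext f
          simp only [mem_setOf_eq, mem_inter_iff, Function.update_self, mem_empty_iff_false, iff_false,
            not_and]
          exact fun _ h => hj (he h)
        rw [h2, measure_empty]
      · intro h
        exact absurd (Finset.mem_univ i) h
    · intro k η' hη'
      obtain ⟨a, ha1, ha2⟩ := hthin k η' hη'
      have hiA : (q' i).A = r'.A := by rw [hA' i, hr2]
      refine ⟨a, fun t ht => ?_, fun t ht => ?_⟩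
      · rw [hx3, hiA]
        exact ha1 t ht
      · rw [hx3] at ht
        refine AE.mono (AE.mono_left (ha2 t ht) hx2) fun y hy hya => ?_
        rw [hx3, hiA, hx4' y]
        exact (Measure.restrict_apply_le _ _).trans (hy hya)

end Pool.Agent.Lib.BSR
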