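import Mathlib

/-!
# Module BSR.Sik: a homomorphism of the algebra of the functions `S → B` to `B` which is the identity (below `b`) on the constants and vanishes on an ideal (Sikorski)

Proof. Write `const e` for `fun _ => e`. Call `I : Set (S → B)` good if it is an ideal (contains `fun _ => ⊥`, closed under `⊔`, downward closed), `J ⊆ I`, and (P): `e ≤ b`, `const e ∈ I` imply `e = ⊥`.
By Zorn (`zorn_subset_nonempty` or `zorn_subset`; the union of a nonempty chain of good sets is good) let `I` be a maximal good set.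
For a function `g` the ideal generated by `I` and `g` is `{k | k ⊓ gᶜ ∈ I}` (equivalently `k ≤ i ⊔ g` for some `i ∈ I`).
Let `h f = ⨆ {e | e ≤ b ∧ const e ⊓ fᶜ ∈ I}` (`sSup`).
* Claim 1: `const (h f) ⊓ fᶜ ∈ I`. Otherwise the ideal generated by `I` and `const (h f) ⊓ fᶜ` does not have (P) by maximality: there is `c ≤ b`, `c ≠ ⊥`, `const c ≤ i ⊔ (const (h f) ⊓ fᶜ)` with `i ∈ I`. For each `e` in the set: `const (c ⊓ e) ≤
  i ⊔ (const e ⊓ fᶜ) ∈ I` so `c ⊓ e = ⊥`. So `c ⊓ h f = ⊥` (`inf_sSup_eq`), and `const c = const (c ⊓ (h f)ᶜ) ≤ i`, so `c = ⊥`.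
  So for `e ≤ b`: `e ≤ h f ↔ const e ⊓ fᶜ ∈ I`; and `h f ≤ b`.
* Claim 2: `h f ⊓ h fᶜ = ⊥`: with `e` this element, `const e ⊓ fᶜ ∈ I` and `const e ⊓ f ∈ I`, so `const e ∈ I`.
* Claim 3: `h f ⊔ h fᶜ = b`: let `d = b \ (h f ⊔ h fᶜ)`, suppose `d ≠ ⊥`. If the ideal generated by `I` and `const d ⊓ f` has (P), then `const d ⊓ f ∈ I` by maximality, so `d ≤ h fᶜ`, `d = ⊥`. Otherwise there is `c ≤ b`, `c ≠ ⊥`, `const c ≤ i ⊔ (const d ⊓ f)`, `i ∈ I`;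
  `const (c \ d) ≤ i` so `c ≤ d`; `const c ⊓ fᶜ ≤ i` so `c ≤ h f`; so `c ≤ d ⊓ h f = ⊥`.
* So `h fᶜ = b \ h f`. `h (f ⊓ g) = h f ⊓ h g`: for `e ≤ b`, `const e ⊓ (f ⊓ g)ᶜ = (const e ⊓ fᶜ) ⊔ (const e ⊓ gᶜ)`. `h (f ⊔ g)`: complements. `h (const e) = e ⊓ b`: for `c ≤ b`, `const c ⊓ (const e)ᶜ = const (c ⊓ eᶜ) ∈ I ↔ c ⊓ eᶜ = ⊥`.
  `f ∈ J`: `e ≤ h f` gives `const e ⊓ fᶜ ∈ I`, `f ∈ I`, so `const e ∈ I`, `e = ⊥`.
-/

set_option autoImplicit false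

namespace Pool.Agent.Lib.BSR

universe u

namespace SikAux

variable {B S : Type u} [CompleteBooleanAlgebra B]

/-- good ideals -/
def Good (b : B) (J I : Set (S → B)) : Prop :=
  (fun _ => ⊥) ∈ I ∧ (∀ f ∈ I, ∀ g ∈ I, f ⊔ g ∈ I) ∧ (∀ f ∈ I, ∀ g ≤ f, g ∈ I) ∧ J ⊆ I ∧
    ∀ e ≤ b, (fun _ => e) ∈ I → e = ⊥

theorem ext_lemma {b : B} {J I : Set (S → B)} (hI : Good b J I)
    (hmax : ∀ I', Good b J I' → I ⊆ I' → I' ⊆ I) (g : S → B) (hg : g ∉ I) :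
    ∃ c ≤ b, c ≠ ⊥ ∧ (fun _ => c) ⊓ gᶜ ∈ I := by
  obtain ⟨h0, h1, h2, h3, h4⟩ := hI
  by_contra hcon
  push Not at hcon
  apply hg
  have hbot : g ⊓ gᶜ = (fun _ => ⊥) := by
    rw [inf_compl_self]; rfl
  have hsub : I ⊆ {k | k ⊓ gᶜ ∈ I} := fun k hk => h2 k hk _ inf_le_left
  have hgood : Good b J {k | k ⊓ gᶜ ∈ I} := by
    refine ⟨hsub h0, ?_, ?_, h3.trans hsub, ?_⟩
    · intro f hf f' hf'
      show (f ⊔ f') ⊓ gᶜ ∈ I
      rw [inf_sup_right]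
      exact h1 _ hf _ hf'
    · intro f hf f' hf'
      exact h2 _ hf _ (inf_le_inf_right _ hf')
    · intro e he hm
      by_contra hne
      exact hcon e he hne hm
  apply hmax _ hgood hsub
  show g ⊓ gᶜ ∈ I
  rw [hbot]
  exact h0

theorem exists_max {b : B} {J : Set (S → B)} (hJ : Good b J J) :
    ∃ I, Good b J I ∧ ∀ I', Good b J I' → I ⊆ I' → I' ⊆ I := by
  obtain ⟨I, -, hI⟩ := zorn_subset_nonempty {I | Good b J I} (by
    intro c hc hch hne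
    obtain ⟨I0, hI0⟩ := hne
    refine ⟨⋃₀ c, ⟨?_, ?_, ?_, ?_, ?_⟩, fun s hs => Set.subset_sUnion_of_mem hs⟩
    · exact Set.mem_sUnion.2 ⟨I0, hI0, (hc hI0).1⟩
    · intro f hf g hg
      obtain ⟨I1, hI1, hf1⟩ := Set.mem_sUnion.1 hf
      obtain ⟨I2, hI2, hg2⟩ := Set.mem_sUnion.1 hg
      rcases hch.total hI1 hI2 with h | h
      · exact Set.mem_sUnion.2 ⟨I2, hI2, (hc hI2).2.1 f (h hf1) g hg2⟩
      · exact Set.mem_sUnion.2 ⟨I1, hI1, (hc hI1).2.1 f hf1 g (h hg2)⟩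
    · intro f hf g hg
      obtain ⟨I1, hI1, hf1⟩ := Set.mem_sUnion.1 hf
      exact Set.mem_sUnion.2 ⟨I1, hI1, (hc hI1).2.2.1 f hf1 g hg⟩
    · intro f hf
      exact Set.mem_sUnion.2 ⟨I0, hI0, (hc hI0).2.2.2.1 hf⟩
    · intro e he hm
      obtain ⟨I1, hI1, hf1⟩ := Set.mem_sUnion.1 hm
      exact (hc hI1).2.2.2.2 e he hf1) J hJ
  exact ⟨I, hI.1, fun I' h1 h2 => hI.2 h1 h2⟩

end SikAux

open SikAux

theorem sikorski {B S : Type u} [CompleteBooleanAlgebra B] (b : B) (J : Set (S → B))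
    (h0 : (fun _ => ⊥) ∈ J) (hsup : ∀ f ∈ J, ∀ g ∈ J, f ⊔ g ∈ J) (hdown : ∀ f ∈ J, ∀ g ≤ f, g ∈ J)
    (hJ : ∀ e ≤ b, (fun _ => e) ∈ J → e = ⊥) :
    ∃ h : (S → B) → B, (∀ f g, h (f ⊔ g) = h f ⊔ h g) ∧ (∀ f g, h (f ⊓ g) = h f ⊓ h g) ∧
      (∀ f, h fᶜ = b \ h f) ∧ (∀ e, h (fun _ => e) = e ⊓ b) ∧ ∀ f ∈ J, h f = ⊥ := by
  obtain ⟨I, hgood, hmax⟩ := exists_max (b := b) (J := J) ⟨h0, hsup, hdown, subset_rfl, hJ⟩
  obtain ⟨i0, i1, i2, i3, i4⟩ := id hgood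
  have hext := ext_lemma hgood hmax
  let h : (S → B) → B := fun f => sSup {e | e ≤ b ∧ (fun _ => e) ⊓ fᶜ ∈ I}
  have hb : ∀ f, h f ≤ b := fun f => sSup_le fun e he => he.1
  have c1 : ∀ f, (fun _ => h f) ⊓ fᶜ ∈ I := by
    intro f
    by_contra hcon
    obtain ⟨c, hc, hc0, hcI⟩ := hext _ hcon
    have h1 : ∀ e, e ≤ b → (fun _ => e) ⊓ fᶜ ∈ I → c ⊓ e = ⊥ := by
      intro e he heI
      refine i4 _ (inf_le_left.trans hc) (i2 _ (i1 _ hcI _ heI) _ ?_)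
      intro x
      show c ⊓ e ≤ (c ⊓ (h f ⊓ (f x)ᶜ)ᶜ) ⊔ (e ⊓ (f x)ᶜ)
      have h2 : c ⊓ e = (c ⊓ e ⊓ (f x)ᶜ) ⊔ (c ⊓ e ⊓ (f x)) := by
        rw [← inf_sup_left, compl_sup_eq_top, inf_top_eq]
      rw [h2]
      refine sup_le ?_ ?_
      · refine le_sup_of_le_right ?_
        exact inf_le_inf_right _ inf_le_right
      · refine le_sup_of_le_left ?_
        refine le_inf (inf_le_left.trans inf_le_left) ?_
        rw [compl_inf, compl_compl]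
        exact inf_le_right.trans le_sup_right
    have h3 : c ⊓ h f = ⊥ := by
      show c ⊓ sSup _ = ⊥
      rw [inf_sSup_eq]
      apply le_bot_iff.1
      refine iSup₂_le fun e he => ?_
      exact (h1 e he.1 he.2).le
    apply hc0
    refine i4 c hc (i2 _ hcI _ ?_)
    intro x
    show c ≤ c ⊓ (h f ⊓ (f x)ᶜ)ᶜ
    refine le_inf le_rfl ?_
    rw [compl_inf]
    refine le_sup_of_le_left ?_
    rwa [le_compl_iff_disjoint_right, disjoint_iff]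
  have hiff : ∀ f e, e ≤ b → (e ≤ h f ↔ (fun _ => e) ⊓ fᶜ ∈ I) := by
    intro f e he
    constructor
    · intro hle
      refine i2 _ (c1 f) _ ?_
      intro x
      exact inf_le_inf_right _ hle
    · intro hm
      exact le_sSup ⟨he, hm⟩
  have c2 : ∀ f, h f ⊓ h fᶜ = ⊥ := by
    intro f
    have hle : h f ⊓ h fᶜ ≤ b := inf_le_left.trans (hb f)
    refine i4 _ hle (i2 _ (i1 _ ((hiff f _ hle).1 inf_le_left) _
      ((hiff fᶜ _ hle).1 inf_le_right)) _ ?_)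
    intro x
    show h f ⊓ h fᶜ ≤ ((h f ⊓ h fᶜ) ⊓ (f x)ᶜ) ⊔ ((h f ⊓ h fᶜ) ⊓ (f x)ᶜᶜ)
    rw [← inf_sup_left, sup_compl_eq_top, inf_top_eq]
  have c3 : ∀ f, b \ (h f ⊔ h fᶜ) = ⊥ := by
    intro f
    by_contra hd
    have hdb : b \ (h f ⊔ h fᶜ) ≤ b := sdiff_le
    have hd1 : b \ (h f ⊔ h fᶜ) ⊓ h f = ⊥ := by
      rw [← disjoint_iff]
      exact disjoint_sdiff_self_left.mono_right le_sup_left
    have hd2 : b \ (h f ⊔ h fᶜ) ⊓ h fᶜ = ⊥ := by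
      rw [← disjoint_iff]
      exact disjoint_sdiff_self_left.mono_right le_sup_right
    by_cases hg : (fun _ => b \ (h f ⊔ h fᶜ)) ⊓ f ∈ I
    · have h1 : b \ (h f ⊔ h fᶜ) ≤ h fᶜ := by
        rw [hiff fᶜ _ hdb, compl_compl]
        exact hg
      exact hd (by rw [← hd2]; exact (inf_eq_left.2 h1).symm)
    · obtain ⟨c, hc, hc0, hcI⟩ := hext _ hg
      have h1 : c ≤ b \ (h f ⊔ h fᶜ) := by
        rw [← sdiff_eq_bot_iff]
        refine i4 _ (sdiff_le.trans hc) (i2 _ hcI _ ?_)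
        intro x
        show c \ (b \ (h f ⊔ h fᶜ)) ≤ c ⊓ ((b \ (h f ⊔ h fᶜ)) ⊓ f x)ᶜ
        refine le_inf sdiff_le ?_
        rw [compl_inf, sdiff_eq]
        exact inf_le_right.trans le_sup_left
      have h2 : c ≤ h f := by
        rw [hiff f c hc]
        refine i2 _ hcI _ ?_
        intro x
        show c ⊓ (f x)ᶜ ≤ c ⊓ ((b \ (h f ⊔ h fᶜ)) ⊓ f x)ᶜ
        refine inf_le_inf_left _ ?_
        exact compl_le_compl inf_le_right
      exact hc0 (le_bot_iff.1 (hd1 ▸ le_inf h1 h2))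
  have hcompl : ∀ f, h fᶜ = b \ h f := by
    intro f
    have h1 : b ≤ h f ⊔ h fᶜ := sdiff_eq_bot_iff.1 (c3 f)
    apply le_antisymm
    · rw [sdiff_eq]
      refine le_inf (hb _) ?_
      rw [le_compl_iff_disjoint_right, disjoint_iff, inf_comm]
      exact c2 f
    · rw [sdiff_le_iff]
      exact h1
  have hinf : ∀ f g, h (f ⊓ g) = h f ⊓ h g := by
    intro f g
    have key : ∀ e, e ≤ b → (e ≤ h (f ⊓ g) ↔ e ≤ h f ∧ e ≤ h g) := by
      intro e he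
      rw [hiff _ _ he, hiff _ _ he, hiff _ _ he]
      constructor
      · intro hm
        refine ⟨i2 _ hm _ ?_, i2 _ hm _ ?_⟩
        · exact inf_le_inf_left _ (compl_le_compl inf_le_left)
        · exact inf_le_inf_left _ (compl_le_compl inf_le_right)
      · rintro ⟨hm1, hm2⟩
        refine i2 _ (i1 _ hm1 _ hm2) _ ?_
        rw [← inf_sup_left, compl_inf]
    apply le_antisymm
    · have := (key _ (hb (f ⊓ g))).1 le_rfl
      exact le_inf this.1 this.2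
    · exact (key _ (inf_le_left.trans (hb f))).2 ⟨inf_le_left, inf_le_right⟩
  refine ⟨h, ?_, hinf, hcompl, ?_, ?_⟩
  · intro f g
    have h1 : f ⊔ g = (fᶜ ⊓ gᶜ)ᶜ := by rw [compl_inf, compl_compl, compl_compl]
    rw [h1, hcompl, hinf, hcompl, hcompl, sdiff_inf, sdiff_sdiff_right_self,
      sdiff_sdiff_right_self, inf_eq_right.2 (hb f), inf_eq_right.2 (hb g)]
  · intro e
    apply le_antisymm
    · refine le_inf ?_ (hb _)
      have h1 := c1 (fun _ => e)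
      have h2 : h (fun _ => e) ⊓ eᶜ = ⊥ := i4 _ (inf_le_left.trans (hb _)) h1
      have h3 := disjoint_iff.2 h2
      rw [← le_compl_iff_disjoint_right, compl_compl] at h3
      exact h3
    · rw [hiff _ _ inf_le_right]
      refine i2 _ i0 _ ?_
      intro x
      show (e ⊓ b) ⊓ eᶜ ≤ ⊥
      rw [inf_right_comm, inf_compl_self, bot_inf_eq]
  · intro f hf
    refine i4 _ (hb f) (i2 _ (i1 _ (c1 f) _ (i3 hf)) _ ?_)
    intro x
    show h f ≤ (h f ⊓ (f x)ᶜ) ⊔ f x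
    rw [sup_inf_right, compl_sup_eq_top, inf_top_eq]
    exact le_sup_left

end Pool.Agent.Lib.BSR
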