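import Pool.Agent.Lib.BSR.Defs
import Pool.Agent.Lib.BSR.Sik

/-!
# Module BSR.TreeX: many pairwise incomparable finite sets in a Boolean valued tree (L5 over a base)

`F` is a family of pairs `(b, a)` (`b` forces that the finite set `a` is in the family), closed under smaller `b`. `F` is unbounded below `b₀` if for every `b ≤ b₀`, `b ≠ ⊥`, and every countable `C` there are `⊥ ≠ b' ≤ b` and
`a` disjoint from `C` with `(b', a) ∈ F`. Call `a, a'` incomparable at `b` if for all `s ∈ a`, `t ∈ a'`: `s ≠ t`, `lt s t ⊓ b = ⊥`, `lt t s ⊓ b = ⊥`.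

Step 1 (constant size, here `WDist` is used): if `F` is unbounded below `b₀ ≠ ⊥` there are `m` and `⊥ ≠ b₁ ≤ b₀` such that `{(b, a) ∈ F | a.card = m}` is unbounded below `b₁`. Otherwise for all `m` and `⊥ ≠ b ≤ b₀` there are `⊥ ≠ b' ≤ b` and a countable `C`
such that (*) no `(b'', a) ∈ F` has `b'' ≤ b'`, `a.card = m`, `a ∩ C = ∅`. Use `WDist` with `ι = B` and `x m b' = b'` if `b' ≤ b₀` has the property (*) for some `C = C m b'` and `⊥` otherwise; `b₀ ≤ ⨆ b', x m b'` (otherwise `b₀ \ ⨆` is a nonzero element below `b₀`).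
So there are `⊥ ≠ q ≤ b₀` and finite sets `Fi m` with `q ≤ ⨆ b' ∈ Fi m, x m b'`. Let `C` be the union of all `C m b'`, `b' ∈ Fi m`, countable. By unboundedness there are `⊥ ≠ q' ≤ q` and `a` with `(q', a) ∈ F`, `a ∩ C = ∅`; with `m = a.card` some `b' ∈ Fi m` has
`q' ⊓ x m b' ≠ ⊥` (`inf_iSup_eq`), so `x m b' = b'` has (*), and `(q' ⊓ b', a) ∈ F` contradicts (*).

Step 2 (key claim): if `F` is unbounded below `b₀ ≠ ⊥` there are `b₁ ≤ b₀` and `a` with `b₁ ≠ ⊥`, `(b₁, a) ∈ F` such that `{(b, a') ∈ F | b ≤ b₁, a, a' incomparable at b}` is unbounded below `b₁`.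
Proof: by step 1 we may assume that all `a` with `(b, a) ∈ F` have `m` elements (a subfamily of `F`; the conclusion for the subfamily implies the conclusion for `F`), `F` unbounded below `b₁`. Suppose the claim fails. Then for every `(b, a) ∈ F`, `⊥ ≠ b ≤ b₁` there are `⊥ ≠ b₂ ≤ b` and a countable `C` such
that no `(b', a') ∈ F` with `⊥ ≠ b' ≤ b₂`, `a' ∩ C = ∅` is incomparable with `a` at `b'`. Enlarge `C` by `a` and all `pre s`, `s ∈ a`: for `t ∉ C`, `s ∈ a`: `s ≠ t`, `lt t s = ⊥` (`supp`). So for every such `(b', a')`: `lt s t ⊓ b' ≠ ⊥` for some `s ∈ a`, `t ∈ a'`; applied to the smaller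
`b' \ ⨆ s ∈ a, ⨆ t ∈ a', lt s t` this gives (**) `b' ≤ ⨆ s ∈ a, ⨆ t ∈ a', lt s t`.
Let `S = Finset T`, `v a = ⨆ {b | b ≤ b₁ ∧ (b, a) ∈ F}` and `J` the set of the `g : S → B` such that for all `⊥ ≠ b ≤ b₁` there are `⊥ ≠ b' ≤ b` and a countable `C` with `g a ⊓ v a ⊓ b' = ⊥` for all `a` with `a ∩ C = ∅`. `J` is an ideal, and `const e ∈ J`, `e ≤ b₁` imply `e = ⊥`
(otherwise take `b', C` for `b = e`, and `(b'', a) ∈ F` with `b'' ≤ b'`, `a ∩ C = ∅`, `b'' ≠ ⊥`: `b'' ≤ e ⊓ v a ⊓ b'`). Let `h` be from `sikorski` for `b₁`. For a set `a` with `m` elements let `a_j`, `j : Fin m`, be its elements (`T` is nonempty if `m ≠ 0`; use a function `el : Finset T → Fin m → T` with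
`el a` onto `a` if `a.card = m`, arbitrary otherwise; if `T` is empty the family only contains `∅` and (**) with `a = ∅` is a contradiction). `H s j = h (fun a => lt s (el a j))`.
* (1) for all `(b, a) ∈ F`, `b ≤ b₁`: `b ≤ ⨆ s ∈ a, ⨆ j, H s j`. It is enough to see this for dense many `b₂`, (if `b \ ⨆ ≠ ⊥`, apply the following to it): for `b₂, C` as in (**): `g = fun a' => ⨆ s ∈ a, ⨆ j, lt s (el a' j)` satisfies `const b₂ ⊓ gᶜ ∈ J` (for `a' ∩ C = ∅`: `b₂ ⊓ v a' ≤ g a'` by (**), `inf_sSup_eq`;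
  if `v a' ≠ ⊥` then `a'.card = m`). So `h (const b₂ ⊓ gᶜ) = ⊥`, `b₂ ≤ h g`, and `h g = ⨆ s ∈ a, ⨆ j, H s j` (finite suprema, `h ⊥ = ⊥`).
* (2) for `s ≠ t`: `H s j ⊓ H t j = h (fun a => lt s (el a j) ⊓ lt t (el a j)) ≤ h (const (lt s t ⊔ lt t s)) ≤ lt s t ⊔ lt t s` (`comp`; `h` is monotone). So `nochain` applies to `fun s => H s j`: successively for the finitely many `j` there are `⊥ ≠ b' ≤ b₁` and a countable `C` with `H s j ⊓ b' = ⊥`
  for all `j` and `s ∉ C`. Take `⊥ ≠ b'' ≤ b'`, `(b'', a) ∈ F`, `a ∩ C = ∅`. By (1) `b'' ≤ ⨆ s ∈ a, ⨆ j, H s j`, and `b'' ⊓ H s j = ⊥` for all these; so `b'' = ⊥`. Contradiction.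

Step 3: `tree_lemma` by induction on `N` for all `b₀, F`: key claim gives `b₁, a`; induction hypothesis for `{(b, a') ∈ F | b ≤ b₁, a, a' incomparable at b}` and `b₁`; `Fin.cons a`; `(b', a) ∈ F` as `b' ≤ b₁`.
-/

set_option autoImplicit false

open Set

namespace Pool.Agent.Lib.BSR

universe u

variable {B T : Type u} [CompleteBooleanAlgebra B]

namespace TreeXAux

/-- unbounded below `b₀` -/
def Unb (F : Set (B × Finset T)) (b₀ : B) : Prop :=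
  ∀ b ≤ b₀, b ≠ ⊥ → ∀ C : Set T, C.Countable →
      ∃ b' ≤ b, b' ≠ ⊥ ∧ ∃ a : Finset T, (∀ s ∈ a, s ∉ C) ∧ (b', a) ∈ F

/-- closed under smaller base parts -/
def Dn (F : Set (B × Finset T)) : Prop := ∀ b a, (b, a) ∈ F → ∀ b' ≤ b, b' ≠ ⊥ → (b', a) ∈ F

/-- incomparable at `b` -/
def Inc (𝒯 : Tree B T) (a a' : Finset T) (b : B) : Prop :=
  ∀ s ∈ a, ∀ t ∈ a', s ≠ t ∧ 𝒯.lt s t ⊓ b = ⊥ ∧ 𝒯.lt t s ⊓ b = ⊥

theorem sdiff_ne {b c : B} (h : ¬ b ≤ c) : b \ c ≠ ⊥ := fun h' => h (sdiff_eq_bot_iff.1 h')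

theorem not_unb {F : Set (B × Finset T)} {b₀ : B} (h : ¬ Unb F b₀) :
    ∃ b ≤ b₀, b ≠ ⊥ ∧ ∃ C : Set T, C.Countable ∧ ∀ b' ≤ b, b' ≠ ⊥ → ∀ a : Finset T,
      (∀ s ∈ a, s ∉ C) → (b', a) ∉ F := by
  unfold Unb at h
  push Not at h
  obtain ⟨b, hb, hb0, C, hC, h⟩ := h
  exact ⟨b, hb, hb0, C, hC, h⟩

theorem const_size (hW : WDist B) (F : Set (B × Finset T)) (hF : Dn F) (b₀ : B) (h0 : b₀ ≠ ⊥)
    (hU : Unb F b₀) : ∃ m : ℕ, ∃ b₁ ≤ b₀, b₁ ≠ ⊥ ∧ Unb {z ∈ F | z.2.card = m} b₁ := by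
  classical
  by_contra hcon
  push Not at hcon
  let P : ℕ → B → Set T → Prop := fun m b' C => C.Countable ∧
    ∀ b'' ≤ b', b'' ≠ ⊥ → ∀ a : Finset T, (∀ s ∈ a, s ∉ C) → a.card = m → (b'', a) ∉ F
  have hP : ∀ m : ℕ, ∀ b ≤ b₀, b ≠ ⊥ → ∃ b' ≤ b, b' ≠ ⊥ ∧ ∃ C, P m b' C := by
    intro m b hb hb0
    obtain ⟨b', hb', hb'0, C, hC, h⟩ := not_unb (hcon m b hb hb0)
    refine ⟨b', hb', hb'0, C, hC, ?_⟩
    intro b'' hb'' hb''0 a ha hcard hmem
    exact h b'' hb'' hb''0 a ha ⟨hmem, hcard⟩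
  let x : ℕ → B → B := fun m b' => if b' ≤ b₀ ∧ ∃ C, P m b' C then b' else ⊥
  have hx : ∀ m, b₀ ≤ ⨆ b', x m b' := by
    intro m
    by_contra hle
    obtain ⟨b', hb', hb'0, hC⟩ := hP m _ sdiff_le (sdiff_ne hle)
    apply hb'0
    have h1 : x m b' = b' := if_pos ⟨hb'.trans sdiff_le, hC⟩
    have h2 : b' ≤ ⨆ b', x m b' := by
      calc b' = x m b' := h1.symm
        _ ≤ _ := le_iSup (x m) b'
    have h3 : Disjoint (b₀ \ ⨆ b', x m b') (⨆ b', x m b') := disjoint_sdiff_self_left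
    exact le_bot_iff.1 (h3.le_bot.trans' (le_inf hb' h2))
  obtain ⟨q, hq, hq0, Fi, hFi⟩ := hW B x b₀ h0 hx
  let Cf : ℕ → B → Set T := fun m b' => if h : ∃ C, P m b' C then h.choose else ∅
  have hCf : ∀ m b', (Cf m b').Countable := by
    intro m b'
    by_cases h : ∃ C, P m b' C
    · have : Cf m b' = h.choose := dif_pos h
      rw [this]
      exact h.choose_spec.1
    · have : Cf m b' = ∅ := dif_neg h
      rw [this]
      exact countable_empty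
  have hCf2 : ∀ m b', (∃ C, P m b' C) → P m b' (Cf m b') := by
    intro m b' h
    have : Cf m b' = h.choose := dif_pos h
    rw [this]
    exact h.choose_spec
  have hCount : (⋃ m : ℕ, ⋃ b' ∈ Fi m, Cf m b').Countable := by
    refine countable_iUnion fun m => ?_
    exact (Fi m).countable_toSet.biUnion fun b' _ => hCf m b'
  obtain ⟨q', hq', hq'0, a, ha, haF⟩ := hU q hq hq0 _ hCount
  have h1 : q' ≤ ⨆ b' ∈ Fi a.card, x a.card b' := hq'.trans (hFi a.card)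
  have h2 : ∃ b' ∈ Fi a.card, q' ⊓ x a.card b' ≠ ⊥ := by
    by_contra hno
    push Not at hno
    apply hq'0
    have : q' ⊓ ⨆ b' ∈ Fi a.card, x a.card b' = ⊥ := by
      rw [inf_iSup₂_eq]
      simp only [iSup_eq_bot]
      exact hno
    rwa [inf_eq_left.2 h1] at this
  obtain ⟨b', hb', hne⟩ := h2
  by_cases hcase : b' ≤ b₀ ∧ ∃ C, P a.card b' C
  · have hx1 : x a.card b' = b' := if_pos hcase
    rw [hx1] at hne
    have hPP := hCf2 _ _ hcase.2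
    refine hPP.2 (q' ⊓ b') inf_le_right hne a ?_ rfl (hF _ _ haF _ inf_le_left hne)
    intro s hs hsC
    exact ha s hs (mem_iUnion.2 ⟨a.card, mem_iUnion₂.2 ⟨b', hb', hsC⟩⟩)
  · have hx1 : x a.card b' = ⊥ := if_neg hcase
    rw [hx1, inf_bot_eq] at hne
    exact hne rfl

theorem key_m (𝒯 : Tree B T) (m : ℕ) (b₀ : B) (h0 : b₀ ≠ ⊥) (F : Set (B × Finset T)) (hF : Dn F)
    (hm : ∀ z ∈ F, z.2.card = m) (hU : Unb F b₀) :
    ∃ b₁ ≤ b₀, b₁ ≠ ⊥ ∧ ∃ a, (b₁, a) ∈ F ∧ Unb {z ∈ F | z.1 ≤ b₁ ∧ Inc 𝒯 a z.2 z.1} b₁ := by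
  classical
  by_contra hcon
  push Not at hcon
  -- the inequality (**)
  have hB : ∀ b a, b ≤ b₀ → b ≠ ⊥ → (b, a) ∈ F → ∃ b₂ ≤ b, b₂ ≠ ⊥ ∧ ∃ C : Set T, C.Countable ∧
      ∀ b' ≤ b₂, b' ≠ ⊥ → ∀ a' : Finset T, (∀ s ∈ a', s ∉ C) → (b', a') ∈ F →
        b' ≤ ⨆ s ∈ a, ⨆ t ∈ a', 𝒯.lt s t := by
    intro b a hb hb0 hba
    obtain ⟨b₂, hb₂, hb₂0, C, hC, h⟩ := not_unb (hcon b hb hb0 a hba)
    refine ⟨b₂, hb₂, hb₂0, C ∪ ((a : Set T) ∪ ⋃ s ∈ a, 𝒯.pre s), ?_, ?_⟩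
    · refine hC.union (a.countable_toSet.union ?_)
      exact a.countable_toSet.biUnion fun s _ => 𝒯.cnt s
    · intro b' hb' hb'0 a' ha' hmem
      by_contra hle
      have hne := sdiff_ne hle
      have hd : b' \ (⨆ s ∈ a, ⨆ t ∈ a', 𝒯.lt s t) ≤ b' := sdiff_le
      refine h _ (hd.trans hb') hne a' (fun s hs hsC => ha' s hs (Or.inl hsC))
        ⟨hF _ _ hmem _ hd hne, hd.trans (hb'.trans hb₂), ?_⟩
      intro s hs t ht
      refine ⟨?_, ?_, ?_⟩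
      · rintro rfl
        exact ha' s ht (Or.inr (Or.inl hs))
      · have h1 : 𝒯.lt s t ≤ ⨆ s ∈ a, ⨆ t ∈ a', 𝒯.lt s t :=
          le_trans (le_iSup₂ (f := fun t (_ : t ∈ a') => 𝒯.lt s t) t ht)
            (le_iSup₂ (f := fun s (_ : s ∈ a) => ⨆ t ∈ a', 𝒯.lt s t) s hs)
        have h3 : Disjoint (b' \ ⨆ s ∈ a, ⨆ t ∈ a', 𝒯.lt s t) (⨆ s ∈ a, ⨆ t ∈ a', 𝒯.lt s t) :=
          disjoint_sdiff_self_left
        exact le_bot_iff.1 (h3.le_bot.trans' (le_inf inf_le_right (inf_le_left.trans h1)))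
      · have h1 : t ∉ 𝒯.pre s := fun h' => ha' t ht (Or.inr (Or.inr (mem_iUnion₂.2 ⟨s, hs, h'⟩)))
        simp only at *
        rw [𝒯.supp t s h1, bot_inf_eq]
  let v : Finset T → B := fun a => sSup {b | b ≤ b₀ ∧ (b, a) ∈ F}
  let J : Set (Finset T → B) := {g | ∀ b ≤ b₀, b ≠ ⊥ → ∃ b' ≤ b, b' ≠ ⊥ ∧ ∃ C : Set T,
    C.Countable ∧ ∀ a : Finset T, (∀ s ∈ a, s ∉ C) → g a ⊓ v a ⊓ b' = ⊥}
  have j0 : (fun _ => ⊥) ∈ J := by
    intro b hb hb0
    refine ⟨b, le_rfl, hb0, ∅, countable_empty, ?_⟩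
    intro a _
    simp
  have j1 : ∀ f ∈ J, ∀ g ∈ J, f ⊔ g ∈ J := by
    intro f hf g hg b hb hb0
    obtain ⟨b', hb', hb'0, C, hC, h1⟩ := hf b hb hb0
    obtain ⟨b'', hb'', hb''0, C', hC', h2⟩ := hg b' (hb'.trans hb) hb'0
    refine ⟨b'', hb''.trans hb', hb''0, C ∪ C', hC.union hC', ?_⟩
    intro a ha
    have e1 := h1 a fun s hs h => ha s hs (Or.inl h)
    have e2 := h2 a fun s hs h => ha s hs (Or.inr h)
    rw [Pi.sup_apply, inf_sup_right, inf_sup_right, e2, sup_bot_eq]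
    exact le_bot_iff.1 (e1 ▸ inf_le_inf_left _ hb'')
  have j2 : ∀ f ∈ J, ∀ g ≤ f, g ∈ J := by
    intro f hf g hg b hb hb0
    obtain ⟨b', hb', hb'0, C, hC, h1⟩ := hf b hb hb0
    refine ⟨b', hb', hb'0, C, hC, fun a ha => ?_⟩
    exact le_bot_iff.1 ((h1 a ha) ▸ inf_le_inf_right _ (inf_le_inf_right _ (hg a)))
  have j3 : ∀ e ≤ b₀, (fun _ => e) ∈ J → e = ⊥ := by
    intro e he hJe
    by_contra hne
    obtain ⟨b', hb', hb'0, C, hC, h1⟩ := hJe e he hne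
    obtain ⟨b'', hb'', hb''0, a, ha, haF⟩ := hU b' (hb'.trans he) hb'0 C hC
    apply hb''0
    have h2 : b'' ≤ v a := le_sSup ⟨hb''.trans (hb'.trans he), haF⟩
    exact le_bot_iff.1 ((h1 a ha) ▸ le_inf (le_inf (hb''.trans hb') h2) hb'')
  obtain ⟨h, hs, hi, hc, hk, hJ⟩ := sikorski b₀ J j0 j1 j2 j3
  have hbot : h ⊥ = ⊥ := by
    have : (⊥ : Finset T → B) = fun _ => ⊥ := rfl
    rw [this, hk, bot_inf_eq]
  have hmono : ∀ f g, f ≤ g → h f ≤ h g := by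
    intro f g hfg
    have := hs f g
    rw [sup_eq_right.2 hfg] at this
    rw [this]
    exact le_sup_left
  let G : T → Fin m → Finset T → B := fun s j a =>
    if hcd : a.card = m then 𝒯.lt s ((a.equivFinOfCardEq hcd).symm j : T) else ⊥
  have hG1 : ∀ s (a : Finset T), a.card = m → ∀ t ∈ a, ∃ j, G s j a = 𝒯.lt s t := by
    intro s a hcd t ht
    refine ⟨a.equivFinOfCardEq hcd ⟨t, ht⟩, ?_⟩
    have : G s (a.equivFinOfCardEq hcd ⟨t, ht⟩) a =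
        𝒯.lt s ((a.equivFinOfCardEq hcd).symm (a.equivFinOfCardEq hcd ⟨t, ht⟩) : T) := dif_pos hcd
    rw [this, Equiv.symm_apply_apply]
  have hG2 : ∀ s t j (a : Finset T), s ≠ t → G s j a ⊓ G t j a ≤ 𝒯.lt s t ⊔ 𝒯.lt t s := by
    intro s t j a hst
    by_cases hcd : a.card = m
    · have e1 : G s j a = 𝒯.lt s ((a.equivFinOfCardEq hcd).symm j : T) := dif_pos hcd
      have e2 : G t j a = 𝒯.lt t ((a.equivFinOfCardEq hcd).symm j : T) := dif_pos hcd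
      rw [e1, e2]
      exact 𝒯.comp s t _ hst
    · have e1 : G s j a = ⊥ := dif_neg hcd
      rw [e1, bot_inf_eq]
      exact bot_le
  -- (1)
  have h1 : ∀ b a, b ≤ b₀ → b ≠ ⊥ → (b, a) ∈ F →
      b ≤ a.sup fun s => Finset.univ.sup fun j => h (G s j) := by
    intro b a hb hb0 hba
    by_contra hle
    have hne := sdiff_ne hle
    set D : B := a.sup fun s => Finset.univ.sup fun j => h (G s j) with hD
    obtain ⟨b₂, hb₂, hb₂0, C, hC, hs2⟩ := hB (b \ D) a (sdiff_le.trans hb) hne (hF _ _ hba _ sdiff_le hne)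
    apply hb₂0
    have hb₂b : b₂ ≤ b₀ := hb₂.trans (sdiff_le.trans hb)
    let g : Finset T → B := a.sup fun s => Finset.univ.sup fun j => G s j
    have hg : h g = D := by
      have e1 := Finset.apply_sup_eq_sup_comp (s := a)
        (f := fun s => Finset.univ.sup fun j => G s j) h hs hbot
      have e2 : ∀ s, h (Finset.univ.sup fun j => G s j) = Finset.univ.sup fun j => h (G s j) :=
        fun s => Finset.apply_sup_eq_sup_comp (s := Finset.univ) (f := fun j => G s j) h hs hbot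
      show h (a.sup fun s => Finset.univ.sup fun j => G s j) = D
      rw [e1, hD]
      refine Finset.sup_congr rfl fun s _ => ?_
      exact e2 s
    have hgle : ∀ s ∈ a, ∀ j, ∀ a', G s j a' ≤ g a' := by
      intro s hs' j a'
      have e1 : G s j ≤ g :=
        le_trans (Finset.le_sup (f := fun j => G s j) (Finset.mem_univ j))
          (Finset.le_sup (f := fun s => Finset.univ.sup fun j => G s j) hs')
      exact e1 a'
    have hmem : (fun _ => b₂) ⊓ gᶜ ∈ J := by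
      intro b₃ hb₃ hb₃0
      refine ⟨b₃, le_rfl, hb₃0, C, hC, ?_⟩
      intro a' ha'
      have e1 : b₂ ⊓ v a' ≤ g a' := by
        show b₂ ⊓ sSup {b | b ≤ b₀ ∧ (b, a') ∈ F} ≤ g a'
        rw [inf_sSup_eq]
        refine iSup₂_le fun b₄ hb₄ => ?_
        by_cases hz : b₂ ⊓ b₄ = ⊥
        · rw [hz]; exact bot_le
        · have hmem4 : (b₂ ⊓ b₄, a') ∈ F := hF _ _ hb₄.2 _ inf_le_right hz
          refine (hs2 _ inf_le_left hz a' ha' hmem4).trans ?_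
          refine iSup₂_le fun s hsa => iSup₂_le fun t hta => ?_
          obtain ⟨j, hj⟩ := hG1 s a' (hm _ hmem4) t hta
          rw [← hj]
          exact hgle s hsa j a'
      have e2 : ((fun _ => b₂) ⊓ gᶜ : Finset T → B) a' ⊓ v a' ≤ g a' ⊓ (g a')ᶜ := by
        show (b₂ ⊓ (g a')ᶜ) ⊓ v a' ≤ _
        exact le_inf ((le_inf (inf_le_left.trans inf_le_left) inf_le_right).trans e1)
          (inf_le_left.trans inf_le_right)
      rw [inf_compl_self] at e2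
      rw [le_bot_iff.1 e2, bot_inf_eq]
    have e3 := hJ _ hmem
    rw [hi, hk, hc, hg, inf_eq_left.2 hb₂b] at e3
    have e4 : b₂ ≤ b₀ \ D := hb₂.trans (sdiff_le_sdiff_right hb)
    rwa [inf_eq_left.2 e4] at e3
  -- (2)
  have h2 : ∀ J' : Finset (Fin m), ∃ b' ≤ b₀, b' ≠ ⊥ ∧ ∃ C : Set T, C.Countable ∧
      ∀ j ∈ J', ∀ s ∉ C, h (G s j) ⊓ b' = ⊥ := by
    intro J'
    induction J' using Finset.induction_on with
    | empty => exact ⟨b₀, le_rfl, h0, ∅, countable_empty, by simp⟩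
    | insert j J' _ ih =>
      obtain ⟨b', hb', hb'0, C, hC, hall⟩ := ih
      obtain ⟨b'', hb'', hb''0, C', hC', hall'⟩ := 𝒯.nochain (fun s => h (G s j)) (by
        intro s t hst
        show h (G s j) ⊓ h (G t j) ≤ _
        rw [← hi]
        refine (hmono _ (fun _ => 𝒯.lt s t ⊔ 𝒯.lt t s) fun a => hG2 s t j a hst).trans ?_
        rw [hk]
        exact inf_le_left) b' hb'0
      refine ⟨b'', hb''.trans hb', hb''0, C ∪ C', hC.union hC', ?_⟩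
      intro i hi' s hs'
      rcases Finset.mem_insert.1 hi' with rfl | hi'
      · exact hall' s fun h' => hs' (Or.inr h')
      · have := hall i hi' s fun h' => hs' (Or.inl h')
        exact le_bot_iff.1 (this ▸ inf_le_inf_left _ hb'')
  obtain ⟨b', hb', hb'0, C, hC, hall⟩ := h2 Finset.univ
  obtain ⟨b'', hb'', hb''0, a, ha, haF⟩ := hU b' hb' hb'0 C hC
  apply hb''0
  have e1 := h1 b'' a (hb''.trans hb') hb''0 haF
  have e2 : b'' ⊓ (a.sup fun s => Finset.univ.sup fun j => h (G s j)) = ⊥ := by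
    rw [Finset.sup_inf_distrib_left]
    rw [Finset.sup_eq_bot_iff]
    intro s hs'
    rw [Finset.sup_inf_distrib_left, Finset.sup_eq_bot_iff]
    intro j _
    have := hall j (Finset.mem_univ j) s (ha s hs')
    rw [inf_comm]
    exact le_bot_iff.1 (this ▸ inf_le_inf_left _ hb'')
  rwa [inf_eq_left.2 e1] at e2

theorem key (𝒯 : Tree B T) (hW : WDist B) (b₀ : B) (h0 : b₀ ≠ ⊥) (F : Set (B × Finset T)) (hF : Dn F)
    (hU : Unb F b₀) :
    ∃ b₁ ≤ b₀, b₁ ≠ ⊥ ∧ ∃ a, (b₁, a) ∈ F ∧ Unb {z ∈ F | z.1 ≤ b₁ ∧ Inc 𝒯 a z.2 z.1} b₁ := by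
  obtain ⟨m, b₁, hb₁, hb₁0, hU₁⟩ := const_size hW F hF b₀ h0 hU
  obtain ⟨b₂, hb₂, hb₂0, a, ha, hU₂⟩ := key_m 𝒯 m b₁ hb₁0 {z ∈ F | z.2.card = m}
    (fun b a h b' hb' hb'0 => ⟨hF b a h.1 b' hb' hb'0, h.2⟩) (fun z hz => hz.2) hU₁
  refine ⟨b₂, hb₂.trans hb₁, hb₂0, a, ha.1, ?_⟩
  intro b hb hb0 C hC
  obtain ⟨b', hb', hb'0, a', ha', hmem⟩ := hU₂ b hb hb0 C hC
  exact ⟨b', hb', hb'0, a', ha', hmem.1.1, hmem.2⟩

end TreeXAux

open TreeXAux in
theorem tree_lemma (𝒯 : Tree B T) (hW : WDist B) (N : ℕ) (b₀ : B) (h0 : b₀ ≠ ⊥) (F : Set (B × Finset T))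
    (hF : ∀ b a, (b, a) ∈ F → ∀ b' ≤ b, b' ≠ ⊥ → (b', a) ∈ F)
    (hU : ∀ b ≤ b₀, b ≠ ⊥ → ∀ C : Set T, C.Countable →
      ∃ b' ≤ b, b' ≠ ⊥ ∧ ∃ a : Finset T, (∀ s ∈ a, s ∉ C) ∧ (b', a) ∈ F) :
    ∃ b' ≤ b₀, b' ≠ ⊥ ∧ ∃ a : Fin N → Finset T, (∀ i, (b', a i) ∈ F) ∧
      ∀ i j, i ≠ j → ∀ s ∈ a i, ∀ t ∈ a j, s ≠ t ∧ 𝒯.lt s t ⊓ b' = ⊥ ∧ 𝒯.lt t s ⊓ b' = ⊥ := by
  induction N generalizing b₀ F with
  | zero => exact ⟨b₀, le_rfl, h0, Fin.elim0, fun i => i.elim0, fun i => i.elim0⟩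
  | succ N ih =>
    obtain ⟨b₁, hb₁, hb₁0, a, haF, hU₁⟩ := key 𝒯 hW b₀ h0 F hF hU
    obtain ⟨b', hb', hb'0, f, hf, hpair⟩ := ih b₁ hb₁0 {z ∈ F | z.1 ≤ b₁ ∧ Inc 𝒯 a z.2 z.1} (by
      intro b a' h b' hb' hb'0
      refine ⟨hF b a' h.1 b' hb' hb'0, hb'.trans h.2.1, ?_⟩
      intro s hs t ht
      obtain ⟨e1, e2, e3⟩ := h.2.2 s hs t ht
      exact ⟨e1, le_bot_iff.1 (e2 ▸ inf_le_inf_left _ hb'), le_bot_iff.1 (e3 ▸ inf_le_inf_left _ hb')⟩)
      hU₁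
    refine ⟨b', hb'.trans hb₁, hb'0, Fin.cons a f, ?_, ?_⟩
    · intro i
      refine Fin.cases ?_ (fun i => ?_) i
      · exact hF _ _ haF _ hb' hb'0
      · exact (hf i).1
    · intro i j
      refine Fin.cases ?_ (fun i => ?_) i
      · refine Fin.cases ?_ (fun j => ?_) j
        · intro hne; exact absurd rfl hne
        · intro _ s hs t ht
          exact (hf j).2.2 s hs t ht
      · refine Fin.cases ?_ (fun j => ?_) j
        · intro _ s hs t ht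
          obtain ⟨e1, e2, e3⟩ := (hf i).2.2 t ht s hs
          exact ⟨e1.symm, e3, e2⟩
        · intro hne s hs t ht
          exact hpair i j (fun h => hne (by rw [h])) s hs t ht

end Pool.Agent.Lib.BSR
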