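import Pool.Agent.Lib.BSR.OneX
import Pool.Agent.Lib.BSR.TreeX
import Pool.Agent.Lib.BSR.LabelX

/-!
# Module BSR.CopyX: the copy lemma over a base (L6)

`copies`. Same proof as `Pool/Agent/Lib/BSP/CopyB.lean` (read it). Let `F` be the set of the pairs `(b', a)` such that for some `r`: `r.b = b'`, `Fine D z r (ε / 2)`, `a ⊆ r.A` and for all `t ∉ r.A`: `AE b' ((∀ s ∈ a, ¬ R x s t) → r.l x (hitB (r.A \ z.A) t K x) ≤ η / 2)`. `F` is closed under smaller nonzero elements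
(`fine_restr`) and unbounded below `b` by `one_copy` (`C` countable; for `b₁ ≤ b`). Let `N > 0` be a natural number with `1 ≤ N * (η / 2)` (`ENNReal.exists_nat_mul_gt`; `η ≠ 0`). By `tree_lemma` there are `⊥ ≠ b' ≤ b` and `a i`, `i : Fin N`, with `(b', a i) ∈ F`, pairwise incomparable at `b'`; let `r i` be the condition for `(b', a i)`.
`A' = ⋃ i, (r i).A` is countable and closed. By `fine_extend` (`δ = ε / 2`) there are `r' i` with `(r' i).b = b'`, `(r' i).A = A'`, `Fine D z (r' i) ε`, `AE b' (((r' i).l x).map (rho (r i).A) ≤ (r i).l x)`, values on `A' \ (r i).A` at least `K`.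
Estimate: let `t ∉ A'`; for almost all `x` in `b'`: if `¬ R x s t` for all `s ∈ a i`, then `(r' i).l x (hitB (A' \ z.A) t K x) ≤ (r i).l x (hitB ((r i).A \ z.A) t K x) + 0 ≤ η / 2` (`le_mul_of_dom` or `meas_le_of_map`, `rho_hitB`; the part `hitB (A' \ (r i).A) t K x` is a null set, a countable union). At most one `i` has `R x s t` for some `s ∈ a i`:
if `s ∈ a i`, `s' ∈ a j`, `R x s t`, `R x s' t`, `i ≠ j`, then `s ≠ s'` and `R x s s'` or `R x s' s` (`R_comp`), but `x ∈ cl b'` and `lt s s' ⊓ b' = ⊥`, `lt s' s ⊓ b' = ⊥` (`cl_inf`, `cl_bot`). For this `i` the measure is at most `(r' i).l x univ ≤ z.l x univ ≤ 1`.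
The pieces of `r`: for `i : Fin N` let `q i j`, `j : ι i`, be the pieces of `r' i`; scale each by `1 / N` (`exists_smul`; in `D` by openness). `exists_sum` for the index type `Σ i, ι i` (nonempty) gives `R` with `AE b' (R.l x = ∑ i, (1 / N) • (r' i).l x)`, `R ≤ z`. Marginal `≤ z.l x`, loss `≤ ε`, and
`R.l x (hitB (A' \ z.A) t K x) = ∑ (1 / N) * (r' i).l x (..) ≤ (1 / N) * (1 + N * (η / 2)) ≤ η`. So `Fine D z R ε`.

`copy_lemma`: `copies` and `exists_predense`.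
-/

set_option autoImplicit false

open Set MeasureTheory Filter
open scoped ENNReal

namespace Pool.Agent.Lib.BSR

universe u

open Pool.Agent.Lib.BSP (rho measurable_rho rho_mem rho_not rho_rho map_rho map_rho_map map_rho_sup map_rho_univ meas_le_of_map)

open ProbabilityTheory (Kernel)

variable {B X T : Type u} [CompleteBooleanAlgebra B] [MeasurableSpace X] {𝔅 : Base B X} {𝒯 : Tree B T}

theorem copies (hW : WDist B) (z : LCond 𝔅 𝒯) {D : Set (LCond 𝔅 𝒯)} (hD : OD z D) {b : B} (hb : b ≠ ⊥)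
    (hbz : b ≤ z.b) (K : ℕ) {η ε : ℝ≥0∞} (hη : η ≠ 0) (hε : ε ≠ 0) :
    ∃ r : LCond 𝔅 𝒯, r.b ≤ b ∧ Fine D z r ε ∧
      ∀ t ∉ r.A, 𝔅.AE r.b (fun x => r.l x (hitB 𝔅 𝒯 (r.A \ z.A) t K x) ≤ η) := by
  classical
  have hη2 : η / 2 ≠ 0 := ENNReal.div_ne_zero.2 ⟨hη, ENNReal.ofNat_ne_top⟩
  have hε2 : ε / 2 ≠ 0 := ENNReal.div_ne_zero.2 ⟨hε, ENNReal.ofNat_ne_top⟩
  obtain ⟨F, hFdef⟩ : ∃ F : Set (B × Finset T), ∀ b₁ a, (b₁, a) ∈ F ↔ ∃ r : LCond 𝔅 𝒯, r.b = b₁ ∧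
      Fine D z r (ε / 2) ∧ (∀ s ∈ a, s ∈ r.A) ∧ ∀ t ∉ r.A, 𝔅.AE b₁ (fun x => (∀ s ∈ a, ¬ R 𝔅 𝒯 x s t) →
        r.l x (hitB 𝔅 𝒯 (r.A \ z.A) t K x) ≤ η / 2) :=
    ⟨{w | ∃ r : LCond 𝔅 𝒯, r.b = w.1 ∧
      Fine D z r (ε / 2) ∧ (∀ s ∈ w.2, s ∈ r.A) ∧ ∀ t ∉ r.A, 𝔅.AE w.1 (fun x => (∀ s ∈ w.2, ¬ R 𝔅 𝒯 x s t) →
        r.l x (hitB 𝔅 𝒯 (r.A \ z.A) t K x) ≤ η / 2)}, fun b₁ a => Iff.rfl⟩
  have hF : ∀ b₁ a, (b₁, a) ∈ F → ∀ b' ≤ b₁, b' ≠ ⊥ → (b', a) ∈ F := by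
    intro b₁ a hmem b' hb' hb'0
    obtain ⟨r, rfl, h1, h2, h3⟩ := (hFdef _ _).1 hmem
    exact (hFdef _ _).2 ⟨restr r b' hb'0 hb', rfl, fine_restr hD.1 h1 hb'0 hb', h2,
      fun t ht => AE.mono_left (h3 t ht) hb'⟩
  have hU : ∀ b₁ ≤ b, b₁ ≠ ⊥ → ∀ C : Set T, C.Countable →
      ∃ b' ≤ b₁, b' ≠ ⊥ ∧ ∃ a : Finset T, (∀ s ∈ a, s ∉ C) ∧ (b', a) ∈ F := by
    intro b₁ hb₁ hb₁0 C hC
    obtain ⟨r, hr, hf, a, ha, hh⟩ := one_copy z hD hb₁0 (hb₁.trans hbz) hC K hη2 hε2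
    exact ⟨r.b, hr, r.ne, a, fun s hs => (ha s hs).2,
      (hFdef _ _).2 ⟨r, rfl, hf, fun s hs => (ha s hs).1, hh⟩⟩
  obtain ⟨N, hN⟩ := ENNReal.exists_nat_mul_gt hη2 ENNReal.one_ne_top
  have hN0 : (N : ℝ≥0∞) ≠ 0 := by
    intro h
    rw [h, zero_mul] at hN
    exact absurd hN not_lt_zero
  have hNt : (N : ℝ≥0∞) ≠ ⊤ := ENNReal.natCast_ne_top N
  have hNpos : 0 < N := by
    rcases Nat.eq_zero_or_pos N with h | h
    · exact absurd (by rw [h]; exact Nat.cast_zero) hN0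
    · exact h
  obtain ⟨b', hb'b, hb'0, a, haF, hinc⟩ := tree_lemma 𝒯 hW N b hb F hF hU
  have haF' := fun i => (hFdef _ _).1 (haF i)
  choose r hrb hfine hsub hhit using haF'
  obtain ⟨A', hA'def⟩ : ∃ A' : Set T, A' = ⋃ i, (r i).A := ⟨_, rfl⟩
  have hAc : A'.Countable := by
    rw [hA'def]
    exact countable_iUnion fun i => (r i).cnt
  have hsubA : ∀ i, (r i).A ⊆ A' := fun i => by
    rw [hA'def]
    exact subset_iUnion (fun i => (r i).A) i
  have hAl : ∀ t ∈ A', 𝒯.pre t ⊆ A' := by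
    intro t ht
    rw [hA'def] at ht
    obtain ⟨i, hi⟩ := mem_iUnion.1 ht
    exact ((r i).low t hi).trans (hsubA i)
  have hext := fun i => fine_extend hD.1 (hfine i) hAc hAl (hsubA i) K hε2
  choose r' hf' hle' hrb' hA' hmap' hval' using hext
  have hr'b : ∀ i, (r' i).b = b' := fun i => (hrb' i).trans (hrb i)
  have hzr : ∀ i, z.A ⊆ (r i).A := fun i => (le_def.1 (hfine i).1).2.1
  -- the two estimates
  have hest1 : ∀ t ∉ A', 𝔅.AE b' (fun x => ∀ i, (∀ s ∈ a i, ¬ R 𝔅 𝒯 x s t) →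
      (r' i).l x (hitB 𝔅 𝒯 (A' \ z.A) t K x) ≤ η / 2) := by
    intro t ht
    refine AE.all_fin fun i => ?_
    have e1 : 𝔅.AE b' (fun x => ((r' i).l x).map (rho (r i).A) ≤ (r i).l x) := by
      rw [← hrb i]
      exact hmap' i
    have e2 := hhit i t (fun h => ht (hsubA i h))
    have e3 : 𝔅.AE b' (fun x => ∀ s ∈ A' \ (r i).A, (r' i).l x {f | f s < K} = 0) := by
      refine AE.ball (hAc.mono sdiff_subset) fun s hs => ?_
      rw [← hrb i]
      exact hval' i s hs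
    refine AE.mono (AE.and e1 (AE.and e2 e3)) ?_
    rintro x ⟨h1, h2, h3⟩ hs
    have h4 : hitB 𝔅 𝒯 (A' \ z.A) t K x ⊆
        hitB 𝔅 𝒯 ((r i).A \ z.A) t K x ∪ hitB 𝔅 𝒯 (A' \ (r i).A) t K x := by
      rw [← hitB_union]
      refine hitB_mono ?_ le_rfl
      intro s hs1
      by_cases h : s ∈ (r i).A
      · exact Or.inl ⟨h, hs1.2⟩
      · exact Or.inr ⟨hs1.1, h⟩
    have h5 : (r' i).l x (hitB 𝔅 𝒯 ((r i).A \ z.A) t K x) ≤ η / 2 := by
      refine le_trans (meas_le_of_map h1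
        (hitB_meas' 𝔅 𝒯 ((r i).cnt.mono sdiff_subset) t K x)
        (fun f => rho_hitB sdiff_subset f)) ?_
      exact h2 hs
    have h6 : (r' i).l x (hitB 𝔅 𝒯 (A' \ (r i).A) t K x) = 0 := by
      have h7 : hitB 𝔅 𝒯 (A' \ (r i).A) t K x ⊆ ⋃ s ∈ A' \ (r i).A, {f : T → ℕ | f s < K} := by
        rintro f ⟨s, hs1, -, hs3⟩
        exact mem_biUnion hs1 hs3
      refine measure_mono_null h7 ?_
      rw [measure_biUnion_null_iff (hAc.mono sdiff_subset)]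
      exact h3
    calc (r' i).l x (hitB 𝔅 𝒯 (A' \ z.A) t K x)
        ≤ (r' i).l x (hitB 𝔅 𝒯 ((r i).A \ z.A) t K x ∪ hitB 𝔅 𝒯 (A' \ (r i).A) t K x) :=
          measure_mono h4
      _ ≤ (r' i).l x (hitB 𝔅 𝒯 ((r i).A \ z.A) t K x) + (r' i).l x (hitB 𝔅 𝒯 (A' \ (r i).A) t K x) :=
          measure_union_le _ _
      _ ≤ η / 2 + 0 := by rw [h6]; gcongr
      _ = η / 2 := add_zero _
  have hmarg : 𝔅.AE b' (fun x => ∀ i, ((r' i).l x).map (rho z.A) ≤ z.l x) := by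
    refine AE.all_fin fun i => ?_
    rw [← hr'b i]
    exact (hf' i).2.2.1
  have hest2 : 𝔅.AE b' (fun x => ∀ i, (r' i).l x univ ≤ z.l x univ) := by
    refine AE.mono hmarg fun x hx i => ?_
    have h1 := hx i univ
    rwa [map_rho_univ] at h1
  have hmass : 𝔅.AE b' (fun x => ∀ i, z.l x univ ≤ (r' i).l x univ + ε) := by
    refine AE.all_fin fun i => ?_
    rw [← hr'b i]
    have h1 := (hf' i).2.2.2
    rwa [ENNReal.add_halves] at h1
  -- the pieces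
  have hpieces := fun i => (hf' i).2.1
  choose ι hι q hq hsum using hpieces
  have hsum' : 𝔅.AE b' (fun x => ∀ i, (r' i).l x = ∑ j, (q i j).l x) := by
    refine AE.all_fin fun i => ?_
    rw [← hr'b i]
    exact hsum i
  obtain ⟨c, hc⟩ : ∃ c : ℝ≥0∞, c = (N : ℝ≥0∞)⁻¹ := ⟨_, rfl⟩
  have hc0 : c ≠ 0 := by
    rw [hc]
    exact ENNReal.inv_ne_zero.2 hNt
  have hc1 : c ≤ 1 := by
    rw [hc, ENNReal.inv_le_one]
    exact_mod_cast hNpos
  have hcN : c * (N : ℝ≥0∞) = 1 := by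
    rw [hc]
    exact ENNReal.inv_mul_cancel hN0 hNt
  have hsm := fun (y : Σ i, ι i) => exists_smul (q y.1 y.2) hc0 hc1
  choose w hw1 hw2 hw3 hw4 using hsm
  have hne : Nonempty (Σ i, ι i) := by
    by_contra hcon
    have hemp : IsEmpty (ι ⟨0, hNpos⟩) := by
      refine ⟨fun j => hcon ⟨⟨⟨0, hNpos⟩, j⟩⟩⟩
    obtain ⟨d, hd0, hd1⟩ := (r' ⟨0, hNpos⟩).pos
    apply (r' ⟨0, hNpos⟩).ne
    refine AE.false (𝔅 := 𝔅) (AE.mono (AE.and hd1 (hsum ⟨0, hNpos⟩)) fun x hx => ?_)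
    obtain ⟨hx1, hx2⟩ := hx
    rw [hx2] at hx1
    simp only [Finset.univ_eq_empty, Finset.sum_empty, Measure.coe_zero, Pi.zero_apply,
      nonpos_iff_eq_zero] at hx1
    exact hd0 hx1
  have hwb : ∀ y, (w y).b = b' := fun y => by rw [hw2 y, (hq y.1 y.2).2.1, hr'b y.1]
  have hwA : ∀ y, (w y).A = A' := fun y => by rw [hw3 y, (hq y.1 y.2).2.2.1, hA' y.1]
  have hws : 𝔅.AE b' (fun x => ∀ E : Set (T → ℕ), ∑ y, (w y).l x E = c * ∑ i, (r' i).l x E) := by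
    refine AE.mono hsum' fun x hx E => ?_
    rw [Fintype.sum_sigma, Finset.mul_sum]
    refine Finset.sum_congr rfl fun i _ => ?_
    rw [hx i, EvSumAux.msum_apply, Finset.mul_sum]
    refine Finset.sum_congr rfl fun j _ => ?_
    rw [hw4 ⟨i, j⟩, Measure.smul_apply, smul_eq_mul]
  have hconst : ∀ v : ℝ≥0∞, c * ∑ _i : Fin N, v = v := by
    intro v
    rw [Finset.sum_const, Finset.card_univ, Fintype.card_fin, nsmul_eq_mul, ← mul_assoc, hcN, one_mul]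
  have hle1 : 𝔅.AE b' (fun x => ∑ y, (w y).l x univ ≤ 1) := by
    refine AE.mono (AE.and hws hest2) fun x hx => ?_
    rw [hx.1 univ]
    calc c * ∑ i, (r' i).l x univ ≤ c * ∑ _i : Fin N, (1 : ℝ≥0∞) :=
          mul_le_mul_right (Finset.sum_le_sum fun i _ => (hx.2 i).trans (z.le_one x)) c
      _ = 1 := hconst 1
  obtain ⟨r₀, hR1, hR2, hR3, hR4⟩ := exists_sum w hwb hwA hle1
  have hRE : 𝔅.AE b' (fun x => ∀ E : Set (T → ℕ), r₀.l x E = c * ∑ i, (r' i).l x E) := by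
    refine AE.mono (AE.and hR3 hws) fun x hx E => ?_
    rw [hx.1, EvSumAux.msum_apply]
    exact hx.2 E
  refine ⟨r₀, hR1.le.trans hb'b, ⟨?_, ⟨Σ i, ι i, inferInstance, w, fun y => ⟨?_, ?_, ?_, ?_⟩, ?_⟩, ?_, ?_⟩, ?_⟩
  · exact hR4 z fun y => (hw1 y).trans (hq y.1 y.2).2.2.2
  · exact hD.1 _ (hq y.1 y.2).1 _ (hw1 y)
  · rw [hwb y, hR1]
  · rw [hwA y, hR2]
  · exact (hw1 y).trans (hq y.1 y.2).2.2.2
  · rw [hR1]
    exact hR3
  · rw [hR1]
    refine AE.mono (AE.and hRE hmarg) fun x hx => ?_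
    refine Measure.le_iff.2 fun E hE => ?_
    rw [Measure.map_apply (measurable_rho _) hE, hx.1]
    calc c * ∑ i, (r' i).l x (rho z.A ⁻¹' E) ≤ c * ∑ _i : Fin N, z.l x E := by
          refine mul_le_mul_right (Finset.sum_le_sum fun i _ => ?_) c
          have h1 := hx.2 i E
          rwa [Measure.map_apply (measurable_rho _) hE] at h1
      _ = z.l x E := hconst _
  · rw [hR1]
    refine AE.mono (AE.and hRE hmass) fun x hx => ?_
    rw [hx.1]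
    calc z.l x univ = c * ∑ _i : Fin N, z.l x univ := (hconst _).symm
      _ ≤ c * ∑ i, ((r' i).l x univ + ε) := by
          gcongr with i
          exact hx.2 i
      _ = c * ∑ i, (r' i).l x univ + ε := by
          rw [Finset.sum_add_distrib, mul_add, hconst]
  · intro t ht
    rw [hR2] at ht
    rw [hR1, hR2]
    refine AE.mono (AE.and hRE (AE.and (hest1 t ht) (AE.and hest2 (AE.mem b')))) ?_
    rintro x ⟨h1, h2, h3, h4⟩
    rw [h1]
    have hbound : ∃ i0 : Fin N, ∀ i, (r' i).l x (hitB 𝔅 𝒯 (A' \ z.A) t K x) ≤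
        (if i = i0 then z.l x univ else 0) + η / 2 := by
      by_cases hex : ∃ i0, ∃ s ∈ a i0, R 𝔅 𝒯 x s t
      · obtain ⟨i0, s0, hs0, hst0⟩ := hex
        refine ⟨i0, fun i => ?_⟩
        by_cases hi : i = i0
        · rw [if_pos hi]
          exact le_trans (measure_mono (subset_univ _)) ((h3 i).trans le_self_add)
        · rw [if_neg hi, zero_add]
          refine h2 i fun s hs hst => ?_
          have h5 := hinc i i0 hi s hs s0 hs0
          have hno : ∀ u : B, u ⊓ b' = ⊥ → x ∈ 𝔅.cl u → False := by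
            intro u hu hx
            have h6 : x ∈ 𝔅.cl (u ⊓ b') := by
              rw [𝔅.cl_inf]
              exact ⟨hx, h4⟩
            rw [hu, Base.cl_bot] at h6
            exact h6
          rcases R_comp 𝔅 𝒯 hst hst0 with h | h | h
          · exact hno _ h5.2.1 h
          · exact h5.1 h
          · exact hno _ h5.2.2 h
      · push Not at hex
        refine ⟨⟨0, hNpos⟩, fun i => ?_⟩
        exact (h2 i (hex i)).trans le_add_self
    obtain ⟨i0, hi0⟩ := hbound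
    calc c * ∑ i, (r' i).l x (hitB 𝔅 𝒯 (A' \ z.A) t K x)
        ≤ c * ∑ i, ((if i = i0 then z.l x univ else 0) + η / 2) :=
          mul_le_mul_right (Finset.sum_le_sum fun i _ => hi0 i) c
      _ = c * z.l x univ + η / 2 := by
          rw [Finset.sum_add_distrib, mul_add, hconst, Finset.sum_ite_eq' Finset.univ i0]
          simp
      _ ≤ c * ((N : ℝ≥0∞) * (η / 2)) + η / 2 := by
          gcongr
          exact (z.le_one x).trans hN.le
      _ = η := by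
          rw [← mul_assoc, hcN, one_mul, ENNReal.add_halves]

theorem copy_lemma (hW : WDist B) (z : LCond 𝔅 𝒯) {D : Set (LCond 𝔅 𝒯)} (hD : OD z D) {b : B} (hb : b ≠ ⊥)
    (hbz : b ≤ z.b) (K : ℕ) {η ε : ℝ≥0∞} (hη : η ≠ 0) (hε : ε ≠ 0) :
    ∃ r : LCond 𝔅 𝒯, r.b ≤ b ∧ Ctrl z r K η ε ∧
      ∃ (ι : Type) (_ : Fintype ι) (q : ι → LCond 𝔅 𝒯),
        (∀ i, q i ∈ D ∧ (q i).b = r.b ∧ (q i).A = r.A ∧ q i ≤ z) ∧
        ∀ x, x ≤ r → ∃ x', x' ≤ x ∧ ∃ i, x' ≤ q i := by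
  obtain ⟨r, h1, h2, h3⟩ := copies hW z hD hb hbz K hη hε
  obtain ⟨r', h4, h5, h6⟩ := exists_predense hD.1 h2 h3
  exact ⟨r', h4.le.trans h1, h5, h6⟩

end Pool.Agent.Lib.BSR
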