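import Pool.Agent.Lib.BSR.FreeX

/-!
# Module BSR.CtrlG: glueing finitely many conditions with different domains

* `exists_mix`: `A' = ⋃ i, (q i).A` is countable and closed. `free` (`N = 0`, `ε = 1`) gives `q' i ≤ q i`, `(q' i).b = (q i).b`, `(q' i).A = A'`. `exists_glue` gives `R` with `R.b = ⨆ i, (q' i).b`, `restr R (q' i).b ≤ q' i ≤ q i`; `q' i ≤ q i ≤ p` for the last clause.
* `ctrl_glue`: the same with `N = K` and loss `δ`. `R ≤ z` as all `q' i ≤ r i ≤ z`. For almost all `x` in `(r i).b`: `R.l x = (q' i).l x`; `(R.l x).map (rho z.A) = (((q' i).l x).map (rho (r i).A)).map (rho z.A) ≤ ((r i).l x).map (rho z.A) ≤ z.l x` (`map_rho_map`, `Measure.map_mono`); the masses: `z.l x univ ≤ (r i).l x univ + ε ≤ (q' i).l x univ + δ + ε`;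
  for `t ∉ A'`: `hitB (A' \ z.A) t K x ⊆ hitB ((r i).A \ z.A) t K x ∪ hitB (A' \ (r i).A) t K x`; the first has `(q' i).l x`-measure `≤ (r i).l x (..) ≤ η` (`meas_le_of_map` or `le_mul_of_dom`, `rho_hitB`), the second `0` (a countable union of the events `{f | f s < K}`, `s ∈ A' \ (r i).A`). Then `AE.iSup_fin`.
-/

set_option autoImplicit false

open Set MeasureTheory Filter
open scoped ENNReal

namespace Pool.Agent.Lib.BSR

universe u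

open Pool.Agent.Lib.BSP (rho measurable_rho rho_mem rho_not rho_rho map_rho map_rho_map map_rho_sup map_rho_univ meas_le_of_map)

open ProbabilityTheory (Kernel)

variable {B X T : Type u} [CompleteBooleanAlgebra B] [MeasurableSpace X] {𝔅 : Base B X} {𝒯 : Tree B T}

namespace CtrlGAux

theorem restr_congr (R : LCond 𝔅 𝒯) {b b' : B} (e : b = b') (hb : b ≠ ⊥) (hbz : b ≤ R.b) (hb' : b' ≠ ⊥)
    (hbz' : b' ≤ R.b) : restr R b hb hbz = restr R b' hb' hbz' := by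
  subst e
  rfl

theorem dom {ι : Type} [Fintype ι] (q : ι → LCond 𝔅 𝒯) {C : Set T} (hC : C.Countable)
    (hl : ∀ t ∈ C, 𝒯.pre t ⊆ C) :
    ∃ A' : Set T, A'.Countable ∧ (∀ t ∈ A', 𝒯.pre t ⊆ A') ∧ C ⊆ A' ∧ ∀ i, (q i).A ⊆ A' := by
  have hs : ∀ i, (q i).A ⊆ C ∪ ⋃ i, (q i).A := fun i =>
    (subset_iUnion (fun i => (q i).A) i).trans subset_union_right
  refine ⟨C ∪ ⋃ i, (q i).A, hC.union (countable_iUnion fun i => (q i).cnt), ?_, subset_union_left, hs⟩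
  rintro t (ht | ht)
  · exact (hl t ht).trans subset_union_left
  · obtain ⟨i, hi⟩ := mem_iUnion.1 ht
    exact ((q i).low t hi).trans (hs i)

theorem null_hitB {D : Set T} (hD : D.Countable) {K : ℕ} {μ : Measure (T → ℕ)}
    (h : ∀ s ∈ D, μ {f | f s < K} = 0) (t : T) (x : X) : μ (hitB 𝔅 𝒯 D t K x) = 0 := by
  refine measure_mono_null (t := ⋃ s ∈ D, {f : T → ℕ | f s < K}) ?_ ((measure_biUnion_null_iff hD).2 h)
  rintro f ⟨s, hs, -, hk⟩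
  exact mem_biUnion hs hk

end CtrlGAux

open CtrlGAux

theorem exists_mix {ι : Type} [Fintype ι] [Nonempty ι] (q : ι → LCond 𝔅 𝒯)
    (hd : ∀ i j, i ≠ j → (q i).b ⊓ (q j).b = ⊥) {C : Set T} (hC : C.Countable) (hl : ∀ t ∈ C, 𝒯.pre t ⊆ C) :
    ∃ R : LCond 𝔅 𝒯, R.b = ⨆ i, (q i).b ∧ C ⊆ R.A ∧ (∀ p : LCond 𝔅 𝒯, (∀ i, q i ≤ p) → R ≤ p) ∧
      ∀ i, ∀ h : (q i).b ≤ R.b, restr R (q i).b (q i).ne h ≤ q i := by
  obtain ⟨A', hc, hl', hCA, hs⟩ := dom q hC hl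
  choose q' h1 h2 h3 h4 h5 h6 using fun i => free (q i) hc hl' (hs i) 0 (ε := 1) one_ne_zero
  have hd' : ∀ i j, i ≠ j → (q' i).b ⊓ (q' j).b = ⊥ := fun i j hij => by
    rw [h2 i, h2 j]
    exact hd i j hij
  obtain ⟨R, hb, hA, hR, hp, hr⟩ := exists_glue q' h3 hd'
  refine ⟨R, ?_, ?_, fun p hpp => hp p fun i => (h1 i).trans (hpp i), fun i h => ?_⟩
  · rw [hb]
    exact iSup_congr h2
  · rw [hA]
    exact hCA
  · have h' : (q' i).b ≤ R.b := by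
      rw [h2 i]
      exact h
    rw [restr_congr R (h2 i).symm (q i).ne h (q' i).ne h']
    exact (hr i h').trans (h1 i)

theorem ctrl_glue {ι : Type} [Fintype ι] [Nonempty ι] (z : LCond 𝔅 𝒯) (r : ι → LCond 𝔅 𝒯)
    (hd : ∀ i j, i ≠ j → (r i).b ⊓ (r j).b = ⊥) {K : ℕ} {η ε δ : ℝ≥0∞} (h : ∀ i, Ctrl z (r i) K η ε) (hδ : δ ≠ 0)
    {C : Set T} (hC : C.Countable) (hl : ∀ t ∈ C, 𝒯.pre t ⊆ C) :
    ∃ R : LCond 𝔅 𝒯, R.b = ⨆ i, (r i).b ∧ C ⊆ R.A ∧ Ctrl z R K η (ε + δ) ∧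
      ∀ i, ∀ h : (r i).b ≤ R.b, restr R (r i).b (r i).ne h ≤ r i := by
  obtain ⟨A', hc, hl', hCA, hs⟩ := dom r hC hl
  choose q' h1 h2 h3 h4 h5 h6 using fun i => free (r i) hc hl' (hs i) K hδ
  have hd' : ∀ i j, i ≠ j → (q' i).b ⊓ (q' j).b = ⊥ := fun i j hij => by
    rw [h2 i, h2 j]
    exact hd i j hij
  have hzr : ∀ i, z.A ⊆ (r i).A := fun i => (le_def.1 (h i).1).2.1
  obtain ⟨R, hb, hA, hR, hp, hr⟩ := exists_glue q' h3 hd'
  refine ⟨R, ?_, ?_, ⟨hp z fun i => (h1 i).trans (h i).1, ?_, ?_, ?_⟩, fun i h => ?_⟩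
  · rw [hb]
    exact iSup_congr h2
  · rw [hA]
    exact hCA
  · rw [hb]
    refine AE.iSup_fin fun i => ?_
    have e1 := (h i).2.1
    rw [← h2 i] at e1
    refine AE.mono (AE.and (hR i) e1) ?_
    rintro x ⟨hx1, hx2⟩
    rw [hx1, ← map_rho_map (hzr i)]
    exact (Measure.map_mono (h4 i x) (measurable_rho _)).trans hx2
  · rw [hb]
    refine AE.iSup_fin fun i => ?_
    have e1 := (h i).2.2.1
    have e2 := h5 i
    rw [← h2 i] at e1 e2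
    refine AE.mono (AE.and (AE.and (hR i) e1) e2) ?_
    rintro x ⟨⟨hx1, hx2⟩, hx3⟩
    rw [hx1]
    calc z.l x univ ≤ (r i).l x univ + ε := hx2
      _ ≤ (q' i).l x univ + δ + ε := add_le_add hx3 le_rfl
      _ = (q' i).l x univ + (ε + δ) := by rw [add_assoc, add_comm δ ε]
  · intro t ht
    rw [hA] at ht ⊢
    rw [hb]
    refine AE.iSup_fin fun i => ?_
    have e1 := (h i).2.2.2 t fun h' => ht (hs i h')
    rw [← h2 i] at e1
    refine AE.mono (AE.and (hR i) e1) ?_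
    rintro x ⟨hx1, hx2⟩
    rw [hx1]
    have hcov : hitB 𝔅 𝒯 (A' \ z.A) t K x ⊆
        hitB 𝔅 𝒯 ((r i).A \ z.A) t K x ∪ hitB 𝔅 𝒯 (A' \ (r i).A) t K x := by
      rw [← hitB_union]
      refine hitB_mono ?_ le_rfl
      rintro s ⟨hs1, hs2⟩
      by_cases hsr : s ∈ (r i).A
      · exact Or.inl ⟨hsr, hs2⟩
      · exact Or.inr ⟨hs1, hsr⟩
    have hn : (q' i).l x (hitB 𝔅 𝒯 (A' \ (r i).A) t K x) = 0 :=
      null_hitB (hc.mono sdiff_subset) (fun s hs' => h6 i s hs' x) t x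
    have hm : (q' i).l x (hitB 𝔅 𝒯 ((r i).A \ z.A) t K x) ≤ (r i).l x (hitB 𝔅 𝒯 ((r i).A \ z.A) t K x) :=
      meas_le_of_map (h4 i x) (hitB_meas' 𝔅 𝒯 ((r i).cnt.mono sdiff_subset) t K x) fun f => rho_hitB sdiff_subset f
    calc (q' i).l x (hitB 𝔅 𝒯 (A' \ z.A) t K x)
        ≤ (q' i).l x (hitB 𝔅 𝒯 ((r i).A \ z.A) t K x ∪ hitB 𝔅 𝒯 (A' \ (r i).A) t K x) := measure_mono hcov
      _ ≤ (q' i).l x (hitB 𝔅 𝒯 ((r i).A \ z.A) t K x) + (q' i).l x (hitB 𝔅 𝒯 (A' \ (r i).A) t K x) :=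
        measure_union_le _ _
      _ = (q' i).l x (hitB 𝔅 𝒯 ((r i).A \ z.A) t K x) := by rw [hn, add_zero]
      _ ≤ (r i).l x (hitB 𝔅 𝒯 ((r i).A \ z.A) t K x) := hm
      _ ≤ η := hx2
  · have h' : (q' i).b ≤ R.b := by
      rw [h2 i]
      exact h
    rw [restr_congr R (h2 i).symm (r i).ne h (q' i).ne h']
    exact (hr i h').trans (h1 i)

end Pool.Agent.Lib.BSR
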