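import Pool.Agent.Lib.BSP.Rho

/-!
# Module BSR.Defs: definitions of the relative theory (MP_50703a_lc, full answer; see bounding_iteration_plan.md, Part I)

`B` is a complete Boolean algebra, `X` its Stone space with the sigma algebra of the sets with the Baire property; only
the facts listed in `Base` are used. `𝔅.AE b φ` means: `φ x` for almost all (residual many) `x` in the clopen set of `b`.
`Tree B T` is a `B`-valued tree on `T` in which the predecessors of `t` are taken from a countable ground set `pre t`,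
without uncountable `B`-valued chains. `LCond` are the local conditions over the base `B`.
-/

set_option autoImplicit false

open Set MeasureTheory
open scoped ENNReal

namespace Pool.Agent.Lib.BSR

universe u

open Pool.Agent.Lib.BSP (rho)

/-- The base: a complete Boolean algebra `B` and a measurable space `X` with a filter `N` of conull sets. -/
structure Base (B X : Type u) [CompleteBooleanAlgebra B] [MeasurableSpace X] where
  /-- the conull sets -/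
  N : Filter X
  cnt : CountableInterFilter N
  /-- the clopen set of an element -/
  cl : B → Set X
  cl_top : cl ⊤ = univ
  cl_inf : ∀ a b, cl (a ⊓ b) = cl a ∩ cl b
  cl_compl : ∀ a, cl aᶜ = (cl a)ᶜ
  meas : ∀ a, MeasurableSet (cl a)
  pos : ∀ a, (∀ᶠ x in N, x ∉ cl a) → a = ⊥
  dec : ∀ a, ∀ S : Set X, MeasurableSet S → (¬ ∀ᶠ x in N, x ∈ cl a → x ∉ S) →
    ∃ a' ≤ a, a' ≠ ⊥ ∧ ∀ᶠ x in N, x ∈ cl a' → x ∈ S
  loc : ∀ a, ∀ φ : X → Prop, (∀ a' ≤ a, a' ≠ ⊥ → ∃ a'' ≤ a', a'' ≠ ⊥ ∧ ∀ᶠ x in N, x ∈ cl a'' → φ x) →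
    ∀ᶠ x in N, x ∈ cl a → φ x
  null : ∀ S : Set X, (∀ᶠ x in N, x ∉ S) → MeasurableSet S
  glue : ∀ 𝒜 : Set B, (∀ a ∈ 𝒜, ∀ b ∈ 𝒜, a ≠ b → a ⊓ b = ⊥) → ∀ S : B → Set X,
    (∀ a ∈ 𝒜, MeasurableSet (S a)) → MeasurableSet (⋃ a ∈ 𝒜, cl a ∩ S a)

/-- for almost all `x` in `a` -/
def Base.AE {B X : Type u} [CompleteBooleanAlgebra B] [MeasurableSpace X] (𝔅 : Base B X) (a : B)
    (φ : X → Prop) : Prop := ∀ᶠ x in 𝔅.N, x ∈ 𝔅.cl a → φ x

/-- weak distributivity of `B` (the names of countable sets are covered by finite ground sets, member by member) -/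
def WDist (B : Type u) [CompleteBooleanAlgebra B] : Prop :=
  ∀ (ι : Type u) (x : ℕ → ι → B) (p : B), p ≠ ⊥ → (∀ n, p ≤ ⨆ i, x n i) →
    ∃ q ≤ p, q ≠ ⊥ ∧ ∃ F : ℕ → Finset ι, ∀ n, q ≤ ⨆ i ∈ F n, x n i

/-- `B`-valued trees -/
structure Tree (B T : Type u) [CompleteBooleanAlgebra B] where
  /-- the possible predecessors -/
  pre : T → Set T
  cnt : ∀ t, (pre t).Countable
  pre_trans : ∀ t, ∀ s ∈ pre t, pre s ⊆ pre t
  lt : T → T → B
  irr : ∀ t, lt t t = ⊥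
  supp : ∀ s t, s ∉ pre t → lt s t = ⊥
  trans : ∀ r s t, lt r s ⊓ lt s t ≤ lt r t
  comp : ∀ r s t, r ≠ s → lt r t ⊓ lt s t ≤ lt r s ⊔ lt s r
  nochain : ∀ c : T → B, (∀ s t, s ≠ t → c s ⊓ c t ≤ lt s t ⊔ lt t s) → ∀ b, b ≠ ⊥ →
    ∃ b' ≤ b, b' ≠ ⊥ ∧ ∃ C : Set T, C.Countable ∧ ∀ s ∉ C, c s ⊓ b' = ⊥
  /-- uncountably many isolated nodes -/
  iso : ¬ {s | pre s = ∅ ∧ ∀ t, s ∉ pre t}.Countable

section

variable {B X T : Type u} [CompleteBooleanAlgebra B] [MeasurableSpace X]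

/-- the order of the tree at the point `x` -/
def R (𝔅 : Base B X) (𝒯 : Tree B T) (x : X) (s t : T) : Prop := x ∈ 𝔅.cl (𝒯.lt s t)

/-- all values in `[n, m)` are taken on the nodes of `A` below `t` -/
def full (𝔅 : Base B X) (𝒯 : Tree B T) (A : Set T) (t : T) (n m : ℕ) (x : X) : Set (T → ℕ) :=
  {f | ∀ k, n ≤ k → k < m → ∃ s ∈ A, R 𝔅 𝒯 x s t ∧ f s = k}

/-- the value `k` is taken on the nodes of `D` below `t` -/
def hit (𝔅 : Base B X) (𝒯 : Tree B T) (D : Set T) (t : T) (k : ℕ) (x : X) : Set (T → ℕ) :=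
  {f | ∃ s ∈ D, R 𝔅 𝒯 x s t ∧ f s = k}

/-- some value below `K` is taken on the nodes of `D` below `t` -/
def hitB (𝔅 : Base B X) (𝒯 : Tree B T) (D : Set T) (t : T) (K : ℕ) (x : X) : Set (T → ℕ) :=
  {f | ∃ s ∈ D, R 𝔅 𝒯 x s t ∧ f s < K}

/-- Local conditions: `b` is the base part, `A` a countable closed set of nodes, `l x` (for `x ∈ b`) a measure on the
functions on `A` which are injective on the chains of the order at `x`. -/
structure LCond (𝔅 : Base B X) (𝒯 : Tree B T) where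
  b : B
  ne : b ≠ ⊥
  A : Set T
  cnt : A.Countable
  low : ∀ t ∈ A, 𝒯.pre t ⊆ A
  l : ProbabilityTheory.Kernel X (T → ℕ)
  le_one : ∀ x, l x univ ≤ 1
  pos : ∃ c : ℝ≥0∞, c ≠ 0 ∧ 𝔅.AE b (fun x => c ≤ l x univ)
  sup : ∀ x, ∀ t ∉ A, l x {f | f t ≠ 0} = 0
  inj : ∀ s ∈ A, ∀ t ∈ A, 𝔅.AE b (fun x => R 𝔅 𝒯 x s t → l x {f | f s = f t} = 0)
  unif : ∀ n : ℕ, ∀ η : ℝ≥0∞, η ≠ 0 → ∃ m, n < m ∧ ∀ t ∉ A,
    𝔅.AE b (fun x => l x (full 𝔅 𝒯 A t n m x) ≤ η)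

/-- domination of the marginals by a constant -/
def Dom {𝔅 : Base B X} {𝒯 : Tree B T} (q p : LCond 𝔅 𝒯) : Prop :=
  ∃ c : ℝ≥0∞, c ≠ ⊤ ∧ 𝔅.AE q.b (fun x => (q.l x).map (rho p.A) ≤ c • p.l x)

/-- the uniform condition (C) on the new nodes `q.A \ p.A` -/
def Thin {𝔅 : Base B X} {𝒯 : Tree B T} (q p : LCond 𝔅 𝒯) : Prop :=
  ∀ k : ℕ, ∀ η : ℝ≥0∞, η ≠ 0 → ∃ a : Finset T, (∀ s ∈ a, s ∈ q.A ∧ s ∉ p.A) ∧
    ∀ t ∉ q.A, 𝔅.AE q.b (fun x => (∀ s ∈ a, ¬ R 𝔅 𝒯 x s t) → q.l x (hit 𝔅 𝒯 (q.A \ p.A) t k x) ≤ η)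

/-- the order of the local conditions -/
def LeL {𝔅 : Base B X} {𝒯 : Tree B T} (q p : LCond 𝔅 𝒯) : Prop :=
  q.b ≤ p.b ∧ p.A ⊆ q.A ∧ Dom q p ∧ Thin q p

end

end Pool.Agent.Lib.BSR
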