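import Pool.Agent.Lib.BSR.Ord

/-!
# Module BSR.EvSum: restriction to events, finite sums, gluing, scaling, labels

* `exists_event`: `l' x = (z.l x).restrict {f | (x, f) ∈ S}` (`kernel_restrict`); by hypothesis and `AE.exists_nat` (with `φ n x = ((2 : ℝ≥0∞)⁻¹ ^ n ≤ z.l x {f | (x, f) ∈ S})`, measurable by `kset`; first
  `AE.exists_pos` for the set of the `x` with positive measure) there are `b' ≤ z.b`, `n` with `AE b' (2⁻¹ ^ n ≤ ..)`. Then `exists_sub` (`c = 1`, `Measure.restrict_le_self`).
* `exists_sum`: `r.l x = ∑ i, (q i).l x` where this sum has mass `≤ 1` and `0` for the other `x` (`kernel_ite`; the set of the `x` is measurable). `unif`: `m i` for `q i`, `n`, `η / N` (`N` the number of indices), `m = max m i` (`full_anti`).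
  `pos`: from one index. `r ≤ p`: constants `c = ∑ c i`, `a = ⋃ a i` for `k`, `η / N`.
* `exists_glue`: `r.l x = (q i).l x` for `x ∈ cl (q i).b` (`kernel_glue` with `𝒜` the set of the `(q i).b`, or a finite induction with `kernel_ite`), `0` for the other `x`. `pos`: the minimum of the constants; `unif`: maximum of the `m i`;
  `r ≤ p`: maximum of the constants, union of the `a i`; `AE.iSup_fin`. `restr r (q i).b ≤ q i`: `Dom` with `c = 1`, `a = ∅`.
* `exists_smul`: `exists_sub` with `l' x = c • z.l x` (`kernel_mk`).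
* `exists_label`: `l' x = (z.l x).map (fun f => Function.update f s k)` (`kernel_map`); `s` is never below or above any node: `R x s t` and `R x t s` are false (`R_pre`). So `full (z.A ∪ {s}) t n m x` and `full z.A t n m x` agree for
  `t ∉ z.A ∪ {s}` on functions updated at `s ∉ z.A`. `z' ≤ z`: `rho z.A (update f s k) = rho z.A f`, `Dom` with `c = 1`, `a = ∅` (`hit {s} t k x = ∅`).
-/

set_option autoImplicit false

open Set MeasureTheory Filter
open scoped ENNReal

namespace Pool.Agent.Lib.BSR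

universe u

open Pool.Agent.Lib.BSP (rho)

open ProbabilityTheory (Kernel)

variable {B X T : Type u} [CompleteBooleanAlgebra B] [MeasurableSpace X] {𝔅 : Base B X} {𝒯 : Tree B T}

namespace EvSumAux

theorem div_card {ι : Type} [Fintype ι] [Nonempty ι] {η : ℝ≥0∞} (h : η ≠ 0) :
    η / (Fintype.card ι : ℝ≥0∞) ≠ 0 := by
  rw [Ne, ENNReal.div_eq_zero_iff]
  push Not
  exact ⟨h, ENNReal.natCast_ne_top _⟩

theorem sum_div_card {ι : Type} [Fintype ι] [Nonempty ι] (η : ℝ≥0∞) :
    ∑ _i : ι, η / (Fintype.card ι : ℝ≥0∞) = η := by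
  rw [Finset.sum_const, nsmul_eq_mul, Finset.card_univ]
  refine ENNReal.mul_div_cancel ?_ (ENNReal.natCast_ne_top _)
  exact_mod_cast Fintype.card_ne_zero

theorem msum_apply {ι Y : Type*} [Fintype ι] [MeasurableSpace Y] (μ : ι → Measure Y) (E : Set Y) :
    (∑ i, μ i) E = ∑ i, μ i E := by
  rw [Measure.coe_finsetSum, Finset.sum_apply]

end EvSumAux

open EvSumAux

theorem exists_event (z : LCond 𝔅 𝒯) {b : B} (hbz : b ≤ z.b) {S : Set (X × (T → ℕ))} (hS : MeasurableSet S)
    (h : ¬ 𝔅.AE b (fun x => z.l x {f | (x, f) ∈ S} = 0)) :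
    ∃ z' : LCond 𝔅 𝒯, z' ≤ z ∧ z'.b ≤ b ∧ z'.A = z.A ∧
      ∀ x, z'.l x = (z.l x).restrict {f | (x, f) ∈ S} := by
  have := finite_of_le_one z.le_one
  have hk := kset z.l hS
  obtain ⟨a, hab, ha, hφ⟩ := AE.exists_pos (𝔅 := 𝔅) (a := b) (φ := fun x => z.l x {f | (x, f) ∈ S} ≠ 0)
    (hk (measurableSet_singleton (0 : ℝ≥0∞)).compl) (fun h' => h (AE.mono h' fun x hx => not_not.1 hx))
  obtain ⟨n, a', haa, ha', hn⟩ := AE.exists_nat (𝔅 := 𝔅) ha
    (φ := fun n x => ((2 : ℝ≥0∞)⁻¹ ^ n ≤ z.l x {f | (x, f) ∈ S}))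
    (fun n => measurableSet_le measurable_const hk)
    (AE.mono hφ fun x hx => by
      obtain ⟨n, hn⟩ := ENNReal.exists_inv_two_pow_lt hx
      exact ⟨n, hn.le⟩)
  obtain ⟨l, hl⟩ := kernel_restrict z.l hS
  have hle : ∀ x, l x ≤ z.l x := fun x => by
    rw [hl x]
    exact Measure.restrict_le_self
  obtain ⟨z', h1, h2, h3, h4⟩ := exists_sub z ha' ((haa.trans hab).trans hbz) l
    (fun x => (hle x _).trans (z.le_one x))
    (fun x t ht => le_antisymm ((hle x _).trans (z.sup x t ht).le) zero_le)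
    ⟨(2 : ℝ≥0∞)⁻¹ ^ n, by simp, AE.mono hn fun x hx => by
      rw [hl x, Measure.restrict_apply_univ]
      exact hx⟩
    ⟨1, ENNReal.one_ne_top, AE.of_all fun x => by
      rw [one_smul]
      exact hle x⟩
  refine ⟨z', h4, h1.le.trans (haa.trans hab), h2, fun x => ?_⟩
  rw [h3, hl x]

theorem exists_sum {ι : Type} [Fintype ι] [Nonempty ι] (q : ι → LCond 𝔅 𝒯) {b : B} {A : Set T}
    (hb : ∀ i, (q i).b = b) (hA : ∀ i, (q i).A = A) (h1 : 𝔅.AE b (fun x => ∑ i, (q i).l x univ ≤ 1)) :
    ∃ r : LCond 𝔅 𝒯, r.b = b ∧ r.A = A ∧ 𝔅.AE b (fun x => r.l x = ∑ i, (q i).l x) ∧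
      ∀ p : LCond 𝔅 𝒯, (∀ i, q i ≤ p) → r ≤ p := by
  classical
  obtain ⟨i0⟩ := (inferInstance : Nonempty ι)
  have : Nonempty ι := ⟨i0⟩
  have hS : MeasurableSet {x | ∑ i, (q i).l x univ ≤ 1} := by
    refine measurableSet_le ?_ measurable_const
    exact Finset.measurable_sum _ fun i _ => (q i).l.measurable_coe MeasurableSet.univ
  obtain ⟨κ, hκ⟩ := kernel_mk (X := X) (Y := T → ℕ) (fun x => ∑ i, (q i).l x) (fun E hE => by
    simp only [msum_apply]
    exact Finset.measurable_sum _ fun i _ => (q i).l.measurable_coe hE)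
  obtain ⟨l, hl⟩ := kernel_ite κ 0 hS
  have hl1 : ∀ x, ∀ E, l x E ≤ ∑ i, (q i).l x E := by
    intro x E
    rw [hl x]
    split_ifs with h
    · rw [hκ x, msum_apply]
    · simp
  have hl2 : 𝔅.AE b (fun x => l x = ∑ i, (q i).l x) := AE.mono h1 fun x hx => by
    rw [hl x, if_pos (show x ∈ {x | ∑ i, (q i).l x univ ≤ 1} from hx), hκ x]
  let r : LCond 𝔅 𝒯 :=
    { b := b
      ne := by
        rw [← hb i0]
        exact (q i0).ne
      A := A
      cnt := by
        rw [← hA i0]
        exact (q i0).cnt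
      low := by
        rw [← hA i0]
        exact (q i0).low
      l := l
      le_one := fun x => by
        rw [hl x]
        split_ifs with h
        · rw [hκ x, msum_apply]
          exact h
        · simp
      pos := by
        obtain ⟨c, hc, h⟩ := (q i0).pos
        rw [hb i0] at h
        refine ⟨c, hc, AE.mono (AE.and h hl2) fun x hx => ?_⟩
        rw [hx.2, msum_apply]
        exact hx.1.trans (Finset.single_le_sum (f := fun i => (q i).l x univ) (fun _ _ => zero_le)
          (Finset.mem_univ i0))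
      sup := fun x t ht => by
        refine le_antisymm ((hl1 x _).trans (le_of_eq ?_)) zero_le
        refine Finset.sum_eq_zero fun i _ => (q i).sup x t ?_
        rw [hA i]
        exact ht
      inj := fun s hs t ht => by
        have h : 𝔅.AE b (fun x => ∀ i, R 𝔅 𝒯 x s t → (q i).l x {f | f s = f t} = 0) := by
          refine AE.all_fin fun i => ?_
          rw [← hb i]
          exact (q i).inj s (by rw [hA i]; exact hs) t (by rw [hA i]; exact ht)
        refine AE.mono h fun x hx hR => ?_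
        refine le_antisymm ((hl1 x _).trans (le_of_eq ?_)) zero_le
        exact Finset.sum_eq_zero fun i _ => hx i hR
      unif := fun n η hη => by
        have h : ∀ i, ∃ m, n < m ∧ ∀ t ∉ A, 𝔅.AE b (fun x => (q i).l x (full 𝔅 𝒯 A t n m x) ≤
            η / (Fintype.card ι : ℝ≥0∞)) := by
          intro i
          have := (q i).unif n _ (div_card (ι := ι) hη)
          rw [hA i, hb i] at this
          exact this
        choose m hm1 hm2 using h
        refine ⟨Finset.univ.sup m, (hm1 i0).trans_le (Finset.le_sup (Finset.mem_univ i0)), fun t ht => ?_⟩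
        refine AE.mono (AE.all_fin fun i => hm2 i t ht) fun x hx => ?_
        refine (hl1 x _).trans ((Finset.sum_le_sum fun i _ => ?_).trans (sum_div_card (ι := ι) η).le)
        exact (measure_mono (full_anti le_rfl (Finset.le_sup (Finset.mem_univ i)))).trans (hx i) }
  refine ⟨r, rfl, rfl, hl2, fun p hp => ?_⟩
  refine le_def.2 ⟨?_, ?_, ?_, ?_⟩
  · change b ≤ p.b
    rw [← hb i0]
    exact (le_def.1 (hp i0)).1
  · change p.A ⊆ A
    rw [← hA i0]
    exact (le_def.1 (hp i0)).2.1
  · have h : ∀ i, ∃ c : ℝ≥0∞, c ≠ ⊤ ∧ 𝔅.AE b (fun x => ((q i).l x).map (rho p.A) ≤ c • p.l x) := by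
      intro i
      have := (le_def.1 (hp i)).2.2.1
      rw [Dom, hb i] at this
      exact this
    choose c hc1 hc2 using h
    refine ⟨∑ i, c i, ENNReal.sum_ne_top.2 fun i _ => hc1 i, ?_⟩
    change 𝔅.AE b _
    refine AE.mono (AE.and (AE.all_fin hc2) hl2) fun x hx => ?_
    refine Measure.le_iff.2 fun E hE => ?_
    change (l x).map (rho p.A) E ≤ _
    rw [Measure.map_apply (Pool.Agent.Lib.BSP.measurable_rho p.A) hE, Measure.smul_apply, smul_eq_mul,
      Finset.sum_mul]
    refine (hl1 x _).trans (Finset.sum_le_sum fun i _ => ?_)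
    have := hx.1 i E
    rwa [Measure.map_apply (Pool.Agent.Lib.BSP.measurable_rho p.A) hE, Measure.smul_apply,
      smul_eq_mul] at this
  · intro k η hη
    have h : ∀ i, ∃ a : Finset T, (∀ s ∈ a, s ∈ A ∧ s ∉ p.A) ∧
        ∀ t ∉ A, 𝔅.AE b (fun x => (∀ s ∈ a, ¬ R 𝔅 𝒯 x s t) →
          (q i).l x (hit 𝔅 𝒯 (A \ p.A) t k x) ≤ η / (Fintype.card ι : ℝ≥0∞)) := by
      intro i
      have := (le_def.1 (hp i)).2.2.2 k _ (div_card (ι := ι) hη)
      rw [hb i, hA i] at this
      exact this
    choose a ha1 ha2 using h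
    refine ⟨Finset.univ.biUnion a, ?_, fun t ht => ?_⟩
    · intro s hs
      obtain ⟨i, _, hi⟩ := Finset.mem_biUnion.1 hs
      exact ha1 i s hi
    · change 𝔅.AE b _
      refine AE.mono (AE.all_fin fun i => ha2 i t ht) fun x hx hR => ?_
      change l x _ ≤ η
      refine (hl1 x _).trans ((Finset.sum_le_sum fun i _ => ?_).trans (sum_div_card (ι := ι) η).le)
      exact hx i fun s hs => hR s (Finset.mem_biUnion.2 ⟨i, Finset.mem_univ i, hs⟩)

theorem exists_glue {ι : Type} [Fintype ι] [Nonempty ι] (q : ι → LCond 𝔅 𝒯) {A : Set T}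
    (hA : ∀ i, (q i).A = A) (hd : ∀ i j, i ≠ j → (q i).b ⊓ (q j).b = ⊥) :
    ∃ r : LCond 𝔅 𝒯, r.b = ⨆ i, (q i).b ∧ r.A = A ∧ (∀ i, 𝔅.AE (q i).b (fun x => r.l x = (q i).l x)) ∧
      (∀ p : LCond 𝔅 𝒯, (∀ i, q i ≤ p) → r ≤ p) ∧
      ∀ i, ∀ h : (q i).b ≤ r.b, restr r (q i).b (q i).ne h ≤ q i := by
  classical
  obtain ⟨i0⟩ := (inferInstance : Nonempty ι)
  have : Nonempty ι := ⟨i0⟩
  have hinj : Function.Injective (fun i => (q i).b) := by
    intro i j hij
    by_contra hne
    have h := hd i j hne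
    have hij' : (q i).b = (q j).b := hij
    rw [← hij', inf_idem] at h
    exact (q i).ne h
  obtain ⟨l, hl1, hl2⟩ := kernel_glue 𝔅 (range fun i => (q i).b) (by
    rintro _ ⟨i, rfl⟩ _ ⟨j, rfl⟩ hne
    exact hd i j fun h => hne (by rw [h]))
    (fun b => (q (Function.invFun (fun i => (q i).b) b)).l) (0 : Kernel X (T → ℕ))
  have hlq : ∀ i, ∀ x ∈ 𝔅.cl (q i).b, l x = (q i).l x := by
    intro i x hx
    rw [hl1 _ ⟨i, rfl⟩ x hx, Function.leftInverse_invFun hinj i]
  have hl0 : ∀ x, (∃ i, l x = (q i).l x) ∨ l x = 0 := by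
    intro x
    by_cases h : ∃ i, x ∈ 𝔅.cl (q i).b
    · obtain ⟨i, hi⟩ := h
      exact Or.inl ⟨i, hlq i x hi⟩
    · right
      rw [hl2 x (by
        rintro _ ⟨i, rfl⟩ hx
        exact h ⟨i, hx⟩)]
      rfl
  have hae : ∀ i, 𝔅.AE (q i).b (fun x => l x = (q i).l x) := fun i => AE.of_mem (hlq i)
  let r : LCond 𝔅 𝒯 :=
    { b := ⨆ i, (q i).b
      ne := by
        intro h
        refine (q i0).ne (le_bot_iff.1 ?_)
        rw [← h]
        exact le_iSup (fun i => (q i).b) i0
      A := A
      cnt := by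
        rw [← hA i0]
        exact (q i0).cnt
      low := by
        rw [← hA i0]
        exact (q i0).low
      l := l
      le_one := fun x => by
        rcases hl0 x with ⟨i, h⟩ | h
        · rw [h]
          exact (q i).le_one x
        · rw [h]
          simp
      pos := by
        choose c hc1 hc2 using fun i => (q i).pos
        refine ⟨Finset.univ.inf c, ?_, AE.iSup_fin fun i => ?_⟩
        · refine ne_of_gt ((Finset.lt_inf_iff ENNReal.zero_lt_top).2 fun i _ => ?_)
          exact pos_iff_ne_zero.2 (hc1 i)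
        · refine AE.mono (AE.and (hc2 i) (hae i)) fun x hx => ?_
          rw [hx.2]
          exact (Finset.inf_le (Finset.mem_univ i)).trans hx.1
      sup := fun x t ht => by
        rcases hl0 x with ⟨i, h⟩ | h
        · rw [h]
          exact (q i).sup x t (by rw [hA i]; exact ht)
        · rw [h]
          simp
      inj := fun s hs t ht => by
        refine AE.iSup_fin fun i => ?_
        have h := (q i).inj s (by rw [hA i]; exact hs) t (by rw [hA i]; exact ht)
        refine AE.mono (AE.and h (hae i)) fun x hx hR => ?_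
        rw [hx.2]
        exact hx.1 hR
      unif := fun n η hη => by
        have h : ∀ i, ∃ m, n < m ∧ ∀ t ∉ A, 𝔅.AE (q i).b (fun x => (q i).l x (full 𝔅 𝒯 A t n m x) ≤ η) := by
          intro i
          have := (q i).unif n η hη
          rw [hA i] at this
          exact this
        choose m hm1 hm2 using h
        refine ⟨Finset.univ.sup m, (hm1 i0).trans_le (Finset.le_sup (Finset.mem_univ i0)), fun t ht => ?_⟩
        refine AE.iSup_fin fun i => ?_
        refine AE.mono (AE.and (hm2 i t ht) (hae i)) fun x hx => ?_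
        rw [hx.2]
        exact (measure_mono (full_anti le_rfl (Finset.le_sup (Finset.mem_univ i)))).trans hx.1 }
  refine ⟨r, rfl, rfl, hae, fun p hp => ?_, fun i h => ?_⟩
  · refine le_def.2 ⟨iSup_le fun i => (le_def.1 (hp i)).1, ?_, ?_, ?_⟩
    · change p.A ⊆ A
      rw [← hA i0]
      exact (le_def.1 (hp i0)).2.1
    · choose c hc1 hc2 using fun i => (le_def.1 (hp i)).2.2.1
      refine ⟨∑ i, c i, ENNReal.sum_ne_top.2 fun i _ => hc1 i, ?_⟩
      change 𝔅.AE (⨆ i, (q i).b) _
      refine AE.iSup_fin fun i => ?_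
      refine AE.mono (AE.and (hc2 i) (hae i)) fun x hx => ?_
      change (l x).map (rho p.A) ≤ _
      rw [hx.2]
      refine hx.1.trans ?_
      refine Measure.le_iff.2 fun E hE => ?_
      rw [Measure.smul_apply, Measure.smul_apply, smul_eq_mul, smul_eq_mul]
      gcongr
      exact Finset.single_le_sum (f := c) (fun _ _ => zero_le) (Finset.mem_univ i)
    · intro k η hη
      have h : ∀ i, ∃ a : Finset T, (∀ s ∈ a, s ∈ A ∧ s ∉ p.A) ∧
          ∀ t ∉ A, 𝔅.AE (q i).b (fun x => (∀ s ∈ a, ¬ R 𝔅 𝒯 x s t) →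
            (q i).l x (hit 𝔅 𝒯 (A \ p.A) t k x) ≤ η) := by
        intro i
        have := (le_def.1 (hp i)).2.2.2 k η hη
        rw [hA i] at this
        exact this
      choose a ha1 ha2 using h
      refine ⟨Finset.univ.biUnion a, ?_, fun t ht => ?_⟩
      · intro s hs
        obtain ⟨i, _, hi⟩ := Finset.mem_biUnion.1 hs
        exact ha1 i s hi
      · change 𝔅.AE (⨆ i, (q i).b) _
        refine AE.iSup_fin fun i => ?_
        refine AE.mono (AE.and (ha2 i t ht) (hae i)) fun x hx hR => ?_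
        change l x _ ≤ η
        rw [hx.2]
        exact hx.1 fun s hs => hR s (Finset.mem_biUnion.2 ⟨i, Finset.mem_univ i, hs⟩)
  · refine le_def.2 ⟨le_rfl, (hA i).le, ⟨1, ENNReal.one_ne_top, ?_⟩, ?_⟩
    · change 𝔅.AE (q i).b _
      refine AE.mono (hae i) fun x hx => ?_
      change (l x).map (rho (q i).A) ≤ _
      rw [hx, one_smul, Pool.Agent.Lib.BSP.map_rho ((q i).sup x)]
    · intro k η _
      refine ⟨∅, by simp, fun t _ => AE.of_all fun x _ => ?_⟩
      change l x (hit 𝔅 𝒯 (A \ (q i).A) t k x) ≤ η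
      rw [hA i, sdiff_self]
      have : hit 𝔅 𝒯 (∅ : Set T) t k x = ∅ := by
        ext f
        simp [hit]
      change l x (hit 𝔅 𝒯 (∅ : Set T) t k x) ≤ η
      rw [this, measure_empty]
      exact zero_le

theorem exists_smul (z : LCond 𝔅 𝒯) {c : ℝ≥0∞} (h0 : c ≠ 0) (h1 : c ≤ 1) :
    ∃ z' : LCond 𝔅 𝒯, z' ≤ z ∧ z'.b = z.b ∧ z'.A = z.A ∧ ∀ x, z'.l x = c • z.l x := by
  obtain ⟨l, hl⟩ := kernel_mk (X := X) (Y := T → ℕ) (fun x => c • z.l x) (fun E hE => by
    simp only [Measure.smul_apply, smul_eq_mul]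
    exact (z.l.measurable_coe hE).const_mul c)
  obtain ⟨z', h2, h3, h4, h5⟩ := exists_sub z z.ne le_rfl l
    (fun x => by
      rw [hl x, Measure.smul_apply, smul_eq_mul]
      exact mul_le_one' h1 (z.le_one x))
    (fun x t ht => by
      rw [hl x, Measure.smul_apply, z.sup x t ht, smul_zero])
    (by
      obtain ⟨d, hd, h⟩ := z.pos
      refine ⟨c * d, mul_ne_zero h0 hd, AE.mono h fun x hx => ?_⟩
      rw [hl x, Measure.smul_apply, smul_eq_mul]
      gcongr)
    ⟨c, ne_top_of_le_ne_top ENNReal.one_ne_top h1, AE.of_all fun x => (hl x).le⟩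
  refine ⟨z', h5, h2, h3, fun x => ?_⟩
  rw [h4, hl x]

open Classical in
theorem exists_label (z : LCond 𝔅 𝒯) {s : T} (hs : s ∉ z.A) (h1 : 𝒯.pre s = ∅) (h2 : ∀ t, s ∉ 𝒯.pre t) (k : ℕ) :
    ∃ z' : LCond 𝔅 𝒯, z' ≤ z ∧ z'.b = z.b ∧ z'.A = z.A ∪ {s} ∧
      ∀ x, z'.l x = (z.l x).map (fun f => Function.update f s k) := by
  have := finite_of_le_one z.le_one
  have hu : Measurable (fun f : T → ℕ => Function.update f s k) := by
    refine measurable_pi_iff.2 fun t => ?_
    by_cases h : t = s
    · subst h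
      simp only [Function.update_self]
      exact measurable_const
    · simp only [Function.update_of_ne h]
      exact measurable_pi_apply t
  obtain ⟨l, hl⟩ := kernel_map z.l (Φ := fun y : X × (T → ℕ) => Function.update y.2 s k) (hu.comp measurable_snd)
  have hlE : ∀ x, ∀ E, MeasurableSet E → l x E = z.l x {f | Function.update f s k ∈ E} := by
    intro x E hE
    rw [hl x, Measure.map_apply hu hE]
    rfl
  have hR1 : ∀ x t, ¬ R 𝔅 𝒯 x t s := fun x t h => by
    have := R_pre 𝔅 𝒯 h
    rw [h1] at this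
    exact this
  have hR2 : ∀ x t, ¬ R 𝔅 𝒯 x s t := fun x t h => h2 t (R_pre 𝔅 𝒯 h)
  have hcnt : (z.A ∪ {s}).Countable := z.cnt.union (countable_singleton s)
  let z' : LCond 𝔅 𝒯 :=
    { b := z.b
      ne := z.ne
      A := z.A ∪ {s}
      cnt := hcnt
      low := by
        rintro t (ht | ht)
        · exact (z.low t ht).trans subset_union_left
        · rw [mem_singleton_iff.1 ht, h1]
          exact empty_subset _
      l := l
      le_one := fun x => by
        rw [hlE x _ MeasurableSet.univ]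
        exact (measure_mono (subset_univ _)).trans (z.le_one x)
      pos := by
        obtain ⟨c, hc, h⟩ := z.pos
        refine ⟨c, hc, AE.mono h fun x hx => ?_⟩
        rw [hlE x _ MeasurableSet.univ]
        exact hx
      sup := fun x t ht => by
        have hne : t ≠ s := fun h => ht (Or.inr h)
        have hm : MeasurableSet {f : T → ℕ | f t ≠ 0} :=
          (measurable_pi_apply t : Measurable fun f : T → ℕ => f t)
            (MeasurableSet.of_discrete (s := {n : ℕ | n ≠ 0}))
        rw [hlE x _ hm, ← z.sup x t fun h => ht (Or.inl h)]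
        congr 1
        ext f
        simp only [mem_ofPred_eq, Function.update_of_ne hne]
      inj := fun s' hs' t' ht' => by
        rcases hs' with hs' | hs'
        · rcases ht' with ht' | ht'
          · refine AE.mono (z.inj s' hs' t' ht') fun x hx hR => ?_
            have hne1 : s' ≠ s := fun h => hs (h ▸ hs')
            have hne2 : t' ≠ s := fun h => hs (h ▸ ht')
            rw [hlE x _ (Pool.Agent.Lib.BSP.measurableSet_eq s' t'), ← hx hR]
            congr 1
            ext f
            simp only [mem_ofPred_eq, Function.update_of_ne hne1, Function.update_of_ne hne2]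
          · rw [mem_singleton_iff.1 ht']
            exact AE.of_all fun x hR => absurd hR (hR1 x s')
        · rw [mem_singleton_iff.1 hs']
          exact AE.of_all fun x hR => absurd hR (hR2 x t')
      unif := fun n η hη => by
        obtain ⟨m, hm, h⟩ := z.unif n η hη
        refine ⟨m, hm, fun t ht => AE.mono (h t fun h' => ht (Or.inl h')) fun x hx => ?_⟩
        rw [hlE x _ (full_meas' 𝔅 𝒯 hcnt t n m x)]
        refine (measure_mono ?_).trans hx
        intro f hf k' hk1 hk2
        obtain ⟨s', hs', hR, hv⟩ := hf k' hk1 hk2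
        have hne : s' ≠ s := fun h => hR2 x t (h ▸ hR)
        rw [Function.update_of_ne hne] at hv
        exact ⟨s', hs'.resolve_right hne, hR, hv⟩ }
  refine ⟨z', le_def.2 ⟨le_rfl, subset_union_left, ⟨1, ENNReal.one_ne_top, AE.of_all fun x => ?_⟩, ?_⟩,
    rfl, rfl, hl⟩
  · change (l x).map (rho z.A) ≤ _
    rw [one_smul, hl x, Measure.map_map (Pool.Agent.Lib.BSP.measurable_rho z.A) hu]
    refine le_of_eq ?_
    conv_rhs => rw [← Pool.Agent.Lib.BSP.map_rho (z.sup x)]
    congr 1
    funext f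
    funext t
    by_cases ht : t ∈ z.A
    · have hne : t ≠ s := fun h => hs (h ▸ ht)
      rw [Function.comp_apply, Pool.Agent.Lib.BSP.rho_mem ht, Pool.Agent.Lib.BSP.rho_mem ht,
        Function.update_of_ne hne]
    · rw [Function.comp_apply, Pool.Agent.Lib.BSP.rho_not ht, Pool.Agent.Lib.BSP.rho_not ht]
  · intro k' η _
    refine ⟨∅, by simp, fun t _ => AE.of_all fun x _ => ?_⟩
    have : hit 𝔅 𝒯 (z'.A \ z.A) t k' x = ∅ := by
      refine eq_empty_of_forall_notMem fun f hf => ?_
      obtain ⟨s', hs', hR, _⟩ := hf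
      have : s' = s := hs'.1.resolve_left hs'.2
      rw [this] at hR
      exact hR2 x t hR
    rw [this, measure_empty]
    exact zero_le

end Pool.Agent.Lib.BSR
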