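import Pool.Agent.Lib.BSR.MeasX

/-!
# Module BSR.InfK: the infimum of a decreasing sequence of kernels

`exists_inf`. Proof. Fix `x` and write `r n` for `r n x` (finite measures). Let `d n = r n - r (n + 1)` (`Measure.sub`; `Measure.sub_add_cancel_of_le` or `add_sub_cancel`-like lemmas: `d n + r (n + 1) = r n`, `IsFiniteMeasure (r (n + 1))`).
Induction: `r 0 E = r n E + ∑ i ∈ range n, d i E` for measurable `E`. So `D = Measure.sum d ≤ r 0` (`Measure.sum_apply`, `ENNReal.tsum_le_of_sum_range_le` or the supremum of the partial sums). Let `s = r 0 - D`, so `s E + D E = r 0 E` for measurable `E`.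
Claim `s E = ⨅ n, r n E`: `≤`: `s E + D E = r n E + ∑ i < n, d i E ≤ r n E + D E`, and `D E` is finite. `≥`: for `δ > 0` there is `n` with `D E ≤ ∑ i < n, d i E + δ`, so
`r n E + ∑ i < n, d i E = s E + D E ≤ s E + ∑ i < n, d i E + δ`, so `r n E ≤ s E + δ` (`ENNReal.le_of_forall_pos_le_add` or take limits: `r n E = r 0 E - ∑ i < n, d i E → r 0 E - D E`).
(Any other construction of the infimum measure is fine, e.g. `Measure.ofMeasurable` with `⨅ n, r n E`.)
The function `x ↦ ⨅ n, r n x E` is measurable (`Measurable.iInf`), so `kernel_mk` gives the kernel. `s x ≤ r n x` by `Measure.le_iff`.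
-/

set_option autoImplicit false

open Set MeasureTheory Filter
open scoped ENNReal

namespace Pool.Agent.Lib.BSR

universe u

open ProbabilityTheory (Kernel)

variable {X Y : Type u} [MeasurableSpace X] [MeasurableSpace Y]

theorem exists_inf (r : ℕ → Kernel X Y) (h1 : ∀ x, r 0 x univ ≤ 1) (h : ∀ n x, r (n + 1) x ≤ r n x) :
    ∃ s : Kernel X Y, (∀ n x, s x ≤ r n x) ∧ ∀ x E, MeasurableSet E → s x E = ⨅ n, r n x E := by
  have hanti : ∀ x, Antitone (fun n => r n x) := fun x => antitone_nat_of_succ_le (fun n => h n x)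
  have hU : ∀ (x : X) (f : ℕ → Set Y), (∀ i, MeasurableSet (f i)) → Pairwise (Function.onFun Disjoint f) →
      ⨅ n, r n x (⋃ i, f i) = ∑' i, ⨅ n, r n x (f i) := by
    intro x f hf hd
    have e1 : ∀ n, r n x (⋃ i, f i) = ∫⁻ i, r n x (f i) ∂(Measure.count : Measure ℕ) := by
      intro n
      rw [measure_iUnion hd hf, lintegral_count]
    have e2 : ∑' i, ⨅ n, r n x (f i) = ∫⁻ i, ⨅ n, r n x (f i) ∂(Measure.count : Measure ℕ) := by
      rw [lintegral_count]
    rw [e2]
    have e3 := lintegral_iInf (μ := (Measure.count : Measure ℕ)) (f := fun n i => r n x (f i))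
      (fun n => measurable_of_countable _) (fun n m hnm i => hanti x hnm (f i)) (by
        rw [← e1 0]
        exact ((measure_mono (subset_univ _)).trans (h1 x)).trans_lt ENNReal.one_lt_top |>.ne)
    rw [e3]
    exact iInf_congr e1
  obtain ⟨μ, hμ⟩ : ∃ μ : X → Measure Y, ∀ x E, MeasurableSet E → μ x E = ⨅ n, r n x E := by
    refine ⟨fun x => Measure.ofMeasurable (fun E _ => ⨅ n, r n x E) (by simp) (hU x), ?_⟩
    intro x E hE
    exact Measure.ofMeasurable_apply E hE
  obtain ⟨s, hs⟩ := kernel_mk μ (fun E hE => by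
    have e : (fun x => μ x E) = fun x => ⨅ n, r n x E := by
      funext x
      exact hμ x E hE
    rw [e]
    exact Measurable.iInf (fun n => (r n).measurable_coe hE))
  refine ⟨s, ?_, ?_⟩
  · intro n x
    rw [Measure.le_iff]
    intro E hE
    rw [hs x, hμ x E hE]
    exact iInf_le _ n
  · intro x E hE
    rw [hs x, hμ x E hE]

end Pool.Agent.Lib.BSR
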