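import Pool.Agent.Lib.BSR.Greedy
import Pool.Agent.Lib.BSR.EvSum
import Pool.Agent.Lib.BSR.InfK

/-!
# Module BSR.ExhX: exhaustion by finitely many pieces

`exhaust`. Proof. Write `w q x = (q.l x).map (rho z.A)`. Let `c ≠ 0` be from `z.pos`, `ε' = min ε (c / 2)`.
Let `r 0 = z.l` and `r (n + 1)` be the kernel of `greedy_step` for `r n` (`r n x univ ≤ 1` by induction; `choose` on the subtype of the kernels with mass `≤ 1`). Let `s` be the infimum (`exists_inf`): `s x ≤ r n x`, `s x E = ⨅ n, r n x E`.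
Claim: `AE z.b (s x univ = 0)`. Otherwise `AE.exists_pos` (measurable set `{x | s x univ ≠ 0}`) and `AE.exists_nat` (`φ n x := (2 : ℝ≥0∞)⁻¹ ^ n ≤ s x univ`) give `⊥ ≠ b' ≤ z.b` and `n` with `AE b' (2⁻¹ ^ n ≤ s x univ)`. `exists_sub` (`c = 1`, `s x ≤ z.l x`) gives a condition
`z' ≤ z` with `z'.b = b'`, `z'.A = z.A`, `z'.l = s`. By density there is `q ≤ z'` in `D`; let `AE q.b (w q x ≤ C • s x)`, w.l.o.g. `1 ≤ C`, `C ≠ ⊤`. `exists_smul` with `C⁻¹` gives `q' ≤ q`, `q'.b = q.b`, `q'.l x = C⁻¹ • q.l x`; `q' ∈ D`, `q' ≤ z`, `AE q'.b (w q' x ≤ s x)`.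
By `q'.pos` there is `j` with `AE q'.b (2⁻¹ ^ j ≤ q'.l x univ)`. By induction on `n` there is `⊥ ≠ b n ≤ q'.b` with `AE (b n) (r n x univ + n * 2⁻¹ ^ j ≤ 1)`: for `n + 1` apply the third clause of `greedy_step` for `r n` to `restr q' (b n)` (in `D`, `≤ z`). For `n = 2 ^ j + 1` this is impossible
(`AE.false`).
So (`AE`) the decreasing sequence `r n x univ` has infimum `0`, for almost all `x` there is `n` with `r n x univ ≤ ε'`. By `AE.exists_nat` there are `n` and `⊥ ≠ b₁ ≤ b` with `AE b₁ (r n x univ ≤ ε')`.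
By induction on `i ≤ n` there are `⊥ ≠ b' ≤ b₁`, a natural number `k` and `q : Fin k → LCond 𝔅 𝒯` with `q a ∈ D`, `q a ≤ z`, `(q a).b = b'`, `AE b' (z.l x = r i x + ∑ a, w (q a) x)`: (`i = 0`: `k = 0`, note `r 0 = z.l`); the step: second clause of `greedy_step` for `r i` and `b'` gives `b'' ≤ b'`
and nothing or one more `q`; replace the old ones by `restr (q a) b''` (`Fin.snoc` or `Fin.cons`; `restr_le`).
For `i = n`: `AE b' (∑ a, w (q a) x ≤ z.l x)` and the masses: `z.l x univ ≤ ε' + ∑ a, (q a).l x univ` (`map_rho_univ`). `0 < k`, because otherwise `c ≤ c / 2` almost everywhere in `b'`, which is false (`c ≠ ⊤` as `c ≤ z.l x univ ≤ 1` for some `x`).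
-/

set_option autoImplicit false

open Set MeasureTheory Filter
open scoped ENNReal

namespace Pool.Agent.Lib.BSR

universe u

open Pool.Agent.Lib.BSP (rho measurable_rho rho_mem rho_not rho_rho map_rho map_rho_map map_rho_sup map_rho_univ meas_le_of_map)

open ProbabilityTheory (Kernel)

variable {B X T : Type u} [CompleteBooleanAlgebra B] [MeasurableSpace X] {𝔅 : Base B X} {𝒯 : Tree B T}

namespace ExhXAux

/-- the conclusion of `greedy_step` -/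
def Step (z : LCond 𝔅 𝒯) (D : Set (LCond 𝔅 𝒯)) (r r' : Kernel X (T → ℕ)) : Prop :=
  (∀ x, r' x ≤ r x) ∧
    (∀ b ≤ z.b, b ≠ ⊥ → ∃ b' ≤ b, b' ≠ ⊥ ∧ (𝔅.AE b' (fun x => r' x = r x) ∨
      ∃ q ∈ D, q ≤ z ∧ q.b = b' ∧ 𝔅.AE b' (fun x => r x = r' x + (q.l x).map (rho z.A)))) ∧
    ∀ j : ℕ, ∀ q ∈ D, q ≤ z → 𝔅.AE q.b (fun x => (q.l x).map (rho z.A) ≤ r x) →
      𝔅.AE q.b (fun x => (2 : ℝ≥0∞)⁻¹ ^ j ≤ q.l x univ) →
      ∃ b' ≤ q.b, b' ≠ ⊥ ∧ 𝔅.AE b' (fun x => r' x univ + (2 : ℝ≥0∞)⁻¹ ^ j ≤ r x univ)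

theorem exists_seq (z : LCond 𝔅 𝒯) {D : Set (LCond 𝔅 𝒯)} (hD : ∀ q ∈ D, ∀ q', q' ≤ q → q' ∈ D) :
    ∃ r : ℕ → Kernel X (T → ℕ), r 0 = z.l ∧ (∀ n x, r n x univ ≤ 1) ∧ ∀ n, Step z D (r n) (r (n + 1)) := by
  classical
  choose g hg using fun κ : {κ : Kernel X (T → ℕ) // ∀ x, κ x univ ≤ 1} =>
    greedy_step z hD κ.1 κ.2
  let F : ℕ → {κ : Kernel X (T → ℕ) // ∀ x, κ x univ ≤ 1} := fun n =>
    Nat.rec ⟨z.l, z.le_one⟩ (fun _ κ => ⟨g κ, fun x => ((hg κ).1 x univ).trans (κ.2 x)⟩) n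
  exact ⟨fun n => (F n).1, rfl, fun n => (F n).2, fun n => hg (F n)⟩

theorem inf_zero (z : LCond 𝔅 𝒯) {D : Set (LCond 𝔅 𝒯)} (hD : OD z D) {r : ℕ → Kernel X (T → ℕ)}
    (h0 : r 0 = z.l) (h1 : ∀ n x, r n x univ ≤ 1) (hs : ∀ n, Step z D (r n) (r (n + 1)))
    {s : Kernel X (T → ℕ)} (hsr : ∀ n x, s x ≤ r n x) : 𝔅.AE z.b (fun x => s x univ = 0) := by
  by_contra hne
  obtain ⟨a, haz, ha, hpos⟩ := AE.exists_pos (φ := fun x => s x univ ≠ 0)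
    ((s.measurable_coe MeasurableSet.univ) (measurableSet_singleton (0 : ℝ≥0∞)).compl)
    (by simpa using hne)
  obtain ⟨n, b, hba, hb, hn⟩ := AE.exists_nat ha (φ := fun n x => (2 : ℝ≥0∞)⁻¹ ^ n ≤ s x univ)
    (fun n => measurableSet_le measurable_const (s.measurable_coe MeasurableSet.univ))
    (AE.mono hpos fun x hx => by
      obtain ⟨n, hn⟩ := ENNReal.exists_inv_two_pow_lt hx
      exact ⟨n, hn.le⟩)
  have hbz : b ≤ z.b := hba.trans haz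
  have hsz : ∀ x, s x ≤ z.l x := fun x => by have := hsr 0 x; rwa [h0] at this
  obtain ⟨z', hz'b, hz'A, hz'l, hz'z⟩ := exists_sub z hb hbz s (fun x => (hsr 0 x univ).trans (h1 0 x))
    (fun x t ht => le_antisymm ((hsz x _).trans (z.sup x t ht).le) zero_le)
    ⟨(2 : ℝ≥0∞)⁻¹ ^ n, by simp, hn⟩ ⟨1, ENNReal.one_ne_top, AE.of_all fun x => by
      rw [one_smul]; exact hsz x⟩
  obtain ⟨q, hq, hqD⟩ := hD.2 z' hz'z
  obtain ⟨_, _, ⟨C, hC, hdom⟩, _⟩ := le_def.1 hq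
  have hC1 : (1 : ℝ≥0∞) ≤ max C 1 := le_max_right _ _
  have hCt : max C 1 ≠ ⊤ := by
    rw [Ne, max_eq_top]
    push Not
    exact ⟨hC, ENNReal.one_ne_top⟩
  obtain ⟨q', hq'q, hq'b, _, hq'l⟩ := exists_smul q (c := (max C 1)⁻¹) (ENNReal.inv_ne_zero.2 hCt)
    (ENNReal.inv_le_one.2 hC1)
  have hq'D : q' ∈ D := hD.1 q hqD q' hq'q
  have hq'z : q' ≤ z := hq'q.trans (hq.trans hz'z)
  have hw : 𝔅.AE q'.b (fun x => (q'.l x).map (rho z.A) ≤ s x) := by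
    rw [hq'b]
    refine AE.mono hdom fun x hx => ?_
    rw [hz'A, hz'l] at hx
    rw [hq'l, Measure.map_smul]
    intro E
    have h2 := hx E
    simp only [Measure.smul_apply, smul_eq_mul] at h2 ⊢
    calc (max C 1)⁻¹ * (q.l x).map (rho z.A) E ≤ (max C 1)⁻¹ * (C * s x E) := by gcongr
      _ ≤ (max C 1)⁻¹ * (max C 1 * s x E) := by gcongr; exact le_max_left _ _
      _ = s x E := by
        rw [← mul_assoc, ENNReal.inv_mul_cancel (by positivity) hCt, one_mul]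
  obtain ⟨c, hc, hcq⟩ := q'.pos
  obtain ⟨j, hj⟩ := ENNReal.exists_inv_two_pow_lt hc
  have hmass : 𝔅.AE q'.b (fun x => (2 : ℝ≥0∞)⁻¹ ^ j ≤ q'.l x univ) := AE.mono hcq fun x hx => hj.le.trans hx
  have key : ∀ n : ℕ, ∃ b ≤ q'.b, b ≠ ⊥ ∧ 𝔅.AE b (fun x => r n x univ + n * (2 : ℝ≥0∞)⁻¹ ^ j ≤ 1) := by
    intro n
    induction n with
    | zero => exact ⟨q'.b, le_rfl, q'.ne, AE.of_all fun x => by simpa using h1 0 x⟩
    | succ n ih =>
      obtain ⟨b, hbq, hb, hbn⟩ := ih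
      obtain ⟨b', hb'b, hb', h3⟩ := (hs n).2.2 j (restr q' b hb hbq) (hD.1 _ hq'D _ (restr_le _ _ _ _))
        ((restr_le _ _ _ _).trans hq'z) (AE.mono_left (AE.mono hw fun x hx => hx.trans (hsr n x)) hbq)
        (AE.mono_left hmass hbq)
      have hb'b' : b' ≤ b := hb'b
      refine ⟨b', hb'b'.trans hbq, hb', AE.mono (AE.and (AE.mono_left hbn hb'b') h3) fun x hx => ?_⟩
      calc r (n + 1) x univ + (n + 1 : ℕ) * (2 : ℝ≥0∞)⁻¹ ^ j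
          = r (n + 1) x univ + (2 : ℝ≥0∞)⁻¹ ^ j + n * (2 : ℝ≥0∞)⁻¹ ^ j := by push_cast; ring
        _ ≤ r n x univ + n * (2 : ℝ≥0∞)⁻¹ ^ j := by gcongr; exact hx.2
        _ ≤ 1 := hx.1
  obtain ⟨b, _, hb, hbn⟩ := key (2 ^ j + 1)
  apply hb
  refine AE.false (AE.mono hbn fun x hx => ?_)
  have h2 : ((2 ^ j + 1 : ℕ) : ℝ≥0∞) * (2 : ℝ≥0∞)⁻¹ ^ j = 1 + (2 : ℝ≥0∞)⁻¹ ^ j := by
    push_cast
    rw [add_mul, one_mul, ← mul_pow, ENNReal.mul_inv_cancel (by simp) (by simp), one_pow]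
  have h3 : (1 : ℝ≥0∞) + (2 : ℝ≥0∞)⁻¹ ^ j ≤ 1 := by
    calc (1 : ℝ≥0∞) + (2 : ℝ≥0∞)⁻¹ ^ j = ((2 ^ j + 1 : ℕ) : ℝ≥0∞) * (2 : ℝ≥0∞)⁻¹ ^ j := h2.symm
      _ ≤ r (2 ^ j + 1) x univ + ((2 ^ j + 1 : ℕ) : ℝ≥0∞) * (2 : ℝ≥0∞)⁻¹ ^ j := le_add_self
      _ ≤ 1 := hx
  have h4 : (1 : ℝ≥0∞) < 1 + (2 : ℝ≥0∞)⁻¹ ^ j :=
    ENNReal.lt_add_right ENNReal.one_ne_top (by simp)
  exact absurd h3 (not_le.2 h4)

theorem decomp (z : LCond 𝔅 𝒯) {D : Set (LCond 𝔅 𝒯)} (hD : ∀ q ∈ D, ∀ q', q' ≤ q → q' ∈ D)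
    {r : ℕ → Kernel X (T → ℕ)} (h0 : r 0 = z.l) (hs : ∀ n, Step z D (r n) (r (n + 1))) {b₁ : B}
    (hb₁ : b₁ ≠ ⊥) (hbz : b₁ ≤ z.b) (i : ℕ) : ∃ b' ≤ b₁, b' ≠ ⊥ ∧ ∃ k : ℕ, ∃ q : Fin k → LCond 𝔅 𝒯,
      (∀ a, q a ∈ D ∧ q a ≤ z ∧ (q a).b = b') ∧
      𝔅.AE b' (fun x => z.l x = r i x + ∑ a, ((q a).l x).map (rho z.A)) := by
  induction i with
  | zero =>
    refine ⟨b₁, le_rfl, hb₁, 0, Fin.elim0, fun a => a.elim0, AE.of_all fun x => ?_⟩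
    simp [h0]
  | succ i ih =>
    obtain ⟨b, hbb, hb, k, q, hq, hsum⟩ := ih
    obtain ⟨b', hb'b, hb', hh⟩ := (hs i).2.1 b (hbb.trans hbz) hb
    have hle : ∀ a, b' ≤ (q a).b := fun a => by rw [(hq a).2.2]; exact hb'b
    have hq' : ∀ a, restr (q a) b' hb' (hle a) ∈ D ∧ restr (q a) b' hb' (hle a) ≤ z ∧
        (restr (q a) b' hb' (hle a)).b = b' := fun a =>
      ⟨hD _ (hq a).1 _ (restr_le _ _ _ _), (restr_le _ _ _ _).trans (hq a).2.1, rfl⟩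
    rcases hh with hh | ⟨p, hpD, hpz, hpb, hh⟩
    · refine ⟨b', hb'b.trans hbb, hb', k, fun a => restr (q a) b' hb' (hle a), hq', ?_⟩
      refine AE.mono (AE.and (AE.mono_left hsum hb'b) hh) fun x hx => ?_
      rw [hx.2]
      exact hx.1
    · refine ⟨b', hb'b.trans hbb, hb', k + 1, Fin.cons p fun a => restr (q a) b' hb' (hle a), ?_, ?_⟩
      · intro a
        refine Fin.cases ?_ (fun a => ?_) a
        · exact ⟨hpD, hpz, hpb⟩
        · exact hq' a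
      · refine AE.mono (AE.and (AE.mono_left hsum hb'b) hh) fun x hx => ?_
        rw [Fin.sum_univ_succ, ← add_assoc]
        simp only [Fin.cons_zero, Fin.cons_succ]
        rw [← hx.2]
        exact hx.1

end ExhXAux

open ExhXAux in
theorem exhaust (z : LCond 𝔅 𝒯) {D : Set (LCond 𝔅 𝒯)} (hD : OD z D) {b : B} (hb : b ≠ ⊥) (hbz : b ≤ z.b)
    {ε : ℝ≥0∞} (hε : ε ≠ 0) :
    ∃ b' ≤ b, b' ≠ ⊥ ∧ ∃ n : ℕ, 0 < n ∧ ∃ q : Fin n → LCond 𝔅 𝒯, (∀ i, q i ∈ D ∧ q i ≤ z ∧ (q i).b = b') ∧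
      𝔅.AE b' (fun x => ∑ i, ((q i).l x).map (rho z.A) ≤ z.l x) ∧
      𝔅.AE b' (fun x => z.l x univ ≤ ∑ i, (q i).l x univ + ε) := by
  obtain ⟨c, hc, hcz⟩ := z.pos
  obtain ⟨r, h0, h1, hs⟩ := exists_seq z hD.1
  obtain ⟨s, hsr, hsi⟩ := exists_inf r (h1 0) (fun n x => (hs n).1 x)
  have hs0 := inf_zero z hD h0 h1 hs hsr
  have hε' : min ε (c / 2) ≠ 0 := by
    have : c / 2 ≠ 0 := ENNReal.div_ne_zero.2 ⟨hc, by simp⟩
    rcases min_choice ε (c / 2) with h | h <;> rw [h] <;> assumption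
  obtain ⟨n, b₁, hb₁b, hb₁, hn⟩ := AE.exists_nat hb (φ := fun n x => r n x univ ≤ min ε (c / 2))
    (fun n => measurableSet_le ((r n).measurable_coe MeasurableSet.univ) measurable_const)
    (AE.mono (AE.mono_left hs0 hbz) fun x hx => by
      rw [hsi x univ MeasurableSet.univ] at hx
      have h2 : ⨅ n, r n x univ < min ε (c / 2) := by rw [hx]; exact pos_iff_ne_zero.2 hε'
      obtain ⟨n, hn⟩ := iInf_lt_iff.1 h2
      exact ⟨n, hn.le⟩)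
  obtain ⟨b', hb'b, hb', k, q, hq, hsum⟩ := decomp z hD.1 h0 hs hb₁ (hb₁b.trans hbz) n
  have hmass : 𝔅.AE b' (fun x => z.l x univ ≤ ∑ i, (q i).l x univ + min ε (c / 2)) := by
    refine AE.mono (AE.and hsum (AE.mono_left hn hb'b)) fun x hx => ?_
    rw [hx.1]
    simp only [Measure.coe_add, Pi.add_apply, Measure.coe_finsetSum, Finset.sum_apply, map_rho_univ]
    rw [add_comm]
    gcongr
    exact hx.2
  refine ⟨b', hb'b.trans hb₁b, hb', k, ?_, q, hq, ?_, ?_⟩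
  · rcases Nat.eq_zero_or_pos k with hk | hk
    · exfalso
      subst hk
      apply hb'
      refine AE.false (AE.mono (AE.and (AE.and hmass (AE.mono_left hcz (hb'b.trans (hb₁b.trans hbz))))
        (AE.of_all (φ := fun x => z.l x univ ≤ 1) z.le_one)) fun x hx => ?_)
      obtain ⟨⟨h2, h3⟩, h4⟩ := hx
      simp only [Finset.univ_eq_empty, Finset.sum_empty, zero_add] at h2
      have h5 : c ≤ c / 2 := h3.trans (h2.trans (min_le_right _ _))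
      have h6 : c ≠ ⊤ := ((h3.trans h4).trans_lt ENNReal.one_lt_top).ne
      exact absurd h5 (not_le.2 (ENNReal.half_lt_self hc h6))
    · exact hk
  · refine AE.mono hsum fun x hx => ?_
    rw [hx]
    exact Measure.le_add_left le_rfl
  · refine AE.mono hmass fun x hx => hx.trans ?_
    gcongr
    exact min_le_left _ _

end Pool.Agent.Lib.BSR
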