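import Pool.Agent.Lib.BSR.FreeX
import Pool.Agent.Lib.BSR.ExhX

/-!
# Module BSR.FineX: sums of finitely many pieces in `D` with a common domain

Compare `Pool/Agent/Lib/BSP/FreeSum.lean` (the ground model version) and the first half of the proof of `one_copy` in `Pool/Agent/Lib/BSP/CopyA.lean`.

* `fine_restr`: all pieces and `r` restricted to `b` (`restr_le`, `AE.mono_left`); the pieces stay in `D` as `D` is open.
* `fine_extend`: let `q i`, `i : ι`, be the pieces of `r` (`ι` is nonempty by `r.pos`, `r.ne`), `n` the number of indices. `free` gives `q' i ≤ q i` with domain `A'`, `(q' i).b = r.b`, marginal `≤ (q i).l x`, loss `≤ δ / n`, new values `≥ K`. They are in `D`. `exists_sum` gives `r'` (`∑ (q' i).l x univ ≤ ∑ (q i).l x univ =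
  r.l x univ ≤ 1` almost everywhere in `r.b`). `q i ≤ r` (`(q i).l x ≤ r.l x` almost everywhere, same domain, `le_of_le` with `r ≤ r`), so `q' i ≤ r`, `r' ≤ r`. `(r'.l x).map (rho r.A) = ∑ ((q' i).l x).map (rho r.A) ≤ ∑ (q i).l x = r.l x`; `(r'.l x).map (rho z.A) = ((r'.l x).map (rho r.A)).map (rho z.A) ≤ (r.l x).map (rho z.A) ≤ z.l x`
  (almost everywhere in `r.b`; `map_rho_map`, `Measure.map_mono`). Mass: `z.l x univ ≤ r.l x univ + ε = ∑ (q i).l x univ + ε ≤ ∑ ((q' i).l x univ + δ / n) + ε`.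
* `fine_trans`: `OD`-free: pieces of `r` are `≤ z' ≤ z`; marginals: `(r.l x).map (rho z.A) = ((r.l x).map (rho z'.A)).map (rho z.A) ≤ (z'.l x).map (rho z.A) ≤ z.l x`.
* `fine_exists`: `exhaust` (with `ε / 2`) gives `b'`, `q i`, `i : Fin n`, `0 < n`; `A' = ⋃ i, (q i).A`, countable and closed; `free` with `N = 0` and loss `(ε / 2) / n` gives `q' i ≤ q i` with domain `A'`, in `D`; `exists_sum` gives `r` (masses: `∑ (q' i).l x univ ≤ ∑ (q i).l x univ = (∑ ((q i).l x).map (rho z.A)) univ ≤ z.l x univ ≤ 1`).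
  Marginal: `((q' i).l x).map (rho z.A) = (((q' i).l x).map (rho (q i).A)).map (rho z.A) ≤ ((q i).l x).map (rho z.A)` (`z.A ⊆ (q i).A`).
-/

set_option autoImplicit false

open Set MeasureTheory Filter
open scoped ENNReal

namespace Pool.Agent.Lib.BSR

universe u

open Pool.Agent.Lib.BSP (rho measurable_rho rho_mem rho_not rho_rho map_rho map_rho_map map_rho_sup map_rho_univ meas_le_of_map)

open ProbabilityTheory (Kernel)

variable {B X T : Type u} [CompleteBooleanAlgebra B] [MeasurableSpace X] {𝔅 : Base B X} {𝒯 : Tree B T}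

namespace FineXAux

theorem single_le {Ω : Type u} [MeasurableSpace Ω] {ι : Type} [Fintype ι] (μ : ι → Measure Ω)
    (i : ι) : μ i ≤ ∑ j, μ j := by
  refine Measure.le_iff.2 fun E _ => ?_
  rw [Measure.finsetSum_apply]
  exact Finset.single_le_sum (f := fun j => μ j E) (fun _ _ => bot_le) (Finset.mem_univ i)

theorem univ_le {A : Set T} {μ ν : Measure (T → ℕ)} (h : ν.map (rho A) ≤ μ) : ν univ ≤ μ univ := by
  have h1 := h univ
  rw [map_rho_univ] at h1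
  exact h1

theorem sum_map_le {ι : Type} [Fintype ι] {A : Set T} {μ ν : ι → Measure (T → ℕ)}
    (h : ∀ i, (ν i).map (rho A) ≤ μ i) : (∑ i, ν i).map (rho A) ≤ ∑ i, μ i := by
  refine Measure.le_iff.2 fun E hE => ?_
  rw [Measure.map_apply (measurable_rho _) hE, Measure.finsetSum_apply, Measure.finsetSum_apply]
  refine Finset.sum_le_sum fun i _ => ?_
  have h1 := h i E
  rw [Measure.map_apply (measurable_rho _) hE] at h1
  exact h1

theorem sum_loss {ι : Type} [Fintype ι] [Nonempty ι] {u v : ι → ℝ≥0∞} {δ : ℝ≥0∞}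
    (h : ∀ i, u i ≤ v i + δ / (Fintype.card ι : ℝ≥0∞)) : ∑ i, u i ≤ ∑ i, v i + δ := by
  calc ∑ i, u i ≤ ∑ i, (v i + δ / (Fintype.card ι : ℝ≥0∞)) := Finset.sum_le_sum fun i _ => h i
    _ = ∑ i, v i + ∑ _i : ι, δ / (Fintype.card ι : ℝ≥0∞) := Finset.sum_add_distrib
    _ ≤ ∑ i, v i + δ := by
        gcongr
        rw [Finset.sum_const, Finset.card_univ, nsmul_eq_mul]
        exact ENNReal.mul_div_le

end FineXAux

theorem fine_restr {D : Set (LCond 𝔅 𝒯)} (hD : ∀ q ∈ D, ∀ q', q' ≤ q → q' ∈ D) {z r : LCond 𝔅 𝒯} {ε : ℝ≥0∞}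
    (h : Fine D z r ε) {b : B} (hb : b ≠ ⊥) (hbr : b ≤ r.b) : Fine D z (restr r b hb hbr) ε := by
  obtain ⟨h1, ⟨ι, hι, q, hq, hs⟩, h3, h4⟩ := h
  have hbq : ∀ i, b ≤ (q i).b := fun i => hbr.trans_eq (hq i).2.1.symm
  refine ⟨(restr_le r b hb hbr).trans h1, ⟨ι, hι, fun i => restr (q i) b hb (hbq i), fun i => ?_, ?_⟩,
    ?_, ?_⟩
  · refine ⟨hD (q i) (hq i).1 _ (restr_le (q i) b hb (hbq i)), rfl, (hq i).2.2.1, ?_⟩
    exact (restr_le (q i) b hb (hbq i)).trans (hq i).2.2.2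
  · exact AE.mono_left hs hbr
  · exact AE.mono_left h3 hbr
  · exact AE.mono_left h4 hbr

theorem fine_extend {D : Set (LCond 𝔅 𝒯)} (hD : ∀ q ∈ D, ∀ q', q' ≤ q → q' ∈ D) {z r : LCond 𝔅 𝒯} {ε : ℝ≥0∞}
    (h : Fine D z r ε) {A' : Set T} (hc : A'.Countable) (hl : ∀ t ∈ A', 𝒯.pre t ⊆ A') (hA : r.A ⊆ A') (K : ℕ)
    {δ : ℝ≥0∞} (hδ : δ ≠ 0) :
    ∃ r' : LCond 𝔅 𝒯, Fine D z r' (ε + δ) ∧ r' ≤ r ∧ r'.b = r.b ∧ r'.A = A' ∧
      𝔅.AE r.b (fun x => (r'.l x).map (rho r.A) ≤ r.l x) ∧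
      ∀ s ∈ A' \ r.A, 𝔅.AE r.b (fun x => r'.l x {f | f s < K} = 0) := by
  classical
  obtain ⟨hrz, ⟨ι, hι, q, hq, hsum⟩, hmarg, hmass⟩ := h
  have hne : Nonempty ι := by
    by_contra hcon
    have hemp : IsEmpty ι := not_nonempty_iff.1 hcon
    obtain ⟨c, hc0, hc1⟩ := r.pos
    apply r.ne
    refine AE.false (𝔅 := 𝔅) (AE.mono (AE.and hc1 hsum) fun x hx => ?_)
    obtain ⟨hx1, hx2⟩ := hx
    rw [hx2] at hx1
    simp only [Finset.univ_eq_empty, Finset.sum_empty, Measure.coe_zero, Pi.zero_apply,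
      nonpos_iff_eq_zero] at hx1
    exact hc0 hx1
  have hδ' : δ / (Fintype.card ι : ℝ≥0∞) ≠ 0 := ENNReal.div_ne_zero.2 ⟨hδ, ENNReal.natCast_ne_top _⟩
  have hfree := fun i => free (q i) hc hl (by rw [(hq i).2.2.1]; exact hA) K hδ'
  choose q' hq1 hq2 hq3 hq4 hq5 hq6 using hfree
  have hq4' : ∀ i x, ((q' i).l x).map (rho r.A) ≤ (q i).l x := fun i x => by
    have := hq4 i x
    rw [(hq i).2.2.1] at this
    exact this
  have hone : 𝔅.AE r.b (fun x => ∑ i, (q' i).l x univ ≤ 1) := by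
    refine AE.mono hsum fun x hx => ?_
    calc ∑ i, (q' i).l x univ ≤ ∑ i, (q i).l x univ :=
          Finset.sum_le_sum fun i _ => FineXAux.univ_le (hq4' i x)
      _ = r.l x univ := by rw [hx, Measure.finsetSum_apply]
      _ ≤ 1 := r.le_one x
  obtain ⟨r', hr1, hr2, hr3, hr4⟩ := exists_sum q' (b := r.b) (A := A')
    (fun i => (hq2 i).trans (hq i).2.1) hq3 hone
  have hqr : ∀ i, q i ≤ r := fun i => by
    refine le_of_le (le_refl r) (hq i).2.1.le (hq i).2.2.1 ⟨1, ENNReal.one_ne_top, ?_⟩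
    rw [(hq i).2.1]
    refine AE.mono hsum fun x hx => ?_
    rw [one_smul, hx]
    exact FineXAux.single_le (fun i => (q i).l x) i
  have hmap : 𝔅.AE r.b (fun x => (r'.l x).map (rho r.A) ≤ r.l x) := by
    refine AE.mono (AE.and hr3 hsum) fun x hx => ?_
    rw [hx.1, hx.2]
    exact FineXAux.sum_map_le fun i => hq4' i x
  have hloss : 𝔅.AE r.b (fun x => ∀ i, (q i).l x univ ≤
      (q' i).l x univ + δ / (Fintype.card ι : ℝ≥0∞)) := by
    refine AE.all_fin fun i => ?_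
    have := hq5 i
    rw [(hq i).2.1] at this
    exact this
  have hr'z : r' ≤ z := hr4 z fun i => (hq1 i).trans (hq i).2.2.2
  refine ⟨r', ⟨hr'z, ⟨ι, hι, q', fun i => ⟨hD (q i) (hq i).1 (q' i) (hq1 i), ?_, ?_, ?_⟩, ?_⟩, ?_, ?_⟩,
    hr4 r fun i => (hq1 i).trans (hqr i), hr1, hr2, hmap, ?_⟩
  · rw [hr1, hq2 i, (hq i).2.1]
  · rw [hr2, hq3 i]
  · exact (hq1 i).trans (hq i).2.2.2
  · rw [hr1]
    exact hr3
  · rw [hr1]
    refine AE.mono (AE.and hmap hmarg) fun x hx => ?_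
    rw [← map_rho_map (le_def.1 hrz).2.1 (r'.l x)]
    exact (Measure.map_mono hx.1 (measurable_rho _)).trans hx.2
  · rw [hr1]
    refine AE.mono (AE.and (AE.and hr3 hsum) (AE.and hloss hmass)) fun x hx => ?_
    obtain ⟨⟨hx1, hx2⟩, hx3, hx4⟩ := hx
    have h2 : r.l x univ ≤ r'.l x univ + δ := by
      rw [hx1, hx2, Measure.finsetSum_apply, Measure.finsetSum_apply]
      exact FineXAux.sum_loss hx3
    calc z.l x univ ≤ r.l x univ + ε := hx4
      _ ≤ (r'.l x univ + δ) + ε := by gcongr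
      _ = r'.l x univ + (ε + δ) := by rw [add_assoc, add_comm δ ε]
  · intro s hs
    refine AE.mono hr3 fun x hx => ?_
    rw [hx, Measure.finsetSum_apply]
    refine Finset.sum_eq_zero fun i _ => hq6 i s ?_ x
    rw [(hq i).2.2.1]
    exact hs

theorem fine_trans {D : Set (LCond 𝔅 𝒯)} {z z' r : LCond 𝔅 𝒯} {ε δ : ℝ≥0∞} (h : Fine D z' r ε) (hle : z' ≤ z)
    (hm : 𝔅.AE z'.b (fun x => (z'.l x).map (rho z.A) ≤ z.l x))
    (hu : 𝔅.AE z'.b (fun x => z.l x univ ≤ z'.l x univ + δ)) : Fine D z r (δ + ε) := by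
  obtain ⟨hrz, ⟨ι, hι, q, hq, hsum⟩, hmarg, hmass⟩ := h
  have hb : r.b ≤ z'.b := (le_def.1 hrz).1
  refine ⟨hrz.trans hle, ⟨ι, hι, q, fun i => ⟨(hq i).1, (hq i).2.1, (hq i).2.2.1,
    (hq i).2.2.2.trans hle⟩, hsum⟩, ?_, ?_⟩
  · refine AE.mono (AE.and hmarg (AE.mono_left hm hb)) fun x hx => ?_
    rw [← map_rho_map (le_def.1 hle).2.1 (r.l x)]
    exact (Measure.map_mono hx.1 (measurable_rho _)).trans hx.2
  · refine AE.mono (AE.and hmass (AE.mono_left hu hb)) fun x hx => ?_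
    calc z.l x univ ≤ z'.l x univ + δ := hx.2
      _ ≤ (r.l x univ + ε) + δ := by
          gcongr
          exact hx.1
      _ = r.l x univ + (δ + ε) := by rw [add_assoc, add_comm ε δ]

theorem fine_exists (z : LCond 𝔅 𝒯) {D : Set (LCond 𝔅 𝒯)} (hD : OD z D) {b : B} (hb : b ≠ ⊥) (hbz : b ≤ z.b)
    {ε : ℝ≥0∞} (hε : ε ≠ 0) : ∃ r : LCond 𝔅 𝒯, r.b ≤ b ∧ Fine D z r ε := by
  classical
  have hε2 : ε / 2 ≠ 0 := ENNReal.div_ne_zero.2 ⟨hε, ENNReal.ofNat_ne_top⟩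
  obtain ⟨b', hb'b, hb', n, hn, q, hq, hmarg, hmass⟩ := exhaust z hD hb hbz hε2
  have hne : Nonempty (Fin n) := ⟨⟨0, hn⟩⟩
  obtain ⟨A', hA'⟩ : ∃ A' : Set T, A' = ⋃ i, (q i).A := ⟨_, rfl⟩
  have hc : A'.Countable := by
    rw [hA']
    exact countable_iUnion fun i => (q i).cnt
  have hl : ∀ t ∈ A', 𝒯.pre t ⊆ A' := by
    intro t ht
    rw [hA'] at ht ⊢
    obtain ⟨i, hi⟩ := mem_iUnion.1 ht
    exact ((q i).low t hi).trans (subset_iUnion (fun i => (q i).A) i)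
  have hsub : ∀ i, (q i).A ⊆ A' := fun i => by
    rw [hA']
    exact subset_iUnion (fun i => (q i).A) i
  have hδ' : (ε / 2) / (Fintype.card (Fin n) : ℝ≥0∞) ≠ 0 :=
    ENNReal.div_ne_zero.2 ⟨hε2, ENNReal.natCast_ne_top _⟩
  have hfree := fun i => free (q i) hc hl (hsub i) 0 hδ'
  choose q' hq1 hq2 hq3 hq4 hq5 hq6 using hfree
  have hqb : ∀ i, (q' i).b = b' := fun i => (hq2 i).trans (hq i).2.2
  have hqz : ∀ i, q' i ≤ z := fun i => (hq1 i).trans (hq i).2.1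
  have hzA : ∀ i, z.A ⊆ (q i).A := fun i => (le_def.1 (hq i).2.1).2.1
  have hmz : ∀ i x, ((q' i).l x).map (rho z.A) ≤ ((q i).l x).map (rho z.A) := fun i x => by
    rw [← map_rho_map (hzA i) ((q' i).l x)]
    exact Measure.map_mono (hq4 i x) (measurable_rho _)
  have hsumle : 𝔅.AE b' (fun x => ∑ i, (q i).l x univ ≤ z.l x univ) := by
    refine AE.mono hmarg fun x hx => ?_
    have h1 := hx univ
    rw [Measure.finsetSum_apply] at h1
    simp only [map_rho_univ] at h1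
    exact h1
  have hone : 𝔅.AE b' (fun x => ∑ i, (q' i).l x univ ≤ 1) := by
    refine AE.mono hsumle fun x hx => ?_
    calc ∑ i, (q' i).l x univ ≤ ∑ i, (q i).l x univ :=
          Finset.sum_le_sum fun i _ => FineXAux.univ_le (hq4 i x)
      _ ≤ z.l x univ := hx
      _ ≤ 1 := z.le_one x
  obtain ⟨r, hr1, hr2, hr3, hr4⟩ := exists_sum q' (b := b') (A := A') hqb hq3 hone
  have hloss : 𝔅.AE b' (fun x => ∀ i, (q i).l x univ ≤
      (q' i).l x univ + (ε / 2) / (Fintype.card (Fin n) : ℝ≥0∞)) := by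
    refine AE.all_fin fun i => ?_
    have := hq5 i
    rw [(hq i).2.2] at this
    exact this
  refine ⟨r, ?_, hr4 z hqz, ⟨Fin n, inferInstance, q', fun i => ⟨hD.1 (q i) (hq i).1 (q' i) (hq1 i),
    ?_, ?_, hqz i⟩, ?_⟩, ?_, ?_⟩
  · rw [hr1]
    exact hb'b
  · rw [hr1, hqb i]
  · rw [hr2, hq3 i]
  · rw [hr1]
    exact hr3
  · rw [hr1]
    refine AE.mono (AE.and hr3 hmarg) fun x hx => ?_
    rw [hx.1]
    exact (FineXAux.sum_map_le fun i => hmz i x).trans hx.2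
  · rw [hr1]
    refine AE.mono (AE.and hr3 (AE.and hloss hmass)) fun x hx => ?_
    obtain ⟨hx1, hx2, hx3⟩ := hx
    have h2 : ∑ i, (q i).l x univ ≤ r.l x univ + ε / 2 := by
      rw [hx1, Measure.finsetSum_apply]
      exact FineXAux.sum_loss hx2
    calc z.l x univ ≤ ∑ i, (q i).l x univ + ε / 2 := hx3
      _ ≤ (r.l x univ + ε / 2) + ε / 2 := by gcongr
      _ = r.l x univ + ε := by rw [add_assoc, ENNReal.add_halves]

end Pool.Agent.Lib.BSR
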