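import Pool.Agent.Lib.BSR.EvSum
import Pool.Agent.Lib.BSP.Free

/-!
# Module BSR.FreeX: the free extension (L3 over a base)

Same proof as `Pool/Agent/Lib/BSP/Free.lean` (read it), with the parameter `x`.

`free`. Let `c` be from `z.pos`, `ε' = min ε (c / 2)`; `δ : ℕ → ℝ≥0∞` positive with `∑' j, δ j < ε'`. By `z.unif` and recursion there is `M : ℕ → ℕ` strictly increasing, `N ≤ M 0`, such that for all `j` and all `t ∉ z.A`:
`AE z.b (z.l x (full z.A t (M j) (M (j + 1)) x) ≤ δ j)`. `e : A' \ z.A → ℕ` injective. `S x f t = {k | M (2 e t) ≤ k ∧ k < M (2 e t + 1) ∧ ∀ s ∈ z.A, R x s t → f s ≠ k}`,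
`Φ (x, f) t = f t` (`t ∈ z.A`), `sInf (S x f t)` (`t ∈ A' \ z.A`), `0` (`t ∉ A'`). `G = {(x, f) | ∀ t ∈ A' \ z.A, f ∉ full z.A t (M (2 e t)) (M (2 e t + 1)) x}` (measurable by `full_meas`, a countable intersection).
`z'.l x = ((z.l x).restrict {f | (x, f) ∈ G}).map (Φ (x, ·))` (`kernel_restrict`, `kernel_map`; `Φ` is jointly measurable: coordinatewise, `{(x, f) | k ∈ S x f t}` is a countable intersection over `s ∈ z.A`).
* for all `x`: mass `≤ 1`, `z'.l x` vanishes off `A'`, `(z'.l x).map (rho z.A) ≤ z.l x` (as `rho z.A (Φ (x, f)) = rho z.A f`), values on `A' \ z.A` are at least `M 0 ≥ N`.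
* for almost all `x` in `z.b`: the mass of the complement of `G` is `≤ ∑' j, δ j ≤ ε'`. So the loss is at most `ε` and the mass is at least `c / 2`.
* `inj`: `s, t ∈ A'`, `R x s t`: `s ∈ pre t`. If `t ∈ z.A`, then `s ∈ z.A` (`z.low`), `z.inj`. If `t ∉ z.A`, `s ∈ z.A`: by the choice of the value. If both are new: different windows.
* `unif`: given `n, η` take an odd `j` with `n ≤ M j`, `δ j ≤ η`, `m = M (j + 1)`; for `t ∉ A'`, for almost all `x` in `z.b`, `Φ ⁻¹' (full A' t n m x) ∩ G ⊆ full z.A t (M j) (M (j + 1)) x`.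
* `Thin`: `a` = the set of the `s ∈ A' \ z.A` with `M (2 e s) ≤ k < M (2 e s + 1)`, at most one element.
-/

set_option autoImplicit false

open Set MeasureTheory Filter
open scoped ENNReal

namespace Pool.Agent.Lib.BSR

universe u

open Pool.Agent.Lib.BSP (rho)

open ProbabilityTheory (Kernel)

variable {B X T : Type u} [CompleteBooleanAlgebra B] [MeasurableSpace X] {𝔅 : Base B X} {𝒯 : Tree B T}

theorem free (z : LCond 𝔅 𝒯) {A' : Set T} (hc : A'.Countable) (hl : ∀ t ∈ A', 𝒯.pre t ⊆ A') (hA : z.A ⊆ A')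
    (N : ℕ) {ε : ℝ≥0∞} (hε : ε ≠ 0) :
    ∃ z' : LCond 𝔅 𝒯, z' ≤ z ∧ z'.b = z.b ∧ z'.A = A' ∧ (∀ x, (z'.l x).map (rho z.A) ≤ z.l x) ∧
      𝔅.AE z.b (fun x => z.l x univ ≤ z'.l x univ + ε) ∧ ∀ s ∈ A' \ z.A, ∀ x, z'.l x {f | f s < N} = 0 := by
  classical
  obtain ⟨c0, hc0, hc0'⟩ := z.pos
  obtain ⟨c, hcdef⟩ : ∃ c : ℝ≥0∞, c = min c0 1 := ⟨_, rfl⟩
  have hc1 : c ≤ 1 := by rw [hcdef]; exact min_le_right _ _
  have hct : c ≠ ⊤ := ne_top_of_le_ne_top ENNReal.one_ne_top hc1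
  have hcn : c ≠ 0 := by
    rw [hcdef]
    exact (lt_min (pos_iff_ne_zero.2 hc0) one_pos).ne'
  have hcAE : 𝔅.AE z.b (fun x => c ≤ z.l x univ) :=
    AE.mono hc0' fun x hx => by
      rw [hcdef]
      exact (min_le_left _ _).trans hx
  have hc2 : c / 2 ≠ 0 := by
    rw [Ne, ENNReal.div_eq_zero_iff]
    push Not
    exact ⟨hcn, ENNReal.ofNat_ne_top⟩
  have hc2t : c / 2 ≠ ⊤ := ne_top_of_le_ne_top hct ENNReal.half_le_self
  obtain ⟨δ, hδ, hδs⟩ := ENNReal.exists_pos_sum_of_countable' (ε := min ε (c / 2))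
    (lt_min (pos_iff_ne_zero.2 hε) (pos_iff_ne_zero.2 hc2)).ne' ℕ
  have hun : ∀ (n : ℕ) (j : ℕ), ∃ m, n < m ∧ ∀ t ∉ z.A,
      𝔅.AE z.b (fun x => z.l x (full 𝔅 𝒯 z.A t n m x) ≤ δ j) := fun n j =>
    z.unif n (δ j) (hδ j).ne'
  choose F hF1 hF2 using hun
  let M : ℕ → ℕ := fun j => Nat.rec N (fun j m => F m j) j
  have hM0 : M 0 = N := rfl
  have hMs : ∀ j, M (j + 1) = F (M j) j := fun j => rfl
  have hM : StrictMono M := strictMono_nat_of_lt_succ fun j => by rw [hMs]; exact hF1 _ _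
  have hMf : ∀ j, ∀ t ∉ z.A,
      𝔅.AE z.b (fun x => z.l x (full 𝔅 𝒯 z.A t (M j) (M (j + 1)) x) ≤ δ j) := fun j t ht => by
    rw [hMs]; exact hF2 _ _ t ht
  obtain ⟨e, he⟩ := countable_iff_exists_injOn.1 hc
  let S : X × (T → ℕ) → T → Set ℕ := fun p t =>
    {k | M (2 * e t) ≤ k ∧ k < M (2 * e t + 1) ∧ ∀ s ∈ z.A, R 𝔅 𝒯 p.1 s t → p.2 s ≠ k}
  let Φ : X × (T → ℕ) → T → ℕ := fun p t =>
    if t ∈ z.A then p.2 t else if t ∈ A' then sInf (S p t) else 0
  have hΦA : ∀ p, ∀ t ∈ z.A, Φ p t = p.2 t := fun p t ht => if_pos ht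
  have hΦB : ∀ p, ∀ t ∈ A', t ∉ z.A → Φ p t = sInf (S p t) := fun p t ht ht' => by
    simp only [Φ]; rw [if_neg ht', if_pos ht]
  have hΦ0 : ∀ p, ∀ t ∉ A', Φ p t = 0 := fun p t ht => by
    simp only [Φ]; rw [if_neg fun h => ht (hA h), if_neg ht]
  let G : Set (X × (T → ℕ)) :=
    {p | ∀ t ∈ A' \ z.A, p.2 ∉ full 𝔅 𝒯 z.A t (M (2 * e t)) (M (2 * e t + 1)) p.1}
  have hGm : MeasurableSet G := by
    have : G = ⋂ t ∈ A' \ z.A,
        {p : X × (T → ℕ) | p.2 ∈ full 𝔅 𝒯 z.A t (M (2 * e t)) (M (2 * e t + 1)) p.1}ᶜ := by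
      ext f; simp [G]
    rw [this]
    exact MeasurableSet.biInter (hc.mono sdiff_subset) fun t _ =>
      (full_meas 𝔅 𝒯 z.cnt _ _ _).compl
  let Gx : X → Set (T → ℕ) := fun x => {f | (x, f) ∈ G}
  have hGxm : ∀ x, MeasurableSet (Gx x) := fun x => measurable_prodMk_left hGm
  have hGc : ∀ x, (Gx x)ᶜ = ⋃ t ∈ A' \ z.A, full 𝔅 𝒯 z.A t (M (2 * e t)) (M (2 * e t + 1)) x := by
    intro x
    ext f; simp [Gx, G, and_assoc]
  have hGc' : 𝔅.AE z.b (fun x => z.l x (Gx x)ᶜ ≤ ∑' j, δ j) := by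
    have h1 : 𝔅.AE z.b (fun x => ∀ t ∈ A' \ z.A,
        z.l x (full 𝔅 𝒯 z.A t (M (2 * e t)) (M (2 * e t + 1)) x) ≤ δ (2 * e t)) :=
      AE.ball (hc.mono sdiff_subset) fun t ht => hMf (2 * e t) t ht.2
    refine AE.mono h1 fun x hx => ?_
    rw [hGc x]
    refine (measure_biUnion_le (z.l x) (hc.mono sdiff_subset) _).trans ?_
    refine le_trans (ENNReal.tsum_le_tsum fun t : (A' \ z.A : Set T) => hx t t.2) ?_
    refine ENNReal.tsum_comp_le_tsum_of_injective (f := fun t : (A' \ z.A : Set T) => 2 * e t) ?_ δ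
    intro s t hst
    have h1 : e s = e t := by simpa using hst
    exact Subtype.ext (he s.2.1 t.2.1 h1)
  have hmem : ∀ x, ∀ f ∈ Gx x, ∀ t ∈ A', t ∉ z.A → Φ (x, f) t ∈ S (x, f) t := by
    intro x f hf t ht ht'
    rw [hΦB (x, f) t ht ht']
    refine Nat.sInf_mem ?_
    have h1 : f ∉ full 𝔅 𝒯 z.A t (M (2 * e t)) (M (2 * e t + 1)) x := hf t ⟨ht, ht'⟩
    simp only [full, mem_ofPred_eq] at h1
    push Not at h1
    obtain ⟨k, hk1, hk2, hk3⟩ := h1
    exact ⟨k, hk1, hk2, hk3⟩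
  have hval : ∀ (s : T) (E : Set ℕ), MeasurableSet {p : X × (T → ℕ) | p.2 s ∈ E} := fun s E =>
    ((measurable_pi_apply s).comp measurable_snd) (MeasurableSet.of_discrete (s := E))
  have hSm : ∀ t j, MeasurableSet {p : X × (T → ℕ) | j ∈ S p t} := by
    intro t j
    have : {p : X × (T → ℕ) | j ∈ S p t} =
        ({p | M (2 * e t) ≤ j ∧ j < M (2 * e t + 1)} : Set (X × (T → ℕ))) ∩
        ⋂ s ∈ z.A, ({p : X × (T → ℕ) | R 𝔅 𝒯 p.1 s t}ᶜ ∪ {p | p.2 s ∈ ({j}ᶜ : Set ℕ)}) := by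
      ext p
      simp only [S, mem_ofPred_eq, mem_inter_iff, mem_iInter, mem_compl_iff, mem_singleton_iff,
        mem_union, and_assoc, ne_eq, imp_iff_not_or]
    rw [this]
    refine MeasurableSet.inter (MeasurableSet.const _) ?_
    exact MeasurableSet.biInter z.cnt fun s _ =>
      (measurable_fst (R_meas 𝔅 𝒯 s t)).compl.union (hval s _)
  have hΦm : Measurable Φ := by
    refine measurable_pi_iff.2 fun t => ?_
    by_cases h1 : t ∈ z.A
    · have : (fun p => Φ p t) = fun p => p.2 t := funext fun p => hΦA p t h1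
      rw [this]
      exact (measurable_pi_apply t).comp measurable_snd
    · by_cases h2 : t ∈ A'
      · have : (fun p => Φ p t) = fun p => sInf (S p t) := funext fun p => hΦB p t h2 h1
        rw [this]
        exact Pool.Agent.Lib.BSP.FreeAux.meas_sInf (fun p => S p t) (hSm t)
      · have : (fun p => Φ p t) = fun _ => 0 := funext fun p => hΦ0 p t h2
        rw [this]
        exact measurable_const
  have hΦx : ∀ x, Measurable (fun f : T → ℕ => Φ (x, f)) := fun x =>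
    hΦm.comp measurable_prodMk_left
  have : ProbabilityTheory.IsFiniteKernel z.l := finite_of_le_one z.le_one
  obtain ⟨κ1, hκ1⟩ := kernel_restrict z.l hGm
  have hκ1le : ∀ x, κ1 x univ ≤ 1 := fun x => by
    rw [hκ1 x, Measure.restrict_apply MeasurableSet.univ, univ_inter]
    exact (measure_mono (subset_univ _)).trans (z.le_one x)
  have : ProbabilityTheory.IsFiniteKernel κ1 := finite_of_le_one hκ1le
  obtain ⟨ν, hν⟩ := kernel_map κ1 hΦm
  have hνa : ∀ x, ∀ E, MeasurableSet E → ν x E = z.l x ((fun f => Φ (x, f)) ⁻¹' E ∩ Gx x) := by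
    intro x E hE
    rw [hν x, Measure.map_apply (hΦx x) hE, hκ1 x, Measure.restrict_apply (hΦx x hE)]
  have hνu : ∀ x, ν x univ = z.l x (Gx x) := fun x => by
    rw [hνa x _ MeasurableSet.univ, preimage_univ, univ_inter]
  have hν0 : ∀ x, ∀ E, MeasurableSet E → (∀ f ∈ Gx x, Φ (x, f) ∉ E) → ν x E = 0 := fun x E hE h => by
    rw [hνa x _ hE]
    have : (fun f => Φ (x, f)) ⁻¹' E ∩ Gx x = ∅ := by
      ext f
      simp only [mem_inter_iff, mem_preimage, mem_empty_iff_false, iff_false, not_and]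
      exact fun h1 h2 => h f h2 h1
    rw [this, measure_empty]
  have hrho : ∀ x f, rho z.A (Φ (x, f)) = rho z.A f := by
    intro x f
    funext t
    by_cases ht : t ∈ z.A
    · rw [Pool.Agent.Lib.BSP.rho_mem ht, Pool.Agent.Lib.BSP.rho_mem ht, hΦA (x, f) t ht]
    · rw [Pool.Agent.Lib.BSP.rho_not ht, Pool.Agent.Lib.BSP.rho_not ht]
  have hνr : ∀ x, (ν x).map (rho z.A) ≤ z.l x := by
    intro x
    have h1 : (ν x).map (rho z.A) = ((z.l x).restrict (Gx x)).map (rho z.A) := by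
      rw [hν x, Measure.map_map (Pool.Agent.Lib.BSP.measurable_rho _) (hΦx x), hκ1 x]
      congr 1
      exact funext (hrho x)
    rw [h1]
    calc ((z.l x).restrict (Gx x)).map (rho z.A) ≤ (z.l x).map (rho z.A) :=
          Measure.map_mono Measure.restrict_le_self (Pool.Agent.Lib.BSP.measurable_rho _)
      _ = z.l x := Pool.Agent.Lib.BSP.map_rho (z.sup x)
  have hsum : ∀ x, z.l x univ ≤ z.l x (Gx x) + z.l x (Gx x)ᶜ := by
    intro x
    rw [← union_compl_self (Gx x)]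
    exact measure_union_le _ _
  have hpos : 𝔅.AE z.b (fun x => c / 2 ≤ ν x univ) := by
    refine AE.mono (AE.and hcAE hGc') fun x hx => ?_
    rw [hνu x]
    have h1 : c / 2 + c / 2 ≤ z.l x (Gx x) + c / 2 := by
      rw [ENNReal.add_halves]
      refine hx.1.trans ((hsum x).trans (add_le_add le_rfl ?_))
      exact hx.2.trans (hδs.le.trans (min_le_right _ _))
    exact (ENNReal.add_le_add_iff_right hc2t).1 h1
  have hspec : ∀ s ∈ A', ∀ t ∈ A', 𝔅.AE z.b (fun x => R 𝔅 𝒯 x s t → ν x {f | f s = f t} = 0) := by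
    intro s hs t ht
    by_cases htA : t ∈ z.A
    · by_cases hsA : s ∈ z.A
      · refine AE.mono (z.inj s hsA t htA) fun x hx hR => ?_
        rw [hνa x _ (Pool.Agent.Lib.BSP.measurableSet_eq s t)]
        refine measure_mono_null ?_ (hx hR)
        rintro f ⟨h1, -⟩
        have h2 : Φ (x, f) s = Φ (x, f) t := h1
        rw [hΦA (x, f) s hsA, hΦA (x, f) t htA] at h2
        exact h2
      · exact AE.of_all fun x hR => absurd (z.low t htA (R_pre 𝔅 𝒯 hR)) hsA
    · refine AE.of_all fun x hR => ?_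
      refine hν0 x _ (Pool.Agent.Lib.BSP.measurableSet_eq s t) fun f hf h1 => ?_
      have h2 : Φ (x, f) s = Φ (x, f) t := h1
      have h3 := hmem x f hf t ht htA
      by_cases hsA : s ∈ z.A
      · rw [hΦA (x, f) s hsA] at h2
        exact h3.2.2 s hsA hR h2
      · have h4 := hmem x f hf s hs hsA
        rw [h2] at h4
        have h5 := Pool.Agent.Lib.BSP.FreeAux.win_eq hM h3.1 h3.2.1 h4.1 h4.2.1
        have h6 : e t = e s := by omega
        have h7 : t = s := he ht hs h6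
        rw [h7] at hR
        exact R_irr 𝔅 𝒯 x s hR
  have hunif : ∀ n : ℕ, ∀ η : ℝ≥0∞, η ≠ 0 → ∃ m, n < m ∧ ∀ t ∉ A',
      𝔅.AE z.b (fun x => ν x (full 𝔅 𝒯 A' t n m x) ≤ η) := by
    intro n η hη
    have hne : ∑' j, δ j ≠ ⊤ := ne_top_of_lt hδs
    have hlim := ENNReal.tendsto_atTop_zero_of_tsum_ne_top hne
    have hev := ENNReal.tendsto_nhds_zero.1 hlim η (pos_iff_ne_zero.2 hη)
    obtain ⟨J, hJ⟩ := Filter.eventually_atTop.1 hev
    set j := 2 * max J n + 1 with hj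
    have hjJ : J ≤ j := by have := le_max_left J n; omega
    have hjn : n ≤ j := by have := le_max_right J n; omega
    have hjM : n ≤ M j := hjn.trans hM.le_apply
    refine ⟨M (j + 1), lt_of_le_of_lt hjM (hM (Nat.lt_succ_self j)), fun t ht => ?_⟩
    refine AE.mono (hMf j t fun h => ht (hA h)) fun x hx => ?_
    rw [hνa x _ (full_meas' 𝔅 𝒯 hc _ _ _ x)]
    refine le_trans (measure_mono ?_) (hx.trans (hJ j hjJ))
    rintro f ⟨h1, hfG⟩ k hk1 hk2
    obtain ⟨s, hs, hst, hsk⟩ := h1 k (hjM.trans hk1) hk2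
    have hsk' : Φ (x, f) s = k := hsk
    by_cases hsA : s ∈ z.A
    · exact ⟨s, hsA, hst, by rw [← hsk', hΦA (x, f) s hsA]⟩
    · exfalso
      have h4 := hmem x f hfG s hs hsA
      rw [hsk'] at h4
      have h5 := Pool.Agent.Lib.BSP.FreeAux.win_eq hM (i := j) (j := 2 * e s) hk1 hk2 h4.1 h4.2.1
      omega
  let q : LCond 𝔅 𝒯 :=
    { b := z.b
      ne := z.ne
      A := A'
      cnt := hc
      low := hl
      l := ν
      le_one := fun x => by
        rw [hνu x]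
        exact (measure_mono (subset_univ _)).trans (z.le_one x)
      pos := ⟨c / 2, hc2, hpos⟩
      sup := fun x t ht => by
        refine hν0 x _ (Pool.Agent.Lib.BSP.measurableSet_val t ({0}ᶜ : Set ℕ)) fun f _ h1 => ?_
        exact h1 (hΦ0 (x, f) t ht)
      inj := hspec
      unif := hunif }
  have hthin : Thin q z := by
    intro k η _
    have hfin : {s | s ∈ A' \ z.A ∧ M (2 * e s) ≤ k ∧ k < M (2 * e s + 1)}.Finite := by
      refine Set.Subsingleton.finite ?_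
      rintro s ⟨hs, hs1, hs2⟩ t ⟨ht, ht1, ht2⟩
      have h5 := Pool.Agent.Lib.BSP.FreeAux.win_eq hM hs1 hs2 ht1 ht2
      have h6 : e s = e t := by omega
      exact he hs.1 ht.1 h6
    refine ⟨hfin.toFinset, fun s hs => ((Set.Finite.mem_toFinset _).1 hs).1, fun t ht => ?_⟩
    refine AE.of_all fun x hta => ?_
    have : ν x (hit 𝔅 𝒯 (A' \ z.A) t k x) = 0 := by
      refine hν0 x _ (hit_meas' 𝔅 𝒯 (hc.mono sdiff_subset) t k x) fun f hf h1 => ?_
      obtain ⟨s, hs, hst, hsk⟩ := h1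
      have h4 := hmem x f hf s hs.1 hs.2
      rw [hsk] at h4
      exact hta s ((Set.Finite.mem_toFinset _).2 ⟨hs, h4.1, h4.2.1⟩) hst
    change ν x (hit 𝔅 𝒯 (A' \ z.A) t k x) ≤ η
    rw [this]
    exact zero_le
  refine ⟨q, ?_, rfl, rfl, hνr, ?_, ?_⟩
  · rw [le_def]
    refine ⟨le_rfl, hA, ⟨1, ENNReal.one_ne_top, AE.of_all fun x => ?_⟩, hthin⟩
    rw [one_smul]
    exact hνr x
  · refine AE.mono hGc' fun x hx => ?_
    change z.l x univ ≤ ν x univ + ε
    rw [hνu x]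
    refine (hsum x).trans (add_le_add le_rfl ?_)
    exact hx.trans (hδs.le.trans (min_le_left _ _))
  · intro s hs x
    refine hν0 x _ (Pool.Agent.Lib.BSP.measurableSet_val s (Iio N)) fun f hf h1 => ?_
    have h4 := (hmem x f hf s hs.1 hs.2).1
    have h5 : Φ (x, f) s < N := h1
    have h6 : N ≤ M (2 * e s) := by rw [← hM0]; exact hM.monotone (Nat.zero_le _)
    omega

end Pool.Agent.Lib.BSR
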