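import Pool.Agent.Lib.BSR.MeasX

/-!
# Module BSR.Ord: the preorder of the local conditions, changes of the measure

* `leL_refl`: `c = 1`, `map_rho` (the kernel vanishes off `A`), `a = ∅` (`A \ A = ∅`).
* `leL_trans` (`r ≤ q ≤ p`): `(r.l x).map (rho p.A) = ((r.l x).map (rho q.A)).map (rho p.A) ≤ c₁ • (q.l x).map (rho p.A) ≤ (c₁ * c₂) • p.l x` for almost all `x` in `r.b`
  (`map_rho_map`, `Measure.map_mono`, `Measure.map_smul`). `Thin`: given `k, η` take `a₁` from `r ≤ q` for `η / 2` and `a₂` from `q ≤ p` for `η / (2 * (c₁ + 1))`, `a = a₁ ∪ a₂`; `hit (r.A \ p.A) = hit (r.A \ q.A) ∪ hit (q.A \ p.A)` and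
  `r.l x (hit (q.A \ p.A) t k x) ≤ c₁ * q.l x (hit ..)` (`le_mul_of_dom`, `rho_hit`), `t ∉ r.A` implies `t ∉ q.A`; all almost everywhere in `r.b` (`AE.mono_left`, `AE.and`).
* `exists_sub`: change of the measure by domination with a constant `c` (w.l.o.g. `c ≠ 0`, replace by `c + 1`): `inj`: null sets; `unif`: `m` from `z.unif` for `η / c`. `z' ≤ z`: `Dom` with `c`, `a = ∅`.
* `restr`: same measure, smaller base part. `restr_mono`: all conditions are almost everywhere in a smaller set.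
* `le_of_le`: if `q ≤ p`, `r.b ≤ q.b`, `r.A = q.A`, `r.l x ≤ c • q.l x` almost everywhere in `r.b`, then `r ≤ p` (this is `leL_trans`, as `r ≤ q` with `a = ∅`).
-/

set_option autoImplicit false

open Set MeasureTheory Filter
open scoped ENNReal

namespace Pool.Agent.Lib.BSR

universe u

open Pool.Agent.Lib.BSP (rho)

open Pool.Agent.Lib.BSP (map_rho map_rho_map measurable_rho)

open ProbabilityTheory (Kernel)

variable {B X T : Type u} [CompleteBooleanAlgebra B] [MeasurableSpace X] {𝔅 : Base B X} {𝒯 : Tree B T}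

namespace OrdAux

theorem hit_empty (𝔅 : Base B X) (𝒯 : Tree B T) (t : T) (k : ℕ) (x : X) :
    hit 𝔅 𝒯 (∅ : Set T) t k x = ∅ := by
  ext f
  simp [hit]

theorem thin_same {q p : LCond 𝔅 𝒯} (h : q.A = p.A) : Thin q p := by
  intro k η _
  refine ⟨∅, by simp, fun t _ => AE.of_all fun x _ => ?_⟩
  rw [h, sdiff_self]
  rw [hit_empty, measure_empty]
  exact zero_le

theorem hit_cover {P Q R : Set T} (t : T) (k : ℕ) (x : X) :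
    hit 𝔅 𝒯 (R \ P) t k x ⊆ hit 𝔅 𝒯 (R \ Q) t k x ∪ hit 𝔅 𝒯 (Q \ P) t k x := by
  rintro f ⟨s, ⟨hsR, hsP⟩, hst, hf⟩
  by_cases hsQ : s ∈ Q
  · exact Or.inr ⟨s, ⟨hsQ, hsP⟩, hst, hf⟩
  · exact Or.inl ⟨s, ⟨hsR, hsQ⟩, hst, hf⟩

theorem smul_mono {Ω : Type u} [MeasurableSpace Ω] {μ ν : Measure Ω} (c : ℝ≥0∞) (h : μ ≤ ν) :
    c • μ ≤ c • ν := by
  intro E
  rw [Measure.smul_apply, Measure.smul_apply, smul_eq_mul, smul_eq_mul]
  exact mul_le_mul_right (h E) c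

theorem le_mul {Ω : Type u} [MeasurableSpace Ω] {μ ν : Measure Ω} {c : ℝ≥0∞} (h : μ ≤ c • ν)
    (E : Set Ω) : μ E ≤ c * ν E := by
  have := h E
  rwa [Measure.smul_apply, smul_eq_mul] at this

theorem mul_div_le {c η : ℝ≥0∞} (hc : c ≠ ⊤) : c * (η / (c + 1)) ≤ η := by
  have h1 : c + 1 ≠ 0 := by simp
  have h2 : c + 1 ≠ ⊤ := by simp [hc]
  calc c * (η / (c + 1)) ≤ (c + 1) * (η / (c + 1)) := by gcongr; exact le_self_add
    _ = η := ENNReal.mul_div_cancel h1 h2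

theorem div_ne {c η : ℝ≥0∞} (hc : c ≠ ⊤) (hη : η ≠ 0) : η / (c + 1) ≠ 0 := by
  rw [Ne, ENNReal.div_eq_zero_iff]
  push Not
  exact ⟨hη, by simp [hc]⟩

end OrdAux

open OrdAux

theorem leL_refl (p : LCond 𝔅 𝒯) : LeL p p := by
  refine ⟨le_rfl, subset_rfl, ⟨1, ENNReal.one_ne_top, AE.of_all fun x => ?_⟩, thin_same rfl⟩
  rw [map_rho (p.sup x), one_smul]

theorem leL_trans {r q p : LCond 𝔅 𝒯} (h1 : LeL r q) (h2 : LeL q p) : LeL r p := by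
  classical
  obtain ⟨hb1, hA1, ⟨c1, hc1, hd1⟩, ht1⟩ := h1
  obtain ⟨hb2, hA2, ⟨c2, hc2, hd2⟩, ht2⟩ := h2
  refine ⟨hb1.trans hb2, hA2.trans hA1, ⟨c1 * c2, ENNReal.mul_ne_top hc1 hc2, ?_⟩, ?_⟩
  · refine AE.mono (AE.and hd1 (AE.mono_left hd2 hb1)) ?_
    rintro x ⟨e1, e2⟩
    rw [← map_rho_map hA2 (r.l x)]
    calc ((r.l x).map (rho q.A)).map (rho p.A) ≤ (c1 • q.l x).map (rho p.A) :=
          Measure.map_mono e1 (measurable_rho p.A)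
      _ = c1 • (q.l x).map (rho p.A) := by rw [Measure.map_smul]
      _ ≤ c1 • (c2 • p.l x) := smul_mono c1 e2
      _ = (c1 * c2) • p.l x := by rw [smul_smul]
  · intro k η hη
    have hη2 : η / 2 ≠ 0 := by simpa using hη
    obtain ⟨a1, ha1, hu1⟩ := ht1 k (η / 2) hη2
    obtain ⟨a2, ha2, hu2⟩ := ht2 k (η / 2 / (c1 + 1)) (div_ne hc1 hη2)
    refine ⟨a1 ∪ a2, ?_, ?_⟩
    · intro s hs
      rcases Finset.mem_union.1 hs with h | h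
      · exact ⟨(ha1 s h).1, fun hp => (ha1 s h).2 (hA2 hp)⟩
      · exact ⟨hA1 (ha2 s h).1, (ha2 s h).2⟩
    · intro t ht
      refine AE.mono (AE.and hd1 (AE.and (hu1 t ht)
        (AE.mono_left (hu2 t fun h => ht (hA1 h)) hb1))) ?_
      rintro x ⟨e1, e2, e3⟩ hx
      have f1 : r.l x (hit 𝔅 𝒯 (r.A \ q.A) t k x) ≤ η / 2 :=
        e2 fun s hs => hx s (Finset.mem_union_left _ hs)
      have f2 : q.l x (hit 𝔅 𝒯 (q.A \ p.A) t k x) ≤ η / 2 / (c1 + 1) :=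
        e3 fun s hs => hx s (Finset.mem_union_right _ hs)
      have f3 : r.l x (hit 𝔅 𝒯 (q.A \ p.A) t k x) ≤
          c1 * q.l x (hit 𝔅 𝒯 (q.A \ p.A) t k x) :=
        le_mul_of_dom e1 (hit_meas' 𝔅 𝒯 (q.cnt.mono sdiff_subset) t k x)
          (rho_hit sdiff_subset)
      have f4 : r.l x (hit 𝔅 𝒯 (q.A \ p.A) t k x) ≤ η / 2 := by
        refine f3.trans (le_trans ?_ (mul_div_le hc1))
        exact mul_le_mul_right f2 c1
      calc r.l x (hit 𝔅 𝒯 (r.A \ p.A) t k x)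
          ≤ r.l x (hit 𝔅 𝒯 (r.A \ q.A) t k x ∪ hit 𝔅 𝒯 (q.A \ p.A) t k x) :=
            measure_mono (hit_cover t k x)
        _ ≤ r.l x (hit 𝔅 𝒯 (r.A \ q.A) t k x) + r.l x (hit 𝔅 𝒯 (q.A \ p.A) t k x) :=
            measure_union_le _ _
        _ ≤ η / 2 + η / 2 := add_le_add f1 f4
        _ = η := ENNReal.add_halves η

instance : Preorder (LCond 𝔅 𝒯) where
  le := LeL
  le_refl := leL_refl
  le_trans _ _ _ h1 h2 := leL_trans h1 h2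

theorem le_def {q p : LCond 𝔅 𝒯} : q ≤ p ↔ q.b ≤ p.b ∧ p.A ⊆ q.A ∧ Dom q p ∧ Thin q p := Iff.rfl

theorem exists_sub (z : LCond 𝔅 𝒯) {b : B} (hb : b ≠ ⊥) (hbz : b ≤ z.b) (l : Kernel X (T → ℕ))
    (h1 : ∀ x, l x univ ≤ 1) (hs : ∀ x, ∀ t ∉ z.A, l x {f | f t ≠ 0} = 0)
    (hpos : ∃ c : ℝ≥0∞, c ≠ 0 ∧ 𝔅.AE b (fun x => c ≤ l x univ))
    (hdom : ∃ c : ℝ≥0∞, c ≠ ⊤ ∧ 𝔅.AE b (fun x => l x ≤ c • z.l x)) :
    ∃ z' : LCond 𝔅 𝒯, z'.b = b ∧ z'.A = z.A ∧ z'.l = l ∧ z' ≤ z := by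
  obtain ⟨c, hc, hd⟩ := hdom
  have hinj : ∀ s ∈ z.A, ∀ t ∈ z.A, 𝔅.AE b (fun x => R 𝔅 𝒯 x s t → l x {f | f s = f t} = 0) := by
    intro s hs t ht
    refine AE.mono (AE.and hd (AE.mono_left (z.inj s hs t ht) hbz)) ?_
    rintro x ⟨e1, e2⟩ hR
    have h3 := le_mul e1 {f | f s = f t}
    rw [e2 hR, mul_zero] at h3
    exact le_antisymm h3 zero_le
  have hunif : ∀ n : ℕ, ∀ η : ℝ≥0∞, η ≠ 0 → ∃ m, n < m ∧ ∀ t ∉ z.A,
      𝔅.AE b (fun x => l x (full 𝔅 𝒯 z.A t n m x) ≤ η) := by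
    intro n η hη
    obtain ⟨m, hm, hu⟩ := z.unif n (η / (c + 1)) (div_ne hc hη)
    refine ⟨m, hm, fun t ht => ?_⟩
    refine AE.mono (AE.and hd (AE.mono_left (hu t ht) hbz)) ?_
    rintro x ⟨e1, e2⟩
    refine (le_mul e1 _).trans (le_trans ?_ (mul_div_le hc))
    exact mul_le_mul_right e2 c
  let z' : LCond 𝔅 𝒯 := ⟨b, hb, z.A, z.cnt, z.low, l, h1, hpos, hs, hinj, hunif⟩
  refine ⟨z', rfl, rfl, rfl, hbz, subset_rfl, ⟨c, hc, ?_⟩, thin_same rfl⟩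
  refine AE.mono hd fun x hx => ?_
  change (l x).map (rho z.A) ≤ c • z.l x
  rw [map_rho (hs x)]
  exact hx

/-- restriction to a smaller base part -/
def restr (z : LCond 𝔅 𝒯) (b : B) (hb : b ≠ ⊥) (hbz : b ≤ z.b) : LCond 𝔅 𝒯 where
  b := b
  ne := hb
  A := z.A
  cnt := z.cnt
  low := z.low
  l := z.l
  le_one := z.le_one
  pos := by
    obtain ⟨c, hc, h⟩ := z.pos
    exact ⟨c, hc, AE.mono_left h hbz⟩
  sup := z.sup
  inj := by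
    intro s hs t ht
    exact AE.mono_left (z.inj s hs t ht) hbz
  unif := by
    intro n η hη
    obtain ⟨m, hm, h⟩ := z.unif n η hη
    exact ⟨m, hm, fun t ht => AE.mono_left (h t ht) hbz⟩

theorem restr_le (z : LCond 𝔅 𝒯) (b : B) (hb : b ≠ ⊥) (hbz : b ≤ z.b) : restr z b hb hbz ≤ z := by
  refine ⟨hbz, subset_rfl, ⟨1, ENNReal.one_ne_top, AE.of_all fun x => ?_⟩, thin_same rfl⟩
  change (z.l x).map (rho z.A) ≤ (1 : ℝ≥0∞) • z.l x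
  rw [map_rho (z.sup x), one_smul]

theorem restr_mono {z' z : LCond 𝔅 𝒯} (h : z' ≤ z) (b : B) (hb : b ≠ ⊥) (hbz : b ≤ z'.b) (hbz' : b ≤ z.b) :
    restr z' b hb hbz ≤ restr z b hb hbz' := by
  obtain ⟨_, hA, ⟨c, hc, hd⟩, ht⟩ := h
  refine ⟨le_rfl, hA, ⟨c, hc, AE.mono_left hd hbz⟩, ?_⟩
  intro k η hη
  obtain ⟨a, ha, hu⟩ := ht k η hη
  exact ⟨a, ha, fun t ht => AE.mono_left (hu t ht) hbz⟩

theorem restr_restr (z : LCond 𝔅 𝒯) (b b' : B) (hb : b ≠ ⊥) (hbz : b ≤ z.b) (hb' : b' ≠ ⊥) (hbb : b' ≤ b) :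
    restr (restr z b hb hbz) b' hb' hbb = restr z b' hb' (hbb.trans hbz) := rfl

theorem restr_self (z : LCond 𝔅 𝒯) : restr z z.b z.ne le_rfl = z := rfl

theorem le_restr {z' z : LCond 𝔅 𝒯} (h : z' ≤ z) (b : B) (hb : b ≠ ⊥) (hbz : b ≤ z.b) (hz' : z'.b ≤ b) :
    z' ≤ restr z b hb hbz :=
  ⟨hz', h.2.1, h.2.2.1, h.2.2.2⟩

theorem le_of_le {p q r : LCond 𝔅 𝒯} (h : q ≤ p) (hb : r.b ≤ q.b) (hA : r.A = q.A)
    (hd : ∃ c : ℝ≥0∞, c ≠ ⊤ ∧ 𝔅.AE r.b (fun x => r.l x ≤ c • q.l x)) : r ≤ p := by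
  refine le_trans (b := q) ?_ h
  obtain ⟨c, hc, hd⟩ := hd
  refine ⟨hb, hA.symm.subset, ⟨c, hc, AE.mono hd fun x hx => ?_⟩, thin_same hA⟩
  rw [← hA, map_rho (r.sup x)]
  exact hx

/-- open, and dense below `z` -/
def OD (z : LCond 𝔅 𝒯) (D : Set (LCond 𝔅 𝒯)) : Prop :=
  (∀ q ∈ D, ∀ q', q' ≤ q → q' ∈ D) ∧ ∀ q, q ≤ z → ∃ q', q' ≤ q ∧ q' ∈ D

/-- `r` is an extension of `z` which is controlled with the parameters `K, η, ε`. -/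
def Ctrl (z r : LCond 𝔅 𝒯) (K : ℕ) (η ε : ℝ≥0∞) : Prop :=
  r ≤ z ∧ 𝔅.AE r.b (fun x => (r.l x).map (rho z.A) ≤ z.l x) ∧
    𝔅.AE r.b (fun x => z.l x univ ≤ r.l x univ + ε) ∧
    ∀ t ∉ r.A, 𝔅.AE r.b (fun x => r.l x (hitB 𝔅 𝒯 (r.A \ z.A) t K x) ≤ η)

/-- `r ≤ z` is a finite sum of pieces in `D`, with marginal at most `z.l` and loss at most `ε`. -/
def Fine (D : Set (LCond 𝔅 𝒯)) (z r : LCond 𝔅 𝒯) (ε : ℝ≥0∞) : Prop :=
  r ≤ z ∧ (∃ (ι : Type) (_ : Fintype ι) (q : ι → LCond 𝔅 𝒯),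
    (∀ i, q i ∈ D ∧ (q i).b = r.b ∧ (q i).A = r.A ∧ q i ≤ z) ∧ 𝔅.AE r.b (fun x => r.l x = ∑ i, (q i).l x)) ∧
    𝔅.AE r.b (fun x => (r.l x).map (rho z.A) ≤ z.l x) ∧
    𝔅.AE r.b (fun x => z.l x univ ≤ r.l x univ + ε)

end Pool.Agent.Lib.BSR
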