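import Pool.Agent.Lib.BSR.LimK
import Pool.Agent.Lib.BSR.Ord

/-!
# Module BSR.FuseX: the fusion lemma over a base (L7)

Same proof as `Pool/Agent/Lib/BSP/Fuse.lean` (read it). Write `A n = (z n).A`, monotone; all base parts are `≥ b`.
`G = {x | x ∈ cl b ∧ ∀ n, (((z (n + 1)).l x).map (rho (A n)) ≤ (z n).l x ∧ (z n).l x univ ≤ (z (n + 1)).l x univ + ε n)}` is measurable (`measurable_ae` with `AE.all_nat`, `AE.and`). `μ n x = (z n).l x` for `x ∈ G` and `0` otherwise (`kernel_ite`). `limitK` gives `ν` with `(ν x).map (rho (A n)) ≤ μ n x`,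
`μ n x univ ≤ ν x univ + ∑' i, ε (i + n)`, `ν x` vanishing off `Aω = ⋃ n, A n`. For almost all `x` in `b`, `μ n x = (z n).l x` for all `n`. The condition `q = (b, Aω, ν)`:
* `le_one`: `map_rho_univ` and `μ 0 x univ ≤ 1`. `pos`: `c₀ - ∑' n, ε n ≠ 0` is a lower bound almost everywhere in `b`.
* `inj`: `s, t ∈ Aω` are in a common `A n`; for almost all `x` in `b`: if `R x s t` then `ν x {f | f s = f t} ≤ (z n).l x {f | f s = f t} = 0` (`meas_le_of_map` or `le_mul_of_dom` with `c = 1`).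
* tail estimate: for `t ∉ Aω`, for almost all `x` in `b` (`AE.all_nat`), for all `n`, `K ≤ m (n + 1)`: `hitB (Aω \ A n) t K x ⊆ ⋃ i, hitB (A (i + n + 1) \ A (i + n)) t (m (i + n + 1)) x`, so `ν x (hitB (Aω \ A n) t K x) ≤ ∑' i, ε (i + n)`, and `∑' i, ε (i + n) → 0` (`ENNReal.tendsto_sum_nat_add`).
* `unif`: given `n₀, η` take `n ≥ n₀` with `δ n + ∑' i, ε (i + n) ≤ η` (`n₀ ≤ m n`); `full Aω t n₀ (m (n + 1)) x ⊆ full (A n) t (m n) (m (n + 1)) x ∪ hitB (Aω \ A n) t (m (n + 1)) x`.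
* `q ≤ z n`: `Dom` with `c = 1`; `Thin`: given `k, η` take `j ≥ n, k` with `∑' i, ε (i + j) ≤ η / 2`, and `a` from `z j ≤ z n` for `k`, `η / 2`; `hit (Aω \ A n) t k x ⊆ hit (A j \ A n) t k x ∪ hitB (Aω \ A j) t (m (j + 1)) x` (`k < m (j + 1)`).
-/

set_option autoImplicit false

open Set MeasureTheory Filter Topology
open scoped ENNReal

namespace Pool.Agent.Lib.BSR

universe u

open Pool.Agent.Lib.BSP (rho measurable_rho rho_mem rho_not rho_rho map_rho map_rho_map map_rho_sup map_rho_univ meas_le_of_map)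

open ProbabilityTheory (Kernel)

variable {B X T : Type u} [CompleteBooleanAlgebra B] [MeasurableSpace X] {𝔅 : Base B X} {𝒯 : Tree B T}

namespace FuseXAux

lemma full_sub {A C : Set T} {t : T} {n m : ℕ} {x : X} :
    full 𝔅 𝒯 C t n m x ⊆ full 𝔅 𝒯 A t n m x ∪ hitB 𝔅 𝒯 (C \ A) t m x := by
  intro f hf
  by_cases h : f ∈ hitB 𝔅 𝒯 (C \ A) t m x
  · exact Or.inr h
  · left
    intro k hk1 hk2
    obtain ⟨s, hs, hst, hfs⟩ := hf k hk1 hk2
    refine ⟨s, ?_, hst, hfs⟩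
    by_contra hsA
    exact h ⟨s, ⟨hs, hsA⟩, hst, by rw [hfs]; exact hk2⟩

lemma hit_sub {A C D : Set T} {t : T} {k : ℕ} {x : X} :
    hit 𝔅 𝒯 (D \ A) t k x ⊆ hit 𝔅 𝒯 (C \ A) t k x ∪ hit 𝔅 𝒯 (D \ C) t k x := by
  rintro f ⟨s, ⟨hsC, hsA⟩, hst, hfs⟩
  by_cases h : s ∈ C
  · exact Or.inl ⟨s, ⟨h, hsA⟩, hst, hfs⟩
  · exact Or.inr ⟨s, ⟨hsC, h⟩, hst, hfs⟩

lemma tail_sub {A : ℕ → Set T} (hm : Monotone A) {m : ℕ → ℕ} (hmm : StrictMono m) {t : T}
    {n K : ℕ} (hK : K ≤ m (n + 1)) {x : X} :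
    hitB 𝔅 𝒯 ((⋃ i, A i) \ A n) t K x ⊆
      ⋃ i, hitB 𝔅 𝒯 (A (i + n + 1) \ A (i + n)) t (m (i + n + 1)) x := by
  classical
  rintro f ⟨s, ⟨hs, hsn⟩, hst, hfs⟩
  have hex : ∃ i, s ∈ A i := mem_iUnion.1 hs
  have hi : s ∈ A (Nat.find hex) := Nat.find_spec hex
  have hlt : n < Nat.find hex := by
    by_contra hcon
    exact hsn (hm (not_lt.1 hcon) hi)
  obtain ⟨d, hd⟩ := Nat.exists_eq_add_of_lt hlt
  have hd' : Nat.find hex = d + n + 1 := by omega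
  have hnot : s ∉ A (d + n) := Nat.find_min hex (by omega)
  refine mem_iUnion.2 ⟨d, s, ⟨by rw [← hd']; exact hi, hnot⟩, hst, ?_⟩
  exact lt_of_lt_of_le (lt_of_lt_of_le hfs hK) (hmm.monotone (by omega))

end FuseXAux

open Classical FuseXAux in
theorem fuse (z : ℕ → LCond 𝔅 𝒯) (b : B) (hb : b ≠ ⊥) (hbz : ∀ n, b ≤ (z n).b) (h1 : ∀ n, z (n + 1) ≤ z n)
    (m : ℕ → ℕ) (h2 : ∀ n, m n < m (n + 1)) (δ ε : ℕ → ℝ≥0∞) (hδ : Tendsto δ atTop (𝓝 0)) (c₀ : ℝ≥0∞)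
    (hc : ∑' n, ε n < c₀) (hc₀ : 𝔅.AE b (fun x => c₀ ≤ (z 0).l x univ))
    (h3 : ∀ n, ∀ t ∉ (z n).A, 𝔅.AE b (fun x => (z n).l x (full 𝔅 𝒯 (z n).A t (m n) (m (n + 1)) x) ≤ δ n))
    (h4 : ∀ n, 𝔅.AE b (fun x => ((z (n + 1)).l x).map (rho (z n).A) ≤ (z n).l x))
    (h5 : ∀ n, 𝔅.AE b (fun x => (z n).l x univ ≤ (z (n + 1)).l x univ + ε n))
    (h6 : ∀ n, ∀ t ∉ (z (n + 1)).A, 𝔅.AE b (fun x =>
      (z (n + 1)).l x (hitB 𝔅 𝒯 ((z (n + 1)).A \ (z n).A) t (m (n + 1)) x) ≤ ε n)) :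
    ∃ q : LCond 𝔅 𝒯, q.b = b ∧ ∀ n, q ≤ z n := by
  have hstep : ∀ n, (z n).A ⊆ (z (n + 1)).A := fun n => (le_def.1 (h1 n)).2.1
  have hm : Monotone (fun n => (z n).A) := monotone_nat_of_le_succ hstep
  have hmm : StrictMono m := strictMono_nat_of_lt_succ h2
  have hanti : Antitone z := antitone_nat_of_succ_le h1
  have hc' : ∑' n, ε n ≠ ⊤ := (hc.trans_le le_top).ne
  have hae : 𝔅.AE b (fun x => ∀ n, ((z (n + 1)).l x).map (rho (z n).A) ≤ (z n).l x ∧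
      (z n).l x univ ≤ (z (n + 1)).l x univ + ε n) :=
    AE.all_nat fun n => AE.and (h4 n) (h5 n)
  obtain ⟨G, hGdef⟩ : ∃ G : Set X, G = {x | x ∈ 𝔅.cl b ∧ ∀ n,
      ((z (n + 1)).l x).map (rho (z n).A) ≤ (z n).l x ∧
      (z n).l x univ ≤ (z (n + 1)).l x univ + ε n} := ⟨_, rfl⟩
  have hGm : MeasurableSet G := by
    rw [hGdef]
    exact measurable_ae hae
  have hGae : 𝔅.AE b (fun x => x ∈ G) := by
    rw [hGdef]
    exact AE.and (AE.mem b) hae
  have hG2 : ∀ x ∈ G, ∀ n, ((z (n + 1)).l x).map (rho (z n).A) ≤ (z n).l x ∧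
      (z n).l x univ ≤ (z (n + 1)).l x univ + ε n := by
    intro x hx
    rw [hGdef] at hx
    exact hx.2
  have hker : ∀ n, ∃ κ : Kernel X (T → ℕ), ∀ x, κ x = if x ∈ G then (z n).l x else 0 := by
    intro n
    obtain ⟨κ, hκ⟩ := kernel_ite (z n).l (0 : Kernel X (T → ℕ)) hGm
    exact ⟨κ, fun x => by rw [hκ x]; rfl⟩
  choose μ hμ using hker
  have hμG : ∀ n, ∀ x ∈ G, μ n x = (z n).l x := fun n x hx => by rw [hμ n x, if_pos hx]
  have hμ0 : ∀ n x, x ∉ G → μ n x = 0 := fun n x hx => by rw [hμ n x, if_neg hx]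
  have hμ1 : ∀ n x, μ n x univ ≤ 1 := by
    intro n x
    by_cases hx : x ∈ G
    · rw [hμG n x hx]
      exact (z n).le_one x
    · rw [hμ0 n x hx]
      simp
  obtain ⟨ν, hν1, hν2, hν3⟩ := limitK (fun n => (z n).A) (fun n => (z n).cnt) hm μ hμ1
    (by
      intro n x t ht
      by_cases hx : x ∈ G
      · rw [hμG n x hx]
        exact (z n).sup x t ht
      · rw [hμ0 n x hx]
        simp)
    (by
      intro n x
      by_cases hx : x ∈ G
      · rw [hμG n x hx, hμG (n + 1) x hx]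
        exact (hG2 x hx n).1
      · rw [hμ0 n x hx, hμ0 (n + 1) x hx, Measure.map_zero])
    ε
    (by
      intro n x
      by_cases hx : x ∈ G
      · rw [hμG n x hx, hμG (n + 1) x hx]
        exact (hG2 x hx n).2
      · rw [hμ0 n x hx, hμ0 (n + 1) x hx]
        simp)
  set C : Set T := ⋃ n, (z n).A with hC
  have hAC : ∀ n, (z n).A ⊆ C := fun n => subset_iUnion (fun n => (z n).A) n
  have hνG : ∀ n, ∀ x ∈ G, (ν x).map (rho (z n).A) ≤ (z n).l x := by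
    intro n x hx
    have h := hν1 n x
    rwa [hμG n x hx] at h
  have hνle : ∀ x, ν x univ ≤ 1 := by
    intro x
    have h := hν1 0 x univ
    rw [map_rho_univ] at h
    exact h.trans (hμ1 0 x)
  have htail : ∀ t ∉ C, ∀ n K, K ≤ m (n + 1) →
      𝔅.AE b (fun x => ν x (hitB 𝔅 𝒯 (C \ (z n).A) t K x) ≤ ∑' i, ε (i + n)) := by
    intro t ht n K hK
    refine AE.mono (AE.and hGae (AE.all_nat fun j => h6 j t fun h => ht (hAC _ h))) ?_
    rintro x ⟨hx, hx6⟩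
    refine (measure_mono (tail_sub hm hmm hK)).trans ?_
    refine (measure_iUnion_le _).trans ?_
    refine ENNReal.tsum_le_tsum fun i => ?_
    exact (meas_le_of_map (hνG (i + n + 1) x hx)
      (hitB_meas' 𝔅 𝒯 ((z (i + n + 1)).cnt.mono sdiff_subset) t _ x)
      (fun f => rho_hitB sdiff_subset f)).trans (hx6 (i + n))
  have htend : Tendsto (fun n => ∑' i, ε (i + n)) atTop (𝓝 0) := ENNReal.tendsto_sum_nat_add ε hc'
  have hsum : Tendsto (fun n => δ n + ∑' i, ε (i + n)) atTop (𝓝 0) := by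
    simpa using hδ.add htend
  obtain ⟨q, hqb, hqA, hql⟩ : ∃ q : LCond 𝔅 𝒯, q.b = b ∧ q.A = C ∧ q.l = ν := by
    refine ⟨{ b := b, ne := hb, A := C, cnt := countable_iUnion fun n => (z n).cnt,
              low := ?_, l := ν, le_one := hνle, pos := ?_, sup := hν3, inj := ?_,
              unif := ?_ }, rfl, rfl, rfl⟩
    · intro t ht
      obtain ⟨i, hi⟩ := mem_iUnion.1 ht
      exact ((z i).low t hi).trans (hAC i)
    · refine ⟨c₀ - ∑' n, ε n, (tsub_pos_of_lt hc).ne', ?_⟩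
      refine AE.mono (AE.and hGae hc₀) ?_
      rintro x ⟨hx, hx0⟩
      have h := hν2 0 x
      rw [hμG 0 x hx] at h
      rw [tsub_le_iff_right]
      refine hx0.trans (h.trans (le_of_eq ?_))
      simp
    · intro s hs t ht
      obtain ⟨i, hi⟩ := mem_iUnion.1 hs
      obtain ⟨j, hj⟩ := mem_iUnion.1 ht
      have hsn : s ∈ (z (max i j)).A := hm (le_max_left i j) hi
      have htn : t ∈ (z (max i j)).A := hm (le_max_right i j) hj
      refine AE.mono (AE.and hGae (AE.mono_left ((z (max i j)).inj s hsn t htn)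
        (hbz (max i j)))) ?_
      rintro x ⟨hx, hxi⟩ hR
      have h := meas_le_of_map (hνG (max i j) x hx) (E := {f : T → ℕ | f s = f t})
        (Pool.Agent.Lib.BSP.measurableSet_eq s t) (fun f => by
          simp only [mem_ofPred_eq, rho_mem hsn, rho_mem htn])
      rw [hxi hR] at h
      exact le_antisymm h zero_le
    · intro n₀ η hη
      have hev : ∀ᶠ n in atTop, δ n + ∑' i, ε (i + n) ≤ η :=
        ENNReal.tendsto_nhds_zero.1 hsum η (pos_iff_ne_zero.2 hη)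
      obtain ⟨n, hn1, hn2⟩ := (hev.and (eventually_ge_atTop n₀)).exists
      have hnm : n₀ ≤ m n := hn2.trans (hmm.le_apply)
      refine ⟨m (n + 1), lt_of_le_of_lt hnm (h2 n), ?_⟩
      intro t ht
      have htn : t ∉ (z n).A := fun h => ht (hAC n h)
      refine AE.mono (AE.and hGae (AE.and (h3 n t htn) (htail t ht n _ le_rfl))) ?_
      rintro x ⟨hx, hx3, hx4⟩
      have e1 : ν x (full 𝔅 𝒯 (z n).A t (m n) (m (n + 1)) x) ≤ δ n :=
        (meas_le_of_map (hνG n x hx) (full_meas' 𝔅 𝒯 (z n).cnt t _ _ x)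
          (fun f => rho_full Subset.rfl f)).trans hx3
      calc ν x (full 𝔅 𝒯 C t n₀ (m (n + 1)) x)
          ≤ ν x (full 𝔅 𝒯 (z n).A t (m n) (m (n + 1)) x ∪
              hitB 𝔅 𝒯 (C \ (z n).A) t (m (n + 1)) x) :=
            measure_mono ((full_anti hnm le_rfl).trans full_sub)
        _ ≤ ν x (full 𝔅 𝒯 (z n).A t (m n) (m (n + 1)) x) +
              ν x (hitB 𝔅 𝒯 (C \ (z n).A) t (m (n + 1)) x) := measure_union_le _ _
        _ ≤ δ n + ∑' i, ε (i + n) := add_le_add e1 hx4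
        _ ≤ η := hn1
  refine ⟨q, hqb, fun n => ?_⟩
  refine le_def.2 ⟨hqb.le.trans (hbz n), by rw [hqA]; exact hAC n,
    ⟨1, ENNReal.one_ne_top, ?_⟩, ?_⟩
  · rw [hqb, hql]
    refine AE.mono hGae fun x hx => ?_
    rw [one_smul]
    exact hνG n x hx
  · intro k η hη
    have hη2 : η / 2 ≠ 0 := (ENNReal.half_pos hη).ne'
    have hev : ∀ᶠ j in atTop, ∑' i, ε (i + j) ≤ η / 2 :=
      ENNReal.tendsto_nhds_zero.1 htend (η / 2) (pos_iff_ne_zero.2 hη2)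
    obtain ⟨j, ⟨hj1, hj2⟩, hj3⟩ :=
      ((hev.and (eventually_ge_atTop n)).and (eventually_ge_atTop k)).exists
    have hkm : k < m (j + 1) := by
      have h := hmm.le_apply (x := j + 1)
      omega
    obtain ⟨a, ha1, ha2⟩ := (le_def.1 (hanti hj2)).2.2.2 k (η / 2) hη2
    refine ⟨a, fun s hs => ⟨by rw [hqA]; exact hAC j (ha1 s hs).1, (ha1 s hs).2⟩, ?_⟩
    intro t ht
    rw [hqA] at ht
    have htj : t ∉ (z j).A := fun h => ht (hAC j h)
    rw [hqb, hqA, hql]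
    refine AE.mono (AE.and hGae (AE.and (AE.mono_left (ha2 t htj) (hbz j))
      (htail t ht j _ le_rfl))) ?_
    rintro x ⟨hx, hx2, hx4⟩ hta
    have e1 : ν x (hit 𝔅 𝒯 ((z j).A \ (z n).A) t k x) ≤ η / 2 :=
      (meas_le_of_map (hνG j x hx) (hit_meas' 𝔅 𝒯 ((z j).cnt.mono sdiff_subset) t _ x)
        (fun f => rho_hit sdiff_subset f)).trans (hx2 hta)
    have e2 : ν x (hit 𝔅 𝒯 (C \ (z j).A) t k x) ≤ η / 2 :=
      (measure_mono (hit_sub_hitB hkm)).trans (hx4.trans hj1)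
    calc ν x (hit 𝔅 𝒯 (C \ (z n).A) t k x)
        ≤ ν x (hit 𝔅 𝒯 ((z j).A \ (z n).A) t k x ∪ hit 𝔅 𝒯 (C \ (z j).A) t k x) :=
          measure_mono hit_sub
      _ ≤ ν x (hit 𝔅 𝒯 ((z j).A \ (z n).A) t k x) + ν x (hit 𝔅 𝒯 (C \ (z j).A) t k x) :=
          measure_union_le _ _
      _ ≤ η / 2 + η / 2 := add_le_add e1 e2
      _ = η := ENNReal.add_halves η

end Pool.Agent.Lib.BSR
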