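import Pool.Agent.Lib.BSR.Ord

/-!
# Module BSR.Greedy: one step of the exhaustion

`greedy_step`. Proof. Write `w q x = (q.l x).map (rho z.A)`, a kernel in `x` (`Kernel.map`, `measurable_rho`), `(q.l x).map (rho z.A) univ = q.l x univ ≤ 1`.
Let `𝒬 j` be the set of the `q ∈ D`, `q ≤ z`, with `AE q.b (w q x ≤ r x)` and `AE q.b ((2 : ℝ≥0∞)⁻¹ ^ j ≤ q.l x univ)`; `𝒬 j ⊆ 𝒬 (j + 1)`. Call `𝒜 : Set (LCond 𝔅 𝒯)` disjoint if `q.b ⊓ q'.b = ⊥` for all `q ≠ q'` in `𝒜`. By Zorn (`zorn_subset_nonempty`) every disjoint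
`𝒜 ⊆ 𝒬 j` is contained in a maximal disjoint `𝒜' ⊆ 𝒬 j`. By recursion (start with `∅`) there are `𝒜 0 ⊆ 𝒜 1 ⊆ ...` with `𝒜 j` a maximal disjoint subset of `𝒬 j`. `𝒜ω = ⋃ j, 𝒜 j` is disjoint.
For `q ∈ 𝒜ω` the set `G q = {x | x ∈ cl q.b ∧ w q x ≤ r x}` is measurable (`measurable_ae`); let `κ q x = r x - w q x` for `x ∈ G q` and `r x` for the other `x`: a kernel, since for measurable `E` and `x ∈ G q`, `(r x - w q x) E = r x E - w q x E` (`Measure.sub_apply`, finite measures)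
(`kernel_mk`, `Measurable.ite`/`Measurable.piecewise`). Elements `q ≠ q'` of `𝒜ω` have `q.b ≠ q'.b` (`q.ne`). `kernel_glue` with the set of the `q.b`, `q ∈ 𝒜ω`, the kernels `κ q` and `κ₀ = r` gives `r'`: `r' x = κ q x` for `x ∈ cl q.b`, `q ∈ 𝒜ω`; `r' x = r x` otherwise.
* `r' x ≤ r x` (`Measure.sub_le`).
* second clause: if `b ⊓ q.b ≠ ⊥` for some `q ∈ 𝒜ω`: `b' = b ⊓ q.b`, `restr q b'` is in `D` (`hD`, `restr_le`), it is `≤ z`, and for almost all `x` in `b'`: `x ∈ G q`, `r x = r' x + w q x` (`Measure.sub_add_cancel_of_le`). If `b ⊓ q.b = ⊥` for all `q ∈ 𝒜ω` then `b' = b`: `r' x = r x` for all `x ∈ cl b` (`cl_disj`).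
* third clause: `q ∈ 𝒬 j`. Some `q' ∈ 𝒜 j` has `q.b ⊓ q'.b ≠ ⊥`: otherwise `𝒜 j ∪ {q}` is disjoint, so `q ∈ 𝒜 j`, and `q.b ⊓ q.b ≠ ⊥`. Let `b' = q.b ⊓ q'.b`; for almost all `x` in `b'`: `r x = r' x + w q' x` and `w q' x univ = q'.l x univ ≥ 2⁻¹ ^ j`.
-/

set_option autoImplicit false

open Set MeasureTheory Filter
open scoped ENNReal

namespace Pool.Agent.Lib.BSR

universe u

open Pool.Agent.Lib.BSP (rho measurable_rho rho_mem rho_not rho_rho map_rho map_rho_map map_rho_sup map_rho_univ meas_le_of_map)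

open ProbabilityTheory (Kernel)

variable {B X T : Type u} [CompleteBooleanAlgebra B] [MeasurableSpace X] {𝔅 : Base B X} {𝒯 : Tree B T}

namespace GreedyAux

/-- pairwise disjoint base parts -/
def Disj (𝒜 : Set (LCond 𝔅 𝒯)) : Prop := ∀ q ∈ 𝒜, ∀ q' ∈ 𝒜, q ≠ q' → q.b ⊓ q'.b = ⊥

theorem extend (𝒬 𝒜 : Set (LCond 𝔅 𝒯)) (hs : 𝒜 ⊆ 𝒬) (hd : Disj 𝒜) :
    ∃ 𝒜' : Set (LCond 𝔅 𝒯), 𝒜 ⊆ 𝒜' ∧ 𝒜' ⊆ 𝒬 ∧ Disj 𝒜' ∧ ∀ q ∈ 𝒬, ∃ q' ∈ 𝒜', q.b ⊓ q'.b ≠ ⊥ := by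
  obtain ⟨m, hm1, hm2⟩ := zorn_subset_nonempty {𝒜 : Set (LCond 𝔅 𝒯) | 𝒜 ⊆ 𝒬 ∧ Disj 𝒜} (by
    intro c hc hchain hne
    refine ⟨⋃₀ c, ⟨?_, ?_⟩, fun s hs => subset_sUnion_of_mem hs⟩
    · exact sUnion_subset fun s hs => (hc hs).1
    · rintro q ⟨s, hs, hq⟩ q' ⟨s', hs', hq'⟩ hne'
      rcases hchain.total hs hs' with h | h
      · exact (hc hs').2 q (h hq) q' hq' hne'
      · exact (hc hs).2 q hq q' (h hq') hne') 𝒜 ⟨hs, hd⟩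
  refine ⟨m, hm1, hm2.prop.1, hm2.prop.2, ?_⟩
  intro q hq
  by_contra hno
  push Not at hno
  have hin : insert q m ∈ {𝒜 : Set (LCond 𝔅 𝒯) | 𝒜 ⊆ 𝒬 ∧ Disj 𝒜} := by
    refine ⟨insert_subset hq hm2.prop.1, ?_⟩
    rintro x (rfl | hx) y (rfl | hy) hxy
    · exact absurd rfl hxy
    · exact hno y hy
    · rw [inf_comm]
      exact hno x hx
    · exact hm2.prop.2 x hx y hy hxy
  have hmem : q ∈ m := hm2.le_of_ge hin (subset_insert q m) (mem_insert q m)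
  have := hno q hmem
  rw [inf_idem] at this
  exact q.ne this

theorem sub_kernel (z q : LCond 𝔅 𝒯) (r : Kernel X (T → ℕ)) {G : Set X} (hG : MeasurableSet G)
    (hle : ∀ x ∈ G, (q.l x).map (rho z.A) ≤ r x) : ∃ κ : Kernel X (T → ℕ),
      (∀ x ∈ G, κ x = r x - (q.l x).map (rho z.A)) ∧ ∀ x ∉ G, κ x = r x := by
  classical
  obtain ⟨κ, hκ⟩ := kernel_mk (X := X) (Y := T → ℕ)
    (fun x => if x ∈ G then r x - (q.l x).map (rho z.A) else r x) (by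
    intro E hE
    have e : (fun x => (if x ∈ G then r x - (q.l x).map (rho z.A) else r x) E) =
        fun x => if x ∈ G then r x E - q.l x (rho z.A ⁻¹' E) else r x E := by
      funext x
      by_cases hx : x ∈ G
      · rw [if_pos hx, if_pos hx]
        haveI : IsFiniteMeasure ((q.l x).map (rho z.A)) := by
          refine ⟨?_⟩
          rw [map_rho_univ]
          exact lt_of_le_of_lt (q.le_one x) ENNReal.one_lt_top
        rw [Measure.sub_apply hE (hle x hx), Measure.map_apply (measurable_rho z.A) hE]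
      · rw [if_neg hx, if_neg hx]
    rw [e]
    refine Measurable.ite hG ?_ (r.measurable_coe hE)
    exact (r.measurable_coe hE).sub (q.l.measurable_coe (measurable_rho z.A hE)))
  refine ⟨κ, fun x hx => ?_, fun x hx => ?_⟩
  · rw [hκ x, if_pos hx]
  · rw [hκ x, if_neg hx]

theorem add_back (z q : LCond 𝔅 𝒯) (r : Kernel X (T → ℕ)) {x : X}
    (hle : (q.l x).map (rho z.A) ≤ r x) :
    r x = (r x - (q.l x).map (rho z.A)) + (q.l x).map (rho z.A) := by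
  haveI : IsFiniteMeasure ((q.l x).map (rho z.A)) := by
    refine ⟨?_⟩
    rw [map_rho_univ]
    exact lt_of_le_of_lt (q.le_one x) ENNReal.one_lt_top
  exact (Measure.sub_add_cancel_of_le hle).symm

end GreedyAux

open GreedyAux in
theorem greedy_step (z : LCond 𝔅 𝒯) {D : Set (LCond 𝔅 𝒯)} (hD : ∀ q ∈ D, ∀ q', q' ≤ q → q' ∈ D)
    (r : Kernel X (T → ℕ)) (h1 : ∀ x, r x univ ≤ 1) :
    ∃ r' : Kernel X (T → ℕ), (∀ x, r' x ≤ r x) ∧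
      (∀ b ≤ z.b, b ≠ ⊥ → ∃ b' ≤ b, b' ≠ ⊥ ∧ (𝔅.AE b' (fun x => r' x = r x) ∨
        ∃ q ∈ D, q ≤ z ∧ q.b = b' ∧ 𝔅.AE b' (fun x => r x = r' x + (q.l x).map (rho z.A)))) ∧
      ∀ j : ℕ, ∀ q ∈ D, q ≤ z → 𝔅.AE q.b (fun x => (q.l x).map (rho z.A) ≤ r x) →
        𝔅.AE q.b (fun x => (2 : ℝ≥0∞)⁻¹ ^ j ≤ q.l x univ) →
        ∃ b' ≤ q.b, b' ≠ ⊥ ∧ 𝔅.AE b' (fun x => r' x univ + (2 : ℝ≥0∞)⁻¹ ^ j ≤ r x univ) := by
  classical
  obtain ⟨Q, hQ⟩ : ∃ Q : ℕ → Set (LCond 𝔅 𝒯), Q = fun j => {q | q ∈ D ∧ q ≤ z ∧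
      𝔅.AE q.b (fun x => (q.l x).map (rho z.A) ≤ r x) ∧
      𝔅.AE q.b (fun x => (2 : ℝ≥0∞)⁻¹ ^ j ≤ q.l x univ)} := ⟨_, rfl⟩
  have hQm : ∀ j, Q j ⊆ Q (j + 1) := by
    intro j q hq
    rw [hQ] at hq ⊢
    obtain ⟨g1, g2, g3, g4⟩ := hq
    refine ⟨g1, g2, g3, AE.mono g4 ?_⟩
    intro x hx
    refine le_trans ?_ hx
    rw [pow_succ]
    exact mul_le_of_le_one_right' (ENNReal.inv_le_one.2 (by norm_num))
  have hF : ∀ (j : ℕ) (𝒜 : Set (LCond 𝔅 𝒯)), ∃ 𝒜' : Set (LCond 𝔅 𝒯), 𝒜 ⊆ Q j ∧ Disj 𝒜 →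
      𝒜 ⊆ 𝒜' ∧ 𝒜' ⊆ Q j ∧ Disj 𝒜' ∧ ∀ q ∈ Q j, ∃ q' ∈ 𝒜', q.b ⊓ q'.b ≠ ⊥ := by
    intro j 𝒜
    by_cases h : 𝒜 ⊆ Q j ∧ Disj 𝒜
    · obtain ⟨𝒜', h'⟩ := extend (Q j) 𝒜 h.1 h.2
      exact ⟨𝒜', fun _ => h'⟩
    · exact ⟨∅, fun h' => absurd h' h⟩
  choose F hF using hF
  obtain ⟨S, hS⟩ : ∃ S : ℕ → Set (LCond 𝔅 𝒯), S = fun j => Nat.rec (F 0 ∅)
      (fun j A => F (j + 1) A) j := ⟨_, rfl⟩
  have hS0 : S 0 = F 0 ∅ := by
    subst hS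
    rfl
  have hSs : ∀ j, S (j + 1) = F (j + 1) (S j) := by
    intro j
    subst hS
    rfl
  have hprop : ∀ j, S j ⊆ Q j ∧ Disj (S j) ∧ ∀ q ∈ Q j, ∃ q' ∈ S j, q.b ⊓ q'.b ≠ ⊥ := by
    intro j
    induction j with
    | zero =>
      rw [hS0]
      exact (hF 0 ∅ ⟨empty_subset _, fun q hq => absurd hq (notMem_empty q)⟩).2
    | succ j ih =>
      rw [hSs]
      exact (hF (j + 1) (S j) ⟨ih.1.trans (hQm j), ih.2.1⟩).2
  have hstep : ∀ j, S j ⊆ S (j + 1) := by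
    intro j
    rw [hSs]
    exact (hF (j + 1) (S j) ⟨(hprop j).1.trans (hQm j), (hprop j).2.1⟩).1
  have hmono : Monotone S := monotone_nat_of_le_succ hstep
  obtain ⟨W, hW⟩ : ∃ W : Set (LCond 𝔅 𝒯), W = ⋃ j, S j := ⟨_, rfl⟩
  have hWd : Disj W := by
    intro q hq q' hq' hne
    rw [hW, mem_iUnion] at hq hq'
    obtain ⟨i, hi⟩ := hq
    obtain ⟨j, hj⟩ := hq'
    exact (hprop (max i j)).2.1 q (hmono (le_max_left i j) hi) q' (hmono (le_max_right i j) hj) hne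
  have hWQ : ∀ q ∈ W, q ∈ D ∧ q ≤ z ∧ 𝔅.AE q.b (fun x => (q.l x).map (rho z.A) ≤ r x) := by
    intro q hq
    rw [hW, mem_iUnion] at hq
    obtain ⟨i, hi⟩ := hq
    have h := (hprop i).1 hi
    rw [hQ] at h
    exact ⟨h.1, h.2.1, h.2.2.1⟩
  have hinj : ∀ q ∈ W, ∀ q' ∈ W, q.b = q'.b → q = q' := by
    intro q hq q' hq' he
    by_contra hne
    have h := hWd q hq q' hq' hne
    rw [← he, inf_idem] at h
    exact q.ne h
  have hker : ∀ q : LCond 𝔅 𝒯, ∃ κ : Kernel X (T → ℕ), q ∈ W →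
      (∀ x ∈ 𝔅.cl q.b, (q.l x).map (rho z.A) ≤ r x → κ x = r x - (q.l x).map (rho z.A)) ∧
      (∀ x, κ x ≤ r x) := by
    intro q
    by_cases hq : q ∈ W
    · obtain ⟨κ, k1, k2⟩ := sub_kernel z q r (measurable_ae (hWQ q hq).2.2) (fun x hx => hx.2)
      refine ⟨κ, fun _ => ⟨fun x hx hx' => k1 x ⟨hx, hx'⟩, fun x => ?_⟩⟩
      by_cases hx : x ∈ {x | x ∈ 𝔅.cl q.b ∧ (q.l x).map (rho z.A) ≤ r x}
      · rw [k1 x hx]
        exact Measure.sub_le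
      · rw [k2 x hx]
    · exact ⟨r, fun h => absurd h hq⟩
  choose κ hκ using hker
  obtain ⟨pick, hpick⟩ : ∃ pick : B → LCond 𝔅 𝒯, ∀ q ∈ W, pick q.b = q := by
    refine ⟨fun b => if h : ∃ q ∈ W, q.b = b then h.choose else z, ?_⟩
    intro q hq
    have h : ∃ q' ∈ W, q'.b = q.b := ⟨q, hq, rfl⟩
    simp only [dif_pos h]
    exact hinj _ h.choose_spec.1 q hq h.choose_spec.2
  obtain ⟨r', hr1, hr2⟩ := kernel_glue 𝔅 ((fun q : LCond 𝔅 𝒯 => q.b) '' W) (by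
    rintro a ⟨q, hq, rfl⟩ b ⟨q', hq', rfl⟩ hne
    exact hWd q hq q' hq' (fun h => hne (by rw [h]))) (fun b => κ (pick b)) r
  have hr1' : ∀ q ∈ W, ∀ x ∈ 𝔅.cl q.b, r' x = κ q x := by
    intro q hq x hx
    have h := hr1 q.b ⟨q, hq, rfl⟩ x hx
    simp only [hpick q hq] at h
    exact h
  have hadd : ∀ q ∈ W, ∀ x ∈ 𝔅.cl q.b, (q.l x).map (rho z.A) ≤ r x →
      r x = r' x + (q.l x).map (rho z.A) := by
    intro q hq x hx hle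
    rw [hr1' q hq x hx, (hκ q hq).1 x hx hle]
    exact add_back z q r hle
  refine ⟨r', ?_, ?_, ?_⟩
  · intro x
    by_cases h : ∃ q ∈ W, x ∈ 𝔅.cl q.b
    · obtain ⟨q, hq, hx⟩ := h
      rw [hr1' q hq x hx]
      exact (hκ q hq).2 x
    · push Not at h
      rw [hr2 x (by
        rintro a ⟨q, hq, rfl⟩
        exact h q hq)]
  · intro b hbz hb
    by_cases h : ∃ q ∈ W, b ⊓ q.b ≠ ⊥
    · obtain ⟨q, hq, hne⟩ := h
      refine ⟨b ⊓ q.b, inf_le_left, hne, Or.inr ⟨restr q (b ⊓ q.b) hne inf_le_right, ?_, ?_, rfl, ?_⟩⟩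
      · exact hD q (hWQ q hq).1 _ (restr_le q _ hne inf_le_right)
      · exact (restr_le q _ hne inf_le_right).trans (hWQ q hq).2.1
      · have h1 := AE.mono_left (hWQ q hq).2.2 (inf_le_right : b ⊓ q.b ≤ q.b)
        refine AE.mp (AE.mem (𝔅 := 𝔅) (b ⊓ q.b)) (AE.mono h1 ?_)
        intro x hx hxm
        exact hadd q hq x (𝔅.cl_mono inf_le_right hxm) hx
    · push Not at h
      refine ⟨b, le_rfl, hb, Or.inl (AE.of_mem ?_)⟩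
      intro x hx
      apply hr2 x
      rintro a ⟨q, hq, rfl⟩ hxa
      exact (Set.disjoint_left.1 (𝔅.cl_disj (h q hq))) hx hxa
  · intro j q hqD hqz hw hu
    have hqQ : q ∈ Q j := by
      rw [hQ]
      exact ⟨hqD, hqz, hw, hu⟩
    obtain ⟨q', hq', hne⟩ := (hprop j).2.2 q hqQ
    have hqW : q' ∈ W := by
      rw [hW]
      exact mem_iUnion_of_mem j hq'
    refine ⟨q.b ⊓ q'.b, inf_le_left, hne, ?_⟩
    have h1 := AE.mono_left (hWQ q' hqW).2.2 (inf_le_right : q.b ⊓ q'.b ≤ q'.b)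
    have h2 : 𝔅.AE q'.b (fun x => (2 : ℝ≥0∞)⁻¹ ^ j ≤ q'.l x univ) := by
      have h := (hprop j).1 hq'
      rw [hQ] at h
      exact h.2.2.2
    have h3 := AE.mono_left h2 (inf_le_right : q.b ⊓ q'.b ≤ q'.b)
    refine AE.mp (AE.mem (𝔅 := 𝔅) (q.b ⊓ q'.b)) (AE.mono (AE.and h1 h3) ?_)
    rintro x ⟨hx1, hx2⟩ hxm
    have h4 := hadd q' hqW x (𝔅.cl_mono inf_le_right hxm) hx1
    have h5 : r x univ = r' x univ + q'.l x univ := by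
      conv_lhs => rw [h4]
      rw [Measure.add_apply, map_rho_univ]
    rw [h5]
    gcongr

end Pool.Agent.Lib.BSR
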