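import Pool.Agent.Lib.BSR.InfK
import Pool.Agent.Lib.BSP.Limit

/-!
# Module BSR.LimK: the limit kernel on `T → ℕ`

`limitK`. Proof. All `μ n x` are finite, `μ (n + k) x` has `(μ (n + k) x).map (rho (A n)) ≤ (μ n x)` (as in `BSP.LimitXAux.map_le`). Fix `n`; `r k x = (μ (n + k) x).map (rho (A n))` is a decreasing sequence of kernels
(`(μ (n + k + 1) x).map (rho (A n)) = ((μ (n + k + 1) x).map (rho (A (n + k)))).map (rho (A n)) ≤ ..`, `map_rho_map`, `Measure.map_mono`; `Kernel.map`). Let `lam n` be its infimum (`exists_inf`): `lam n x E = ⨅ k, (μ (n + k) x).map (rho (A n)) E`.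
* `(lam (n + 1) x).map (rho (A n)) = lam n x`: for measurable `E`, `lam (n + 1) x (rho (A n) ⁻¹' E) = ⨅ k, (μ (n + 1 + k) x) (rho (A (n + 1)) ⁻¹' (rho (A n) ⁻¹' E)) = ⨅ k, (μ (n + (k + 1)) x) (rho (A n) ⁻¹' E)`, which is the infimum of a decreasing sequence without
  its first term (`iInf_nat_add`-like or `le_antisymm` with `Antitone`). So all `lam n x` have the same mass, `lam n x univ = ⨅ k, μ (n + k) x univ`.
* for each `x`, `BSP.limit` for `A`, `lam n x`, `ε = 0` gives `ν x` with `(ν x).map (rho (A n)) ≤ lam n x`, `lam 0 x univ ≤ ν x univ`, `ν x` vanishing off `U = ⋃ n, A n`. Equal finite masses: `(ν x).map (rho (A n)) = lam n x` (two finite measures `m ≤ m'` with the same mass agree: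
  `m' E + m' Eᶜ = m E + m Eᶜ`).
* measurability of `x ↦ ν x E` for measurable `E`: `Measurable.measure_of_isPiSystem` (or a name like this; `IsFiniteMeasure (ν x)`) for the π-system of the measurable cylinders (`isPiSystem_measurableCylinders`, `generateFrom_measurableCylinders`). For a cylinder `E = cylinder F S`
  (`F` finite) take `n` with `F ∩ U ⊆ A n`; for `ν x`-almost all `f` (`f t = 0` for `t ∈ F \ U`) `f ∈ E ↔ rho (A n) f ∈ E`, so `ν x E = lam n x E`, a measurable function of `x`. `kernel_mk` gives the kernel `ν`.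
* `lam n x ≤ (μ n x).map (rho (A n)) = μ n x` (`k = 0`, `map_rho`). Mass: for all `k`: `μ n x univ ≤ μ (n + k) x univ + ∑ i ∈ range k, ε (n + i)` by induction, so `μ n x univ - ∑' i, ε (i + n) ≤ ⨅ k, μ (n + k) x univ = ν x univ`.
-/

set_option autoImplicit false

open Set MeasureTheory Filter
open scoped ENNReal

namespace Pool.Agent.Lib.BSR

universe u

open Pool.Agent.Lib.BSP (rho measurable_rho rho_mem rho_not rho_rho map_rho map_rho_map map_rho_sup map_rho_univ meas_le_of_map)

open ProbabilityTheory (Kernel)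

variable {X T : Type u} [MeasurableSpace X]

theorem limitK (A : ℕ → Set T) (hA : ∀ n, (A n).Countable) (hm : Monotone A) (μ : ℕ → Kernel X (T → ℕ))
    (h1 : ∀ n x, μ n x univ ≤ 1) (hs : ∀ n x, ∀ t ∉ A n, μ n x {f | f t ≠ 0} = 0)
    (hle : ∀ n x, (μ (n + 1) x).map (rho (A n)) ≤ μ n x) (ε : ℕ → ℝ≥0∞)
    (hε : ∀ n x, μ n x univ ≤ μ (n + 1) x univ + ε n) :
    ∃ ν : Kernel X (T → ℕ), (∀ n x, (ν x).map (rho (A n)) ≤ μ n x) ∧
      (∀ n x, μ n x univ ≤ ν x univ + ∑' i, ε (i + n)) ∧ ∀ x, ∀ t ∉ ⋃ n, A n, ν x {f | f t ≠ 0} = 0 := by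
  classical
  have hk : ∀ n k, ∃ r : Kernel X (T → ℕ), ∀ x, r x = (μ (n + k) x).map (rho (A n)) := by
    intro n k
    exact ⟨(μ (n + k)).map (rho (A n)), fun x => Kernel.map_apply _ (measurable_rho _) x⟩
  choose r hr using hk
  have hdec : ∀ n k x, r n (k + 1) x ≤ r n k x := by
    intro n k x
    rw [hr, hr]
    have e1 : (μ (n + (k + 1)) x).map (rho (A n)) =
        ((μ (n + k + 1) x).map (rho (A (n + k)))).map (rho (A n)) := by
      rw [map_rho_map (hm (Nat.le_add_right n k))]
      rfl
    rw [e1]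
    exact Measure.map_mono (hle (n + k) x) (measurable_rho _)
  have hinf : ∀ n, ∃ s : Kernel X (T → ℕ), (∀ k x, s x ≤ r n k x) ∧
      ∀ x E, MeasurableSet E → s x E = ⨅ k, r n k x E := by
    intro n
    refine exists_inf (r n) (fun x => ?_) (hdec n)
    rw [hr, map_rho_univ]
    exact h1 _ x
  choose lam hlam1 hlam2 using hinf
  have hcomp : ∀ n x, (lam (n + 1) x).map (rho (A n)) = lam n x := by
    intro n x
    ext E hE
    rw [Measure.map_apply (measurable_rho _) hE, hlam2 (n + 1) x _ (measurable_rho _ hE), hlam2 n x E hE]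
    have e : ∀ k, r (n + 1) k x (rho (A n) ⁻¹' E) = r n (k + 1) x E := by
      intro k
      have e1 : rho (A n) ∘ rho (A (n + 1)) = (rho (A n) : (T → ℕ) → T → ℕ) := by
        funext f
        exact rho_rho (hm (Nat.le_succ n)) f
      have e2 : n + 1 + k = n + (k + 1) := by omega
      rw [hr, hr, Measure.map_apply (measurable_rho _) (measurable_rho _ hE),
        Measure.map_apply (measurable_rho _) hE, ← preimage_comp, e1, e2]
    simp only [e]
    have hanti : Antitone (fun k => r n k x E) := antitone_nat_of_succ_le (fun k => hdec n k x E)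
    refine le_antisymm (le_iInf fun k => ?_) (le_iInf fun k => iInf_le _ (k + 1))
    exact (iInf_le _ k).trans (hanti (Nat.le_succ k))
  have hmass : ∀ n x, lam n x univ = lam 0 x univ := by
    intro n x
    induction n with
    | zero => rfl
    | succ n ih =>
      rw [← ih, ← hcomp n x, map_rho_univ]
  have hle0 : ∀ n x, lam n x ≤ μ n x := by
    intro n x
    refine (hlam1 n 0 x).trans ?_
    rw [hr]
    exact le_of_eq (map_rho (hs n x))
  have hlam_top : ∀ n x, lam n x univ ≤ 1 := fun n x => (hle0 n x univ).trans (h1 n x)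
  have hlim : ∀ x, ∃ ν : Measure (T → ℕ), (∀ n, ν.map (rho (A n)) ≤ lam n x) ∧
      lam 0 x univ ≤ ν univ + ∑' _ : ℕ, (0 : ℝ≥0∞) ∧ ∀ t ∉ ⋃ n, A n, ν {f | f t ≠ 0} = 0 := by
    intro x
    refine Pool.Agent.Lib.BSP.limit A hA hm (fun n => lam n x)
      ((hlam_top 0 x).trans_lt ENNReal.one_lt_top).ne (fun n t ht => ?_) (fun n => (hcomp n x).le)
      (fun _ => 0) (fun n => ?_)
    · exact le_antisymm ((hle0 n x _).trans (hs n x t ht).le) bot_le
    · show lam n x univ ≤ lam (n + 1) x univ + 0
      rw [add_zero, hmass n x, hmass (n + 1) x]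
  choose ν hν1 hν2 hν3 using hlim
  have hνmass : ∀ x, ν x univ = lam 0 x univ := by
    intro x
    refine le_antisymm ?_ ?_
    · rw [← map_rho_univ (A 0) (ν x)]
      exact hν1 x 0 univ
    · have := hν2 x
      simpa using this
  have hfin : ∀ x, IsFiniteMeasure (ν x) := fun x =>
    ⟨by rw [hνmass x]; exact (hlam_top 0 x).trans_lt ENNReal.one_lt_top⟩
  have hνeq : ∀ n x, (ν x).map (rho (A n)) = lam n x := by
    intro n x
    have := hfin x
    have hf2 : IsFiniteMeasure (lam n x) := ⟨(hlam_top n x).trans_lt ENNReal.one_lt_top⟩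
    refine Measure.eq_of_le_of_measure_univ_eq (hν1 x n) ?_
    rw [map_rho_univ, hνmass x, hmass n x]
  have hcyl : ∀ (F : Finset T) (S : Set (∀ i : F, ℕ)), MeasurableSet S →
      ∃ n, ∀ x, ν x (cylinder F S) = lam n x (cylinder F S) := by
    intro F S hS
    have hex : ∃ n, ∀ t ∈ F, t ∈ ⋃ n, A n → t ∈ A n := by
      have h : ∀ t : T, ∃ n, t ∈ ⋃ n, A n → t ∈ A n := by
        intro t
        by_cases ht : t ∈ ⋃ n, A n
        · obtain ⟨n, hn⟩ := mem_iUnion.1 ht
          exact ⟨n, fun _ => hn⟩
        · exact ⟨0, fun h => absurd h ht⟩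
      choose N hN using h
      refine ⟨F.sup N, fun t ht hU => hm (Finset.le_sup ht) (hN t hU)⟩
    obtain ⟨n, hn⟩ := hex
    refine ⟨n, fun x => ?_⟩
    have hE : MeasurableSet (cylinder (α := fun _ : T => ℕ) F S) := hS.cylinder F
    rw [← hνeq n x, Measure.map_apply (measurable_rho _) hE]
    refine measure_congr ?_
    have hae : ∀ᵐ f ∂(ν x), ∀ t ∈ F, t ∉ ⋃ n, A n → f t = 0 := by
      rw [Filter.eventually_all_finset]
      intro t _
      by_cases hU : t ∈ ⋃ n, A n
      · exact Filter.Eventually.of_forall fun f h => absurd hU h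
      · have h0 : ∀ᵐ f ∂(ν x), f t = 0 := by
          rw [ae_iff]
          exact hν3 x t hU
        filter_upwards [h0] with f hf _
        exact hf
    filter_upwards [hae] with f hf
    have e : F.restrict (rho (A n) f) = F.restrict f := by
      funext i
      show rho (A n) f i.1 = f i.1
      by_cases hU : i.1 ∈ ⋃ n, A n
      · exact rho_mem (hn i.1 i.2 hU) f
      · rw [hf i.1 i.2 hU]
        exact rho_not (fun h => hU (mem_iUnion.2 ⟨n, h⟩)) f
    refine propext ?_
    show F.restrict f ∈ S ↔ F.restrict (rho (A n) f) ∈ S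
    rw [e]
  have hmeas : Measurable ν := by
    have := hfin
    refine Measurable.measure_of_isPiSystem (S := measurableCylinders (fun _ : T => ℕ))
      generateFrom_measurableCylinders.symm isPiSystem_measurableCylinders ?_ ?_
    · intro E hE
      obtain ⟨F, S, hS, rfl⟩ := (mem_measurableCylinders _).1 hE
      obtain ⟨n, hn⟩ := hcyl F S hS
      simp only [hn]
      exact (lam n).measurable_coe (hS.cylinder F)
    · simp only [hνmass]
      exact (lam 0).measurable_coe MeasurableSet.univ
  refine ⟨⟨ν, hmeas⟩, fun n x => ?_, fun n x => ?_, fun x t ht => hν3 x t ht⟩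
  · exact (hν1 x n).trans (hle0 n x)
  · show μ n x univ ≤ ν x univ + ∑' i, ε (i + n)
    rw [hνmass x, ← hmass n x, hlam2 n x univ MeasurableSet.univ]
    rw [ENNReal.iInf_add]
    refine le_iInf fun k => ?_
    rw [hr, map_rho_univ]
    have hind : ∀ k, μ n x univ ≤ μ (n + k) x univ + ∑ i ∈ Finset.range k, ε (i + n) := by
      intro k
      induction k with
      | zero => simp
      | succ k ih =>
        refine ih.trans ?_
        rw [Finset.sum_range_succ]
        have h2 := hε (n + k) x
        have e3 : k + n = n + k := Nat.add_comm k n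
        rw [e3]
        calc μ (n + k) x univ + ∑ i ∈ Finset.range k, ε (i + n)
            ≤ (μ (n + k + 1) x univ + ε (n + k)) + ∑ i ∈ Finset.range k, ε (i + n) := by gcongr
          _ = μ (n + (k + 1)) x univ + (∑ i ∈ Finset.range k, ε (i + n) + ε (n + k)) := by
            rw [add_assoc, add_comm (ε (n + k))]
            rfl
    refine (hind k).trans ?_
    gcongr
    exact ENNReal.sum_le_tsum _

end Pool.Agent.Lib.BSR
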