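import Pool.Agent.Lib.BSR.AEF

/-!
# Module BSR.MeasX: joint measurability and kernels

* `R_meas`: `cl` is measurable. `full_meas` etc.: countable unions and intersections over `s ∈ A` of the sets
  `{p | R p.1 s t} ∩ {p | p.2 s = k}` (`measurable_fst`, `measurable_snd`, `measurable_pi_apply`).
* `kset`: `ProbabilityTheory.Kernel.measurable_kernel_prodMk_left` (or a name like this).
* `kernel_restrict`: the function `x ↦ (κ x).restrict {y | (x, y) ∈ S}` is measurable: `Measure.measurable_of_measurable_coe`, `Measure.restrict_apply`, and `kset` for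
  `S ∩ (univ ×ˢ E)`.
* `kernel_map`: similarly, with the set `{(x, y) | Φ (x, y) ∈ E}`; `Measure.map_apply` with `Φ (x, ·)` measurable (`Measurable.of_uncurry_left` or `measurable_prodMk_left`).
* `kernel_mk`: a function `μ : X → Measure Y` such that `x ↦ μ x E` is measurable for every measurable `E` is a kernel.
* `kernel_ite`: piecewise (`Measurable.ite`).
* `kernel_glue`: a pairwise disjoint family `𝒜 : Set B`, kernels `κ a`, `κ₀`; the function which is `κ a x` for `x ∈ cl a`, `a ∈ 𝒜`, and `κ₀ x` for the other `x` is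
  a kernel: for measurable `E` and `U ⊆ ℝ≥0∞` the preimage is `(⋃ a ∈ 𝒜, cl a ∩ {x | κ a x E ∈ U}) ∪ ((⋃ a ∈ 𝒜, cl a ∩ univ)ᶜ ∩ {x | κ₀ x E ∈ U})` (`𝔅.glue`).
* pointwise lemmas: as in BSP.Rho, all by `ext` and unfolding, `rho_mem`, `rho_not`.
* `R_pre`: `R x s t → s ∈ pre t`, since `lt s t = ⊥` otherwise (`cl_bot`). `R_comp`, `R_trans`: `cl_inf`, `cl_sup`, `cl_mono`.
-/

set_option autoImplicit false

open Set MeasureTheory Filter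
open scoped ENNReal

namespace Pool.Agent.Lib.BSR

universe u

open Pool.Agent.Lib.BSP (rho measurable_rho rho_mem rho_not rho_rho map_rho map_rho_map map_rho_sup map_rho_univ meas_le_of_map)

open ProbabilityTheory (Kernel IsSFiniteKernel IsFiniteKernel)

section ker

variable {X Y Z : Type u} [MeasurableSpace X] [MeasurableSpace Y] [MeasurableSpace Z]

theorem kset (κ : Kernel X Y) [IsSFiniteKernel κ] {S : Set (X × Y)} (hS : MeasurableSet S) :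
    Measurable (fun x => κ x {y | (x, y) ∈ S}) := by
  exact Kernel.measurable_kernel_prodMk_left hS

theorem kernel_mk (μ : X → Measure Y) (h : ∀ E, MeasurableSet E → Measurable (fun x => μ x E)) :
    ∃ κ : Kernel X Y, ∀ x, κ x = μ x := by
  exact ⟨⟨μ, Measure.measurable_of_measurable_coe μ h⟩, fun _ => rfl⟩

theorem kernel_restrict (κ : Kernel X Y) [IsSFiniteKernel κ] {S : Set (X × Y)} (hS : MeasurableSet S) :
    ∃ κ' : Kernel X Y, ∀ x, κ' x = (κ x).restrict {y | (x, y) ∈ S} := by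
  apply kernel_mk
  intro E hE
  have h1 : ∀ x, ((κ x).restrict {y | (x, y) ∈ S}) E = κ x {y | (x, y) ∈ S ∩ (univ ×ˢ E)} := by
    intro x
    rw [Measure.restrict_apply hE]
    congr 1
    ext y
    constructor
    · rintro ⟨h1, h2⟩
      exact ⟨h2, mem_univ _, h1⟩
    · rintro ⟨h1, -, h2⟩
      exact ⟨h2, h1⟩
  simp only [h1]
  exact kset κ (hS.inter (MeasurableSet.univ.prod hE))

theorem kernel_map (κ : Kernel X Y) [IsSFiniteKernel κ] {Φ : X × Y → Z} (hΦ : Measurable Φ) :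
    ∃ κ' : Kernel X Z, ∀ x, κ' x = (κ x).map (fun y => Φ (x, y)) := by
  apply kernel_mk
  intro E hE
  have h1 : ∀ x, ((κ x).map (fun y => Φ (x, y))) E = κ x {y | (x, y) ∈ Φ ⁻¹' E} := by
    intro x
    have h2 : Measurable (fun y => Φ (x, y)) := hΦ.comp measurable_prodMk_left
    rw [Measure.map_apply h2 hE]
    rfl
  simp only [h1]
  exact kset κ (hΦ hE)

open Classical in
theorem kernel_ite (κ κ' : Kernel X Y) {S : Set X} (hS : MeasurableSet S) :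
    ∃ κ'' : Kernel X Y, ∀ x, κ'' x = if x ∈ S then κ x else κ' x := by
  apply kernel_mk
  intro E hE
  have h1 : (fun x => (if x ∈ S then κ x else κ' x : Measure Y) E) =
      fun x => if x ∈ S then κ x E else κ' x E := by
    funext x
    split_ifs <;> rfl
  rw [h1]
  exact Measurable.ite hS (κ.measurable_coe hE) (κ'.measurable_coe hE)

theorem finite_of_le_one {κ : Kernel X Y} (h : ∀ x, κ x univ ≤ 1) : IsFiniteKernel κ := by
  exact ⟨⟨1, ENNReal.one_lt_top, h⟩⟩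

end ker

section glue

variable {B X Y : Type u} [CompleteBooleanAlgebra B] [MeasurableSpace X] [MeasurableSpace Y]

theorem kernel_glue (𝔅 : Base B X) (𝒜 : Set B) (h𝒜 : ∀ a ∈ 𝒜, ∀ b ∈ 𝒜, a ≠ b → a ⊓ b = ⊥)
    (κ : B → Kernel X Y) (κ₀ : Kernel X Y) :
    ∃ κ' : Kernel X Y, (∀ a ∈ 𝒜, ∀ x ∈ 𝔅.cl a, κ' x = κ a x) ∧
      ∀ x, (∀ a ∈ 𝒜, x ∉ 𝔅.cl a) → κ' x = κ₀ x := by
  classical
  have huniq : ∀ x, ∀ a ∈ 𝒜, ∀ b ∈ 𝒜, x ∈ 𝔅.cl a → x ∈ 𝔅.cl b → a = b := by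
    intro x a ha b hb hxa hxb
    by_contra hne
    exact Set.disjoint_left.1 (𝔅.cl_disj (h𝒜 a ha b hb hne)) hxa hxb
  obtain ⟨μ, hμ⟩ : ∃ μ : X → Measure Y, μ = fun x =>
      if h : ∃ a ∈ 𝒜, x ∈ 𝔅.cl a then κ h.choose x else κ₀ x := ⟨_, rfl⟩
  have h1 : ∀ a ∈ 𝒜, ∀ x ∈ 𝔅.cl a, μ x = κ a x := by
    intro a ha x hx
    have h : ∃ a ∈ 𝒜, x ∈ 𝔅.cl a := ⟨a, ha, hx⟩
    rw [hμ]
    show (if h : ∃ a ∈ 𝒜, x ∈ 𝔅.cl a then κ h.choose x else κ₀ x) = κ a x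
    rw [dif_pos h]
    rw [huniq x _ h.choose_spec.1 a ha h.choose_spec.2 hx]
  have h2 : ∀ x, (∀ a ∈ 𝒜, x ∉ 𝔅.cl a) → μ x = κ₀ x := by
    intro x hx
    have h : ¬ ∃ a ∈ 𝒜, x ∈ 𝔅.cl a := by
      rintro ⟨a, ha, hxa⟩
      exact hx a ha hxa
    rw [hμ]
    show (if h : ∃ a ∈ 𝒜, x ∈ 𝔅.cl a then κ h.choose x else κ₀ x) = κ₀ x
    rw [dif_neg h]
  obtain ⟨κ', hκ'⟩ := kernel_mk μ (by
    intro E hE U hU
    have h3 : (fun x => μ x E) ⁻¹' U = (⋃ a ∈ 𝒜, 𝔅.cl a ∩ {x | κ a x E ∈ U}) ∪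
        ((⋃ a ∈ 𝒜, 𝔅.cl a ∩ univ)ᶜ ∩ {x | κ₀ x E ∈ U}) := by
      ext x
      simp only [mem_preimage, mem_union, mem_iUnion, mem_inter_iff, mem_ofPred_eq, exists_prop,
        mem_compl_iff, mem_univ, and_true]
      by_cases hx : ∃ a ∈ 𝒜, x ∈ 𝔅.cl a
      · obtain ⟨a, ha, hxa⟩ := hx
        rw [h1 a ha x hxa]
        constructor
        · intro h
          exact Or.inl ⟨a, ha, hxa, h⟩
        · rintro (⟨b, hb, hxb, h⟩ | ⟨h, -⟩)
          · rwa [huniq x a ha b hb hxa hxb]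
          · exact absurd ⟨a, ha, hxa⟩ h
      · have hx' : ∀ a ∈ 𝒜, x ∉ 𝔅.cl a := by
          intro a ha hxa
          exact hx ⟨a, ha, hxa⟩
        rw [h2 x hx']
        constructor
        · intro h
          exact Or.inr ⟨hx, h⟩
        · rintro (⟨b, hb, hxb, h⟩ | ⟨-, h⟩)
          · exact absurd hxb (hx' b hb)
          · exact h
    rw [h3]
    refine (𝔅.glue 𝒜 h𝒜 _ (fun a _ => ?_)).union
      ((𝔅.glue 𝒜 h𝒜 _ (fun a _ => MeasurableSet.univ)).compl.inter ?_)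
    · exact (κ a).measurable_coe hE hU
    · exact κ₀.measurable_coe hE hU)
  refine ⟨κ', fun a ha x hx => ?_, fun x hx => ?_⟩
  · rw [hκ', h1 a ha x hx]
  · rw [hκ', h2 x hx]

end glue

section tree

variable {B X T : Type u} [CompleteBooleanAlgebra B] [MeasurableSpace X] (𝔅 : Base B X) (𝒯 : Tree B T)

theorem R_pre {x : X} {s t : T} (h : R 𝔅 𝒯 x s t) : s ∈ 𝒯.pre t := by
  by_contra h1
  unfold R at h
  rw [𝒯.supp s t h1, 𝔅.cl_bot] at h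
  exact h

theorem R_irr (x : X) (t : T) : ¬ R 𝔅 𝒯 x t t := by
  intro h
  unfold R at h
  rw [𝒯.irr t, 𝔅.cl_bot] at h
  exact h

theorem R_trans {x : X} {r s t : T} (h : R 𝔅 𝒯 x r s) (h' : R 𝔅 𝒯 x s t) : R 𝔅 𝒯 x r t := by
  have h1 : x ∈ 𝔅.cl (𝒯.lt r s ⊓ 𝒯.lt s t) := by
    rw [𝔅.cl_inf]
    exact ⟨h, h'⟩
  exact 𝔅.cl_mono (𝒯.trans r s t) h1

theorem R_comp {x : X} {r s t : T} (h : R 𝔅 𝒯 x r t) (h' : R 𝔅 𝒯 x s t) :
    R 𝔅 𝒯 x r s ∨ r = s ∨ R 𝔅 𝒯 x s r := by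
  by_cases hrs : r = s
  · exact Or.inr (Or.inl hrs)
  · have h1 : x ∈ 𝔅.cl (𝒯.lt r t ⊓ 𝒯.lt s t) := by
      rw [𝔅.cl_inf]
      exact ⟨h, h'⟩
    have h2 := 𝔅.cl_mono (𝒯.comp r s t hrs) h1
    rw [𝔅.cl_sup] at h2
    exact h2.elim Or.inl (fun h3 => Or.inr (Or.inr h3))

theorem R_meas (s t : T) : MeasurableSet {x | R 𝔅 𝒯 x s t} := by
  exact 𝔅.meas (𝒯.lt s t)

private theorem MeasXAux.R_val (s t : T) (S : Set ℕ) :
    MeasurableSet {p : X × (T → ℕ) | R 𝔅 𝒯 p.1 s t ∧ p.2 s ∈ S} := by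
  have h1 : MeasurableSet {p : X × (T → ℕ) | R 𝔅 𝒯 p.1 s t} := measurable_fst (R_meas 𝔅 𝒯 s t)
  have h2 : MeasurableSet {p : X × (T → ℕ) | p.2 s ∈ S} :=
    ((measurable_pi_apply s).comp measurable_snd) (MeasurableSet.of_discrete (s := S))
  exact h1.inter h2

theorem full_meas {A : Set T} (hA : A.Countable) (t : T) (n m : ℕ) :
    MeasurableSet {p : X × (T → ℕ) | p.2 ∈ full 𝔅 𝒯 A t n m p.1} := by
  have : {p : X × (T → ℕ) | p.2 ∈ full 𝔅 𝒯 A t n m p.1} = ⋂ k : ℕ, ⋂ _ : n ≤ k, ⋂ _ : k < m, ⋃ s ∈ A,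
      {p : X × (T → ℕ) | R 𝔅 𝒯 p.1 s t ∧ p.2 s ∈ ({k} : Set ℕ)} := by
    ext p
    simp only [full, mem_ofPred_eq, mem_iInter, mem_iUnion, mem_singleton_iff, exists_prop]
  rw [this]
  refine MeasurableSet.iInter fun k => MeasurableSet.iInter fun _ => MeasurableSet.iInter fun _ => ?_
  exact MeasurableSet.biUnion hA fun s _ => MeasXAux.R_val 𝔅 𝒯 s t _

theorem hit_meas {A : Set T} (hA : A.Countable) (t : T) (k : ℕ) :
    MeasurableSet {p : X × (T → ℕ) | p.2 ∈ hit 𝔅 𝒯 A t k p.1} := by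
  have : {p : X × (T → ℕ) | p.2 ∈ hit 𝔅 𝒯 A t k p.1} = ⋃ s ∈ A,
      {p : X × (T → ℕ) | R 𝔅 𝒯 p.1 s t ∧ p.2 s ∈ ({k} : Set ℕ)} := by
    ext p
    simp only [hit, mem_ofPred_eq, mem_iUnion, mem_singleton_iff, exists_prop]
  rw [this]
  exact MeasurableSet.biUnion hA fun s _ => MeasXAux.R_val 𝔅 𝒯 s t _

theorem hitB_meas {A : Set T} (hA : A.Countable) (t : T) (K : ℕ) :
    MeasurableSet {p : X × (T → ℕ) | p.2 ∈ hitB 𝔅 𝒯 A t K p.1} := by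
  have : {p : X × (T → ℕ) | p.2 ∈ hitB 𝔅 𝒯 A t K p.1} = ⋃ s ∈ A,
      {p : X × (T → ℕ) | R 𝔅 𝒯 p.1 s t ∧ p.2 s ∈ {k : ℕ | k < K}} := by
    ext p
    simp only [hitB, mem_ofPred_eq, mem_iUnion, exists_prop]
  rw [this]
  exact MeasurableSet.biUnion hA fun s _ => MeasXAux.R_val 𝔅 𝒯 s t _

theorem full_meas' {A : Set T} (hA : A.Countable) (t : T) (n m : ℕ) (x : X) :
    MeasurableSet (full 𝔅 𝒯 A t n m x) := by
  exact measurable_prodMk_left (full_meas 𝔅 𝒯 hA t n m)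

theorem hit_meas' {A : Set T} (hA : A.Countable) (t : T) (k : ℕ) (x : X) :
    MeasurableSet (hit 𝔅 𝒯 A t k x) := by
  exact measurable_prodMk_left (hit_meas 𝔅 𝒯 hA t k)

theorem hitB_meas' {A : Set T} (hA : A.Countable) (t : T) (K : ℕ) (x : X) :
    MeasurableSet (hitB 𝔅 𝒯 A t K x) := by
  exact measurable_prodMk_left (hitB_meas 𝔅 𝒯 hA t K)

variable {𝔅 𝒯}

theorem rho_full {A A' : Set T} (h : A ⊆ A') {t : T} {n m : ℕ} {x : X} (f : T → ℕ) :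
    rho A' f ∈ full 𝔅 𝒯 A t n m x ↔ f ∈ full 𝔅 𝒯 A t n m x := by
  constructor
  · intro hf k h1 h2
    obtain ⟨s, hs, hst, e⟩ := hf k h1 h2
    exact ⟨s, hs, hst, by rwa [rho_mem (h hs)] at e⟩
  · intro hf k h1 h2
    obtain ⟨s, hs, hst, e⟩ := hf k h1 h2
    exact ⟨s, hs, hst, by rwa [rho_mem (h hs)]⟩

theorem rho_hit {D A' : Set T} (h : D ⊆ A') {t : T} {k : ℕ} {x : X} (f : T → ℕ) :
    rho A' f ∈ hit 𝔅 𝒯 D t k x ↔ f ∈ hit 𝔅 𝒯 D t k x := by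
  constructor
  · rintro ⟨s, hs, hst, e⟩
    exact ⟨s, hs, hst, by rwa [rho_mem (h hs)] at e⟩
  · rintro ⟨s, hs, hst, e⟩
    exact ⟨s, hs, hst, by rwa [rho_mem (h hs)]⟩

theorem rho_hitB {D A' : Set T} (h : D ⊆ A') {t : T} {K : ℕ} {x : X} (f : T → ℕ) :
    rho A' f ∈ hitB 𝔅 𝒯 D t K x ↔ f ∈ hitB 𝔅 𝒯 D t K x := by
  constructor
  · rintro ⟨s, hs, hst, e⟩
    exact ⟨s, hs, hst, by rwa [rho_mem (h hs)] at e⟩
  · rintro ⟨s, hs, hst, e⟩
    exact ⟨s, hs, hst, by rwa [rho_mem (h hs)]⟩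

theorem hitB_eq (D : Set T) (t : T) (K : ℕ) (x : X) :
    hitB 𝔅 𝒯 D t K x = ⋃ k ∈ Finset.range K, hit 𝔅 𝒯 D t k x := by
  ext f
  simp only [hitB, hit, mem_ofPred_eq, mem_iUnion, Finset.mem_range, exists_prop]
  constructor
  · rintro ⟨s, hs, hst, e⟩
    exact ⟨f s, e, s, hs, hst, rfl⟩
  · rintro ⟨k, hk, s, hs, hst, e⟩
    exact ⟨s, hs, hst, by rwa [e]⟩

theorem hitB_union (D D' : Set T) (t : T) (K : ℕ) (x : X) :
    hitB 𝔅 𝒯 (D ∪ D') t K x = hitB 𝔅 𝒯 D t K x ∪ hitB 𝔅 𝒯 D' t K x := by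
  ext f
  simp only [hitB, mem_ofPred_eq, mem_union]
  constructor
  · rintro ⟨s, hs | hs, hst, e⟩
    · exact Or.inl ⟨s, hs, hst, e⟩
    · exact Or.inr ⟨s, hs, hst, e⟩
  · rintro (⟨s, hs, hst, e⟩ | ⟨s, hs, hst, e⟩)
    · exact ⟨s, Or.inl hs, hst, e⟩
    · exact ⟨s, Or.inr hs, hst, e⟩

theorem hitB_mono {D D' : Set T} (h : D ⊆ D') {t : T} {K K' : ℕ} (hK : K ≤ K') {x : X} :
    hitB 𝔅 𝒯 D t K x ⊆ hitB 𝔅 𝒯 D' t K' x := by
  rintro f ⟨s, hs, hst, e⟩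
  exact ⟨s, h hs, hst, e.trans_le hK⟩

theorem hit_mono {D D' : Set T} (h : D ⊆ D') {t : T} {k : ℕ} {x : X} :
    hit 𝔅 𝒯 D t k x ⊆ hit 𝔅 𝒯 D' t k x := by
  rintro f ⟨s, hs, hst, e⟩
  exact ⟨s, h hs, hst, e⟩

theorem hit_sub_hitB {D : Set T} {t : T} {k K : ℕ} (h : k < K) {x : X} :
    hit 𝔅 𝒯 D t k x ⊆ hitB 𝔅 𝒯 D t K x := by
  rintro f ⟨s, hs, hst, e⟩
  exact ⟨s, hs, hst, by rwa [e]⟩

theorem full_anti {A : Set T} {t : T} {n n' m m' : ℕ} (h : n ≤ n') (h' : m' ≤ m) {x : X} :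
    full 𝔅 𝒯 A t n m x ⊆ full 𝔅 𝒯 A t n' m' x := by
  exact fun _ hf k h1 h2 => hf k (h.trans h1) (h2.trans_le h')

theorem full_mono {A A' : Set T} (h : A ⊆ A') {t : T} {n m : ℕ} {x : X} :
    full 𝔅 𝒯 A t n m x ⊆ full 𝔅 𝒯 A' t n m x := by
  intro f hf k h1 h2
  obtain ⟨s, hs, hst, e⟩ := hf k h1 h2
  exact ⟨s, h hs, hst, e⟩

/-- domination by a multiple, for events which depend on `A` only -/
theorem le_mul_of_dom {A : Set T} {μ ν : Measure (T → ℕ)} {c : ℝ≥0∞} (h : ν.map (rho A) ≤ c • μ)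
    {E : Set (T → ℕ)} (hE : MeasurableSet E) (hA : ∀ f, rho A f ∈ E ↔ f ∈ E) : ν E ≤ c * μ E := by
  have h1 := meas_le_of_map h hE hA
  simpa using h1

end tree

end Pool.Agent.Lib.BSR
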