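import Pool.Agent.Lib.BSR.Ord

/-!
# Module BSR.ObjX: objects without base part (definitions for the interface `BSI.RelF`)
-/

set_option autoImplicit false

open Set MeasureTheory Filter
open scoped ENNReal

namespace Pool.Agent.Lib.BSR

universe u

open Pool.Agent.Lib.BSP (rho)

open ProbabilityTheory (Kernel)

variable {B X T : Type u} [CompleteBooleanAlgebra B] [MeasurableSpace X]

/-- the objects: a closed countable set of nodes and a kernel -/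
structure Obj (𝔅 : Base B X) (𝒯 : Tree B T) where
  A : Set T
  cnt : A.Countable
  low : ∀ t ∈ A, 𝒯.pre t ⊆ A
  l : Kernel X (T → ℕ)
  le_one : ∀ x, l x univ ≤ 1
  sup : ∀ x, ∀ t ∉ A, l x {f | f t ≠ 0} = 0

variable {𝔅 : Base B X} {𝒯 : Tree B T}

/-- the trivial object -/
noncomputable def Obj.one (𝔅 : Base B X) (𝒯 : Tree B T) : Obj 𝔅 𝒯 where
  A := ∅
  cnt := countable_empty
  low := fun t ht => absurd ht (notMem_empty t)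
  l := Kernel.const X (Measure.dirac 0)
  le_one := fun x => by
    rw [ProbabilityTheory.Kernel.const_apply]
    exact le_of_eq (measure_univ)
  sup := fun x t _ => by
    have h : MeasurableSet {f : T → ℕ | f t ≠ 0} :=
      (measurable_pi_apply t : Measurable fun f : T → ℕ => f t)
        (MeasurableSet.of_discrete (s := {n : ℕ | n ≠ 0}))
    rw [ProbabilityTheory.Kernel.const_apply, Measure.dirac_apply' _ h]
    simp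

/-- `z` is a condition over `b` (without condition (C)) -/
def Raw (b : B) (z : Obj 𝔅 𝒯) : Prop :=
  (∃ c : ℝ≥0∞, c ≠ 0 ∧ 𝔅.AE b (fun x => c ≤ z.l x univ)) ∧
  (∀ s ∈ z.A, ∀ t ∈ z.A, 𝔅.AE b (fun x => R 𝔅 𝒯 x s t → z.l x {f | f s = f t} = 0)) ∧
  ∀ n : ℕ, ∀ η : ℝ≥0∞, η ≠ 0 → ∃ m, n < m ∧ ∀ t ∉ z.A,
    𝔅.AE b (fun x => z.l x (full 𝔅 𝒯 z.A t n m x) ≤ η)

/-- the order over `b` -/
def LeO (b : B) (z' z : Obj 𝔅 𝒯) : Prop :=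
  z.A ⊆ z'.A ∧ (∃ c : ℝ≥0∞, c ≠ ⊤ ∧ 𝔅.AE b (fun x => (z'.l x).map (rho z.A) ≤ c • z.l x)) ∧
  ∀ k : ℕ, ∀ η : ℝ≥0∞, η ≠ 0 → ∃ a : Finset T, (∀ s ∈ a, s ∈ z'.A ∧ s ∉ z.A) ∧
    ∀ t ∉ z'.A, 𝔅.AE b (fun x => (∀ s ∈ a, ¬ R 𝔅 𝒯 x s t) → z'.l x (hit 𝔅 𝒯 (z'.A \ z.A) t k x) ≤ η)

/-- `z` is a condition over `b` -/
def Ok (b : B) (z : Obj 𝔅 𝒯) : Prop := Raw b z ∧ LeO b z (Obj.one 𝔅 𝒯)

/-- controlled extensions -/
def Ctl (K : ℕ) (ε : ℝ) (b : B) (z' z : Obj 𝔅 𝒯) : Prop :=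
  LeO b z' z ∧ 𝔅.AE b (fun x => (z'.l x).map (rho z.A) ≤ z.l x) ∧
  𝔅.AE b (fun x => z.l x univ ≤ z'.l x univ + ENNReal.ofReal ε) ∧
  ∀ t ∉ z'.A, 𝔅.AE b (fun x => z'.l x (hitB 𝔅 𝒯 (z'.A \ z.A) t K x) ≤ ENNReal.ofReal ε)

/-- windows -/
def Win (n K K' : ℕ) (b : B) (z : Obj 𝔅 𝒯) : Prop :=
  ∀ t ∉ z.A, 𝔅.AE b (fun x => z.l x (full 𝔅 𝒯 z.A t K K' x) ≤ (2 : ℝ≥0∞)⁻¹ ^ n)

/-- lower bounds for the mass -/
def Mass (c : ℝ) (b : B) (z : Obj 𝔅 𝒯) : Prop := 𝔅.AE b (fun x => ENNReal.ofReal c ≤ z.l x univ)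

/-- the value at `t` is `k` -/
def Val (b : B) (z : Obj 𝔅 𝒯) (t : T) (k : ℕ) : Prop :=
  t ∈ z.A ∧ 𝔅.AE b (fun x => z.l x {f | f t ≠ k} = 0)

/-- the local condition given by an object and a base part -/
def Obj.toL (z : Obj 𝔅 𝒯) (b : B) (hb : b ≠ ⊥) (h : Raw b z) : LCond 𝔅 𝒯 where
  b := b
  ne := hb
  A := z.A
  cnt := z.cnt
  low := z.low
  l := z.l
  le_one := z.le_one
  pos := h.1
  sup := z.sup
  inj := h.2.1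
  unif := h.2.2

/-- forget the base part -/
def ofL (p : LCond 𝔅 𝒯) : Obj 𝔅 𝒯 where
  A := p.A
  cnt := p.cnt
  low := p.low
  l := p.l
  le_one := p.le_one
  sup := p.sup

theorem raw_ofL (p : LCond 𝔅 𝒯) : Raw p.b (ofL p) := ⟨p.pos, p.inj, p.unif⟩

theorem toL_ofL (p : LCond 𝔅 𝒯) (h : Raw p.b (ofL p)) : (ofL p).toL p.b p.ne h = p := rfl

theorem ofL_toL (z : Obj 𝔅 𝒯) (b : B) (hb : b ≠ ⊥) (h : Raw b z) : ofL (z.toL b hb h) = z := rfl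

theorem toL_le {z' z : Obj 𝔅 𝒯} {b' b : B} {hb' : b' ≠ ⊥} {h' : Raw b' z'} {hb : b ≠ ⊥} {h : Raw b z} :
    z'.toL b' hb' h' ≤ z.toL b hb h ↔ b' ≤ b ∧ LeO b' z' z := Iff.rfl

theorem le_iff {q p : LCond 𝔅 𝒯} : q ≤ p ↔ q.b ≤ p.b ∧ LeO q.b (ofL q) (ofL p) := Iff.rfl

end Pool.Agent.Lib.BSR
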