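import Pool.Agent.Lib.BSR.FreeX

/-!
# Module BSR.ValX: closed sets, the trivial condition, deciding the values of the generic function

* `exists_closed`: `C ∪ ⋃ t ∈ C, pre t`.
* `exists_triv`: `A = ∅`, `l x` the Dirac measure at `0` (`ProbabilityTheory.Kernel.const _ (Measure.dirac 0)`); `full ∅ t n (n + 1) x = ∅`.
* `exists_dom`: `exists_closed` for `z.A ∪ C`, `free` with `N = 0`, `ε = 1`.
* `dense_val`: for some `n`, `¬ AE b (z.l x {f | f t = n} = 0)`, otherwise `AE b (∀ n, ..)` and the mass is `0` almost everywhere in `b`, contradicting `z.pos` (`AE.false`, `b ≠ ⊥`). `exists_event` for the set `{p | p.2 t = n}`.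
* `val_inj`: for almost all `x` in `e = z.b ⊓ 𝒯.lt s t`: `R x s t`, so `z.l x {f | f s = f t} = 0` (`z.inj`), and `z.l x {f | f s ≠ f t} ≤ z.l x {f | f s ≠ n} + z.l x {f | f t ≠ n} = 0`; so the mass is `0`, contradicting `z.pos` unless `e = ⊥`.
* `val_eq`: similarly: `{f | f t ≠ n}` and `{f | f t ≠ n'}` cover everything if `n ≠ n'`.
* `val_le`: `z' ≤ z`, `t ∈ z.A`: domination of the marginals; the event `{f | f t ≠ n}` depends on `z.A` only (`le_mul_of_dom`).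
-/

set_option autoImplicit false

open Set MeasureTheory Filter
open scoped ENNReal

namespace Pool.Agent.Lib.BSR

universe u

open Pool.Agent.Lib.BSP (rho)

open ProbabilityTheory (Kernel)

variable {B X T : Type u} [CompleteBooleanAlgebra B] [MeasurableSpace X] {𝔅 : Base B X} {𝒯 : Tree B T}

theorem exists_closed (𝒯 : Tree B T) {C : Set T} (hC : C.Countable) :
    ∃ A : Set T, C ⊆ A ∧ A.Countable ∧ ∀ t ∈ A, 𝒯.pre t ⊆ A := by
  refine ⟨C ∪ ⋃ t ∈ C, 𝒯.pre t, subset_union_left, hC.union (hC.biUnion fun t _ => 𝒯.cnt t), ?_⟩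
  rintro t (ht | ht)
  · exact fun s hs => Or.inr (mem_iUnion₂.2 ⟨t, ht, hs⟩)
  · obtain ⟨t', ht', htt⟩ := mem_iUnion₂.1 ht
    exact fun s hs => Or.inr (mem_iUnion₂.2 ⟨t', ht', 𝒯.pre_trans t' t htt hs⟩)

theorem exists_triv (𝔅 : Base B X) (𝒯 : Tree B T) {b : B} (hb : b ≠ ⊥) :
    ∃ z : LCond 𝔅 𝒯, z.b = b ∧ z.A = ∅ ∧ ∀ x, z.l x = Measure.dirac 0 := by
  refine ⟨{ b := b
            ne := hb
            A := ∅
            cnt := countable_empty
            low := fun t ht => absurd ht (notMem_empty t)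
            l := Kernel.const X (Measure.dirac 0)
            le_one := fun x => ?_
            pos := ⟨1, one_ne_zero, AE.of_all fun x => ?_⟩
            sup := fun x t _ => ?_
            inj := fun s hs => absurd hs (notMem_empty s)
            unif := fun n η _ => ⟨n + 1, Nat.lt_succ_self n, fun t _ => AE.of_all fun x => ?_⟩ },
    rfl, rfl, fun x => ?_⟩
  · rw [Kernel.const_apply, Measure.dirac_apply_of_mem (mem_univ _)]
  · rw [Kernel.const_apply, Measure.dirac_apply_of_mem (mem_univ _)]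
  · have hm : MeasurableSet {f : T → ℕ | f t ≠ 0} :=
      Pool.Agent.Lib.BSP.measurableSet_val t ({0}ᶜ : Set ℕ)
    rw [Kernel.const_apply, Measure.dirac_apply' _ hm]
    have h0 : (0 : T → ℕ) ∉ {f : T → ℕ | f t ≠ 0} := fun h => h rfl
    exact indicator_of_notMem h0 _
  · have : full 𝔅 𝒯 (∅ : Set T) t n (n + 1) x = ∅ := by
      ext f
      simp only [mem_empty_iff_false, iff_false]
      intro hf
      obtain ⟨s, hs, -⟩ := hf n le_rfl (Nat.lt_succ_self n)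
      exact hs
    rw [this, measure_empty]
    exact zero_le
  · exact Kernel.const_apply _ _

theorem exists_dom (z : LCond 𝔅 𝒯) {C : Set T} (hC : C.Countable) :
    ∃ z' : LCond 𝔅 𝒯, z' ≤ z ∧ z'.b = z.b ∧ C ⊆ z'.A := by
  obtain ⟨A, h1, h2, h3⟩ := exists_closed 𝒯 (z.cnt.union hC)
  obtain ⟨z', h4, h5, h6, -⟩ := free z h2 h3 (subset_union_left.trans h1) 0 (ε := 1) one_ne_zero
  exact ⟨z', h4, h5, by rw [h6]; exact subset_union_right.trans h1⟩

namespace ValXAux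

theorem pos_false (z : LCond 𝔅 𝒯) {b : B} (hb : b ≠ ⊥) (hbz : b ≤ z.b)
    (h : 𝔅.AE b (fun x => z.l x univ = 0)) : False := by
  obtain ⟨c, hc, hc'⟩ := z.pos
  refine hb (AE.false (𝔅 := 𝔅) (AE.mono (AE.and (AE.mono_left hc' hbz) h) fun x hx => ?_))
  have h1 : c ≤ 0 := hx.2 ▸ hx.1
  exact hc (le_zero_iff.1 h1)

end ValXAux

open ValXAux

theorem dense_val (z : LCond 𝔅 𝒯) {t : T} (ht : t ∈ z.A) {b : B} (hb : b ≠ ⊥) (hbz : b ≤ z.b) :
    ∃ z' : LCond 𝔅 𝒯, ∃ n : ℕ, z' ≤ z ∧ z'.b ≤ b ∧ z'.A = z.A ∧ ∀ x, z'.l x {f | f t ≠ n} = 0 := by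
  have h1 : ∃ n : ℕ, ¬ 𝔅.AE b (fun x => z.l x {f | f t = n} = 0) := by
    by_contra hcon
    push Not at hcon
    refine pos_false z hb hbz (AE.mono (AE.all_nat hcon) fun x hx => ?_)
    refine measure_mono_null (t := ⋃ n : ℕ, {f : T → ℕ | f t = n}) ?_ (measure_iUnion_null hx)
    intro f _
    exact mem_iUnion.2 ⟨f t, rfl⟩
  obtain ⟨n, hn⟩ := h1
  have hS : MeasurableSet {p : X × (T → ℕ) | p.2 t = n} := by
    have hm : Measurable fun p : X × (T → ℕ) => p.2 t :=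
      (measurable_pi_apply t).comp measurable_snd
    exact hm (MeasurableSet.of_discrete (s := ({n} : Set ℕ)))
  obtain ⟨z', h2, h3, h4, h5⟩ := exists_event z hbz hS hn
  refine ⟨z', n, h2, h3, h4, fun x => ?_⟩
  have hm : MeasurableSet {f : T → ℕ | f t ≠ n} :=
    Pool.Agent.Lib.BSP.measurableSet_val t ({n}ᶜ : Set ℕ)
  rw [h5 x, Measure.restrict_apply hm]
  have : {f : T → ℕ | f t ≠ n} ∩ {f | (x, f) ∈ {p : X × (T → ℕ) | p.2 t = n}} = ∅ := by
    ext f
    simp only [mem_inter_iff, mem_ofPred_eq, mem_empty_iff_false, iff_false, not_and]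
    exact fun h h' => h h'
  rw [this, measure_empty]

theorem val_inj (z : LCond 𝔅 𝒯) {s t : T} (hs : s ∈ z.A) (ht : t ∈ z.A) {n : ℕ}
    (h1 : 𝔅.AE z.b (fun x => z.l x {f | f s ≠ n} = 0)) (h2 : 𝔅.AE z.b (fun x => z.l x {f | f t ≠ n} = 0)) :
    z.b ⊓ 𝒯.lt s t = ⊥ := by
  by_contra hcon
  have hle : z.b ⊓ 𝒯.lt s t ≤ z.b := inf_le_left
  have hR : 𝔅.AE (z.b ⊓ 𝒯.lt s t) (fun x => R 𝔅 𝒯 x s t) :=
    AE.of_mem fun x hx => 𝔅.cl_mono inf_le_right hx
  refine pos_false z hcon hle ?_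
  refine AE.mono (AE.and hR (AE.and (AE.mono_left (z.inj s hs t ht) hle)
    (AE.and (AE.mono_left h1 hle) (AE.mono_left h2 hle)))) fun x hx => ?_
  obtain ⟨a1, a2, a3, a4⟩ := hx
  refine measure_mono_null (t := {f | f s = f t} ∪ ({f | f s ≠ n} ∪ {f | f t ≠ n})) ?_
    (measure_union_null (a2 a1) (measure_union_null a3 a4))
  intro f _
  by_cases e1 : f s = n
  · by_cases e2 : f t = n
    · exact Or.inl (e1.trans e2.symm)
    · exact Or.inr (Or.inr e2)
  · exact Or.inr (Or.inl e1)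

theorem val_eq (z : LCond 𝔅 𝒯) {t : T} {n n' : ℕ}
    (h1 : 𝔅.AE z.b (fun x => z.l x {f | f t ≠ n} = 0)) (h2 : 𝔅.AE z.b (fun x => z.l x {f | f t ≠ n'} = 0)) :
    n = n' := by
  by_contra hne
  refine pos_false z z.ne le_rfl (AE.mono (AE.and h1 h2) fun x hx => ?_)
  refine measure_mono_null (t := {f | f t ≠ n} ∪ {f | f t ≠ n'}) ?_ (measure_union_null hx.1 hx.2)
  intro f _
  by_cases e1 : f t = n
  · exact Or.inr fun e2 => hne (e1.symm.trans e2)
  · exact Or.inl e1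

theorem val_le {z' z : LCond 𝔅 𝒯} (h : z' ≤ z) {t : T} (ht : t ∈ z.A) {n : ℕ}
    (h1 : 𝔅.AE z'.b (fun x => z.l x {f | f t ≠ n} = 0)) : 𝔅.AE z'.b (fun x => z'.l x {f | f t ≠ n} = 0) := by
  obtain ⟨-, -, ⟨c, -, hc⟩, -⟩ := le_def.1 h
  refine AE.mono (AE.and hc h1) fun x hx => ?_
  have h2 := le_mul_of_dom hx.1 (E := {f | f t ≠ n})
    (Pool.Agent.Lib.BSP.measurableSet_val t ({n}ᶜ : Set ℕ)) (fun f => by
      simp only [mem_ofPred_eq, Pool.Agent.Lib.BSP.rho_mem ht])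
  rw [hx.2, mul_zero] at h2
  exact le_zero_iff.1 h2

end Pool.Agent.Lib.BSR
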