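import Pool.Agent.Lib.BSR.FineX
import Pool.Agent.Lib.BSR.ValX

/-!
# Module BSR.OneX: one copy over a base (first half of L6)

Same proof as `Pool/Agent/Lib/BSP/CopyA.lean` (read it). `exists_closed` for `z.A ∪ C` gives `A'`. By `free` (`N = K`, `ε / 2`) there is `z' ≤ z` with `z'.b = z.b`, `z'.A = A'`, marginal `≤ z.l x`, loss `≤ ε / 2`, values on `A' \ z.A` at least `K`. `OD z' D` (as `z' ≤ z`).
By `fine_exists` for `z'` and `b ≤ z'.b` there is `r` with `r.b ≤ b`, `Fine D z' r (ε / 2)`; by `fine_trans` `Fine D z r ε`.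
The finite set: `r ≤ z'` gives `Thin r z'`. For `k < K` let `a k` be the finite subset of `r.A \ A'` for `k` and `η / K`; `a` is the union of the `a k`; it is disjoint from `C ⊆ A'`. Let `t ∉ r.A`. For almost all `x` in `r.b`: if `¬ R x s t` for all `s ∈ a`:
`hitB (r.A \ z.A) t K x ⊆ hitB (r.A \ A') t K x ∪ hitB (A' \ z.A) t K x` (`hitB_union`); the first has measure `≤ ∑ k < K, r.l x (hit (r.A \ A') t k x) ≤ K * (η / K) ≤ η` (`hitB_eq`); the second is null: it is contained in the countable union of the events `{f | f s < K}`, `s ∈ A' \ z.A`, and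
`(r.l x).map (rho A') ≤ c • z'.l x` (`le_mul_of_dom`).
-/

set_option autoImplicit false

open Set MeasureTheory Filter
open scoped ENNReal

namespace Pool.Agent.Lib.BSR

universe u

open Pool.Agent.Lib.BSP (rho measurable_rho rho_mem rho_not rho_rho map_rho map_rho_map map_rho_sup map_rho_univ meas_le_of_map)

open ProbabilityTheory (Kernel)

variable {B X T : Type u} [CompleteBooleanAlgebra B] [MeasurableSpace X] {𝔅 : Base B X} {𝒯 : Tree B T}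

theorem one_copy (z : LCond 𝔅 𝒯) {D : Set (LCond 𝔅 𝒯)} (hD : OD z D) {b : B} (hb : b ≠ ⊥) (hbz : b ≤ z.b)
    {C : Set T} (hC : C.Countable) (K : ℕ) {η ε : ℝ≥0∞} (hη : η ≠ 0) (hε : ε ≠ 0) :
    ∃ r : LCond 𝔅 𝒯, r.b ≤ b ∧ Fine D z r ε ∧ ∃ a : Finset T, (∀ s ∈ a, s ∈ r.A ∧ s ∉ C) ∧
      ∀ t ∉ r.A, 𝔅.AE r.b (fun x => (∀ s ∈ a, ¬ R 𝔅 𝒯 x s t) →
        r.l x (hitB 𝔅 𝒯 (r.A \ z.A) t K x) ≤ η) := by
  classical
  obtain ⟨A', hA1, hA2, hA3⟩ := exists_closed 𝒯 (z.cnt.union hC)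
  have hzA' : z.A ⊆ A' := subset_union_left.trans hA1
  have hCA' : C ⊆ A' := subset_union_right.trans hA1
  have hε2 : ε / 2 ≠ 0 := ENNReal.div_ne_zero.2 ⟨hε, ENNReal.ofNat_ne_top⟩
  obtain ⟨z', hz1, hz2, hz3, hz4, hz5, hz6⟩ := free z hA2 hA3 hzA' K hε2
  have hOD : OD z' D := ⟨hD.1, fun q hq => hD.2 q (hq.trans hz1)⟩
  obtain ⟨r, hrb, hfine⟩ := fine_exists z' hOD hb (hbz.trans_eq hz2.symm) hε2
  have hfine' : Fine D z r ε := by
    have h := fine_trans hfine hz1 (AE.of_all hz4) (by rw [hz2]; exact hz5)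
    rwa [ENNReal.add_halves] at h
  refine ⟨r, hrb, hfine', ?_⟩
  obtain ⟨hbb, hsub, ⟨c, hc, hdom⟩, hthin⟩ := le_def.1 hfine.1
  have hηK : η / (K : ℝ≥0∞) ≠ 0 := ENNReal.div_ne_zero.2 ⟨hη, ENNReal.natCast_ne_top K⟩
  choose a ha1 ha2 using fun k => hthin k (η / (K : ℝ≥0∞)) hηK
  refine ⟨(Finset.range K).biUnion a, ?_, ?_⟩
  · intro s hs
    obtain ⟨k, -, hk⟩ := Finset.mem_biUnion.1 hs
    have h1 := ha1 k s hk
    refine ⟨h1.1, fun hsC => h1.2 ?_⟩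
    rw [hz3]
    exact hCA' hsC
  · intro t ht
    refine AE.mono (AE.and (AE.all_nat fun k => ha2 k t ht) hdom) ?_
    rintro x ⟨hx1, hx2⟩ hx
    have hsubset : hitB 𝔅 𝒯 (r.A \ z.A) t K x ⊆
        hitB 𝔅 𝒯 (r.A \ z'.A) t K x ∪ hitB 𝔅 𝒯 (z'.A \ z.A) t K x := by
      rintro f ⟨s, hs1, hs2, hs3⟩
      by_cases h : s ∈ z'.A
      · exact Or.inr ⟨s, ⟨h, hs1.2⟩, hs2, hs3⟩
      · exact Or.inl ⟨s, ⟨hs1.1, h⟩, hs2, hs3⟩
    have hfirst : r.l x (hitB 𝔅 𝒯 (r.A \ z'.A) t K x) ≤ η := by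
      rw [hitB_eq]
      calc r.l x (⋃ k ∈ Finset.range K, hit 𝔅 𝒯 (r.A \ z'.A) t k x)
          ≤ ∑ k ∈ Finset.range K, r.l x (hit 𝔅 𝒯 (r.A \ z'.A) t k x) := measure_biUnion_finset_le _ _
        _ ≤ ∑ _k ∈ Finset.range K, η / (K : ℝ≥0∞) := by
            refine Finset.sum_le_sum fun k hk => hx1 k fun s hsa => hx s ?_
            exact Finset.mem_biUnion.2 ⟨k, hk, hsa⟩
        _ = (K : ℝ≥0∞) * (η / (K : ℝ≥0∞)) := by
            rw [Finset.sum_const, Finset.card_range, nsmul_eq_mul]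
        _ ≤ η := ENNReal.mul_div_le
    have hsecond : r.l x (hitB 𝔅 𝒯 (z'.A \ z.A) t K x) = 0 := by
      have h1 : hitB 𝔅 𝒯 (z'.A \ z.A) t K x ⊆ ⋃ s ∈ z'.A \ z.A, {f : T → ℕ | f s < K} := by
        rintro f ⟨s, hs1, -, hs3⟩
        exact mem_biUnion hs1 hs3
      have h2 : z'.l x (hitB 𝔅 𝒯 (z'.A \ z.A) t K x) = 0 := by
        refine measure_mono_null h1 ?_
        rw [measure_biUnion_null_iff (z'.cnt.mono sdiff_subset)]
        intro s hs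
        refine hz6 s ?_ x
        rw [← hz3]
        exact hs
      have h3 : r.l x (hitB 𝔅 𝒯 (z'.A \ z.A) t K x) ≤ c * z'.l x (hitB 𝔅 𝒯 (z'.A \ z.A) t K x) :=
        le_mul_of_dom hx2 (hitB_meas' 𝔅 𝒯 (z'.cnt.mono sdiff_subset) t K x) (rho_hitB sdiff_subset)
      rw [h2, mul_zero] at h3
      exact le_antisymm h3 zero_le
    calc r.l x (hitB 𝔅 𝒯 (r.A \ z.A) t K x)
        ≤ r.l x (hitB 𝔅 𝒯 (r.A \ z'.A) t K x ∪ hitB 𝔅 𝒯 (z'.A \ z.A) t K x) := measure_mono hsubset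
      _ ≤ r.l x (hitB 𝔅 𝒯 (r.A \ z'.A) t K x) + r.l x (hitB 𝔅 𝒯 (z'.A \ z.A) t K x) :=
          measure_union_le _ _
      _ ≤ η + 0 := by rw [hsecond]; gcongr
      _ = η := add_zero η

end Pool.Agent.Lib.BSR
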