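import Pool.Agent.Lib.BSR.ObjX

/-!
# Module BSR.RelA: elementary facts on the objects

* `raw_bot`, `leO_bot`: everything holds almost everywhere in `⊥` (`cl_bot`).
* `ok_one`: `c = 1`; `full ∅ t n (n + 1) x = ∅`; `leO_refl`.
* `leO_refl`: `c = 1`, `map_rho (z.sup x)`, `a = ∅` (`z.A \ z.A = ∅`).
* `leO_trans`: for `b = ⊥` by `leO_bot`; otherwise `leL_trans` for the `toL` (`toL_le`).
* `leO_sup`: the maximum of the constants, the union of the finite sets, `AE.sup`.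
* `win_ex`: `unif` with `η = 2⁻¹ ^ n`. `win_mono`: `full_anti`, `pow_le_pow_right_of_le_one` and similar.
* `mass_ex`: `(min c 1).toReal`.
-/

set_option autoImplicit false

open Set MeasureTheory Filter
open scoped ENNReal

namespace Pool.Agent.Lib.BSR

universe u

open Pool.Agent.Lib.BSP (rho measurable_rho rho_mem rho_not rho_rho map_rho map_rho_map map_rho_sup map_rho_univ meas_le_of_map)

open ProbabilityTheory (Kernel)

variable {B X T : Type u} [CompleteBooleanAlgebra B] [MeasurableSpace X] {𝔅 : Base B X} {𝒯 : Tree B T}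

namespace RelAAux

theorem ae_bot (φ : X → Prop) : 𝔅.AE ⊥ φ :=
  AE.of_mem fun x hx => by
    rw [Base.cl_bot] at hx
    exact absurd hx (notMem_empty x)

theorem hit_empty (t : T) (k : ℕ) (x : X) : hit 𝔅 𝒯 (∅ : Set T) t k x = ∅ := by
  ext f
  simp [hit]

end RelAAux

open RelAAux

theorem raw_bot (z : Obj 𝔅 𝒯) : Raw ⊥ z :=
  ⟨⟨1, one_ne_zero, ae_bot _⟩, fun _ _ _ _ => ae_bot _,
    fun n _ _ => ⟨n + 1, Nat.lt_succ_self n, fun _ _ => ae_bot _⟩⟩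

theorem leO_bot {z' z : Obj 𝔅 𝒯} (h : z.A ⊆ z'.A) : LeO ⊥ z' z :=
  ⟨h, ⟨1, ENNReal.one_ne_top, ae_bot _⟩, fun _ _ _ => ⟨∅, by simp, fun _ _ => ae_bot _⟩⟩

theorem leO_refl (b : B) (z : Obj 𝔅 𝒯) : LeO b z z := by
  refine ⟨subset_rfl, ⟨1, ENNReal.one_ne_top, AE.of_all fun x => ?_⟩, fun k η _ =>
    ⟨∅, by simp, fun t _ => AE.of_all fun x _ => ?_⟩⟩
  · rw [map_rho (z.sup x), one_smul]
  · rw [sdiff_self]
    rw [hit_empty, measure_empty]
    exact zero_le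

theorem ok_one (b : B) : Ok b (Obj.one 𝔅 𝒯) := by
  refine ⟨⟨⟨1, one_ne_zero, AE.of_all fun x => ?_⟩, fun s hs => absurd hs (notMem_empty s),
    fun n η _ => ⟨n + 1, Nat.lt_succ_self n, fun t _ => AE.of_all fun x => ?_⟩⟩, leO_refl b _⟩
  · change (1 : ℝ≥0∞) ≤ (Kernel.const X (Measure.dirac (0 : T → ℕ))) x univ
    rw [ProbabilityTheory.Kernel.const_apply]
    exact le_of_eq measure_univ.symm
  · have h : full 𝔅 𝒯 (Obj.one 𝔅 𝒯).A t n (n + 1) x = ∅ := by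
      refine eq_empty_of_forall_notMem fun f hf => ?_
      obtain ⟨s, hs, -⟩ := hf n le_rfl (Nat.lt_succ_self n)
      exact absurd hs (notMem_empty s)
    rw [h, measure_empty]
    exact zero_le

theorem raw_mono {b b' : B} {z : Obj 𝔅 𝒯} (h : b' ≤ b) (hz : Raw b z) : Raw b' z := by
  obtain ⟨⟨c, hc, h1⟩, h2, h3⟩ := hz
  refine ⟨⟨c, hc, AE.mono_left h1 h⟩, fun s hs t ht => AE.mono_left (h2 s hs t ht) h, fun n η hη => ?_⟩
  obtain ⟨m, hm, h4⟩ := h3 n η hη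
  exact ⟨m, hm, fun t ht => AE.mono_left (h4 t ht) h⟩

theorem leO_mono {b b' : B} {z z' : Obj 𝔅 𝒯} (h : b' ≤ b) (hz : LeO b z' z) : LeO b' z' z := by
  obtain ⟨h0, ⟨c, hc, h1⟩, h2⟩ := hz
  refine ⟨h0, ⟨c, hc, AE.mono_left h1 h⟩, fun k η hη => ?_⟩
  obtain ⟨a, ha, h3⟩ := h2 k η hη
  exact ⟨a, ha, fun t ht => AE.mono_left (h3 t ht) h⟩

theorem ok_mono {b b' : B} {z : Obj 𝔅 𝒯} (h : b' ≤ b) (hz : Ok b z) : Ok b' z :=
  ⟨raw_mono h hz.1, leO_mono h hz.2⟩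

theorem leO_trans {b : B} {z z' z'' : Obj 𝔅 𝒯} (h'' : Raw b z'') (h' : Raw b z') (h : Raw b z)
    (h1 : LeO b z'' z') (h2 : LeO b z' z) : LeO b z'' z := by
  rcases eq_or_ne b ⊥ with hb | hb
  · subst hb
    exact leO_bot (h2.1.trans h1.1)
  · have e1 : z''.toL b hb h'' ≤ z'.toL b hb h' := toL_le.2 ⟨le_rfl, h1⟩
    have e2 : z'.toL b hb h' ≤ z.toL b hb h := toL_le.2 ⟨le_rfl, h2⟩
    exact (toL_le.1 (e1.trans e2)).2

theorem leO_sup {b b' : B} {z z' : Obj 𝔅 𝒯} (h : LeO b z' z) (h' : LeO b' z' z) : LeO (b ⊔ b') z' z := by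
  classical
  obtain ⟨h0, ⟨c, hc, h1⟩, h2⟩ := h
  obtain ⟨-, ⟨c', hc', h1'⟩, h2'⟩ := h'
  have key : ∀ {d d' : ℝ≥0∞} {μ ν : Measure (T → ℕ)}, d ≤ d' → ν ≤ d • μ → ν ≤ d' • μ := by
    intro d d' μ ν hd hν
    refine hν.trans fun E => ?_
    rw [Measure.smul_apply, Measure.smul_apply, smul_eq_mul, smul_eq_mul]
    exact mul_le_mul_left hd _
  refine ⟨h0, ⟨max c c', ?_, AE.sup (AE.mono h1 fun x hx => key (le_max_left c c') hx)
    (AE.mono h1' fun x hx => key (le_max_right c c') hx)⟩, fun k η hη => ?_⟩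
  · rcases le_total c c' with h | h
    · rw [max_eq_right h]
      exact hc'
    · rw [max_eq_left h]
      exact hc
  · obtain ⟨a, ha, h3⟩ := h2 k η hη
    obtain ⟨a', ha', h3'⟩ := h2' k η hη
    refine ⟨a ∪ a', fun s hs => ?_, fun t ht => AE.sup (AE.mono (h3 t ht) fun x hx hs => ?_)
      (AE.mono (h3' t ht) fun x hx hs => ?_)⟩
    · rcases Finset.mem_union.1 hs with hs | hs
      · exact ha s hs
      · exact ha' s hs
    · exact hx fun s hsa => hs s (Finset.mem_union_left _ hsa)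
    · exact hx fun s hsa => hs s (Finset.mem_union_right _ hsa)

theorem ctl_mono {K : ℕ} {ε : ℝ} {b b' : B} {z z' : Obj 𝔅 𝒯} (h : b' ≤ b) (hz : Ctl K ε b z' z) :
    Ctl K ε b' z' z :=
  ⟨leO_mono h hz.1, AE.mono_left hz.2.1 h, AE.mono_left hz.2.2.1 h,
    fun t ht => AE.mono_left (hz.2.2.2 t ht) h⟩

theorem win_ex {b : B} {z : Obj 𝔅 𝒯} (h : Raw b z) (n K : ℕ) : ∃ K', K < K' ∧ Win n K K' b z := by
  obtain ⟨m, hm, h1⟩ := h.2.2 K ((2 : ℝ≥0∞)⁻¹ ^ n)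
    (pow_ne_zero n (ENNReal.inv_ne_zero.2 (by simp)))
  exact ⟨m, hm, h1⟩

theorem win_mono {n n' K K' K'' : ℕ} {b b' : B} {z : Obj 𝔅 𝒯} (hn : n' ≤ n) (hK : K' ≤ K'') (hb : b' ≤ b)
    (h : Win n K K' b z) : Win n' K K'' b' z := by
  intro t ht
  refine AE.mono (AE.mono_left (h t ht) hb) fun x hx => ?_
  refine (measure_mono (full_anti le_rfl hK)).trans (hx.trans ?_)
  exact pow_le_pow_right_of_le_one' (ENNReal.inv_le_one.2 one_le_two) hn

theorem mass_ex {b : B} {z : Obj 𝔅 𝒯} (h : Raw b z) : ∃ c : ℝ, 0 < c ∧ Mass c b z := by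
  obtain ⟨c, hc, h1⟩ := h.1
  have h2 : min c 1 ≠ ⊤ := ne_top_of_le_ne_top ENNReal.one_ne_top (min_le_right c 1)
  have h3 : min c 1 ≠ 0 := by
    rcases le_total c 1 with h | h
    · rw [min_eq_left h]
      exact hc
    · rw [min_eq_right h]
      exact one_ne_zero
  refine ⟨(min c 1).toReal, ENNReal.toReal_pos h3 h2, AE.mono h1 fun x hx => ?_⟩
  rw [ENNReal.ofReal_toReal h2]
  exact (min_le_left c 1).trans hx

theorem mass_mono {c c' : ℝ} {b b' : B} {z : Obj 𝔅 𝒯} (hc : c' ≤ c) (hb : b' ≤ b) (h : Mass c b z) :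
    Mass c' b' z :=
  AE.mono (AE.mono_left h hb) fun _ hx => (ENNReal.ofReal_le_ofReal hc).trans hx

end Pool.Agent.Lib.BSR
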