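import Pool.Agent.Lib.BSR.RelA
import Pool.Agent.Lib.BSR.CtrlG

/-!
# Module BSR.RelB: glueing objects

Let `ι = {i : Fin n // e i ≠ ⊥}` and `C = ⋃ i, (z i).A`, countable and closed; `⨆ i, e i = ⨆ i : ι, e i`.
* If `ι` is empty, `⨆ i, e i = ⊥` and `z' = ⟨C, .., 0, ..⟩` (the zero kernel) works: `raw_bot`, `leO_bot` (`Ctl` over `⊥`: everything holds almost everywhere in `⊥`, `AE.mono_left` or `cl_bot`; for `glueC` also add `z₀.A` to `C`).
* Otherwise `glueO`: `exists_mix` for the conditions `q i = (z i).toL (e i)`, `i : ι`, and `C`. `z' = ofL R`. `Ok`: `raw_ofL`; `R ≤ (Obj.one).toL R.b` by the third clause and `toL_le` (`Ok (e i) (z i)` contains `LeO (e i) (z i) one`). `LeO (e i) z' (z i)`: for `i : ι` from `restr R (q i).b ≤ q i` (`le_iff`), for the other `i` `leO_bot`.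
* `glueC`: `ctrl_glue` for `z₀.toL (⨆ i, e i)` and `(z i).toL (e i)`, `η = ε = δ = ENNReal.ofReal (ε / 2)`; `ENNReal.ofReal (ε / 2) + ENNReal.ofReal (ε / 2) = ENNReal.ofReal ε`. `Ok (⨆) z'`: `LeO` to `one` by `leO_trans` through `z₀`.
-/

set_option autoImplicit false

open Set MeasureTheory Filter
open scoped ENNReal

namespace Pool.Agent.Lib.BSR

universe u

open Pool.Agent.Lib.BSP (rho measurable_rho rho_mem rho_not rho_rho map_rho map_rho_map map_rho_sup map_rho_univ meas_le_of_map)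

open ProbabilityTheory (Kernel)

variable {B X T : Type u} [CompleteBooleanAlgebra B] [MeasurableSpace X] {𝔅 : Base B X} {𝒯 : Tree B T}

namespace RelBAux

theorem ae_bot {φ : X → Prop} : 𝔅.AE ⊥ φ := by
  refine AE.of_mem fun x hx => ?_
  rw [Base.cl_bot] at hx
  exact absurd hx (notMem_empty x)

theorem exists_zero {C : Set T} (hC : C.Countable) (hl : ∀ t ∈ C, 𝒯.pre t ⊆ C) :
    ∃ z : Obj 𝔅 𝒯, z.A = C :=
  ⟨{ A := C
     cnt := hC
     low := hl
     l := 0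
     le_one := fun x => by simp
     sup := fun x t _ => by simp }, rfl⟩

theorem iSup_ne {n : ℕ} (e : Fin n → B) : (⨆ i, e i) = ⨆ i : {i : Fin n // e i ≠ ⊥}, e i.1 := by
  apply le_antisymm
  · refine iSup_le fun i => ?_
    by_cases hi : e i = ⊥
    · rw [hi]
      exact bot_le
    · exact le_iSup (fun i : {i : Fin n // e i ≠ ⊥} => e i.1) ⟨i, hi⟩
  · exact iSup_le fun i => le_iSup e i.1

theorem iSup_bot {n : ℕ} {e : Fin n → B} (h : ¬ Nonempty {i : Fin n // e i ≠ ⊥}) : (⨆ i, e i) = ⊥ := by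
  rw [iSup_ne]
  have := not_nonempty_iff.1 h
  exact iSup_of_empty _

theorem union_low {n : ℕ} (z : Fin n → Obj 𝔅 𝒯) : ∀ t ∈ ⋃ i, (z i).A, 𝒯.pre t ⊆ ⋃ i, (z i).A := by
  intro t ht
  obtain ⟨i, hi⟩ := mem_iUnion.1 ht
  exact ((z i).low t hi).trans (subset_iUnion (fun i => (z i).A) i)

end RelBAux

open RelBAux

theorem glueO (n : ℕ) (e : Fin n → B) (z : Fin n → Obj 𝔅 𝒯) (hd : Pairwise (fun i j => Disjoint (e i) (e j)))
    (h : ∀ i, Ok (e i) (z i)) : ∃ z' : Obj 𝔅 𝒯, Ok (⨆ i, e i) z' ∧ ∀ i, LeO (e i) z' (z i) := by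
  classical
  have hC : (⋃ i, (z i).A).Countable := countable_iUnion fun i => (z i).cnt
  by_cases hne : Nonempty {i : Fin n // e i ≠ ⊥}
  · obtain ⟨R, hb, hCR, hp, hr⟩ := exists_mix
      (fun i : {i : Fin n // e i ≠ ⊥} => (z i.1).toL (e i.1) i.2 (h i.1).1)
      (fun i j hij => disjoint_iff.1 (hd fun hc => hij (Subtype.ext hc))) hC (union_low z)
    have hsup : (⨆ i, e i) = R.b := (iSup_ne e).trans hb.symm
    refine ⟨ofL R, ?_, fun i => ?_⟩
    · rw [hsup]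
      refine ⟨raw_ofL R, ?_⟩
      have h1 := hp ((Obj.one 𝔅 𝒯).toL R.b R.ne (ok_one R.b).1) fun i =>
        toL_le.2 ⟨hsup ▸ le_iSup e i.1, (h i.1).2⟩
      exact (le_iff.1 h1).2
    · by_cases hi : e i = ⊥
      · rw [hi]
        exact leO_bot ((subset_iUnion (fun i => (z i).A) i).trans hCR)
      · exact (le_iff.1 (hr ⟨i, hi⟩ (hsup ▸ le_iSup e i))).2
  · obtain ⟨z', hz'⟩ := exists_zero (𝔅 := 𝔅) (𝒯 := 𝒯) hC (union_low z)
    refine ⟨z', ?_, fun i => ?_⟩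
    · rw [iSup_bot hne]
      exact ⟨raw_bot z', leO_bot (empty_subset _)⟩
    · have hi : e i = ⊥ := by
        by_contra hi
        exact hne ⟨⟨i, hi⟩⟩
      rw [hi]
      refine leO_bot ?_
      rw [hz']
      exact subset_iUnion (fun i => (z i).A) i

theorem glueC (n : ℕ) (e : Fin n → B) (z : Fin n → Obj 𝔅 𝒯) (z₀ : Obj 𝔅 𝒯) (K : ℕ) (ε : ℝ) (hε : 0 < ε)
    (hd : Pairwise (fun i j => Disjoint (e i) (e j))) (h : ∀ i, Ok (e i) (z i)) (h0 : Ok (⨆ i, e i) z₀)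
    (hc : ∀ i, Ctl K (ε / 2) (e i) (z i) z₀) :
    ∃ z' : Obj 𝔅 𝒯, Ok (⨆ i, e i) z' ∧ Ctl K ε (⨆ i, e i) z' z₀ ∧ ∀ i, LeO (e i) z' (z i) := by
  classical
  have hC : (z₀.A ∪ ⋃ i, (z i).A).Countable := z₀.cnt.union (countable_iUnion fun i => (z i).cnt)
  have hl : ∀ t ∈ z₀.A ∪ ⋃ i, (z i).A, 𝒯.pre t ⊆ z₀.A ∪ ⋃ i, (z i).A := by
    rintro t (ht | ht)
    · exact (z₀.low t ht).trans subset_union_left
    · exact (union_low z t ht).trans subset_union_right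
  have hsub : ∀ i, (z i).A ⊆ z₀.A ∪ ⋃ i, (z i).A := fun i =>
    (subset_iUnion (fun i => (z i).A) i).trans subset_union_right
  by_cases hne : Nonempty {i : Fin n // e i ≠ ⊥}
  · have hne' : (⨆ i, e i) ≠ ⊥ := by
      obtain ⟨i⟩ := hne
      intro hbot
      have h1 := le_iSup e i.1
      rw [hbot] at h1
      exact i.2 (le_bot_iff.1 h1)
    have hε' : ENNReal.ofReal (ε / 2) ≠ 0 := by
      rw [Ne, ENNReal.ofReal_eq_zero, not_le]
      linarith
    obtain ⟨R, hb, hCR, hctl, hr⟩ := ctrl_glue (z₀.toL (⨆ i, e i) hne' h0.1)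
      (fun i : {i : Fin n // e i ≠ ⊥} => (z i.1).toL (e i.1) i.2 (h i.1).1)
      (fun i j hij => disjoint_iff.1 (hd fun hc => hij (Subtype.ext hc)))
      (K := K) (η := ENNReal.ofReal (ε / 2)) (ε := ENNReal.ofReal (ε / 2)) (δ := ENNReal.ofReal (ε / 2))
      (fun i => ⟨toL_le.2 ⟨le_iSup e i.1, (hc i.1).1⟩, (hc i.1).2.1, (hc i.1).2.2.1, (hc i.1).2.2.2⟩)
      hε' hC hl
    have hsup : (⨆ i, e i) = R.b := (iSup_ne e).trans hb.symm
    have hle : LeO R.b (ofL R) z₀ := (le_iff.1 hctl.1).2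
    have hsum : ENNReal.ofReal (ε / 2) + ENNReal.ofReal (ε / 2) = ENNReal.ofReal ε := by
      rw [← ENNReal.ofReal_add (by linarith) (by linarith), add_halves]
    refine ⟨ofL R, ?_, ?_, fun i => ?_⟩
    · rw [hsup] at h0 ⊢
      exact ⟨raw_ofL R, leO_trans (raw_ofL R) h0.1 (ok_one R.b).1 hle h0.2⟩
    · rw [hsup]
      refine ⟨hle, hctl.2.1, ?_, fun t ht => ?_⟩
      · rw [← hsum]
        exact hctl.2.2.1
      · refine AE.mono (hctl.2.2.2 t ht) fun x hx => ?_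
        refine le_trans hx (ENNReal.ofReal_le_ofReal ?_)
        linarith
    · by_cases hi : e i = ⊥
      · rw [hi]
        exact leO_bot ((hsub i).trans hCR)
      · exact (le_iff.1 (hr ⟨i, hi⟩ (hsup ▸ le_iSup e i))).2
  · obtain ⟨z', hz'⟩ := exists_zero (𝔅 := 𝔅) (𝒯 := 𝒯) hC hl
    have hz0 : z₀.A ⊆ z'.A := by
      rw [hz']
      exact subset_union_left
    refine ⟨z', ?_, ?_, fun i => ?_⟩
    · rw [iSup_bot hne]
      exact ⟨raw_bot z', leO_bot (empty_subset _)⟩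
    · rw [iSup_bot hne]
      exact ⟨leO_bot hz0, ae_bot, ae_bot, fun t _ => ae_bot⟩
    · have hi : e i = ⊥ := by
        by_contra hi
        exact hne ⟨⟨i, hi⟩⟩
      rw [hi]
      refine leO_bot ?_
      rw [hz']
      exact hsub i

end Pool.Agent.Lib.BSR
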