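import Pool.Agent.Lib.BSR.RelA
import Pool.Agent.Lib.BSR.CopyX

/-!
# Module BSR.RelC: the copy lemma for objects

`copyO`. Let `D' = {p : LCond | Ok p.b (ofL p) ∧ (p.b, ofL p) ∈ D}` and `zL = z.toL b`. `OD zL D'`: open: for `q ∈ D'`, `q' ≤ q`: `LeO q'.b (ofL q') one` by `leO_trans` (`raw_ofL`, `le_iff`, `leO_mono`), and `hopen`. Dense: for `q ≤ zL`: `q.b ≤ b`, `Ok q.b (ofL q)` by `leO_trans` through `z`, and `hdense` gives `b₂, z₂`; take `z₂.toL b₂`.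
`copy_lemma` for `zL`, `b`, `K`, `η = ε = ENNReal.ofReal ε` gives `r`, `ι`, `q`; `b' = r.b`, `z' = ofL r`, `n = Fintype.card ι`, `zs i = ofL (q (equiv i))` (`Fintype.equivFin`). The last clause: `w.toL b₁ ≤ r`, so there are `x' ≤ w.toL b₁` and `i` with `x' ≤ q i`; `b₂ = x'.b`, `w' = ofL x'`; `Ok`: `leO_trans` through `w`.
-/

set_option autoImplicit false

open Set MeasureTheory Filter
open scoped ENNReal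

namespace Pool.Agent.Lib.BSR

universe u

open Pool.Agent.Lib.BSP (rho measurable_rho rho_mem rho_not rho_rho map_rho map_rho_map map_rho_sup map_rho_univ meas_le_of_map)

open ProbabilityTheory (Kernel)

variable {B X T : Type u} [CompleteBooleanAlgebra B] [MeasurableSpace X] {𝔅 : Base B X} {𝒯 : Tree B T}

theorem copyO (hW : WDist B) (b : B) (z : Obj 𝔅 𝒯) (K : ℕ) (ε : ℝ) (D : Set (B × Obj 𝔅 𝒯)) (hb : b ≠ ⊥)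
    (hz : Ok b z) (hε : 0 < ε)
    (hopen : ∀ (b₁ : B) (z₁ : Obj 𝔅 𝒯) (b₂ : B) (z₂ : Obj 𝔅 𝒯), (b₁, z₁) ∈ D → Ok b₁ z₁ → b₂ ≤ b₁ → b₂ ≠ ⊥ →
      Ok b₂ z₂ → LeO b₂ z₂ z₁ → (b₂, z₂) ∈ D)
    (hdense : ∀ (b₁ : B) (z₁ : Obj 𝔅 𝒯), b₁ ≤ b → b₁ ≠ ⊥ → Ok b₁ z₁ → LeO b₁ z₁ z →
      ∃ b₂ ≤ b₁, b₂ ≠ ⊥ ∧ ∃ z₂, Ok b₂ z₂ ∧ LeO b₂ z₂ z₁ ∧ (b₂, z₂) ∈ D) :
    ∃ b' ≤ b, b' ≠ ⊥ ∧ ∃ (z' : Obj 𝔅 𝒯) (n : ℕ) (zs : Fin n → Obj 𝔅 𝒯), Ok b' z' ∧ Ctl K ε b' z' z ∧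
      (∀ i, Ok b' (zs i) ∧ LeO b' (zs i) z ∧ (b', zs i) ∈ D) ∧
      ∀ (b₁ : B) (w : Obj 𝔅 𝒯), b₁ ≤ b' → b₁ ≠ ⊥ → Ok b₁ w → LeO b₁ w z' →
        ∃ (i : Fin n) (b₂ : B) (w' : Obj 𝔅 𝒯), b₂ ≤ b₁ ∧ b₂ ≠ ⊥ ∧ Ok b₂ w' ∧ LeO b₂ w' w ∧ LeO b₂ w' (zs i) := by
  have hraw1 : ∀ b : B, Raw b (Obj.one 𝔅 𝒯) := fun b => (ok_one b).1
  have hok : ∀ (q' : LCond 𝔅 𝒯) (w : Obj 𝔅 𝒯) (b₁ : B), Ok b₁ w → q'.b ≤ b₁ → LeO q'.b (ofL q') w →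
      Ok q'.b (ofL q') := fun q' w b₁ hw hb₁ hle =>
    ⟨raw_ofL q', leO_trans (raw_ofL q') (raw_mono hb₁ hw.1) (hraw1 _) hle (leO_mono hb₁ hw.2)⟩
  have hOD : BSR.OD (z.toL b hb hz.1) {p : LCond 𝔅 𝒯 | Ok p.b (ofL p) ∧ (p.b, ofL p) ∈ D} := by
    refine ⟨fun q hq q' hq' => ?_, fun q hq => ?_⟩
    · obtain ⟨h1, h2⟩ := le_iff.1 hq'
      have h3 : Ok q'.b (ofL q') := hok q' (ofL q) q.b hq.1 h1 h2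
      exact ⟨h3, hopen q.b (ofL q) q'.b (ofL q') hq.2 hq.1 h1 q'.ne h3 h2⟩
    · obtain ⟨h1, h2⟩ := le_iff.1 hq
      have h3 : Ok q.b (ofL q) := hok q z b hz h1 h2
      obtain ⟨b₂, h4, h5, z₂, h6, h7, h8⟩ := hdense q.b (ofL q) h1 q.ne h3 h2
      exact ⟨z₂.toL b₂ h5 h6.1, le_iff.2 ⟨h4, h7⟩, h6, h8⟩
  have hε' : ENNReal.ofReal ε ≠ 0 := by
    rw [Ne, ENNReal.ofReal_eq_zero, not_le]
    exact hε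
  obtain ⟨r, hr1, hr2, ι, hι, q, hq, hpre⟩ := copy_lemma hW (z.toL b hb hz.1) hOD hb le_rfl K hε' hε'
  obtain ⟨hrz, hc1, hc2, hc3⟩ := hr2
  obtain ⟨hrb, hrle⟩ := le_iff.1 hrz
  have hOkr : Ok r.b (ofL r) := hok r z b hz hr1 hrle
  refine ⟨r.b, hr1, r.ne, ofL r, Fintype.card ι, fun i => ofL (q ((Fintype.equivFin ι).symm i)), hOkr,
    ⟨hrle, hc1, hc2, hc3⟩, fun i => ?_, ?_⟩
  · obtain ⟨⟨h1, h2⟩, h3, h4, h5⟩ := hq ((Fintype.equivFin ι).symm i)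
    rw [h3] at h1 h2
    refine ⟨h1, ?_, h2⟩
    have h6 := (le_iff.1 h5).2
    rw [h3] at h6
    exact h6
  · intro b₁ w hb₁ hb₁' hw hle
    obtain ⟨x', hx1, i, hx2⟩ := hpre (w.toL b₁ hb₁' hw.1) (le_iff.2 ⟨hb₁, hle⟩)
    obtain ⟨h1, h2⟩ := le_iff.1 hx1
    obtain ⟨h3, h4⟩ := le_iff.1 hx2
    refine ⟨Fintype.equivFin ι i, x'.b, ofL x', h1, x'.ne, hok x' w b₁ hw h1 h2, h2, ?_⟩
    show LeO x'.b (ofL x') (ofL (q ((Fintype.equivFin ι).symm (Fintype.equivFin ι i))))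
    rw [Equiv.symm_apply_apply]
    exact h4

end Pool.Agent.Lib.BSR
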