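import Pool.Agent.Lib.BSR.RelA
import Pool.Agent.Lib.BSR.FuseX

/-!
# Module BSR.RelD: limits of objects

`limitO`. If `β = ⊥`, take `A = ⋃ n, (z n).A` (countable, closed) and the zero kernel (`raw_bot`, `leO_bot`). Let `β ≠ ⊥`, so `b n ≠ ⊥`. `fuse` for `(z n).toL (b n)`, `β`, `m = K`, `δ n = (2 : ℝ≥0∞)⁻¹ ^ n`, `ENNReal.ofReal (ε n)` and `c₀ = ⨆ n, ENNReal.ofReal (c n)`.
* `z (n + 1) ≤ z n` as local conditions: `b (n + 1) ≤ b n` and `LeO (b (n + 1)) (z (n + 1)) (z n)` from `Ctl`.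
* `hc₀`: for almost all `x` in `β`: `ofReal (c n) ≤ (z n).l x univ ≤ (z 0).l x univ` for all `n` (the masses decrease: `map_rho_univ` and the second part of `Ctl`). So also `c₀ ≤ 1` (as `β ≠ ⊥` there is such an `x`: `AE.false`).
* `hc`: `ofReal (ε n) ≤ ofReal (c n) / 2 ^ (n + 2) ≤ c₀ / 2 ^ (n + 2)`; `∑' n, c₀ / 2 ^ (n + 2) = c₀ / 2 < c₀` (`c₀ ≠ 0`, `c₀ ≠ ⊤`; `ENNReal.tsum_geometric` or `tsum_geometric_two`-like).
* `h3`–`h6`: `Win`, `Ctl` and `AE.mono_left` (`β ≤ b n`).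
`z' = ofL q`; `LeO β z' (z n)` from `q ≤ (z n).toL (b n)`; `Ok β z'`: `leO_trans` through `z 0`.
-/

set_option autoImplicit false

open Set MeasureTheory Filter Topology
open scoped ENNReal

namespace Pool.Agent.Lib.BSR

universe u

open Pool.Agent.Lib.BSP (rho measurable_rho rho_mem rho_not rho_rho map_rho map_rho_map map_rho_sup map_rho_univ meas_le_of_map)

open ProbabilityTheory (Kernel)

variable {B X T : Type u} [CompleteBooleanAlgebra B] [MeasurableSpace X] {𝔅 : Base B X} {𝒯 : Tree B T}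

theorem limitO (b : ℕ → B) (z : ℕ → Obj 𝔅 𝒯) (K : ℕ → ℕ) (ε c : ℕ → ℝ) (β : B) (h0 : ∀ n, Ok (b n) (z n))
    (hb : ∀ n, b (n + 1) ≤ b n) (hK : ∀ n, K n < K (n + 1)) (hc : ∀ n, 0 < c n)
    (hm : ∀ n, Mass (c n) (b n) (z n)) (hε0 : ∀ n, 0 ≤ ε n) (hε : ∀ n, ε n ≤ min 1 (c n) / 2 ^ (n + 2))
    (hw : ∀ n, Win n (K n) (K (n + 1)) (b n) (z n))
    (hctl : ∀ n, Ctl (K (n + 1)) (ε n) (b (n + 1)) (z (n + 1)) (z n)) (hβ : ∀ n, β ≤ b n) :
    ∃ z' : Obj 𝔅 𝒯, Ok β z' ∧ ∀ n, LeO β z' (z n) := by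
  rcases eq_or_ne β ⊥ with hβ0 | hβ0
  · subst hβ0
    refine ⟨{ A := ⋃ n, (z n).A
              cnt := countable_iUnion fun n => (z n).cnt
              low := fun t ht => ?_
              l := 0
              le_one := fun x => by simp
              sup := fun x t _ => by simp }, ⟨raw_bot _, leO_bot ?_⟩, fun n => leO_bot ?_⟩
    · obtain ⟨n, hn⟩ := mem_iUnion.1 ht
      exact ((z n).low t hn).trans (subset_iUnion (fun n => (z n).A) n)
    · exact empty_subset _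
    · exact subset_iUnion (fun n => (z n).A) n
  · have hbn : ∀ n, b n ≠ ⊥ := fun n h => hβ0 (le_bot_iff.1 (h ▸ hβ n))
    have hcn : ∀ n, 𝔅.AE β (fun x => ENNReal.ofReal (c n) ≤ (z n).l x univ) :=
      fun n => AE.mono_left (hm n) (hβ n)
    have hdn : ∀ n, 𝔅.AE β (fun x => ((z (n + 1)).l x).map (rho (z n).A) ≤ (z n).l x) :=
      fun n => AE.mono_left (hctl n).2.1 (hβ (n + 1))
    have hall : 𝔅.AE β (fun x => ∀ n, ENNReal.ofReal (c n) ≤ (z 0).l x univ) := by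
      refine AE.mono (AE.and (AE.all_nat hcn) (AE.all_nat hdn)) fun x hx n => ?_
      have hanti : ∀ k, (z k).l x univ ≤ (z 0).l x univ := by
        intro k
        induction k with
        | zero => exact le_rfl
        | succ k ih =>
          have h := hx.2 k univ
          rw [map_rho_univ] at h
          exact h.trans ih
      exact (hx.1 n).trans (hanti n)
    obtain ⟨c₀, hc₀def⟩ : ∃ c₀ : ℝ≥0∞, c₀ = ⨆ n, ENNReal.ofReal (c n) := ⟨_, rfl⟩
    have hc₀le : ∀ n, ENNReal.ofReal (c n) ≤ c₀ := fun n => hc₀def ▸ le_iSup (fun n => ENNReal.ofReal (c n)) n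
    have hc₀ : 𝔅.AE β (fun x => c₀ ≤ (z 0).l x univ) :=
      AE.mono hall fun x hx => by
        rw [hc₀def]
        exact iSup_le hx
    have hc₀1 : c₀ ≤ 1 := by
      by_contra hcon
      exact hβ0 (AE.false (AE.mono hc₀ fun x hx => hcon (hx.trans ((z 0).le_one x))))
    have hc₀0 : c₀ ≠ 0 := by
      intro h
      have h1 := hc₀le 0
      rw [h, nonpos_iff_eq_zero, ENNReal.ofReal_eq_zero] at h1
      exact absurd (hc 0) (not_lt.2 h1)
    have hc₀t : c₀ ≠ ⊤ := ne_top_of_le_ne_top ENNReal.one_ne_top hc₀1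
    have hεn : ∀ n, ENNReal.ofReal (ε n) ≤ c₀ * 4⁻¹ * 2⁻¹ ^ n := by
      intro n
      have h1 : ε n ≤ c n * (4⁻¹ * 2⁻¹ ^ n) := by
        refine (hε n).trans ?_
        have h2 : (2 : ℝ) ^ (n + 2) = 4 * 2 ^ n := by ring
        rw [h2, div_eq_mul_inv, mul_inv, inv_pow]
        exact mul_le_mul_of_nonneg_right (min_le_right _ _) (by positivity)
      refine (ENNReal.ofReal_le_ofReal h1).trans ?_
      rw [ENNReal.ofReal_mul (hc n).le, ENNReal.ofReal_mul (by norm_num), ENNReal.ofReal_pow (by norm_num),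
        mul_assoc]
      have h4 : ENNReal.ofReal (4⁻¹ : ℝ) = 4⁻¹ := by
        rw [ENNReal.ofReal_inv_of_pos (by norm_num)]
        norm_num
      have h2 : ENNReal.ofReal (2⁻¹ : ℝ) = 2⁻¹ := by
        rw [ENNReal.ofReal_inv_of_pos (by norm_num)]
        norm_num
      rw [h4, h2]
      exact mul_le_mul' (hc₀le n) le_rfl
    have hsum : ∑' n, ENNReal.ofReal (ε n) < c₀ := by
      refine (ENNReal.tsum_le_tsum hεn).trans_lt ?_
      rw [ENNReal.tsum_mul_left, ENNReal.tsum_geometric, ENNReal.one_sub_inv_two, inv_inv, mul_assoc]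
      have h : (4 : ℝ≥0∞)⁻¹ * 2 = 2⁻¹ := by
        rw [show (4 : ℝ≥0∞) = 2 * 2 by norm_num, ENNReal.mul_inv (by simp) (by simp), mul_assoc,
          ENNReal.inv_mul_cancel (by simp) (by simp), mul_one]
      rw [h, ← div_eq_mul_inv]
      exact ENNReal.half_lt_self hc₀0 hc₀t
    obtain ⟨q, hqb, hq⟩ := fuse (fun n => (z n).toL (b n) (hbn n) (h0 n).1) β hβ0 hβ
      (fun n => toL_le.2 ⟨hb n, (hctl n).1⟩) K hK (fun n => (2 : ℝ≥0∞)⁻¹ ^ n) (fun n => ENNReal.ofReal (ε n))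
      (ENNReal.tendsto_pow_atTop_nhds_zero_of_lt_one (ENNReal.inv_lt_one.2 ENNReal.one_lt_two)) c₀ hsum hc₀
      (fun n t ht => AE.mono_left (hw n t ht) (hβ n)) hdn
      (fun n => AE.mono_left (hctl n).2.2.1 (hβ (n + 1)))
      (fun n t ht => AE.mono_left ((hctl n).2.2.2 t ht) (hβ (n + 1)))
    subst hqb
    have hle : ∀ n, LeO q.b (ofL q) (z n) := fun n => (le_iff.1 (hq n)).2
    exact ⟨ofL q, ⟨raw_ofL q, leO_trans (raw_ofL q) (raw_mono (hβ 0) (h0 0).1) (ok_one q.b).1 (hle 0)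
      (leO_mono (hβ 0) (h0 0).2)⟩, hle⟩

end Pool.Agent.Lib.BSR
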