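import Pool.Agent.Lib.BSR.RelA
import Pool.Agent.Lib.BSR.ValX

/-!
# Module BSR.RelE: values for objects

* `val_leO`: for `b = ⊥` trivial (`cl_bot`; `t ∈ z.A ⊆ z'.A`), otherwise `val_le` for the `toL`. `val_exO`: `exists_dom` for `z.toL b` and `C = {t}`, then `dense_val`; `ofL`; `Ok` by `leO_trans` through `z`.
* `val_uniqO`: `val_eq`. `val_ltO`: if `k = k'`, `val_inj` gives `b ⊓ lt s t = ⊥`, but `b ≤ lt s t`.
-/

set_option autoImplicit false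

open Set MeasureTheory Filter
open scoped ENNReal

namespace Pool.Agent.Lib.BSR

universe u

open Pool.Agent.Lib.BSP (rho measurable_rho rho_mem rho_not rho_rho map_rho map_rho_map map_rho_sup map_rho_univ meas_le_of_map)

open ProbabilityTheory (Kernel)

variable {B X T : Type u} [CompleteBooleanAlgebra B] [MeasurableSpace X] {𝔅 : Base B X} {𝒯 : Tree B T}

theorem val_mono {b b' : B} {z : Obj 𝔅 𝒯} {t : T} {k : ℕ} (hb : b' ≤ b) (h : Val b z t k) : Val b' z t k := by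
  exact ⟨h.1, AE.mono_left h.2 hb⟩

theorem val_leO {b : B} {z z' : Obj 𝔅 𝒯} {t : T} {k : ℕ} (hz' : Ok b z') (hz : Ok b z) (h : LeO b z' z)
    (hv : Val b z t k) : Val b z' t k := by
  rcases eq_or_ne b ⊥ with hb | hb
  · subst hb
    exact ⟨h.1 hv.1, RelAAux.ae_bot _⟩
  · have hle : z'.toL b hb hz'.1 ≤ z.toL b hb hz.1 := toL_le.2 ⟨le_rfl, h⟩
    have h1 : t ∈ (z.toL b hb hz.1).A := hv.1
    exact ⟨h.1 hv.1, val_le hle h1 hv.2⟩

theorem val_exO {b : B} {z : Obj 𝔅 𝒯} (hb : b ≠ ⊥) (hz : Ok b z) (t : T) :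
    ∃ b' ≤ b, b' ≠ ⊥ ∧ ∃ z' : Obj 𝔅 𝒯, Ok b' z' ∧ LeO b' z' z ∧ ∃ k, Val b' z' t k := by
  obtain ⟨z1, h1, h2, h3⟩ := exists_dom (z.toL b hb hz.1) (countable_singleton t)
  have ht : t ∈ z1.A := h3 (mem_singleton t)
  obtain ⟨z2, n, h4, h5, h6, h7⟩ := dense_val z1 ht z1.ne le_rfl
  have hle : z2 ≤ z.toL b hb hz.1 := h4.trans h1
  have hbb : z2.b ≤ b := (le_iff.1 hle).1
  have hO : LeO z2.b (ofL z2) z := (le_iff.1 hle).2
  refine ⟨z2.b, hbb, z2.ne, ofL z2, ⟨raw_ofL z2, ?_⟩, hO, n, ?_, AE.of_all h7⟩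
  · exact leO_trans (raw_ofL z2) (raw_mono hbb hz.1) (ok_one z2.b).1 hO (leO_mono hbb hz.2)
  · change t ∈ z2.A
    rw [h6]
    exact ht

theorem val_uniqO {b : B} {z : Obj 𝔅 𝒯} {t : T} {k k' : ℕ} (hb : b ≠ ⊥) (hz : Ok b z) (h : Val b z t k)
    (h' : Val b z t k') : k = k' := by
  exact val_eq (z.toL b hb hz.1) h.2 h'.2

theorem val_ltO {b : B} {z : Obj 𝔅 𝒯} {s t : T} {k k' : ℕ} (hb : b ≠ ⊥) (hz : Ok b z) (hst : b ≤ 𝒯.lt s t)
    (h : Val b z s k) (h' : Val b z t k') : k ≠ k' := by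
  rintro rfl
  have h1 : b ⊓ 𝒯.lt s t = ⊥ := val_inj (z.toL b hb hz.1) h.1 h'.1 h.2 h'.2
  rw [inf_eq_left.2 hst] at h1
  exact hb h1

end Pool.Agent.Lib.BSR
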