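import Pool.Agent.Lib.BSR.StB

/-!
# Module BSR.StC: the Stone space is a base

`MeasurableSpace (Ult B)`: the sets with the Baire property, `eventuallyMeasurableSpace (borel (Ult B)) (residual (Ult B))`; `MeasurableSet S` is then by definition `BaireMeasurableSet S`
(the latter is stated with an instance `MeasurableSpace`/`BorelSpace` or with `borel _`: look at the definition in `Mathlib/Topology/Baire/BaireMeasurable.lean`).
The fields of `stoneBase`: `N = residual (Ult B)`, `cl = cls`.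
* `pos`: if `∀ᶠ x in residual, x ∉ cls a` and `a ≠ ⊥`: residual sets are dense (`dense_of_mem_residual`), `cls a` is open and nonempty (`Ult.exists_mem`), contradiction.
* `dec`: `S =ᵇ O` for an open `O`; `cls a ∩ O` is nonempty, otherwise `∀ᶠ x, x ∈ cls a → x ∉ S`; `basis_cls` gives `a'` with `U ∈ cls a' ⊆ cls a ∩ O`; replace `a'` by `a' ⊓ a`.
* `loc`: `residual_local` and `basis_cls` (nonempty open sets contain some `cls a'`, `a' ≠ ⊥`; intersect with `a`).
* `null`: `{x | x ∉ S}` residual: `S` is meagre, `IsMeagre.baireMeasurableSet`.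
* `glue`: `baire_glue` for the index type `↥𝒜`; `cls a`, `cls b` are disjoint if `a ⊓ b = ⊥`.
-/

set_option autoImplicit false

open Set Filter Topology MeasureTheory

namespace Pool.Agent.Lib.BSR

universe u

section

variable {B : Type u}

noncomputable instance [BooleanAlgebra B] : MeasurableSpace (Ult B) :=
  eventuallyMeasurableSpace (borel (Ult B)) (residual (Ult B))

theorem meas_iff [BooleanAlgebra B] {S : Set (Ult B)} : MeasurableSet S ↔ BaireMeasurableSet S :=
  Iff.rfl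

namespace StCAux

variable [BooleanAlgebra B]

theorem not_mem_cls_bot (U : Ult B) : U ∉ cls (⊥ : B) := by
  have h := cls_compl (⊤ : B)
  rw [compl_top, cls_top, Set.compl_univ] at h
  rw [h]
  exact Set.notMem_empty U

theorem ne_bot_of_mem {b : B} {U : Ult B} (h : U ∈ cls b) : b ≠ ⊥ := by
  rintro rfl
  exact not_mem_cls_bot U h

theorem pos (a : B) (h : ∀ᶠ x in residual (Ult B), x ∉ cls a) : a = ⊥ := by
  by_contra hne
  have hd : Dense {x : Ult B | x ∉ cls a} := dense_of_mem_residual h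
  obtain ⟨x, hx1, hx2⟩ := hd.inter_open_nonempty (cls a) (isClopen_cls a).isOpen
    (Ult.exists_mem hne)
  exact hx2 hx1

theorem basis_le (a : B) {O : Set (Ult B)} (hO : IsOpen O) {U : Ult B} (hU : U ∈ O)
    (hUa : U ∈ cls a) : ∃ b ≤ a, b ≠ ⊥ ∧ U ∈ cls b ∧ cls b ⊆ O := by
  obtain ⟨b, hb1, hb2⟩ := basis_cls hO hU
  have hmem : U ∈ cls (b ⊓ a) := by
    rw [cls_inf]
    exact ⟨hb1, hUa⟩
  exact ⟨b ⊓ a, inf_le_right, ne_bot_of_mem hmem, hmem, (cls_mono inf_le_left).trans hb2⟩

theorem dec (a : B) (S : Set (Ult B)) (hS : MeasurableSet S)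
    (h : ¬ ∀ᶠ x in residual (Ult B), x ∈ cls a → x ∉ S) :
    ∃ a' ≤ a, a' ≠ ⊥ ∧ ∀ᶠ x in residual (Ult B), x ∈ cls a' → x ∈ S := by
  obtain ⟨O, hO, hSO⟩ := (meas_iff.1 hS).residualEq_isOpen
  rw [Filter.eventuallyEq_set] at hSO
  by_cases hne : (cls a ∩ O).Nonempty
  · obtain ⟨U, hUa, hUO⟩ := hne
    obtain ⟨b, h1, h2, _, h4⟩ := basis_le a hO hUO hUa
    refine ⟨b, h1, h2, ?_⟩
    filter_upwards [hSO] with x hx hxb
    exact hx.2 (h4 hxb)
  · exfalso
    apply h
    filter_upwards [hSO] with x hx hxa hxS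
    exact hne ⟨x, hxa, hx.1 hxS⟩

theorem loc (a : B) (φ : Ult B → Prop)
    (h : ∀ a' ≤ a, a' ≠ ⊥ → ∃ a'' ≤ a', a'' ≠ ⊥ ∧
      ∀ᶠ x in residual (Ult B), x ∈ cls a'' → φ x) :
    ∀ᶠ x in residual (Ult B), x ∈ cls a → φ x := by
  refine residual_local (isClopen_cls a).isOpen φ ?_
  intro O' hO'a hO' hne
  obtain ⟨U, hU⟩ := hne
  obtain ⟨b, h1, h2, _, h4⟩ := basis_le a hO' hU (hO'a hU)
  obtain ⟨c, h5, h6, h7⟩ := h b h1 h2
  exact ⟨cls c, (cls_mono h5).trans h4, (isClopen_cls c).isOpen, Ult.exists_mem h6, h7⟩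

theorem null (S : Set (Ult B)) (h : ∀ᶠ x in residual (Ult B), x ∉ S) : MeasurableSet S := by
  rw [meas_iff]
  exact IsMeagre.baireMeasurableSet (s := S) h

theorem glue (𝒜 : Set B) (hd : ∀ a ∈ 𝒜, ∀ b ∈ 𝒜, a ≠ b → a ⊓ b = ⊥) (S : B → Set (Ult B))
    (hS : ∀ a ∈ 𝒜, MeasurableSet (S a)) : MeasurableSet (⋃ a ∈ 𝒜, cls a ∩ S a) := by
  have h := baire_glue (ι := 𝒜) (fun a => cls (a : B)) (fun a => S (a : B))
    (fun a => (isClopen_cls (a : B)).isOpen) ?_ (fun a => meas_iff.1 (hS a.1 a.2))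
  · rw [meas_iff, Set.biUnion_eq_iUnion]
    exact h
  · intro a b hab
    rw [Set.disjoint_left]
    intro x hxa hxb
    have hx : x ∈ cls ((a : B) ⊓ (b : B)) := by
      rw [cls_inf]
      exact ⟨hxa, hxb⟩
    rw [hd a.1 a.2 b.1 b.2 (fun h' => hab (Subtype.ext h'))] at hx
    exact not_mem_cls_bot x hx

end StCAux

/-- the Stone space of a complete Boolean algebra as a base -/
noncomputable def stoneBase (B : Type u) [CompleteBooleanAlgebra B] : Base B (Ult B) where
  N := residual (Ult B)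
  cnt := inferInstance
  cl := cls
  cl_top := cls_top
  cl_inf := cls_inf
  cl_compl := cls_compl
  meas := by
    intro a
    exact (isClopen_cls a).isOpen.baireMeasurableSet
  pos := by
    intro a h
    exact StCAux.pos a h
  dec := by
    intro a S hS h
    exact StCAux.dec a S hS h
  loc := by
    intro a φ h
    exact StCAux.loc a φ h
  null := by
    intro S h
    exact StCAux.null S h
  glue := by
    intro 𝒜 hd S hS
    exact StCAux.glue 𝒜 hd S hS

end

end Pool.Agent.Lib.BSR
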