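import Pool.Agent.Lib.BSI.Rel
import Pool.Agent.Lib.BSR.RelA
import Pool.Agent.Lib.BSR.RelB
import Pool.Agent.Lib.BSR.RelC
import Pool.Agent.Lib.BSR.RelD
import Pool.Agent.Lib.BSR.RelE
import Pool.Agent.Lib.BSR.BigT
import Pool.Agent.Lib.BSR.StC

/-!
# Module BSR.Rel: the relative theory over every complete Boolean algebra in `Type`
-/

set_option autoImplicit false

namespace Pool.Agent.Lib.BSR

open Pool.Agent.Lib.BSM (NTree V W)

open Pool.Agent.Lib.BSI (RelF)

/-- The relative theory over `B`. -/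
noncomputable def Rel (B : Type) [CompleteBooleanAlgebra B] : RelF B where
  Obj := Obj (stoneBase B) (bigTree B)
  one := Obj.one _ _
  Ok := Ok
  Le := LeO
  Ctl := Ctl
  Win := Win
  Mass := Mass
  ok_one := ok_one
  ok_mono := ok_mono
  le_refl := fun {b z} _ => leO_refl b z
  le_trans := fun h'' h' h h1 h2 => leO_trans h''.1 h'.1 h.1 h1 h2
  le_mono := leO_mono
  le_sup := leO_sup
  le_one := fun h => h.2
  glue := glueO
  ctl_le := fun _ _ h => h.1
  ctl_mono := ctl_mono
  glueC := fun n e z z₀ K ε hε hd h h0 hc => glueC n e z z₀ K ε hε hd h h0 hc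
  copy := fun hW b z K ε D hb hz hε ho hd => copyO hW b z K ε D hb hz hε ho hd
  win_ex := fun h n K => win_ex h.1 n K
  win_mono := win_mono
  mass_ex := fun h => mass_ex h.1
  mass_mono := mass_mono
  limit := limitO
  Nd := NTree B × V
  lt := ltN
  Val := fun b z t k => Val b z (Sum.inl t) k
  val_mono := val_mono
  val_le := val_leO
  val_ex := fun hb hz t => val_exO hb hz (Sum.inl t)
  val_uniq := val_uniqO
  val_lt := fun {_ _ s t _ _} hb hz hst h h' => val_ltO (s := Sum.inl s) (t := Sum.inl t) hb hz hst h h'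

theorem Rel_lt {B : Type} [CompleteBooleanAlgebra B] (N : NTree B) (u v : V) :
    (Rel B).lt (N, u) (N, v) = N.lt u v := ltN_self N u v

end Pool.Agent.Lib.BSR
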