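import Pool.Agent.Lib.BSR.Defs

/-!
# Module BSR.StA: the Stone space of a Boolean algebra

`Ult B` is the type of ultrafilters on `B`, `cls b` the set of the ultrafilters which contain `b`.

* `Ult.exists_mem`: Zorn (as `Ultra.exists_mem` in `Pool/Agent/Lib/BVM/Basic.lean`, which is the case `B : Type`; copy the proof).
* topology: induced by the map `Φ : Ult B → (B → Bool)`, `Φ U b = decide (b ∈ U)` (classical), product of discrete spaces.
* `Φ` is injective with closed range (the range consists of the `χ` with `χ ⊤ = true`, `χ (a ⊓ b) = (χ a && χ b)`, `χ aᶜ = !(χ a)`; each equation is a closed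
  condition, as coordinates are continuous and `Bool` is discrete), so `Ult B` is compact and T2 (`Topology.IsClosedEmbedding`, `.compactSpace`, `T2Space.of_injective_continuous`).
* `isClopen_cls`: preimage of a clopen set under a coordinate of `Φ`.
* `basis`: every open `O` and `U ∈ O` have `b ∈ U` with `cls b ⊆ O`: an open set of the induced topology is `Φ ⁻¹' O'`; a basic open set of the product is given by
  finitely many coordinates; take the infimum of the `b` with `Φ U b = true` and of the `bᶜ` with `Φ U b = false` for these coordinates. (`isTopologicalBasis_pi`, `isOpen_pi_iff`, finite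
  infimum by induction on the finite set.)
-/

set_option autoImplicit false

open Set

namespace Pool.Agent.Lib.BSR

universe u

/-- ultrafilters on a Boolean algebra -/
structure Ult (B : Type u) [BooleanAlgebra B] where
  carrier : Set B
  top_mem : ⊤ ∈ carrier
  inf_mem : ∀ {x y}, x ∈ carrier → y ∈ carrier → x ⊓ y ∈ carrier
  up : ∀ {x y}, x ∈ carrier → x ≤ y → y ∈ carrier
  compl_iff : ∀ {x}, xᶜ ∈ carrier ↔ x ∉ carrier


namespace StAAux

variable {B : Type u} [BooleanAlgebra B] {U : Ult B} {x y : B}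

theorem inf_iff : x ⊓ y ∈ U.carrier ↔ x ∈ U.carrier ∧ y ∈ U.carrier :=
  ⟨fun h => ⟨U.up h inf_le_left, U.up h inf_le_right⟩, fun h => U.inf_mem h.1 h.2⟩

theorem bot : ⊥ ∉ U.carrier := by
  rw [← U.compl_iff, compl_bot]
  exact U.top_mem

theorem ext_carrier {U V : Ult B} (h : U.carrier = V.carrier) : U = V := by
  cases U
  cases V
  simp only at h
  subst h
  rfl

theorem exists_mem {b : B} (hb : b ≠ ⊥) : ∃ U : Ult B, b ∈ U.carrier := by
  set S : Set (Set B) := {F | b ∈ F ∧ ⊥ ∉ F ∧ (∀ x ∈ F, ∀ y ∈ F, x ⊓ y ∈ F) ∧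
    ∀ x ∈ F, ∀ y, x ≤ y → y ∈ F} with hS
  have hne : Ici b ∈ S := by
    refine ⟨le_refl b, fun h => hb (le_bot_iff.1 h), fun x hx y hy => le_inf hx hy,
      fun x hx y hy => le_trans hx hy⟩
  obtain ⟨F, hbF, hF⟩ := zorn_subset_nonempty S (by
    intro c hc hchain hcne
    obtain ⟨s0, hs0⟩ := hcne
    refine ⟨⋃₀ c, ⟨⟨s0, hs0, (hc hs0).1⟩, ?_, ?_, ?_⟩, fun s hs => subset_sUnion_of_mem hs⟩
    · rintro ⟨s, hs, h⟩
      exact (hc hs).2.1 h
    · rintro x ⟨s, hs, hx⟩ y ⟨s', hs', hy⟩
      rcases hchain.total hs hs' with h | h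
      · exact ⟨s', hs', (hc hs').2.2.1 x (h hx) y hy⟩
      · exact ⟨s, hs, (hc hs).2.2.1 x hx y (h hy)⟩
    · rintro x ⟨s, hs, hx⟩ y hxy
      exact ⟨s, hs, (hc hs).2.2.2 x hx y hxy⟩) (Ici b) hne
  obtain ⟨h1, h2, h3, h4⟩ := hF.1
  refine ⟨⟨F, h4 b h1 ⊤ le_top, fun {x y} hx hy => h3 x hx y hy, fun {x y} hx hxy => h4 x hx y hxy,
    fun {x} => ⟨fun h5 h6 => ?_, fun h5 => ?_⟩⟩, h1⟩
  · have := h3 _ h5 _ h6
    rw [compl_inf_self] at this
    exact h2 this
  · by_contra h6
    apply h5
    set F' : Set B := {y | ∃ f ∈ F, f ⊓ x ≤ y} with hF'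
    have hFF' : F ⊆ F' := fun y hy => ⟨y, hy, inf_le_left⟩
    have hF'S : F' ∈ S := by
      refine ⟨hFF' h1, ?_, ?_, ?_⟩
      · rintro ⟨f, hf, h7⟩
        apply h6
        refine h4 f hf _ ?_
        rw [le_compl_iff_disjoint_right, disjoint_iff]
        exact le_bot_iff.1 h7
      · rintro y ⟨f, hf, h7⟩ z ⟨g, hg, h8⟩
        refine ⟨f ⊓ g, h3 f hf g hg, le_inf ?_ ?_⟩
        · exact (inf_le_inf_right x inf_le_left).trans h7
        · exact (inf_le_inf_right x inf_le_right).trans h8
      · rintro y ⟨f, hf, h7⟩ z hyz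
        exact ⟨f, hf, h7.trans hyz⟩
    exact hF.2 hF'S hFF' ⟨b, h1, inf_le_right⟩

end StAAux

section

variable {B : Type u} [BooleanAlgebra B]

/-- the clopen set of `b` -/
def cls (b : B) : Set (Ult B) := {U | b ∈ U.carrier}

theorem cls_top : cls (⊤ : B) = univ :=
  eq_univ_of_forall fun U => U.top_mem

theorem cls_inf (a b : B) : cls (a ⊓ b) = cls a ∩ cls b := by
  ext U
  exact StAAux.inf_iff

theorem cls_compl (a : B) : cls aᶜ = (cls a)ᶜ := by
  ext U
  exact U.compl_iff

theorem cls_mono {a b : B} (h : a ≤ b) : cls a ⊆ cls b :=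
  fun U hU => U.up hU h

theorem Ult.exists_mem {b : B} (hb : b ≠ ⊥) : (cls b).Nonempty :=
  StAAux.exists_mem hb

namespace StAAux

theorem le_of_cls {a b : B} (h : cls a ⊆ cls b) : a ≤ b := by
  by_contra hcon
  have h1 : a ⊓ bᶜ ≠ ⊥ := by
    intro h2
    exact hcon (by rwa [← disjoint_iff, disjoint_compl_right_iff] at h2)
  obtain ⟨U, hU⟩ := StAAux.exists_mem h1
  obtain ⟨h2, h3⟩ := StAAux.inf_iff.1 hU
  exact (U.compl_iff.1 h3) (h h2)

end StAAux

theorem cls_injective : Function.Injective (cls : B → Set (Ult B)) :=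
  fun _ _ h => le_antisymm (StAAux.le_of_cls h.subset) (StAAux.le_of_cls h.symm.subset)

open Classical in
/-- the characteristic function of an ultrafilter -/
noncomputable def Ult.chi (U : Ult B) : B → Bool := fun b => decide (b ∈ U.carrier)

noncomputable instance : TopologicalSpace (Ult B) := TopologicalSpace.induced Ult.chi inferInstance

namespace StAAux

theorem chi_true {U : Ult B} {b : B} : U.chi b = true ↔ b ∈ U.carrier := by
  simp [Ult.chi]

theorem chi_false {U : Ult B} {b : B} : U.chi b = false ↔ b ∉ U.carrier := by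
  simp [Ult.chi]

theorem chi_injective : Function.Injective (Ult.chi : Ult B → B → Bool) := by
  intro U V h
  apply ext_carrier
  ext b
  rw [← chi_true, ← chi_true, h]

theorem continuous_chi : Continuous (Ult.chi : Ult B → B → Bool) := continuous_induced_dom

/-- the range of the map `Ult.chi` -/
def rg (B : Type u) [BooleanAlgebra B] : Set (B → Bool) :=
  {χ | χ ⊤ = true} ∩ ((⋂ a : B, ⋂ b : B, {χ | χ (a ⊓ b) = (χ a && χ b)}) ∩ ⋂ a : B, {χ | χ aᶜ = !(χ a)})

theorem range_chi : range (Ult.chi : Ult B → B → Bool) = rg B := by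
  ext χ
  constructor
  · rintro ⟨U, rfl⟩
    refine ⟨chi_true.2 U.top_mem, mem_iInter.2 fun a => mem_iInter.2 fun b => ?_, mem_iInter.2 fun a => ?_⟩
    · have h : (U.chi (a ⊓ b) = true) ↔ ((U.chi a && U.chi b) = true) := by
        rw [Bool.and_eq_true, chi_true, chi_true, chi_true]
        exact inf_iff
      exact Bool.eq_iff_iff.2 h
    · have h : (U.chi aᶜ = true) ↔ ((!(U.chi a)) = true) := by
        rw [Bool.not_eq_true', chi_true, chi_false]
        exact U.compl_iff
      exact Bool.eq_iff_iff.2 h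
  · rintro ⟨h1, h2, h3⟩
    have h2' : ∀ a b : B, χ (a ⊓ b) = (χ a && χ b) := fun a b => mem_iInter.1 (mem_iInter.1 h2 a) b
    have h3' : ∀ a : B, χ aᶜ = !(χ a) := fun a => mem_iInter.1 h3 a
    refine ⟨⟨{b | χ b = true}, h1, fun {x y} hx hy => ?_, fun {x y} hx hxy => ?_, fun {x} => ?_⟩, ?_⟩
    · change χ (x ⊓ y) = true
      rw [h2' x y]
      exact Bool.and_eq_true _ _ |>.mpr ⟨hx, hy⟩
    · change χ y = true
      have h4 := h2' x y
      rw [inf_eq_left.2 hxy] at h4
      have h5 : χ x = true := hx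
      rw [h5] at h4
      simpa using h4.symm
    · change χ xᶜ = true ↔ ¬ (χ x = true)
      rw [h3' x]
      simp
    · funext b
      exact Bool.eq_iff_iff.2 chi_true

theorem isClosed_rg : IsClosed (rg B) := by
  refine IsClosed.inter ?_ (IsClosed.inter ?_ ?_)
  · exact isClosed_eq (continuous_apply _) continuous_const
  · refine isClosed_iInter fun a => isClosed_iInter fun b => isClosed_eq (continuous_apply _) ?_
    have h1 : Continuous (fun p : Bool × Bool => (p.1 && p.2)) := continuous_of_discreteTopology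
    have h2 : Continuous (fun χ : B → Bool => (χ a, χ b)) := (continuous_apply a).prodMk (continuous_apply b)
    exact h1.comp h2
  · refine isClosed_iInter fun a => isClosed_eq (continuous_apply _) ?_
    have h1 : Continuous (fun p : Bool => !p) := continuous_of_discreteTopology
    have h2 : Continuous (fun χ : B → Bool => χ a) := continuous_apply a
    exact h1.comp h2

theorem isClosedEmbedding_chi : Topology.IsClosedEmbedding (Ult.chi : Ult B → B → Bool) where
  toIsInducing := ⟨rfl⟩
  injective := chi_injective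
  isClosed_range := by
    rw [range_chi]
    exact isClosed_rg

end StAAux

instance : CompactSpace (Ult B) :=
  StAAux.isClosedEmbedding_chi.compactSpace

instance : T2Space (Ult B) :=
  T2Space.of_injective_continuous StAAux.chi_injective StAAux.continuous_chi

theorem isClopen_cls (b : B) : IsClopen (cls b) := by
  have h : cls b = Ult.chi ⁻¹' ((fun χ : B → Bool => χ b) ⁻¹' {true}) := by
    ext U
    exact StAAux.chi_true.symm
  rw [h]
  exact ((isClopen_discrete _).preimage (continuous_apply b)).preimage StAAux.continuous_chi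

namespace StAAux

theorem exists_inf (U : Ult B) (I : Finset B) :
    ∃ b, b ∈ U.carrier ∧ ∀ V : Ult B, b ∈ V.carrier → ∀ i ∈ I, V.chi i = U.chi i := by
  classical
  induction I using Finset.induction_on with
  | empty => exact ⟨⊤, U.top_mem, fun V _ i hi => absurd hi (Finset.notMem_empty i)⟩
  | insert a I _ ih =>
    obtain ⟨b, hb, h⟩ := ih
    by_cases ha : a ∈ U.carrier
    · refine ⟨a ⊓ b, U.inf_mem ha hb, fun V hV i hi => ?_⟩
      rcases Finset.mem_insert.1 hi with rfl | hi
      · rw [chi_true.2 ha, chi_true.2 (inf_iff.1 hV).1]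
      · exact h V (inf_iff.1 hV).2 i hi
    · refine ⟨aᶜ ⊓ b, U.inf_mem (U.compl_iff.2 ha) hb, fun V hV i hi => ?_⟩
      rcases Finset.mem_insert.1 hi with rfl | hi
      · rw [chi_false.2 ha, chi_false.2 (V.compl_iff.1 (inf_iff.1 hV).1)]
      · exact h V (inf_iff.1 hV).2 i hi

end StAAux

theorem basis_cls {O : Set (Ult B)} (hO : IsOpen O) {U : Ult B} (hU : U ∈ O) : ∃ b, U ∈ cls b ∧ cls b ⊆ O := by
  obtain ⟨O', hO', rfl⟩ := isOpen_induced_iff.1 hO
  obtain ⟨I, u, hu, hsub⟩ := isOpen_pi_iff.1 hO' U.chi hU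
  obtain ⟨b, hb, h⟩ := StAAux.exists_inf U I
  refine ⟨b, hb, fun V hV => hsub fun i hi => ?_⟩
  rw [h V hV i hi]
  exact (hu i hi).2

instance : BaireSpace (Ult B) := inferInstance

end

end Pool.Agent.Lib.BSR
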