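import Pool.Agent.Lib.BSR.StA

/-!
# Module BSR.StB: Baire category in a topological space (Banach category theorem and localisation)

Everything is for a topological space `Y` (no Boolean algebra).
* `meagre_iUnion`: let `U i` be pairwise disjoint open sets, `M i ⊆ U i` meagre. Then `⋃ i, M i` is meagre. Proof: `(M i)ᶜ ∈ residual Y` gives (`mem_residual_iff`) countably many dense open sets
  `G i n` (enumerate by `ℕ`, the family may be taken nonempty) with `⋂ n, G i n ⊆ (M i)ᶜ`. `H n = (⋃ i, U i ∩ G i n) ∪ (closure (⋃ i, U i))ᶜ` is open and dense, and `⋂ n, H n` is disjoint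
  from `⋃ i, M i`: if `x ∈ M i` then `x ∈ U i`, `x` is not in `(closure ..)ᶜ`, so for each `n` there is `j` with `x ∈ U j ∩ G j n`; `j = i` by disjointness; so `x ∈ ⋂ n, G i n`, contradiction.
* `baire_glue`: `U i` pairwise disjoint open, `S i` Baire measurable: `⋃ i, U i ∩ S i` is Baire measurable. Proof: `S i =ᵇ O i` open (`BaireMeasurableSet.residualEq_isOpen` or a name like this); the difference of `⋃ i, U i ∩ S i` and the
  open set `⋃ i, U i ∩ O i` is contained in `⋃ i, U i ∩ (S i ∆ O i)`, meagre by `meagre_iUnion`.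
* `residual_local`: let `O` be open, `φ : Y → Prop`, and suppose that every nonempty open `O' ⊆ O` contains a nonempty open `O''` with `∀ᶠ x in residual Y, x ∈ O'' → φ x`. Then
  `∀ᶠ x in residual Y, x ∈ O → φ x`. Proof: a maximal family `𝒰` of pairwise disjoint nonempty open subsets of `O` with this property (Zorn, `zorn_subset`); `⋃₀ 𝒰` is dense in `O`; the set `{x ∈ O | ¬ φ x}` is
  contained in `(O \ ⋃₀ 𝒰) ∪ ⋃ U ∈ 𝒰, {x ∈ U | ¬ φ x}`; the first set is nowhere dense, the second meagre by `meagre_iUnion`.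
-/

set_option autoImplicit false

open Set Filter Topology

namespace Pool.Agent.Lib.BSR

universe u

section

variable {Y : Type u} [TopologicalSpace Y]

namespace StBAux

theorem res_seq {s : Set Y} (hs : s ∈ residual Y) :
    ∃ G : ℕ → Set Y, (∀ n, IsOpen (G n)) ∧ (∀ n, Dense (G n)) ∧ ∀ x, (∀ n, x ∈ G n) → x ∈ s := by
  obtain ⟨S, h1, h2, h3, h4⟩ := mem_residual_iff.1 hs
  rcases S.eq_empty_or_nonempty with h0 | h0
  · refine ⟨fun _ => univ, fun _ => isOpen_univ, fun _ => dense_univ, fun x _ => h4 ?_⟩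
    intro t ht
    rw [h0] at ht
    exact absurd ht (Set.notMem_empty _)
  · obtain ⟨G, hG⟩ := h3.exists_eq_range h0
    have hmem : ∀ n, G n ∈ S := fun n => hG ▸ mem_range_self n
    refine ⟨G, fun n => h1 _ (hmem n), fun n => h2 _ (hmem n), fun x hx => h4 ?_⟩
    intro t ht
    rw [hG] at ht
    obtain ⟨n, rfl⟩ := ht
    exact hx n

end StBAux

theorem meagre_iUnion {ι : Type u} (U M : ι → Set Y) (hU : ∀ i, IsOpen (U i))
    (hd : ∀ i j, i ≠ j → Disjoint (U i) (U j)) (hM : ∀ i, M i ⊆ U i) (hm : ∀ i, IsMeagre (M i)) :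
    IsMeagre (⋃ i, M i) := by
  classical
  have key : ∀ i, ∃ G : ℕ → Set Y, (∀ n, IsOpen (G n)) ∧ (∀ n, Dense (G n)) ∧
      ∀ x, (∀ n, x ∈ G n) → x ∈ (M i)ᶜ := fun i => StBAux.res_seq (hm i)
  choose G hGo hGd hG using key
  let H : ℕ → Set Y := fun n => (⋃ i, U i ∩ G i n) ∪ (closure (⋃ i, U i))ᶜ
  have hHo : ∀ n, IsOpen (H n) := fun n =>
    (isOpen_iUnion fun i => (hU i).inter (hGo i n)).union isClosed_closure.isOpen_compl
  have hHd : ∀ n, Dense (H n) := by
    intro n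
    rw [dense_iff_inter_open]
    intro V hV hVn
    obtain ⟨x, hx⟩ := hVn
    by_cases hc : x ∈ closure (⋃ i, U i)
    · obtain ⟨y, hyV, hyU⟩ := mem_closure_iff.1 hc V hV hx
      obtain ⟨i, hi⟩ := mem_iUnion.1 hyU
      obtain ⟨z, hz⟩ := (hGd i n).inter_open_nonempty (V ∩ U i) (hV.inter (hU i)) ⟨y, hyV, hi⟩
      exact ⟨z, hz.1.1, Or.inl (mem_iUnion.2 ⟨i, hz.1.2, hz.2⟩)⟩
    · exact ⟨x, hx, Or.inr hc⟩
  have hall : (⋂ n, H n) ∈ residual Y :=
    countable_iInter_mem.2 fun n => residual_of_dense_open (hHo n) (hHd n)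
  refine Filter.mem_of_superset hall ?_
  intro x hx hxM
  obtain ⟨i, hi⟩ := mem_iUnion.1 hxM
  have hxU := hM i hi
  refine hG i x (fun n => ?_) hi
  have hxn := mem_iInter.1 hx n
  rcases hxn with h | h
  · obtain ⟨j, hj⟩ := mem_iUnion.1 h
    by_cases hij : i = j
    · subst hij
      exact hj.2
    · exact absurd hj.1 (fun h' => Set.disjoint_left.1 (hd i j hij) hxU h')
  · exact absurd (subset_closure (mem_iUnion.2 ⟨i, hxU⟩)) h

theorem baire_glue {ι : Type u} (U S : ι → Set Y) (hU : ∀ i, IsOpen (U i))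
    (hd : ∀ i j, i ≠ j → Disjoint (U i) (U j)) (hS : ∀ i, BaireMeasurableSet (S i)) :
    BaireMeasurableSet (⋃ i, U i ∩ S i) := by
  choose O hO hSO using fun i => (hS i).residualEq_isOpen
  have hm : ∀ i, IsMeagre (U i ∩ {x | ¬ (x ∈ S i ↔ x ∈ O i)}) := by
    intro i
    have h := hSO i
    rw [Filter.eventuallyEq_set] at h
    refine IsMeagre.mono inter_subset_right ?_
    change {x | ¬ (x ∈ S i ↔ x ∈ O i)}ᶜ ∈ residual Y
    filter_upwards [h] with x hx
    exact fun h' => h' hx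
  have hM := meagre_iUnion U _ hU hd (fun i => inter_subset_left) hm
  refine ((isOpen_iUnion fun i => (hU i).inter (hO i)).baireMeasurableSet).congr ?_
  rw [Filter.eventuallyEq_set]
  have h2 : (⋃ i, U i ∩ {x | ¬ (x ∈ S i ↔ x ∈ O i)})ᶜ ∈ residual Y := hM
  filter_upwards [h2] with x hx
  have hx' : ∀ i, x ∈ U i → (x ∈ S i ↔ x ∈ O i) := by
    intro i hi
    by_contra h3
    exact hx (mem_iUnion.2 ⟨i, hi, h3⟩)
  simp only [mem_iUnion, mem_inter_iff]
  constructor
  · rintro ⟨i, h1, h3⟩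
    exact ⟨i, h1, (hx' i h1).2 h3⟩
  · rintro ⟨i, h1, h3⟩
    exact ⟨i, h1, (hx' i h1).1 h3⟩

theorem residual_local {O : Set Y} (hO : IsOpen O) (φ : Y → Prop)
    (h : ∀ O' ⊆ O, IsOpen O' → O'.Nonempty → ∃ O'' ⊆ O', IsOpen O'' ∧ O''.Nonempty ∧
      ∀ᶠ x in residual Y, x ∈ O'' → φ x) : ∀ᶠ x in residual Y, x ∈ O → φ x := by
  classical
  let good : Set Y → Prop := fun V =>
    IsOpen V ∧ V.Nonempty ∧ V ⊆ O ∧ ∀ᶠ x in residual Y, x ∈ V → φ x
  let S : Set (Set (Set Y)) := {𝒰 | (∀ V ∈ 𝒰, good V) ∧ 𝒰.PairwiseDisjoint id}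
  obtain ⟨𝒰, hmax⟩ : ∃ m, Maximal (· ∈ S) m := by
    refine zorn_subset S ?_
    intro c hc hch
    refine ⟨⋃₀ c, ⟨?_, ?_⟩, fun s hs => subset_sUnion_of_mem hs⟩
    · rintro V ⟨s, hs, hVs⟩
      exact (hc hs).1 V hVs
    · rw [Set.pairwiseDisjoint_sUnion hch.directedOn]
      intro s hs
      exact (hc hs).2
  have hU : 𝒰 ∈ S := hmax.prop
  let W : Set Y := ⋃₀ 𝒰
  have hWo : IsOpen W := isOpen_sUnion fun V hV => (hU.1 V hV).1
  have hcl : O ⊆ closure W := by
    intro x hx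
    by_contra hxc
    obtain ⟨O2, h1, h2, h3, h4⟩ := h (O ∩ (closure W)ᶜ) inter_subset_left
      (hO.inter isClosed_closure.isOpen_compl) ⟨x, hx, hxc⟩
    have hdis : Disjoint O2 W := by
      rw [Set.disjoint_left]
      intro y hy hyW
      exact (h1 hy).2 (subset_closure hyW)
    have hins : insert O2 𝒰 ∈ S := by
      refine ⟨?_, ?_⟩
      · intro V hV
        rcases hV with rfl | hV
        · exact ⟨h2, h3, fun y hy => (h1 hy).1, h4⟩
        · exact hU.1 V hV
      · refine hU.2.insert ?_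
        intro V hV _
        exact hdis.mono_right (subset_sUnion_of_mem hV)
    have hmem : O2 ∈ 𝒰 := hmax.le_of_ge hins (subset_insert _ _) (mem_insert _ _)
    obtain ⟨y, hy⟩ := h3
    exact Set.disjoint_left.1 hdis hy ⟨O2, hmem, hy⟩
  have hres1 : W ∪ (closure W)ᶜ ∈ residual Y := by
    refine residual_of_dense_open (hWo.union isClosed_closure.isOpen_compl) ?_
    rw [dense_iff_inter_open]
    intro V hV hVn
    obtain ⟨x, hx⟩ := hVn
    by_cases hc : x ∈ closure W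
    · obtain ⟨y, hyV, hyU⟩ := mem_closure_iff.1 hc V hV hx
      exact ⟨y, hyV, Or.inl hyU⟩
    · exact ⟨x, hx, Or.inr hc⟩
  have hres2 : IsMeagre (⋃ V : 𝒰, (V : Set Y) ∩ {x | ¬ φ x}) := by
    refine meagre_iUnion (fun V : 𝒰 => (V : Set Y)) _ (fun V => (hU.1 V.1 V.2).1) ?_
      (fun V => inter_subset_left) ?_
    · intro V V' hne
      exact hU.2 V.2 V'.2 (fun h' => hne (Subtype.ext h'))
    · intro V
      have h5 := (hU.1 V.1 V.2).2.2.2
      change ((V : Set Y) ∩ {x | ¬ φ x})ᶜ ∈ residual Y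
      filter_upwards [h5] with x hx
      rintro ⟨h6, h7⟩
      exact h7 (hx h6)
  have hres3 : (⋃ V : 𝒰, (V : Set Y) ∩ {x | ¬ φ x})ᶜ ∈ residual Y := hres2
  filter_upwards [hres1, hres3] with x hx1 hx2 hxO
  rcases hx1 with hW | hW
  · obtain ⟨V, hV, hxV⟩ := hW
    by_contra hn
    exact hx2 (mem_iUnion.2 ⟨⟨V, hV⟩, hxV, hn⟩)
  · exact absurd (hcl hxO) hW

end

end Pool.Agent.Lib.BSR
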